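import Pool.Agent.Lib.MP_09eaec_ag.G2.Coh

/-!
# TASK A4: additivity of the Euler characteristic

`E : VB k K W`, `J ≤ W`. Exact sequence
`0 → H0 (E.sub J) → H0 E → H0 (E.quo J) → H1 (E.sub J) → H1 E → H1 (E.quo J) → 0`.

Details. Let `q = J.mkQ`, `X = Place →₀ W`, `X_J = Place →₀ J`. Note: for each `w : W` the set
`{P | w ∉ E.M P}` is finite (`E.lower w`, `c = 1`, `1 ∈ P.filt 0`).
(a) `H0 E → H0 (E.quo J)`, `x ↦ q x`, has kernel `H0 (E.sub J)`.
(b) Let `T = {(w, a) : W × X_J | ∀ P, (a P : W) - w ∈ E.M P}` (a `k`-submodule). The map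
    `f : T → H0 (E.quo J)`, `(w, a) ↦ q w` is surjective (for `q w ∈ H0 (E.quo J)`: for each `P` there is
    `y ∈ E.M P` with `q y = q w`; put `a P = w - y ∈ J` if `w ∉ E.M P` and `a P = 0` otherwise; then
    `a P - w` is `-y` or `-w`). The map `g : T → H1 (E.sub J)`, `(w, a) ↦ [a]` kills `ker f` (there `w ∈ J` and
    `a P - w ∈ (E.sub J).M P`). So `g = δ ∘ f` with `δ : H0 (E.quo J) → H1 (E.sub J)`;
    `ker δ = q (H0 E)` (if `a ∈ N (E.sub J)`, `a P - w' ∈ E.M P`, `w' ∈ J`, then `w - w' ∈ H0 E`).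
(c) `H1 (E.sub J) → H1 E`, `[a] ↦ [a]`, has kernel the image of `δ` (= classes of the `a : X_J` such that
    there is `w : W` with `a P - w ∈ E.M P` for all `P`).
(d) `H1 E → H1 (E.quo J)`, induced by `Finsupp.mapRange q`, is surjective, its kernel is the image of
    `H1 (E.sub J)`: if `a : X`, `q (a P) - q w ∈ (E.quo J).M P` for all `P`: choose `y_P ∈ E.M P` with
    `q y_P = q (a P - w)`, and put `b P = a P - w - y_P ∈ J` for the finitely many `P` with `a P ≠ 0` or
    `w ∉ E.M P`, `b P = 0` for the others; then `a - b ∈ N E` (with the vector `w`).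
Then count dimensions (`LinearMap.finrank_range_add_finrank_ker`), or use any lemma of Mathlib on
exact sequences. Finiteness: `Module.Finite` of a module with finite submodule and finite quotient /
finite kernel and finite range.
-/

set_option autoImplicit false

namespace Pool.Agent.MP_09eaec.G2

open Module

universe u v

variable {k : Type u} {K : Type v} [Field k] [Field K] [Algebra k K]
variable {W : Type v} [AddCommGroup W] [Module K W] [Module k W] [IsScalarTower k K W]
variable {A : Type v} [AddCommGroup A] [Module K A] [Module k A] [IsScalarTower k K A]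
variable {B : Type v} [AddCommGroup B] [Module K B] [Module k B] [IsScalarTower k K B]

namespace VB

private lemma Add_finite (E : VB k K W) (w : W) :
    ∃ S : Finset (Place k K), ∀ P, P ∉ S → w ∈ E.M P := by
  obtain ⟨e, he⟩ := E.lower w
  refine ⟨e.support, fun P hP => ?_⟩
  have h1 := he P 1 (by
    rw [Finsupp.notMem_support_iff.1 hP]
    right
    rw [P.ord_one])
  rwa [one_smul] at h1

/-- The projection to the quotient, over `k`. -/
private noncomputable def Add_q (k : Type u) {K : Type v} [Field k] [Field K] [Algebra k K] {W : Type v}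
    [AddCommGroup W] [Module K W] [Module k W] [IsScalarTower k K W] (J : Submodule K W) :
    W →ₗ[k] W ⧸ J := J.mkQ.restrictScalars k

private lemma Add_q_apply (J : Submodule K W) (w : W) : Add_q k J w = J.mkQ w := rfl

private lemma Add_q_eq (J : Submodule K W) {w z : W} (h : J.mkQ w = J.mkQ z) : w - z ∈ J := by
  rw [Submodule.mkQ_apply, Submodule.mkQ_apply, Submodule.Quotient.eq] at h
  exact h

/-- `H0 (E ∩ J) → H0 E`. -/
private noncomputable def Add_i0 (E : VB k K W) (J : Submodule K W) : (E.sub J).H0 →ₗ[k] E.H0 :=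
  ((J.subtype.restrictScalars k).domRestrict (E.sub J).H0).codRestrict E.H0 (by
    rintro ⟨x, hx⟩
    rw [mem_H0] at hx ⊢
    exact hx)

private lemma Add_i0_apply (E : VB k K W) (J : Submodule K W) (x : (E.sub J).H0) :
    ((Add_i0 E J x : E.H0) : W) = ((x : J) : W) := rfl

/-- `H0 E → H0 (E / J)`. -/
private noncomputable def Add_p0 (E : VB k K W) (J : Submodule K W) : E.H0 →ₗ[k] (E.quo J).H0 :=
  ((Add_q k J).domRestrict E.H0).codRestrict (E.quo J).H0 (by
    rintro ⟨x, hx⟩
    rw [mem_H0] at hx ⊢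
    intro P
    exact ⟨x, hx P, rfl⟩)

private lemma Add_p0_apply (E : VB k K W) (J : Submodule K W) (x : E.H0) :
    ((Add_p0 E J x : (E.quo J).H0) : W ⧸ J) = J.mkQ (x : W) := rfl

private lemma Add_i0_inj (E : VB k K W) (J : Submodule K W) : Function.Injective (Add_i0 E J) := by
  intro x y h
  have h1 := congrArg (fun z : E.H0 => (z : W)) h
  simp only [Add_i0_apply] at h1
  exact Subtype.ext (Subtype.ext h1)

private lemma Add_ker_p0 (E : VB k K W) (J : Submodule K W) :
    LinearMap.ker (Add_p0 E J) = LinearMap.range (Add_i0 E J) := by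
  ext x
  rw [LinearMap.mem_ker, LinearMap.mem_range]
  constructor
  · intro h
    have h1 : J.mkQ (x : W) = 0 := by
      rw [← Add_p0_apply, h]; rfl
    have h2 : (x : W) ∈ J := by
      rwa [Submodule.mkQ_apply, Submodule.Quotient.mk_eq_zero] at h1
    refine ⟨⟨⟨(x : W), h2⟩, ?_⟩, ?_⟩
    · rw [mem_H0]
      intro P
      exact mem_H0.1 x.2 P
    · exact Subtype.ext rfl
  · rintro ⟨y, rfl⟩
    apply Subtype.ext
    rw [Add_p0_apply, Add_i0_apply]
    show J.mkQ ((y : J) : W) = 0
    rw [Submodule.mkQ_apply, Submodule.Quotient.mk_eq_zero]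
    exact (y : J).2

/-- The pairs `(w, a)` with `a P - w ∈ E.M P`. -/
private noncomputable def Add_T (E : VB k K W) (J : Submodule K W) : Submodule k (W × (Place k K →₀ J)) where
  carrier := {t | ∀ P, ((t.2 P : J) : W) - t.1 ∈ E.M P}
  add_mem' := by
    intro s t hs ht P
    have := add_mem (hs P) (ht P)
    rw [Prod.snd_add, Prod.fst_add, Finsupp.add_apply, Submodule.coe_add, add_sub_add_comm]
    exact this
  zero_mem' := by
    intro P
    simp
  smul_mem' := by
    intro c t ht P
    have := (E.M P).smul_mem c (ht P)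
    rw [smul_sub] at this
    exact this

/-- `(w, a) ↦ q w`. -/
private noncomputable def Add_f (E : VB k K W) (J : Submodule K W) : Add_T E J →ₗ[k] (E.quo J).H0 :=
  ((Add_q k J ∘ₗ LinearMap.fst k W (Place k K →₀ J)).domRestrict (Add_T E J)).codRestrict
    (E.quo J).H0 (by
    rintro ⟨⟨w, a⟩, ht⟩
    rw [mem_H0]
    intro P
    refine ⟨w - (a P : W), ?_, ?_⟩
    · have h1 := ht P
      have := (E.M P).neg_mem h1
      rw [neg_sub] at this
      exact this
    · show J.mkQ (w - (a P : W)) = J.mkQ w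
      rw [map_sub, sub_eq_self, Submodule.mkQ_apply, Submodule.Quotient.mk_eq_zero]
      exact (a P).2)

private lemma Add_f_apply (E : VB k K W) (J : Submodule K W) (t : Add_T E J) :
    ((Add_f E J t : (E.quo J).H0) : W ⧸ J) = J.mkQ (t : W × (Place k K →₀ J)).1 := rfl

/-- `(w, a) ↦ [a]`. -/
private noncomputable def Add_g (E : VB k K W) (J : Submodule K W) : Add_T E J →ₗ[k] (E.sub J).H1 :=
  (((E.sub J).N.mkQ) ∘ₗ LinearMap.snd k W (Place k K →₀ J)).domRestrict (Add_T E J)

private lemma Add_g_apply (E : VB k K W) (J : Submodule K W) (t : Add_T E J) :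
    Add_g E J t = (E.sub J).N.mkQ (t : W × (Place k K →₀ J)).2 := rfl

private lemma Add_f_surj (E : VB k K W) (J : Submodule K W) :
    Function.Surjective (Add_f E J) := by
  classical
  rintro ⟨y, hy⟩
  obtain ⟨w, rfl⟩ := J.mkQ_surjective y
  rw [mem_H0] at hy
  obtain ⟨S, hS⟩ := Add_finite E w
  choose z hz1 hz2 using fun P => mem_quo.1 (hy P)
  let a : Place k K →₀ J := Finsupp.onFinset S
    (fun P => if P ∈ S then (⟨w - z P, Add_q_eq J (hz2 P).symm⟩ : J) else 0) (by
      intro P hP
      by_contra h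
      exact hP (if_neg h))
  have ha : ∀ P, ((a P : J) : W) - w ∈ E.M P := by
    intro P
    by_cases hP : P ∈ S
    · have h1 : ((a P : J) : W) = w - z P := by
        show (((if P ∈ S then (⟨w - z P, Add_q_eq J (hz2 P).symm⟩ : J) else 0) : J) : W) = w - z P
        rw [if_pos hP]
      rw [h1]
      have := (E.M P).neg_mem (hz1 P)
      rwa [show w - z P - w = - z P by abel]
    · have h1 : ((a P : J) : W) = 0 := by
        show (((if P ∈ S then (⟨w - z P, Add_q_eq J (hz2 P).symm⟩ : J) else 0) : J) : W) = 0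
        rw [if_neg hP]; rfl
      rw [h1, zero_sub]
      exact (E.M P).neg_mem (hS P hP)
  exact ⟨⟨(w, a), ha⟩, Subtype.ext rfl⟩

private lemma Add_ker_f (E : VB k K W) (J : Submodule K W) (t t' : Add_T E J)
    (h : Add_f E J t = Add_f E J t') : Add_g E J t = Add_g E J t' := by
  have h1 : J.mkQ (t : W × (Place k K →₀ J)).1 = J.mkQ (t' : W × (Place k K →₀ J)).1 := by
    rw [← Add_f_apply, h]; rfl
  have h2 := Add_q_eq J h1
  rw [Add_g_apply, Add_g_apply, Submodule.mkQ_apply, Submodule.mkQ_apply, Submodule.Quotient.eq,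
    mem_N]
  refine ⟨⟨_, h2⟩, fun P => ?_⟩
  rw [mem_sub]
  have h3 := sub_mem (t.2 P) (t'.2 P)
  rw [sub_sub_sub_comm] at h3
  exact h3

private lemma Add_exists_delta (E : VB k K W) (J : Submodule K W) :
    ∃ δ : (E.quo J).H0 →ₗ[k] (E.sub J).H1, ∀ t, δ (Add_f E J t) = Add_g E J t := by
  obtain ⟨s, hs⟩ := (Add_f E J).exists_rightInverse_of_surjective
    (LinearMap.range_eq_top.2 (Add_f_surj E J))
  refine ⟨Add_g E J ∘ₗ s, fun t => ?_⟩
  rw [LinearMap.comp_apply]
  apply Add_ker_f
  exact LinearMap.congr_fun hs (Add_f E J t)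

/-- `H1 (E ∩ J) → H1 E`. -/
private noncomputable def Add_i1 (E : VB k K W) (J : Submodule K W) : (E.sub J).H1 →ₗ[k] E.H1 :=
  Submodule.mapQ (E.sub J).N E.N (Finsupp.mapRange.linearMap (J.subtype.restrictScalars k)) (by
    intro a ha
    obtain ⟨w, hw⟩ := mem_N.1 ha
    rw [Submodule.mem_comap, mem_N]
    refine ⟨(w : W), fun P => ?_⟩
    have := hw P
    rw [mem_sub] at this
    exact this)

private lemma Add_i1_apply (E : VB k K W) (J : Submodule K W) (a : Place k K →₀ J) :
    Add_i1 E J ((E.sub J).N.mkQ a) =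
      E.N.mkQ (Finsupp.mapRange.linearMap (J.subtype.restrictScalars k) a) := rfl

/-- `H1 E → H1 (E / J)`. -/
private noncomputable def Add_p1 (E : VB k K W) (J : Submodule K W) : E.H1 →ₗ[k] (E.quo J).H1 :=
  Submodule.mapQ E.N (E.quo J).N (Finsupp.mapRange.linearMap (Add_q k J)) (by
    intro a ha
    obtain ⟨w, hw⟩ := mem_N.1 ha
    rw [Submodule.mem_comap, mem_N]
    refine ⟨J.mkQ w, fun P => ?_⟩
    refine ⟨a P - w, hw P, ?_⟩
    show J.mkQ (a P - w) = J.mkQ (a P) - J.mkQ w
    rw [map_sub])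

private lemma Add_p1_apply (E : VB k K W) (J : Submodule K W) (a : Place k K →₀ W) :
    Add_p1 E J (E.N.mkQ a) =
      (E.quo J).N.mkQ (Finsupp.mapRange.linearMap (Add_q k J) a) := rfl

private lemma Add_p1_surj (E : VB k K W) (J : Submodule K W) :
    Function.Surjective (Add_p1 E J) := by
  intro y
  obtain ⟨b, rfl⟩ := (E.quo J).N.mkQ_surjective y
  obtain ⟨a, ha⟩ := Finsupp.mapRange_surjective (α := Place k K) (Add_q k J) (map_zero _)
    J.mkQ_surjective b
  refine ⟨E.N.mkQ a, ?_⟩
  rw [Add_p1_apply, Finsupp.mapRange.linearMap_apply]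
  rw [← ha]

private lemma Add_ker_p1 (E : VB k K W) (J : Submodule K W) :
    LinearMap.ker (Add_p1 E J) = LinearMap.range (Add_i1 E J) := by
  classical
  ext x
  rw [LinearMap.mem_ker, LinearMap.mem_range]
  constructor
  · obtain ⟨a, rfl⟩ := E.N.mkQ_surjective x
    intro h
    rw [Add_p1_apply, Submodule.mkQ_apply, Submodule.Quotient.mk_eq_zero, mem_N] at h
    obtain ⟨w, hw⟩ := h
    obtain ⟨w, rfl⟩ := J.mkQ_surjective w
    obtain ⟨S, hS⟩ := Add_finite E w
    have hw' : ∀ P, ∃ z ∈ E.M P, J.mkQ z = J.mkQ (a P - w) := by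
      intro P
      obtain ⟨z, hz, hz'⟩ := mem_quo.1 (hw P)
      refine ⟨z, hz, hz'.trans ?_⟩
      rw [map_sub]
      rfl
    choose z hz1 hz2 using hw'
    let b : Place k K →₀ J := Finsupp.onFinset (S ∪ a.support)
      (fun P => if P ∈ S ∪ a.support then (⟨a P - w - z P, Add_q_eq J (hz2 P).symm⟩ : J) else 0)
      (by
        intro P hP
        by_contra h
        exact hP (if_neg h))
    have hb1 : ∀ P ∈ S ∪ a.support, ((b P : J) : W) = a P - w - z P := by
      intro P hP
      show (((if P ∈ S ∪ a.support then (⟨a P - w - z P, Add_q_eq J (hz2 P).symm⟩ : J) else 0) :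
        J) : W) = _
      rw [if_pos hP]
    have hb2 : ∀ P, P ∉ S ∪ a.support → ((b P : J) : W) = 0 := by
      intro P hP
      show (((if P ∈ S ∪ a.support then (⟨a P - w - z P, Add_q_eq J (hz2 P).symm⟩ : J) else 0) :
        J) : W) = _
      rw [if_neg hP]; rfl
    refine ⟨(E.sub J).N.mkQ b, ?_⟩
    rw [Add_i1_apply, Submodule.mkQ_apply, Submodule.mkQ_apply, Submodule.Quotient.eq, mem_N]
    refine ⟨-w, fun P => ?_⟩
    have hbP : (Finsupp.mapRange.linearMap (J.subtype.restrictScalars k) b - a) P =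
      ((b P : J) : W) - a P := rfl
    rw [hbP]
    by_cases hP : P ∈ S ∪ a.support
    · rw [hb1 P hP]
      have := (E.M P).neg_mem (hz1 P)
      rwa [show a P - w - z P - a P - -w = - z P by abel]
    · rw [hb2 P hP]
      have h1 : P ∉ S := fun h => hP (Finset.mem_union_left _ h)
      have h2 : a P = 0 := by
        rw [← Finsupp.notMem_support_iff]
        exact fun h => hP (Finset.mem_union_right _ h)
      rw [h2, sub_zero, zero_sub, neg_neg]
      exact hS P h1
  · rintro ⟨y, rfl⟩
    obtain ⟨b, rfl⟩ := (E.sub J).N.mkQ_surjective y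
    rw [Add_i1_apply, Add_p1_apply, Submodule.mkQ_apply, Submodule.Quotient.mk_eq_zero]
    have : Finsupp.mapRange.linearMap (Add_q k J)
        (Finsupp.mapRange.linearMap (J.subtype.restrictScalars k) b) = 0 := by
      ext P
      show J.mkQ ((b P : J) : W) = 0
      rw [Submodule.mkQ_apply, Submodule.Quotient.mk_eq_zero]
      exact (b P).2
    rw [this]
    exact zero_mem _

private lemma Add_ker_delta (E : VB k K W) (J : Submodule K W)
    (δ : (E.quo J).H0 →ₗ[k] (E.sub J).H1) (hδ : ∀ t, δ (Add_f E J t) = Add_g E J t) :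
    LinearMap.ker δ = LinearMap.range (Add_p0 E J) := by
  ext y
  rw [LinearMap.mem_ker, LinearMap.mem_range]
  constructor
  · obtain ⟨t, rfl⟩ := Add_f_surj E J y
    intro h
    rw [hδ, Add_g_apply, Submodule.mkQ_apply, Submodule.Quotient.mk_eq_zero, mem_N] at h
    obtain ⟨w', hw'⟩ := h
    refine ⟨⟨(t : W × (Place k K →₀ J)).1 - (w' : W), ?_⟩, ?_⟩
    · rw [mem_H0]
      intro P
      have h1 := hw' P
      rw [mem_sub] at h1
      have h2 := t.2 P
      have h3 := sub_mem h1 h2
      have h4 : (((t : W × (Place k K →₀ J)).2 P - w' : J) : W) -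
          ((((t : W × (Place k K →₀ J)).2 P : J) : W) - (t : W × (Place k K →₀ J)).1) =
          (t : W × (Place k K →₀ J)).1 - (w' : W) := by
        rw [Submodule.coe_sub]; abel
      rw [h4] at h3
      exact h3
    · apply Subtype.ext
      rw [Add_p0_apply, Add_f_apply]
      show J.mkQ ((t : W × (Place k K →₀ J)).1 - (w' : W)) = _
      rw [map_sub, sub_eq_self, Submodule.mkQ_apply, Submodule.Quotient.mk_eq_zero]
      exact w'.2
  · rintro ⟨x, rfl⟩
    have h1 : ((x : W), (0 : Place k K →₀ J)) ∈ Add_T E J := by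
      intro P
      show (((0 : J) : W)) - (x : W) ∈ E.M P
      rw [Submodule.coe_zero, zero_sub]
      exact (E.M P).neg_mem (mem_H0.1 x.2 P)
    have h2 : Add_p0 E J x = Add_f E J ⟨_, h1⟩ := Subtype.ext rfl
    rw [h2, hδ, Add_g_apply]
    show (E.sub J).N.mkQ 0 = 0
    rw [map_zero]

private lemma Add_ker_i1 (E : VB k K W) (J : Submodule K W)
    (δ : (E.quo J).H0 →ₗ[k] (E.sub J).H1) (hδ : ∀ t, δ (Add_f E J t) = Add_g E J t) :
    LinearMap.ker (Add_i1 E J) = LinearMap.range δ := by
  ext y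
  rw [LinearMap.mem_ker, LinearMap.mem_range]
  constructor
  · obtain ⟨a, rfl⟩ := (E.sub J).N.mkQ_surjective y
    intro h
    rw [Add_i1_apply, Submodule.mkQ_apply, Submodule.Quotient.mk_eq_zero, mem_N] at h
    obtain ⟨w, hw⟩ := h
    exact ⟨Add_f E J ⟨(w, a), hw⟩, by rw [hδ, Add_g_apply]⟩
  · rintro ⟨x, rfl⟩
    obtain ⟨t, rfl⟩ := Add_f_surj E J x
    rw [hδ, Add_g_apply, Add_i1_apply, Submodule.mkQ_apply, Submodule.Quotient.mk_eq_zero, mem_N]
    exact ⟨(t : W × (Place k K →₀ J)).1, fun P => t.2 P⟩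

theorem finite_H0_of_sub_quo (E : VB k K W) (J : Submodule K W) [Module.Finite k (E.sub J).H0]
    [Module.Finite k (E.quo J).H0] : Module.Finite k E.H0 := by
  refine ⟨Submodule.fg_of_fg_map_of_fg_inf_ker (Add_p0 E J) ?_ ?_⟩
  · exact IsNoetherian.noetherian _
  · rw [top_inf_eq, Add_ker_p0]
    exact Module.Finite.iff_fg.1 (Module.Finite.range (Add_i0 E J))

theorem finite_H1_of_sub_quo (E : VB k K W) (J : Submodule K W) [Module.Finite k (E.sub J).H1]
    [Module.Finite k (E.quo J).H1] : Module.Finite k E.H1 := by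
  refine ⟨Submodule.fg_of_fg_map_of_fg_inf_ker (Add_p1 E J) ?_ ?_⟩
  · exact IsNoetherian.noetherian _
  · rw [top_inf_eq, Add_ker_p1]
    exact Module.Finite.iff_fg.1 (Module.Finite.range (Add_i1 E J))

theorem chi_add (E : VB k K W) (J : Submodule K W) [Module.Finite k (E.sub J).H0]
    [Module.Finite k (E.quo J).H0] [Module.Finite k (E.sub J).H1]
    [Module.Finite k (E.quo J).H1] : E.chi = (E.sub J).chi + (E.quo J).chi := by
  have i1 := finite_H0_of_sub_quo E J
  have i2 := finite_H1_of_sub_quo E J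
  obtain ⟨δ, hδ⟩ := Add_exists_delta E J
  have e1 := (Add_p0 E J).finrank_range_add_finrank_ker
  have e2 := δ.finrank_range_add_finrank_ker
  have e3 := (Add_i1 E J).finrank_range_add_finrank_ker
  have e4 := (Add_p1 E J).finrank_range_add_finrank_ker
  rw [Add_ker_p0, LinearMap.finrank_range_of_inj (Add_i0_inj E J)] at e1
  rw [Add_ker_delta E J δ hδ] at e2
  rw [Add_ker_i1 E J δ hδ] at e3
  rw [Add_ker_p1, LinearMap.range_eq_top.2 (Add_p1_surj E J), finrank_top] at e4
  unfold chi h0 h1
  omega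

end VB

end Pool.Agent.MP_09eaec.G2
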