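import Pool.Agent.Lib.MP_09eaec_ag.G2.DegLe

/-!
# TASK B11: adding a generic vector at a point

* `exists_oneStep`: `E'.M P0 = E.M P0 + k w0`, `E'.M P = E.M P` for `P ≠ P0`. It is stable under
  multiplication by `c ∈ P0.filt 0`: `c = c0 + c1` with `c0 : k`, `c1 ∈ P0.filt 1` (`exists_residue`,
  file Residue.lean), `c1 w0 ∈ E.M P0`. `lower` from `E`; `upper`: `e - ` something at `P0`: for `x = y + c w0`,
  `t x ∈ E.M P0` for `t` of order one, so `φ x ∈ P0.filt (e P0 - 1)`.
* `exists_generic_vector`: let `M1 = {w | ∀ c ∈ P0.filt 1, c w ∈ E.M P0} = t⁻¹ E.M P0` (`t` of order one).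
  For `J ≠ ⊤` the `k`-subspace `S_J = {w ∈ M1 | ∃ j ∈ J, w - j ∈ E.M P0}` of `M1` is proper: otherwise in
  `W ⧸ J ≠ 0` the stalk `M' = (E.quo J).M P0` satisfies `t⁻¹ M' ⊆ M'`, so `t^(-n) M' ⊆ M'` for all `n`; take a
  functional `φ` and `x ∈ M'` with `φ x ≠ 0` (`lower` gives nonzero multiples of every vector in `M'`):
  `φ (t^(-n) x)` contradicts `upper`. `k` is infinite, so there is `w0 ∈ M1` outside the finitely many
  `S_J`, `J ∈ S ∪ {⊥}` (`Subspace.exists_eq_top_of_iUnion_eq_univ` or similar name, applied in `M1`).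
  (`W` nontrivial is needed for `J = ⊥ ≠ ⊤`.)
* `deg_sub_oneStep`: `E.sub J ≤ E'.sub J` and either they are equal, or it is a `OneStep` with the vector
  `y ∈ J ∩ E'.M P0`, `y ∉ E.M P0`; then `y = x + c w0`, `c ≠ 0`, `x ∈ E.M P0`, so `w0 - c⁻¹ y ∈ E.M P0`.
-/

set_option autoImplicit false

namespace Pool.Agent.MP_09eaec.G2

open Module

universe u v

variable {k : Type u} {K : Type v} [Field k] [Field K] [Algebra k K]
variable {W : Type v} [AddCommGroup W] [Module K W] [Module k W] [IsScalarTower k K W]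
variable {A : Type v} [AddCommGroup A] [Module K A] [Module k A] [IsScalarTower k K A]
variable {B : Type v} [AddCommGroup B] [Module K B] [Module k B] [IsScalarTower k K B]

variable [Curve2 k K]

namespace VB

private lemma AddVec_filt_one {P : Place k K} {c : K} (hc : c ∈ P.filt 0) :
    ∃ c0 : k, c - algebraMap k K c0 ∈ P.filt 1 := by
  have := Curve.closed (k := k) (K := K)
  have := Curve.char (k := k) (K := K)
  obtain ⟨c0, h⟩ := exists_residue (Curve.curve (k := k) (K := K)) P (f := c) hc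
  refine ⟨c0, ?_⟩
  rcases h with h | h
  · exact Or.inl h
  · exact Or.inr (by omega)

theorem exists_oneStep (E : VB k K W) (P0 : Place k K) (w0 : W)
    (h : ∀ c ∈ P0.filt 1, c • w0 ∈ E.M P0) (h' : w0 ∉ E.M P0) :
    ∃ E' : VB k K W, OneStep E E' P0 w0 := by
  classical
  have key : ∀ (c : K) (x : W), c ∈ P0.filt 0 → x ∈ E.M P0 ⊔ Submodule.span k {w0} →
      c • x ∈ E.M P0 ⊔ Submodule.span k {w0} := by
    intro c x hc hx
    obtain ⟨y, hy, z, hz, rfl⟩ := Submodule.mem_sup.1 hx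
    obtain ⟨a, rfl⟩ := Submodule.mem_span_singleton.1 hz
    obtain ⟨c0, hc0⟩ := AddVec_filt_one hc
    rw [smul_add]
    refine add_mem (Submodule.mem_sup_left (E.smul_mem P0 c y hc hy)) ?_
    have h1 : c • a • w0 = a • ((c - algebraMap k K c0) • w0) + a • c0 • w0 := by
      rw [← smul_add, ← algebraMap_smul K c0 w0, ← add_smul, sub_add_cancel, smul_comm]
    rw [h1]
    exact add_mem (Submodule.mem_sup_left ((E.M P0).smul_mem a (h _ hc0)))
      (Submodule.mem_sup_right (Submodule.smul_mem _ a (Submodule.smul_mem _ c0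
        (Submodule.mem_span_singleton_self w0))))
  refine ⟨{ M := fun P => if P = P0 then E.M P0 ⊔ Submodule.span k {w0} else E.M P
            smul_mem := ?_
            lower := ?_
            upper := ?_ }, ?_⟩
  · intro P c x hc hx
    by_cases hP : P = P0
    · subst hP
      rw [if_pos rfl] at hx ⊢
      exact key c x hc hx
    · rw [if_neg hP] at hx ⊢
      exact E.smul_mem P c x hc hx
  · intro w
    obtain ⟨e, he⟩ := E.lower w
    refine ⟨e, fun P c hc => ?_⟩
    by_cases hP : P = P0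
    · subst hP
      rw [if_pos rfl]
      exact Submodule.mem_sup_left (he P c hc)
    · rw [if_neg hP]
      exact he P c hc
  · intro φ
    obtain ⟨e, he⟩ := E.upper φ
    refine ⟨e - Finsupp.single P0 1, fun P x hx => ?_⟩
    by_cases hP : P = P0
    · subst hP
      rw [if_pos rfl] at hx
      obtain ⟨t, ht, htm⟩ := exists_ord_eq P 1
      have ht1 : t ∈ P.filt 1 := Or.inr htm.ge
      have h1 : t • x ∈ E.M P := by
        obtain ⟨y, hy, z, hz, rfl⟩ := Submodule.mem_sup.1 hx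
        obtain ⟨a, rfl⟩ := Submodule.mem_span_singleton.1 hz
        rw [smul_add, smul_comm]
        exact add_mem (E.smul_mem P t y (filt_mono P (by omega) ht1) hy)
          ((E.M P).smul_mem a (h t ht1))
      have h2 := he P _ h1
      rw [map_smul, smul_eq_mul] at h2
      rw [← mem_filt_iff_of_ord P ht htm]
      convert h2 using 2
      simp
    · rw [if_neg hP] at hx
      have h1 := he P x hx
      have h2 : (e - Finsupp.single P0 1 : Dv k K) P = e P := by
        rw [Finsupp.sub_apply, Finsupp.single_apply, if_neg (Ne.symm hP), sub_zero]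
      rw [h2]; exact h1
  · refine ⟨?_, ?_, ?_, h', ?_⟩
    · intro P x hx
      by_cases hP : P = P0
      · subst hP
        show x ∈ if P = P then E.M P ⊔ Submodule.span k {w0} else E.M P
        rw [if_pos rfl]
        exact Submodule.mem_sup_left hx
      · show x ∈ if P = P0 then E.M P0 ⊔ Submodule.span k {w0} else E.M P
        rw [if_neg hP]; exact hx
    · intro P hP
      show E.M P = if P = P0 then E.M P0 ⊔ Submodule.span k {w0} else E.M P
      rw [if_neg hP]
    · show w0 ∈ if P0 = P0 then E.M P0 ⊔ Submodule.span k {w0} else E.M P0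
      rw [if_pos rfl]
      exact Submodule.mem_sup_right (Submodule.mem_span_singleton_self w0)
    · intro y hy
      have hy' : y ∈ if P0 = P0 then E.M P0 ⊔ Submodule.span k {w0} else E.M P0 := hy
      rw [if_pos rfl] at hy'
      obtain ⟨x, hx, z, hz, rfl⟩ := Submodule.mem_sup.1 hy'
      obtain ⟨a, rfl⟩ := Submodule.mem_span_singleton.1 hz
      exact ⟨a, by rwa [add_sub_cancel_right]⟩

private lemma AddVec_not_le (E : VB k K W) (P0 : Place k K) {J : Submodule K W} (hJ : J ≠ ⊤) :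
    ∃ w : W, (∀ c ∈ P0.filt 1, c • w ∈ E.M P0) ∧
      w ∉ E.M P0 ⊔ J.restrictScalars k := by
  by_contra hcon
  push Not at hcon
  obtain ⟨t, ht, htm⟩ := exists_ord_eq P0 1
  have step : ∀ x ∈ (E.quo J).M P0, t⁻¹ • x ∈ (E.quo J).M P0 := by
    intro x hx
    obtain ⟨y, hy, rfl⟩ := mem_quo.1 hx
    have h1 : t⁻¹ • y ∈ E.M P0 ⊔ J.restrictScalars k := by
      apply hcon
      intro c hc
      rw [← mul_smul]
      apply E.smul_mem P0 _ _ _ hy
      have := mul_mem_filt P0 hc
        (Or.inr (by rw [P0.ord_inv, htm]) : t⁻¹ ∈ P0.filt (-1))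
      simpa using this
    obtain ⟨a, ha, b, hb, hab⟩ := Submodule.mem_sup.1 h1
    refine mem_quo.2 ⟨a, ha, ?_⟩
    have hb' : J.mkQ b = 0 := by
      rw [Submodule.mkQ_apply, Submodule.Quotient.mk_eq_zero]; exact hb
    rw [← map_smul, ← hab, map_add, hb', add_zero]
  have steps : ∀ (n : ℕ) (x : W ⧸ J), x ∈ (E.quo J).M P0 → (t⁻¹ ^ n) • x ∈ (E.quo J).M P0 := by
    intro n
    induction n with
    | zero => intro x hx; simpa using hx
    | succ n ih =>
      intro x hx
      rw [pow_succ', mul_smul]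
      exact step _ (ih x hx)
  obtain ⟨w, hw⟩ : ∃ w : W, w ∉ J := by
    by_contra h
    push Not at h
    exact hJ (eq_top_iff.2 fun x _ => h x)
  have hw' : J.mkQ w ≠ 0 := by
    rw [Submodule.mkQ_apply, Ne, Submodule.Quotient.mk_eq_zero]; exact hw
  obtain ⟨φ, hφ⟩ : ∃ φ : (W ⧸ J) →ₗ[K] K, φ (J.mkQ w) ≠ 0 := by
    by_contra h
    push Not at h
    exact hw' ((Module.forall_dual_apply_eq_zero_iff K _).1 h)
  obtain ⟨e, he⟩ := (E.quo J).lower (J.mkQ w)
  obtain ⟨c, hc, hcm⟩ := exists_ord_eq P0 (e P0)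
  have hx := he P0 c (Or.inr hcm.ge)
  obtain ⟨e', he'⟩ := (E.quo J).upper φ
  have hne : c * φ (J.mkQ w) ≠ 0 := mul_ne_zero hc hφ
  have h3 := he' P0 _ (steps ((P0.ord (c * φ (J.mkQ w)) - e' P0).toNat + 1) _ hx)
  rw [map_smul, map_smul, smul_eq_mul, smul_eq_mul] at h3
  have hpn : t⁻¹ ^ ((P0.ord (c * φ (J.mkQ w)) - e' P0).toNat + 1) ≠ 0 :=
    pow_ne_zero _ (inv_ne_zero ht)
  rcases h3 with h3 | h3
  · exact mul_ne_zero hpn hne h3
  · rw [P0.ord_mul _ _ hpn hne, ← zpow_natCast, P0.ord_zpow (inv_ne_zero ht), P0.ord_inv, htm] at h3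
    push_cast at h3
    omega

theorem exists_generic_vector [FiniteDimensional K W] [Nontrivial W] (E : VB k K W)
    (P0 : Place k K) {S : Set (Submodule K W)} (hS : S.Finite) (hS' : ∀ J ∈ S, J ≠ ⊤) :
    ∃ w0 : W, (∀ c ∈ P0.filt 1, c • w0 ∈ E.M P0) ∧ w0 ∉ E.M P0 ∧
      ∀ J ∈ S, ∀ j ∈ J, w0 - j ∉ E.M P0 := by
  classical
  have := Curve.char (k := k) (K := K)
  let M1 : Submodule k W := (E.twist (Finsupp.single P0 1)).M P0
  have hM1 : ∀ w : W, w ∈ M1 ↔ ∀ c ∈ P0.filt 1, c • w ∈ E.M P0 := by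
    intro w
    have h1 : (Finsupp.single P0 (1 : ℤ)) P0 = 1 := Finsupp.single_eq_same
    show w ∈ (E.twist (Finsupp.single P0 1)).M P0 ↔ _
    rw [mem_twist, h1]
  let T : Set (Submodule K W) := insert ⊥ S
  have hT : T.Finite := hS.insert _
  have hT' : ∀ J ∈ T, J ≠ ⊤ := by
    rintro J (rfl | hJ)
    · exact bot_ne_top
    · exact hS' J hJ
  have : Finite T := hT
  let p : T → Submodule k M1 := fun J =>
    (E.M P0 ⊔ (J : Submodule K W).restrictScalars k).comap M1.subtype
  have hp : ∀ i, p i ≠ ⊤ := by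
    rintro ⟨J, hJ⟩ htop
    obtain ⟨w, hw, hw'⟩ := AddVec_not_le E P0 (hT' J hJ)
    apply hw'
    have : (⟨w, (hM1 w).2 hw⟩ : M1) ∈ p ⟨J, hJ⟩ := by rw [htop]; trivial
    exact this
  have hne : ⋃ i, (p i : Set M1) ≠ Set.univ := by
    intro h
    obtain ⟨i, hi⟩ := Subspace.exists_eq_top_of_iUnion_eq_univ h
    exact hp i hi
  obtain ⟨w, hw⟩ := (Set.ne_univ_iff_exists_notMem _).1 hne
  rw [Set.mem_iUnion] at hw
  push Not at hw
  refine ⟨w, (hM1 w).1 w.2, ?_, ?_⟩
  · intro h
    exact hw ⟨⊥, Set.mem_insert _ _⟩ (Submodule.mem_sup_left h)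
  · intro J hJ j hj h
    apply hw ⟨J, Set.mem_insert_of_mem _ hJ⟩
    show (w : W) ∈ E.M P0 ⊔ J.restrictScalars k
    have h1 : (w : W) = (w - j) + j := by abel
    rw [h1]
    exact add_mem (Submodule.mem_sup_left h) (Submodule.mem_sup_right hj)

theorem deg_sub_oneStep [FiniteDimensional K W] {E E' : VB k K W} {P0 : Place k K} {w0 : W}
    (h : OneStep E E' P0 w0) (J : Submodule K W) :
    (E'.sub J).deg = (E.sub J).deg ∨
      ((E'.sub J).deg = (E.sub J).deg + 1 ∧ ∃ j ∈ J, w0 - j ∈ E.M P0) := by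
  by_cases hex : ∃ y ∈ J, y ∈ E'.M P0 ∧ y ∉ E.M P0
  · right
    obtain ⟨y, hyJ, hy', hy⟩ := hex
    obtain ⟨c, hc⟩ := h.span y hy'
    have hc0 : c ≠ 0 := by
      rintro rfl
      rw [zero_smul, sub_zero] at hc
      exact hy hc
    refine ⟨?_, c⁻¹ • y, Submodule.smul_of_tower_mem J c⁻¹ hyJ, ?_⟩
    · refine deg_oneStep (P := P0) (x := (⟨y, hyJ⟩ : J)) ⟨?_, ?_, hy', hy, ?_⟩
      · intro P x hx
        exact h.le P hx
      · intro P hP
        ext x
        show (x : W) ∈ E.M P ↔ (x : W) ∈ E'.M P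
        rw [h.eq P hP]
      · intro z hz
        obtain ⟨c1, hc1⟩ := h.span z hz
        refine ⟨c1 * c⁻¹, ?_⟩
        show (z : W) - (c1 * c⁻¹) • y ∈ E.M P0
        have h1 : (z : W) - (c1 * c⁻¹) • y = (z - c1 • w0) - (c1 * c⁻¹) • (y - c • w0) := by
          rw [smul_sub, ← mul_smul, inv_mul_cancel_right₀ hc0]
          abel
        rw [h1]
        exact sub_mem hc1 ((E.M P0).smul_mem _ hc)
    · have h1 : w0 - c⁻¹ • y = -(c⁻¹ • (y - c • w0)) := by
        rw [smul_sub, ← mul_smul, inv_mul_cancel₀ hc0, one_smul]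
        abel
      rw [h1]
      exact neg_mem ((E.M P0).smul_mem _ hc)
  · left
    push Not at hex
    congr 1
    apply ext'
    intro P x
    by_cases hP : P = P0
    · subst hP
      exact ⟨fun hx => hex x x.2 hx, fun hx => h.le P hx⟩
    · show (x : W) ∈ E'.M P ↔ (x : W) ∈ E.M P
      rw [h.eq P hP]

end VB

end Pool.Agent.MP_09eaec.G2
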