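import Pool.Agent.Lib.MP_09eaec_ag.Gonality

/-!
# Vector bundles on the curve, with an arbitrary generic fibre

`VB k K W`: a vector bundle with generic fibre the `K`-vector space `W`, given by its stalks.
-/

set_option autoImplicit false

namespace Pool.Agent.MP_09eaec.G2

open Module

universe u v

/-- `K` is the function field of a curve over the algebraically closed field `k` of characteristic
zero (class version of `IsCurveField`). -/
class Curve (k : Type u) (K : Type v) [Field k] [Field K] [Algebra k K] : Prop where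
  closed : IsAlgClosed k
  char : CharZero k
  curve : IsCurveField k K

section basic

variable {k : Type u} {K : Type v} [Field k] [Field K] [Algebra k K]

/-- A divisor of the curve. -/
abbrev Dv (k : Type u) (K : Type v) [Field k] [Field K] [Algebra k K] : Type v := Place k K →₀ ℤ

/-- The degree of a divisor. -/
def ddeg (D : Dv k K) : ℤ := D.sum fun _ n => n

@[simp] lemma ddeg_zero : ddeg (0 : Dv k K) = 0 := rfl

lemma ddeg_add (D D' : Dv k K) : ddeg (D + D') = ddeg D + ddeg D' :=
  Finsupp.sum_add_index' (fun _ => rfl) (fun _ _ _ => rfl)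

lemma ddeg_neg (D : Dv k K) : ddeg (-D) = - ddeg D := by
  have := ddeg_add D (-D)
  rw [add_neg_cancel, ddeg_zero] at this
  omega

lemma ddeg_sub (D D' : Dv k K) : ddeg (D - D') = ddeg D - ddeg D' := by
  rw [sub_eq_add_neg, ddeg_add, ddeg_neg]; ring

lemma ddeg_single (P : Place k K) (n : ℤ) : ddeg (Finsupp.single P n) = n :=
  Finsupp.sum_single_index rfl

lemma ddeg_nonneg {D : Dv k K} (h : ∀ P, 0 ≤ D P) : 0 ≤ ddeg D :=
  Finset.sum_nonneg fun P _ => h P

lemma ddeg_mono {D D' : Dv k K} (h : ∀ P, D P ≤ D' P) : ddeg D ≤ ddeg D' := by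
  have := ddeg_nonneg (D := D' - D) (fun P => by
    have := h P
    simp only [Finsupp.coe_sub, Pi.sub_apply]; omega)
  rw [ddeg_sub] at this; omega

lemma eq_of_ddeg_le {D D' : Dv k K} (h : ∀ P, D P ≤ D' P) (h' : ddeg D' ≤ ddeg D) : D = D' := by
  ext P
  by_contra hne
  have h1 : D P < D' P := lt_of_le_of_ne (h P) hne
  have h2 := ddeg_mono (D := D + Finsupp.single P 1) (D' := D') (fun Q => by
    classical
    rw [Finsupp.add_apply, Finsupp.single_apply]
    split_ifs with hQ
    · subst hQ; omega
    · have := h Q; omega)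
  rw [ddeg_add, ddeg_single] at h2
  omega

/-- A vector bundle with generic fibre `W`: the stalks `M P ⊆ W` are stable under the
multiplication with the functions regular at `P`; each vector `w` lies in the stalks up to a
divisor (`lower`), and each functional `φ` on `W` is bounded on the stalks up to a divisor
(`upper`). -/
structure VB (k : Type u) (K : Type v) [Field k] [Field K] [Algebra k K]
    (W : Type v) [AddCommGroup W] [Module K W] [Module k W] [IsScalarTower k K W] where
  M : Place k K → Submodule k W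
  smul_mem : ∀ (P : Place k K) (c : K) (x : W), c ∈ P.filt 0 → x ∈ M P → c • x ∈ M P
  lower : ∀ w : W, ∃ e : Dv k K, ∀ (P : Place k K) (c : K), c ∈ P.filt (e P) → c • w ∈ M P
  upper : ∀ φ : W →ₗ[K] K, ∃ e : Dv k K, ∀ (P : Place k K) (x : W), x ∈ M P →
    φ x ∈ P.filt (e P)

lemma exists_ub {ι : Type*} [Finite ι] (f : ι → Dv k K) : ∃ e : Dv k K, ∀ i P, f i P ≤ e P := by
  classical
  cases nonempty_fintype ι
  refine ⟨∑ i, (f i).mapRange (fun n => |n|) (by simp), fun i P => ?_⟩
  rw [Finsupp.finsetSum_apply]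
  calc f i P ≤ |f i P| := le_abs_self _
    _ = ((f i).mapRange (fun n => |n|) (by simp)) P := by simp
    _ ≤ _ := by
      refine Finset.single_le_sum (f := fun j => ((f j).mapRange (fun n => |n|) (by simp)) P)
        (fun j _ => by simp) (Finset.mem_univ i)

lemma exists_lb {ι : Type*} [Finite ι] (f : ι → Dv k K) : ∃ e : Dv k K, ∀ i P, e P ≤ f i P := by
  obtain ⟨e, he⟩ := exists_ub (fun i => -f i)
  refine ⟨-e, fun i P => ?_⟩
  have := he i P
  simp only [Finsupp.coe_neg, Pi.neg_apply] at this ⊢
  omega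

lemma filt_mono (P : Place k K) {a b : ℤ} (h : a ≤ b) : P.filt b ≤ P.filt a := by
  rintro x (rfl | hx)
  · exact Or.inl rfl
  · exact Or.inr (h.trans hx)

lemma mul_mem_filt (P : Place k K) {a b : ℤ} {x y : K} (hx : x ∈ P.filt a) (hy : y ∈ P.filt b) :
    x * y ∈ P.filt (a + b) := by
  rcases hx with rfl | hx
  · simp
  rcases hy with rfl | hy
  · simp
  by_cases h0 : x = 0
  · simp [h0]
  by_cases h1 : y = 0
  · simp [h1]
  right
  rw [P.ord_mul _ _ h0 h1]; omega

/-- An element of order `m` at `P`. -/
lemma exists_ord_eq (P : Place k K) (m : ℤ) : ∃ t : K, t ≠ 0 ∧ P.ord t = m := by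
  obtain ⟨x, hx, hx1⟩ := P.exists_ord_eq_one
  exact ⟨x ^ m, zpow_ne_zero _ hx, by rw [P.ord_zpow hx, hx1, mul_one]⟩

lemma mem_filt_iff_of_ord (P : Place k K) {m : ℤ} {t x : K} (ht : t ≠ 0) (htm : P.ord t = m)
    (a : ℤ) : t * x ∈ P.filt (a + m) ↔ x ∈ P.filt a := by
  constructor
  · intro h
    have : t⁻¹ * (t * x) ∈ P.filt (-m + (a + m)) :=
      mul_mem_filt P (Or.inr (by rw [P.ord_inv, htm])) h
    rw [← mul_assoc, inv_mul_cancel₀ ht, one_mul] at this
    convert this using 2; ring
  · intro h
    rw [add_comm]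
    exact mul_mem_filt P (Or.inr htm.ge) h

end basic

section Module

variable {k : Type u} {K : Type v} [Field k] [Field K] [Algebra k K]
variable {W : Type v} [AddCommGroup W] [Module K W] [Module k W] [IsScalarTower k K W]
variable {W' : Type v} [AddCommGroup W'] [Module K W'] [Module k W'] [IsScalarTower k K W']

namespace VB

lemma ext' {E F : VB k K W} (h : ∀ P x, x ∈ E.M P ↔ x ∈ F.M P) : E = F := by
  cases E; cases F
  congr
  funext P
  exact Submodule.ext (h P)

instance : LE (VB k K W) := ⟨fun E F => ∀ P, E.M P ≤ F.M P⟩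

lemma le_def {E F : VB k K W} : E ≤ F ↔ ∀ P, E.M P ≤ F.M P := Iff.rfl

lemma mem_of_le {E F : VB k K W} (h : E ≤ F) {P : Place k K} {x : W} (hx : x ∈ E.M P) :
    x ∈ F.M P := h P hx

lemma le_refl' (E : VB k K W) : E ≤ E := fun _ => le_rfl

lemma le_trans' {E F G : VB k K W} (h : E ≤ F) (h' : F ≤ G) : E ≤ G := fun P => (h P).trans (h' P)

lemma le_antisymm' {E F : VB k K W} (h : E ≤ F) (h' : F ≤ E) : E = F :=
  ext' fun P x => ⟨fun hx => h P hx, fun hx => h' P hx⟩

/-- The subbundle `E ∩ J` with generic fibre the subspace `J`. -/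
def sub (E : VB k K W) (J : Submodule K W) : VB k K J where
  M P := (E.M P).comap (J.subtype.restrictScalars k)
  smul_mem P c _ hc hx := E.smul_mem P c _ hc hx
  lower w := E.lower w
  upper φ := by
    obtain ⟨ψ, hψ⟩ := φ.exists_extend
    obtain ⟨e, he⟩ := E.upper ψ
    refine ⟨e, fun P x hx => ?_⟩
    have := he P x hx
    rw [← hψ]; exact this

@[simp] lemma mem_sub {E : VB k K W} {J : Submodule K W} {P : Place k K} {x : J} :
    x ∈ (E.sub J).M P ↔ (x : W) ∈ E.M P := Iff.rfl

/-- The quotient bundle `E / (E ∩ J)` with generic fibre `W / J`. -/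
def quo (E : VB k K W) (J : Submodule K W) : VB k K (W ⧸ J) where
  M P := (E.M P).map (J.mkQ.restrictScalars k)
  smul_mem P c x hc hx := by
    obtain ⟨y, hy, rfl⟩ := hx
    exact ⟨c • y, E.smul_mem P c y hc hy, rfl⟩
  lower w := by
    obtain ⟨w, rfl⟩ := J.mkQ_surjective w
    obtain ⟨e, he⟩ := E.lower w
    exact ⟨e, fun P c hc => ⟨c • w, he P c hc, rfl⟩⟩
  upper φ := by
    obtain ⟨e, he⟩ := E.upper (φ ∘ₗ J.mkQ)
    refine ⟨e, fun P x hx => ?_⟩
    obtain ⟨y, hy, rfl⟩ := hx
    exact he P y hy

lemma mem_quo {E : VB k K W} {J : Submodule K W} {P : Place k K} {x : W ⧸ J} :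
    x ∈ (E.quo J).M P ↔ ∃ y ∈ E.M P, J.mkQ y = x := Iff.rfl

/-- Transport of a bundle along an isomorphism of the generic fibres. -/
def map (E : VB k K W) (f : W ≃ₗ[K] W') : VB k K W' where
  M P := (E.M P).map (f.toLinearMap.restrictScalars k)
  smul_mem P c x hc hx := by
    obtain ⟨y, hy, rfl⟩ := hx
    exact ⟨c • y, E.smul_mem P c y hc hy, map_smul f c y⟩
  lower w := by
    obtain ⟨e, he⟩ := E.lower (f.symm w)
    refine ⟨e, fun P c hc => ⟨c • f.symm w, he P c hc, ?_⟩⟩
    show f (c • f.symm w) = c • w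
    rw [map_smul, f.apply_symm_apply]
  upper φ := by
    obtain ⟨e, he⟩ := E.upper (φ ∘ₗ f.toLinearMap)
    refine ⟨e, fun P x hx => ?_⟩
    obtain ⟨y, hy, rfl⟩ := hx
    exact he P y hy

lemma mem_map {E : VB k K W} {f : W ≃ₗ[K] W'} {P : Place k K} {x : W'} :
    x ∈ (E.map f).M P ↔ f.symm x ∈ E.M P := by
  constructor
  · rintro ⟨y, hy, rfl⟩
    have : f.symm ((f.toLinearMap.restrictScalars k) y) = y := f.symm_apply_apply y
    rw [this]; exact hy
  · intro hx
    exact ⟨f.symm x, hx, f.apply_symm_apply x⟩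

/-- The twist `E(D)`: the vectors `x` with `c x ∈ E` for all `c ∈ O(-D)`. -/
def twist (E : VB k K W) (D : Dv k K) : VB k K W where
  M P := 
    { carrier := {x | ∀ c ∈ P.filt (D P), c • x ∈ E.M P}
      add_mem' := fun ha hb c hc => by rw [smul_add]; exact add_mem (ha c hc) (hb c hc)
      zero_mem' := fun c _ => by simp
      smul_mem' := fun a x hx c hc => by
        rw [smul_comm]; exact (E.M P).smul_mem a (hx c hc) }
  smul_mem P c x hc hx := fun a ha => by
    rw [← mul_smul, mul_comm, mul_smul]
    exact E.smul_mem P c _ hc (hx a ha)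
  lower w := by
    obtain ⟨e, he⟩ := E.lower w
    refine ⟨e - D, fun P c hc a ha => ?_⟩
    rw [← mul_smul]
    apply he
    have := mul_mem_filt P ha hc
    simpa using this
  upper φ := by
    obtain ⟨e, he⟩ := E.upper φ
    refine ⟨e - D, fun P x hx => ?_⟩
    obtain ⟨t, ht, htm⟩ := exists_ord_eq P (D P)
    have h1 := he P _ (hx t (Or.inr htm.ge))
    rw [map_smul, smul_eq_mul] at h1
    rw [← mem_filt_iff_of_ord P ht htm]
    simpa using h1

lemma mem_twist {E : VB k K W} {D : Dv k K} {P : Place k K} {x : W} :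
    x ∈ (E.twist D).M P ↔ ∀ c ∈ P.filt (D P), c • x ∈ E.M P := Iff.rfl

end VB

end Module

section Curve

variable {k : Type u} {K : Type v} [Field k] [Field K] [Algebra k K] [Curve k K]
variable {W : Type v} [AddCommGroup W] [Module K W] [Module k W] [IsScalarTower k K W]
variable {A : Type v} [AddCommGroup A] [Module K A] [Module k A] [IsScalarTower k K A]
variable {B : Type v} [AddCommGroup B] [Module K B] [Module k B] [IsScalarTower k K B]

/-- The divisor of a function `x` (zero if `x = 0`). -/
noncomputable def dv (x : K) : Dv k K :=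
  haveI := Curve.closed (k := k) (K := K)
  haveI := Curve.char (k := k) (K := K)
  Finsupp.ofSupportFinite (fun P : Place k K => P.ord x)
    (finite_ord_ne_zero (Curve.curve (k := k) (K := K)) x)

lemma dv_apply (x : K) (P : Place k K) : (dv x : Dv k K) P = P.ord x := rfl

lemma ddeg_dv (x : K) : ddeg (dv x : Dv k K) = 0 := by
  haveI := Curve.closed (k := k) (K := K)
  haveI := Curve.char (k := k) (K := K)
  have h := finsum_ord (Curve.curve (k := k) (K := K)) x
  rw [finsum_eq_sum_of_support_subset (s := (dv x : Dv k K).support)] at h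
  · exact h
  · intro P hP
    simpa [dv_apply] using hP

/-- The line bundle `O(D)`. -/
noncomputable def line (D : Dv k K) : VB k K K where
  M P := P.filt (-D P)
  smul_mem P c x hc hx := by
    have := mul_mem_filt P hc hx
    simpa using this
  lower w := by
    refine ⟨- D - dv w, fun P c hc => ?_⟩
    by_cases hw : w = 0
    · simp [hw]
    have := mul_mem_filt P hc (Or.inr le_rfl : w ∈ P.filt (P.ord w))
    simpa [dv_apply] using this
  upper φ := by
    refine ⟨- D + dv (φ 1), fun P x hx => ?_⟩
    have h1 : φ x = x * φ 1 := by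
      rw [← smul_eq_mul, ← map_smul, smul_eq_mul, mul_one]
    have := mul_mem_filt P hx (Or.inr le_rfl : φ 1 ∈ P.filt (P.ord (φ 1)))
    rw [h1]
    simpa [dv_apply] using this

lemma mem_line {D : Dv k K} {P : Place k K} {x : K} :
    x ∈ (line D).M P ↔ x ∈ P.filt (-D P) := Iff.rfl

/-- The bundle of the homomorphisms from `F` to `E`. -/
noncomputable def hom [FiniteDimensional K B] (F : VB k K B) [FiniteDimensional K A]
    (E : VB k K A) : VB k K (B →ₗ[K] A) where
  M P := 
    { carrier := {f | ∀ b ∈ F.M P, f b ∈ E.M P}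
      add_mem' := fun ha hb c hc => add_mem (ha c hc) (hb c hc)
      zero_mem' := fun c _ => zero_mem _
      smul_mem' := fun a x hx c hc => (E.M P).smul_mem a (hx c hc) }
  smul_mem P c f hc hf b hb := E.smul_mem P c _ hc (hf b hb)
  lower f := by
    let b := Module.finBasis K B
    choose e he using fun i => F.upper (b.coord i)
    choose e' he' using fun i => E.lower (f (b i))
    obtain ⟨d, hd⟩ := exists_ub (fun i => e' i - e i)
    refine ⟨d, fun P c hc x hx => ?_⟩
    have h1 : (c • f) x = ∑ i, (c * b.coord i x) • f (b i) := by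
      conv_lhs => rw [LinearMap.smul_apply, ← b.sum_repr x, map_sum, Finset.smul_sum]
      refine Finset.sum_congr rfl fun i _ => ?_
      rw [map_smul, smul_smul]; rfl
    rw [h1]
    refine Submodule.sum_mem _ fun i _ => he' i P _ ?_
    have h2 := mul_mem_filt P hc (he i P x hx)
    refine filt_mono P ?_ h2
    have := hd i P
    simp only [Finsupp.coe_sub, Pi.sub_apply] at this
    omega
  upper φ := by
    let b := Module.finBasis K B
    let a := Module.finBasis K A
    let E1 : Fin (finrank K B) → Fin (finrank K A) → (B →ₗ[K] A) := fun i j =>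
      (b.coord i).smulRight (a j)
    choose e he using fun i => F.lower (b i)
    choose u hu using fun j => E.upper (a.coord j)
    obtain ⟨d, hd⟩ := exists_lb (fun p : Fin (finrank K B) × Fin (finrank K A) =>
      u p.2 - e p.1 + dv (φ (E1 p.1 p.2)))
    refine ⟨d, fun P f hf => ?_⟩
    have h1 : f = ∑ i, ∑ j, (a.coord j (f (b i))) • E1 i j := by
      apply b.ext
      intro i
      rw [LinearMap.sum_apply, Finset.sum_eq_single i]
      · rw [LinearMap.sum_apply]
        conv_lhs => rw [← a.sum_repr (f (b i))]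
        refine Finset.sum_congr rfl fun j _ => ?_
        simp [E1]
      · intro i' _ hne
        rw [LinearMap.sum_apply]
        refine Finset.sum_eq_zero fun j _ => ?_
        simp [E1, Finsupp.single_eq_of_ne hne]
      · intro h; exact absurd (Finset.mem_univ i) h
    rw [h1, map_sum]
    refine Submodule.sum_mem _ fun i _ => ?_
    rw [map_sum]
    refine Submodule.sum_mem _ fun j _ => ?_
    rw [map_smul, smul_eq_mul]
    obtain ⟨t, ht, htm⟩ := exists_ord_eq P (e i P)
    have h2 : t • f (b i) ∈ E.M P := by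
      rw [← map_smul]
      exact hf _ (he i P t (Or.inr htm.ge))
    have h3 := hu j P _ h2
    rw [map_smul, smul_eq_mul] at h3
    have h4 : a.coord j (f (b i)) ∈ P.filt (u j P - e i P) := by
      rw [← mem_filt_iff_of_ord P ht htm]
      simpa using h3
    have h5 := mul_mem_filt P h4 (Or.inr le_rfl : φ (E1 i j) ∈ P.filt (P.ord (φ (E1 i j))))
    refine filt_mono P ?_ h5
    have := hd (i, j) P
    simpa [dv_apply] using this

lemma mem_hom [FiniteDimensional K B] {F : VB k K B} [FiniteDimensional K A] {E : VB k K A}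
    {P : Place k K} {f : B →ₗ[K] A} : f ∈ (hom F E).M P ↔ ∀ b ∈ F.M P, f b ∈ E.M P := Iff.rfl

end Curve

end Pool.Agent.MP_09eaec.G2
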