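import Pool.Agent.Lib.MP_09eaec_ag.G2.Exact

/-!
# TASK A11: the degrees of the subbundles are bounded above

Induction on `finrank K W` (generalised over `W`). Rank `0`: `C = 0`. Otherwise let `L ≤ W` be a
subspace of rank one, `C'` the bound for `E.quo L`; `C = max 0 (E.sub L).deg + C'`. For `J ≤ W`: exact
sequence `0 → J ⊓ L → J → J.map L.mkQ → 0` and `deg_exact_le` for `E.sub J`, with the bundles
`E.sub (J ⊓ L)` and `(E.quo L).sub (J.map L.mkQ)`. `J ⊓ L = ⊥` or `J ⊓ L = L` (rank one), so
`(E.sub (J ⊓ L)).deg ≤ max 0 (E.sub L).deg`.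
-/

set_option autoImplicit false

namespace Pool.Agent.MP_09eaec.G2

open Module

universe u v

variable {k : Type u} {K : Type v} [Field k] [Field K] [Algebra k K]
variable {W : Type v} [AddCommGroup W] [Module K W] [Module k W] [IsScalarTower k K W]
variable {A : Type v} [AddCommGroup A] [Module K A] [Module k A] [IsScalarTower k K A]
variable {B : Type v} [AddCommGroup B] [Module K B] [Module k B] [IsScalarTower k K B]

variable [Curve2 k K]

namespace VB

private theorem Bound_aux (n : ℕ) : ∀ (W : Type v) [AddCommGroup W] [Module K W] [Module k W]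
    [IsScalarTower k K W] [FiniteDimensional K W] (E : VB k K W), finrank K W = n →
    ∃ C : ℤ, ∀ J : Submodule K W, (E.sub J).deg ≤ C := by
  induction n with
  | zero =>
    intro W _ _ _ _ _ E hn
    refine ⟨(E.sub ⊥).deg, fun J => ?_⟩
    have hJ : J = ⊥ := by
      have h1 : finrank K J = 0 := by
        have := Submodule.finrank_le J
        omega
      exact Submodule.finrank_eq_zero.mp h1
    rw [hJ]
  | succ n ih =>
    intro W _ _ _ _ _ E hn
    have hnt : Nontrivial W := Module.nontrivial_of_finrank_pos (R := K) (by omega)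
    obtain ⟨w, hw⟩ := exists_ne (0 : W)
    let L : Submodule K W := Submodule.span K {w}
    have hL : finrank K L = 1 := finrank_span_singleton hw
    have hq : finrank K (W ⧸ L) = n := by
      have := Submodule.finrank_quotient_add_finrank L
      omega
    obtain ⟨C', hC'⟩ := ih (W ⧸ L) (E.quo L) hq
    refine ⟨max (E.sub ⊥).deg (E.sub L).deg + C', fun J => ?_⟩
    have hex := deg_exact_le (E.sub J) (E.sub (J ⊓ L)) ((E.quo L).sub (J.map L.mkQ))
      (Submodule.inclusion inf_le_left) (L.mkQ.submoduleMap J)
      (Submodule.inclusion_injective _) (LinearMap.submoduleMap_surjective _ _)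
      (by
        ext x
        constructor
        · rintro ⟨y, rfl⟩
          rw [LinearMap.mem_ker]
          apply Subtype.ext
          show L.mkQ (y : W) = 0
          rw [Submodule.mkQ_apply, Submodule.Quotient.mk_eq_zero]
          exact y.2.2
        · intro hx
          rw [LinearMap.mem_ker] at hx
          have h1 : L.mkQ (x : W) = 0 := congrArg Subtype.val hx
          rw [Submodule.mkQ_apply, Submodule.Quotient.mk_eq_zero] at h1
          exact ⟨⟨(x : W), ⟨x.2, h1⟩⟩, Subtype.ext rfl⟩)
      (fun P x hx => hx)
      (fun P x hx => ⟨(x : W), hx, rfl⟩)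
    have h2 : (E.sub (J ⊓ L)).deg ≤ max (E.sub ⊥).deg (E.sub L).deg := by
      have h3 : finrank K (J ⊓ L : Submodule K W) ≤ 1 := by
        rw [← hL]
        exact Submodule.finrank_mono inf_le_right
      rcases Nat.lt_or_ge (finrank K (J ⊓ L : Submodule K W)) 1 with h4 | h4
      · have h5 : J ⊓ L = ⊥ := Submodule.finrank_eq_zero.mp (by omega)
        rw [h5]
        exact le_max_left _ _
      · have h5 : J ⊓ L = L := Submodule.eq_of_le_of_finrank_eq inf_le_right (by omega)
        rw [h5]
        exact le_max_right _ _
    have h6 := hC' (J.map L.mkQ)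
    linarith

theorem exists_bound [FiniteDimensional K W] (E : VB k K W) :
    ∃ C : ℤ, ∀ J : Submodule K W, (E.sub J).deg ≤ C :=
  Bound_aux (finrank K W) W E rfl

end VB

end Pool.Agent.MP_09eaec.G2
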