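import Pool.Agent.Lib.MP_09eaec_ag.G2.Coh

/-!
# The inductive statements in the existence proof of stable bundles
-/

set_option autoImplicit false

namespace Pool.Agent.MP_09eaec.G2

open Module

universe u v

variable {k : Type u} {K : Type v} [Field k] [Field K] [Algebra k K]
variable {W : Type v} [AddCommGroup W] [Module K W] [Module k W] [IsScalarTower k K W]
variable {A : Type v} [AddCommGroup A] [Module K A] [Module k A] [IsScalarTower k K A]
variable {B : Type v} [AddCommGroup B] [Module K B] [Module k B] [IsScalarTower k K B]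

/-- All the nonzero subbundles of `E` (`E` included) have `r deg - d rank ≤ -1`. -/
def Neg (E : VB k K W) (r d : ℤ) : Prop :=
  ∀ J : Submodule K W, J ≠ ⊥ → r * (E.sub J).deg - d * finrank K J ≤ -1

/-- There is a stable bundle of rank `r` and degree `d` (with `r deg - d rank ≤ -1` for all proper
subbundles) with only finitely many subbundles with `r deg - d rank = -1`. -/
def Q (k : Type u) (K : Type v) [Field k] [Field K] [Algebra k K] (r : ℕ) (d : ℤ) : Prop :=
  ∃ E : VB k K (Fin r → K), E.deg = d ∧
    (∀ J : Submodule K (Fin r → K), J ≠ ⊥ → J ≠ ⊤ → (r : ℤ) * (E.sub J).deg - d * finrank K J ≤ -1) ∧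
    (E.exc r d).Finite

/-- There is a bundle of rank `n` and degree `δ` all of whose subbundles have `r deg - d rank ≤ -1`,
with equality only for finitely many. -/
def HasX (k : Type u) (K : Type v) [Field k] [Field K] [Algebra k K] (r d : ℤ) (n : ℕ) (δ : ℤ) :
    Prop :=
  ∃ X : VB k K (Fin n → K), X.deg = δ ∧ Neg X r d ∧ (X.exc r d).Finite

/-- The chain of bundles for integral slopes: `X` has rank `j`, degree `j deg G - 1`, all subbundles
have `deg - (deg G) rank ≤ -1` with equality only for finitely many, and there is a quotient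
`q : X → O(G')`, where `G' = G` or `deg G' = deg G - 1`. -/
def IntChain (G : Dv k K) [Curve k K] (j : ℕ) : Prop :=
  ∃ (X : VB k K (Fin j → K)) (q : (Fin j → K) →ₗ[K] K) (G' : Dv k K),
    X.deg = j * ddeg G - 1 ∧ Neg X 1 (ddeg G) ∧ (X.exc 1 (ddeg G)).Finite ∧
    (∀ P y, y ∈ (line G').M P ↔ ∃ x ∈ X.M P, q x = y) ∧ (ddeg G' = ddeg G - 1 ∨ G' = G)

end Pool.Agent.MP_09eaec.G2
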