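import Pool.Agent.Lib.MP_09eaec_ag.G2.Exact
import Pool.Agent.Lib.MP_09eaec_ag.G2.StDefs

/-!
# TASK B7: only few points `P` have a nonzero homomorphism `G(-P) → X`

* `no_degree_one`: there is no `f : K` with divisor `P' - P`, `P ≠ P'`: if `f ≠ 0`, `Q.ord f ≥ 0` for
  `Q ≠ P`, `P.ord f = -1`, then `1, f, …, f^n ∈ H0 (line (n P))` are linearly independent over `k`
  (`Place.linearIndependent_of_strictMono` for the orders, reverse the order of the powers), so
  `h0 (line (n P)) ≥ n + 1`, but it is `n - 1` for `n` large (`exists_large`, `h0_line_of_N`).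
* `finite_T`: `θ : K → W` nonzero with `θ (G(-P)) ⊆ X`. `J = range θ` has rank one, and `θ` gives an
  isomorphism of `line (G - P)` with a bundle `≤ X.sub J` on `J`, so `(X.sub J).deg ≥ ddeg G - 1`
  (`deg_map`, `deg_le_of_le`); by `Neg` it is `= ddeg G - 1`, so `J ∈ X.exc 1 (ddeg G)` or `J = ⊤`, and
  `θ (G(-P)) = X.sub J` (`eq_of_le_of_deg_le`). The map `P ↦ J` (choose `θ` for every `P`) is injective: if
  `P, P'` have the same `J`, `θ' = f θ` with `f : K`, `f ≠ 0` (both have range `J` of rank one), and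
  `f · line (G - P') = line (G - P)`, so `f` has divisor `P - P'` or `P' - P`: `P = P'` by
  `no_degree_one`. So the set injects into the finite set `X.exc 1 (ddeg G) ∪ {⊤}`.
-/

set_option autoImplicit false

namespace Pool.Agent.MP_09eaec.G2

open Module

universe u v

variable {k : Type u} {K : Type v} [Field k] [Field K] [Algebra k K]
variable {W : Type v} [AddCommGroup W] [Module K W] [Module k W] [IsScalarTower k K W]
variable {A : Type v} [AddCommGroup A] [Module K A] [Module k A] [IsScalarTower k K A]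
variable {B : Type v} [AddCommGroup B] [Module K B] [Module k B] [IsScalarTower k K B]

variable [Curve2 k K]

theorem no_degree_one {P : Place k K} {f : K} (hf : f ≠ 0) (h : ∀ Q, Q ≠ P → 0 ≤ Q.ord f) :
    P.ord f ≠ -1 := by
  classical
  intro hP
  obtain ⟨C, hC⟩ := exists_large (k := k) (K := K)
  obtain ⟨n, hn⟩ : ∃ n : ℕ, C ≤ n := ⟨C.toNat, Int.self_le_toNat _⟩
  have hN : (line (Finsupp.single P (n : ℤ)) : VB k K K).N = ⊤ := hC _ (by rw [ddeg_single]; exact hn)
  have h0 : (line (Finsupp.single P (n : ℤ)) : VB k K K).h0 = n - 1 := by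
    rw [h0_line_of_N hN, ddeg_single]
  have hord : ∀ (m : ℕ) (Q : Place k K), Q.ord (f ^ m) = m * Q.ord f := fun m Q => Q.ord_pow f hf m
  have hmem : ∀ i : Fin (n + 1), f ^ (n - (i : ℕ)) ∈
      (line (Finsupp.single P (n : ℤ)) : VB k K K).H0 := by
    intro i
    rw [VB.mem_H0]
    intro Q
    rw [mem_line]
    right
    rw [hord]
    by_cases hQ : Q = P
    · rw [hQ, hP, Finsupp.single_eq_same]
      have : ((n - (i : ℕ) : ℕ) : ℤ) ≤ n := by omega
      omega
    · rw [Finsupp.single_eq_of_ne hQ, neg_zero]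
      exact mul_nonneg (by omega) (h Q hQ)
  have hli : LinearIndependent k (fun i : Fin (n + 1) => f ^ (n - (i : ℕ))) := by
    refine P.linearIndependent_of_strictMono (n + 1) _ (fun i => pow_ne_zero _ hf) ?_
    intro i j hij
    show P.ord (f ^ (n - (i : ℕ))) < P.ord (f ^ (n - (j : ℕ)))
    rw [hord, hord, hP]
    have h1 : (i : ℕ) < j := hij
    have h2 := j.2
    omega
  have hli' : LinearIndependent k (fun i : Fin (n + 1) =>
      (⟨f ^ (n - (i : ℕ)), hmem i⟩ : (line (Finsupp.single P (n : ℤ)) : VB k K K).H0)) :=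
    LinearIndependent.of_comp (Submodule.subtype _) hli
  have h2 := hli'.fintype_card_le_finrank
  rw [Fintype.card_fin] at h2
  have h3 : (line (Finsupp.single P (n : ℤ)) : VB k K K).h0 =
    (finrank k (line (Finsupp.single P (n : ℤ)) : VB k K K).H0 : ℤ) := rfl
  omega

/-- The stalks of `X` on the range of `θ`. -/
private theorem IntT_key [FiniteDimensional K W] (X : VB k K W) (G : Dv k K)
    (hX : Neg X 1 (ddeg G)) {P : Place k K} {θ : K →ₗ[K] W} (hθ : θ ≠ 0)
    (h : ∀ Q x, x ∈ (line (G - Finsupp.single P 1)).M Q → θ x ∈ X.M Q) :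
    (LinearMap.range θ ∈ X.exc 1 (ddeg G) ∨ LinearMap.range θ = ⊤) ∧
      ∀ Q x, x ∈ (line (G - Finsupp.single P 1)).M Q ↔ θ x ∈ X.M Q := by
  have hinj : Function.Injective θ := by
    rw [← LinearMap.ker_eq_bot]
    by_contra hker
    obtain ⟨x, hx, hx0⟩ := (Submodule.ne_bot_iff _).mp hker
    apply hθ
    ext
    have h1 : θ x = x • θ 1 := by rw [← map_smul, smul_eq_mul, mul_one]
    rw [LinearMap.mem_ker, h1, smul_eq_zero] at hx
    rcases hx with h2 | h2
    · exact absurd h2 hx0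
    · rw [h2]
      rfl
  have hJ : LinearMap.range θ ≠ ⊥ := by
    rw [Ne, LinearMap.range_eq_bot]
    exact hθ
  have hrank : finrank K (LinearMap.range θ) = 1 := by
    rw [LinearMap.finrank_range_of_inj hinj, finrank_self]
  have hle : (line (G - Finsupp.single P 1)).map (LinearEquiv.ofInjective θ hinj) ≤
      X.sub (LinearMap.range θ) := by
    rintro Q _ ⟨y, hy, rfl⟩
    exact h Q y hy
  have hdeg := VB.deg_le_of_le hle
  rw [VB.deg_map, VB.deg_line, ddeg_sub, ddeg_single] at hdeg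
  have hneg := hX _ hJ
  rw [hrank, Nat.cast_one, mul_one, one_mul] at hneg
  constructor
  · by_cases htop : LinearMap.range θ = ⊤
    · exact Or.inr htop
    · left
      refine ⟨hJ, htop, ?_⟩
      rw [hrank, Nat.cast_one, mul_one, one_mul]
      omega
  · have heq := VB.eq_of_le_of_deg_le hle (by
      rw [VB.deg_map, VB.deg_line, ddeg_sub, ddeg_single]
      omega)
    intro Q x
    constructor
    · exact h Q x
    · intro hx
      have h1 : (LinearEquiv.ofInjective θ hinj x) ∈ (X.sub (LinearMap.range θ)).M Q := hx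
      rw [← heq, VB.mem_map, LinearEquiv.symm_apply_apply] at h1
      exact h1

theorem finite_T [FiniteDimensional K W] (X : VB k K W) (G : Dv k K) (hX : Neg X 1 (ddeg G))
    (hf : (X.exc 1 (ddeg G)).Finite) :
    {P : Place k K | ∃ θ : K →ₗ[K] W, θ ≠ 0 ∧
      ∀ Q x, x ∈ (line (G - Finsupp.single P 1)).M Q → θ x ∈ X.M Q}.Finite := by
  classical
  have hE : (X.exc 1 (ddeg G) ∪ {⊤}).Finite := hf.union (Set.finite_singleton _)
  have hsub : {P : Place k K | ∃ θ : K →ₗ[K] W, θ ≠ 0 ∧
      ∀ Q x, x ∈ (line (G - Finsupp.single P 1)).M Q → θ x ∈ X.M Q} ⊆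
      ⋃ J ∈ X.exc 1 (ddeg G) ∪ {⊤}, {P : Place k K | ∃ θ : K →ₗ[K] W, θ ≠ 0 ∧
        LinearMap.range θ = J ∧
        ∀ Q x, x ∈ (line (G - Finsupp.single P 1)).M Q → θ x ∈ X.M Q} := by
    rintro P ⟨θ, hθ, h⟩
    refine Set.mem_biUnion (x := LinearMap.range θ) ?_ ⟨θ, hθ, rfl, h⟩
    rcases (IntT_key X G hX hθ h).1 with h1 | h1
    · exact Or.inl h1
    · exact Or.inr h1
  refine (hE.biUnion fun J _ => Set.Subsingleton.finite ?_).subset hsub
  rintro P ⟨θ, hθ, hr, h⟩ P' ⟨θ', hθ', hr', h'⟩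
  by_contra hne
  have hk := (IntT_key X G hX hθ h).2
  have hk' := (IntT_key X G hX hθ' h').2
  obtain ⟨c, hc⟩ : ∃ c : K, θ' c = θ 1 := by
    have h1 : θ 1 ∈ LinearMap.range θ' := by
      rw [hr', ← hr]
      exact LinearMap.mem_range_self θ 1
    exact h1
  have hθ1 : θ 1 ≠ 0 := by
    intro h0
    apply hθ
    ext
    rw [h0]
    rfl
  have hc0 : c ≠ 0 := by
    rintro rfl
    rw [map_zero] at hc
    exact hθ1 hc.symm
  have hθc : ∀ x : K, θ x = θ' (c * x) := by
    intro x
    have h1 : θ x = x • θ 1 := by rw [← map_smul, smul_eq_mul, mul_one]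
    rw [h1, ← hc, ← map_smul, smul_eq_mul, mul_comm]
  have hiff : ∀ Q x, x ∈ (line (G - Finsupp.single P 1)).M Q ↔
      c * x ∈ (line (G - Finsupp.single P' 1)).M Q := by
    intro Q x
    rw [hk Q x, hθc x]
    exact (hk' Q (c * x)).symm
  have hlow : ∀ Q : Place k K, (G - Finsupp.single P 1 : Dv k K) Q -
      (G - Finsupp.single P' 1 : Dv k K) Q ≤ Q.ord c := by
    intro Q
    obtain ⟨y, hy0, hy⟩ := exists_ord_eq Q (-(G - Finsupp.single P 1 : Dv k K) Q)
    have h1 : c * y ∈ (line (G - Finsupp.single P' 1)).M Q := (hiff Q y).mp (Or.inr hy.ge)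
    rcases h1 with h1 | h1
    · exact absurd h1 (mul_ne_zero hc0 hy0)
    · rw [Q.ord_mul c y hc0 hy0, hy] at h1
      omega
  have hup : P.ord c ≤ (G - Finsupp.single P 1 : Dv k K) P -
      (G - Finsupp.single P' 1 : Dv k K) P := by
    obtain ⟨z, hz0, hz⟩ := exists_ord_eq P (-(G - Finsupp.single P' 1 : Dv k K) P)
    have h1 : c⁻¹ * z ∈ (line (G - Finsupp.single P 1)).M P := by
      rw [hiff, ← mul_assoc, mul_inv_cancel₀ hc0, one_mul]
      exact Or.inr hz.ge
    rcases h1 with h1 | h1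
    · exact absurd h1 (mul_ne_zero (inv_ne_zero hc0) hz0)
    · rw [P.ord_mul _ z (inv_ne_zero hc0) hz0, hz, P.ord_inv] at h1
      omega
  refine no_degree_one (k := k) hc0 (P := P) ?_ ?_
  · intro Q hQ
    have h1 := hlow Q
    rw [Finsupp.sub_apply, Finsupp.sub_apply, Finsupp.single_eq_of_ne hQ] at h1
    have h2 : (0 : ℤ) ≤ (Finsupp.single P' 1 : Dv k K) Q := by
      rw [Finsupp.single_apply]
      split_ifs <;> omega
    omega
  · have h1 := hlow P
    have h3 : P ≠ P' := hne
    rw [Finsupp.sub_apply, Finsupp.sub_apply, Finsupp.single_eq_same,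
      Finsupp.single_eq_of_ne h3] at h1 hup
    omega

end Pool.Agent.MP_09eaec.G2
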