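import Pool.Agent.Lib.MP_09eaec_ag.G2.Dual
import Pool.Agent.Lib.MP_09eaec_ag.G2.IntT

/-!
# TASK C4: the canonical divisor of a curve of genus two

`κ` from `exists_kappa`; `serre_line`, `chi_line`, `h0_line_zero` (`h0 (line 0) = 1`).
* `h0 (line κ) = h1 (line 0) = 1 - (-1) = 2`; `h1 (line κ) = h0 (line 0) = 1`, so `ddeg κ - 1 = chi = 1`,
  `ddeg κ = 2`.
* `h0 (line (single P 1)) = 1`: an element `f` not in `H0 (line 0)` has `P.ord f = -1` and no other
  poles, excluded by `no_degree_one`. So `h1 (line (single P 1)) = h0 - chi = 1 - 0 = 1 =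
  h0 (line (κ - single P 1)) < 2`. So there is `s ∈ H0 (line κ)`, not in `P.filt (-κ P + 1)`:
  `s ≠ 0`, `P.ord s = -κ P`.
-/

set_option autoImplicit false

namespace Pool.Agent.MP_09eaec.G2

open Module

universe u v

variable {k : Type u} {K : Type v} [Field k] [Field K] [Algebra k K]
variable {W : Type v} [AddCommGroup W] [Module K W] [Module k W] [IsScalarTower k K W]
variable {A : Type v} [AddCommGroup A] [Module K A] [Module k A] [IsScalarTower k K A]
variable {B : Type v} [AddCommGroup B] [Module K B] [Module k B] [IsScalarTower k K B]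

/-- `κ` is a canonical divisor of the curve of genus two: degree 2, two sections, no base points, and
each bundle with `H¹ ≠ 0` has a nonzero homomorphism to `O(κ)`. -/
structure IsCanonical [Curve k K] (κ : Dv k K) : Prop where
  ddeg : ddeg κ = 2
  h0 : (line κ).h0 = 2
  base : ∀ P : Place k K, ∃ s ∈ (line κ).H0, s ≠ 0 ∧ P.ord s = -κ P
  dual : ∀ (W : Type v) [AddCommGroup W] [Module K W] [Module k W] [IsScalarTower k K W]
    [FiniteDimensional K W] (E : VB k K W), E.N ≠ ⊤ →
    ∃ φ : W →ₗ[K] K, φ ≠ 0 ∧ ∀ P x, x ∈ E.M P → φ x ∈ (line κ).M P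

private theorem Canon_h0_single [Curve2 k K] (P : Place k K) :
    (line (Finsupp.single P 1 : Dv k K)).h0 = 1 := by
  have h : (line (Finsupp.single P 1 : Dv k K)).H0 = (line (0 : Dv k K)).H0 := by
    classical
    ext x
    rw [VB.mem_H0, VB.mem_H0]
    constructor
    · intro hx
      by_cases h0 : x = 0
      · subst h0
        intro Q
        exact zero_mem _
      have hQ : ∀ Q, Q ≠ P → 0 ≤ Q.ord x := by
        intro Q hQP
        rcases hx Q with h1 | h1
        · exact absurd h1 h0
        · rwa [Finsupp.single_eq_of_ne hQP, neg_zero] at h1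
      have hP := no_degree_one h0 hQ
      intro Q
      right
      rw [Finsupp.coe_zero, Pi.zero_apply, neg_zero]
      by_cases hQP : Q = P
      · subst hQP
        rcases hx Q with h1 | h1
        · exact absurd h1 h0
        · rw [Finsupp.single_eq_same] at h1
          omega
      · exact hQ Q hQP
    · intro hx Q
      refine filt_mono Q ?_ (hx Q)
      rw [Finsupp.coe_zero, Pi.zero_apply, neg_zero, Finsupp.single_apply]
      split_ifs <;> omega
  have h2 := h0_line_zero (k := k) (K := K)
  unfold VB.h0 at h2 ⊢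
  rw [h]
  exact h2

theorem exists_canonical [Curve2 k K] : ∃ κ : Dv k K, IsCanonical κ := by
  classical
  obtain ⟨ω, κ, h0, h1, h2⟩ := exists_kappa (k := k) (K := K)
  have hs := serre_line h0 h1 h2
  have e0 := hs 0
  rw [sub_zero] at e0
  have e1 := hs κ
  rw [sub_self] at e1
  have z := h0_line_zero (k := k) (K := K)
  have c0 := chi_line (0 : Dv k K)
  have c1 := chi_line κ
  rw [ddeg_zero] at c0
  unfold VB.chi at c0 c1
  have hκ0 : (line κ).h0 = 2 := by omega
  refine ⟨κ, ?_, hκ0, ?_, ?_⟩
  · omega
  · intro P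
    have e2 := hs (Finsupp.single P 1)
    have c2 := chi_line (Finsupp.single P 1 : Dv k K)
    have hz := Canon_h0_single (k := k) P
    rw [ddeg_single] at c2
    unfold VB.chi at c2
    have hlt : (line (κ - Finsupp.single P 1)).h0 < (line κ).h0 := by omega
    have hex : ∃ s ∈ (line κ).H0, s ∉ (line (κ - Finsupp.single P 1)).H0 := by
      by_contra hno
      push Not at hno
      have hle : (line κ).H0 ≤ (line (κ - Finsupp.single P 1)).H0 := hno
      have := Submodule.finrank_mono hle
      unfold VB.h0 at hlt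
      omega
    obtain ⟨s, hs1, hs2⟩ := hex
    have hs0 : s ≠ 0 := by
      rintro rfl
      exact hs2 (zero_mem _)
    refine ⟨s, hs1, hs0, ?_⟩
    rw [VB.mem_H0] at hs1 hs2
    push Not at hs2
    obtain ⟨Q, hQ⟩ := hs2
    have hQP : Q = P := by
      by_contra hne
      apply hQ
      have := hs1 Q
      rw [mem_line] at this ⊢
      rwa [Finsupp.sub_apply, Finsupp.single_eq_of_ne hne, sub_zero]
    subst hQP
    rcases hs1 Q with h3 | h3
    · exact absurd h3 hs0
    refine le_antisymm ?_ h3
    by_contra h4
    apply hQ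
    right
    rw [Finsupp.sub_apply, Finsupp.single_eq_same]
    omega
  · intro W _ _ _ _ _ E hE
    exact exists_hom_kappa h0 h1 h2 E hE

end Pool.Agent.MP_09eaec.G2
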