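import Pool.Agent.Lib.MP_09eaec_ag.G2.Exact

/-!
# TASK A12: subbundles of extensions

`X = ext E F u` with generic fibre `A × B`.
* `deg_ext`: `deg_exact` for `LinearMap.inl`, `LinearMap.snd` (`(x, 0) ∈ X.M P ↔ x ∈ E.M P`; for
  `b ∈ F.M P` the vector `(u P b, b)` is in `X.M P`).
* `ext_sub`: `J ≤ A × B`; `JA = J.comap (inl)`, `JB = J.map (snd)`. Let `p : J → JB` be the surjection
  `(a, b) ↦ b` and `F'` the image of `X.sub J` under `p` (`exists_image`). `F' ≤ F.sub JB`. The map
  `i : JA → J`, `a ↦ (a, 0)` is injective with range `ker p`; `deg_exact`. The map `J → A ⧸ JA`,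
  `(a, b) ↦ [a]` kills `ker p`, so it factors through a linear map `σ : JB → A ⧸ JA`
  (e.g. by `(ker p).liftQ` and `p.quotKerEquivOfSurjective`). For `b ∈ F'.M P` there is `a` with
  `(a, b) ∈ J ∩ X.M P`, so `a - u P b ∈ E.M P` and `[u P b] - σ b = -[a - u P b] ∈ (E.quo JA).M P`.
-/

set_option autoImplicit false

namespace Pool.Agent.MP_09eaec.G2

open Module

universe u v

variable {k : Type u} {K : Type v} [Field k] [Field K] [Algebra k K]
variable {W : Type v} [AddCommGroup W] [Module K W] [Module k W] [IsScalarTower k K W]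
variable {A : Type v} [AddCommGroup A] [Module K A] [Module k A] [IsScalarTower k K A]
variable {B : Type v} [AddCommGroup B] [Module K B] [Module k B] [IsScalarTower k K B]

variable [Curve2 k K]

private def ExtP (J : Submodule K (A × B)) : J →ₗ[K] J.map (LinearMap.snd K A B) :=
  (LinearMap.snd K A B).submoduleMap J

private def ExtI (J : Submodule K (A × B)) : J.comap (LinearMap.inl K A B) →ₗ[K] J :=
  (LinearMap.inl K A B ∘ₗ (J.comap (LinearMap.inl K A B)).subtype).codRestrict J (fun a => a.2)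

private lemma ExtP_apply (J : Submodule K (A × B)) (x : J) :
    ((ExtP J x : J.map (LinearMap.snd K A B)) : B) = (x : A × B).2 := rfl

private lemma ExtI_apply (J : Submodule K (A × B)) (a : J.comap (LinearMap.inl K A B)) :
    ((ExtI J a : J) : A × B) = ((a : A), (0 : B)) := rfl

private lemma ExtP_surj (J : Submodule K (A × B)) : Function.Surjective (ExtP J) :=
  LinearMap.submoduleMap_surjective _ _

private lemma ExtI_inj (J : Submodule K (A × B)) : Function.Injective (ExtI J) := by
  intro a b h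
  have h1 : ((ExtI J a : J) : A × B) = ((ExtI J b : J) : A × B) := by rw [h]
  rw [ExtI_apply, ExtI_apply] at h1
  exact Subtype.ext (Prod.ext_iff.1 h1).1

private lemma Ext_range_ker (J : Submodule K (A × B)) :
    LinearMap.range (ExtI J) = LinearMap.ker (ExtP J) := by
  ext x
  rw [LinearMap.mem_range, LinearMap.mem_ker]
  constructor
  · rintro ⟨a, rfl⟩
    apply Subtype.ext
    rw [ExtP_apply, ExtI_apply]
    rfl
  · intro h
    have h1 : (x : A × B).2 = 0 := by
      rw [← ExtP_apply, h]; rfl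
    have h2 : ((x : A × B).1, (0 : B)) = (x : A × B) := Prod.ext rfl h1.symm
    refine ⟨⟨(x : A × B).1, ?_⟩, ?_⟩
    · rw [Submodule.mem_comap]
      show ((x : A × B).1, (0 : B)) ∈ J
      rw [h2]; exact x.2
    · apply Subtype.ext
      rw [ExtI_apply]
      exact h2

theorem deg_ext [FiniteDimensional K A] [FiniteDimensional K B] (E : VB k K A) (F : VB k K B)
    (u : Place k K →₀ (B →ₗ[K] A)) : (ext E F u).deg = E.deg + F.deg := by
  refine VB.deg_exact (ext E F u) E F (LinearMap.inl K A B) (LinearMap.snd K A B)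
    LinearMap.inl_injective LinearMap.snd_surjective ?_ ?_ ?_
  · rw [LinearMap.range_inl]
  · intro P x
    rw [mem_ext]
    constructor
    · rintro ⟨_, h⟩
      simpa using h
    · intro h
      exact ⟨by simp, by simpa using h⟩
  · intro P y
    constructor
    · intro h
      exact ⟨(u P y, y), mem_ext.2 ⟨h, by simp⟩, rfl⟩
    · rintro ⟨x, hx, rfl⟩
      exact (mem_ext.1 hx).1

theorem ext_sub [FiniteDimensional K A] [FiniteDimensional K B] (E : VB k K A) (F : VB k K B)
    (u : Place k K →₀ (B →ₗ[K] A)) (J : Submodule K (A × B)) :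
    ∃ F' : VB k K (J.map (LinearMap.snd K A B)),
      F' ≤ F.sub (J.map (LinearMap.snd K A B)) ∧
      ((ext E F u).sub J).deg = (E.sub (J.comap (LinearMap.inl K A B))).deg + F'.deg ∧
      Null E (J.comap (LinearMap.inl K A B)) F' u := by
  obtain ⟨F', hF'⟩ := VB.exists_image ((ext E F u).sub J) (ExtP J) (ExtP_surj J)
  refine ⟨F', ?_, ?_, ?_⟩
  · intro P y hy
    obtain ⟨x, hx, rfl⟩ := (hF' P y).1 hy
    exact (mem_ext.1 (VB.mem_sub.1 hx)).1
  · refine VB.deg_exact _ _ F' (ExtI J) (ExtP J) (ExtI_inj J) (ExtP_surj J) (Ext_range_ker J) ?_ hF'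
    intro P x
    rw [VB.mem_sub, VB.mem_sub, mem_ext, ExtI_apply]
    constructor
    · rintro ⟨_, h⟩
      simpa using h
    · intro h
      exact ⟨by simp, by simpa using h⟩
  · let τ : J →ₗ[K] (A ⧸ J.comap (LinearMap.inl K A B)) :=
      (J.comap (LinearMap.inl K A B)).mkQ ∘ₗ LinearMap.fst K A B ∘ₗ J.subtype
    have hτ : LinearMap.ker (ExtP J) ≤ LinearMap.ker τ := by
      rw [← Ext_range_ker]
      rintro _ ⟨a, rfl⟩
      rw [LinearMap.mem_ker]
      show (J.comap (LinearMap.inl K A B)).mkQ (a : A) = 0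
      rw [Submodule.mkQ_apply, Submodule.Quotient.mk_eq_zero]
      exact a.2
    let σ : J.map (LinearMap.snd K A B) →ₗ[K] (A ⧸ J.comap (LinearMap.inl K A B)) :=
      (LinearMap.ker (ExtP J)).liftQ τ hτ ∘ₗ
        ((ExtP J).quotKerEquivOfSurjective (ExtP_surj J)).symm.toLinearMap
    have hσ : ∀ x : J, σ (ExtP J x) = τ x := by
      intro x
      have h1 : ((ExtP J).quotKerEquivOfSurjective (ExtP_surj J)).symm (ExtP J x) =
          Submodule.Quotient.mk x := by
        rw [LinearEquiv.symm_apply_eq]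
        rfl
      show (LinearMap.ker (ExtP J)).liftQ τ hτ
        (((ExtP J).quotKerEquivOfSurjective (ExtP_surj J)).symm (ExtP J x)) = τ x
      rw [h1]
      rfl
    refine ⟨σ, ?_⟩
    intro P b hb
    obtain ⟨x, hx, rfl⟩ := (hF' P b).1 hb
    rw [hσ]
    have h2 := (mem_ext.1 (VB.mem_sub.1 hx)).2
    refine VB.mem_quo.2 ⟨-((x : A × B).1 - u P (x : A × B).2), neg_mem h2, ?_⟩
    rw [neg_sub, map_sub]
    rfl

/-- The ranks. -/
theorem finrank_ext_sub [FiniteDimensional K A] [FiniteDimensional K B]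
    (J : Submodule K (A × B)) : finrank K J = finrank K (J.comap (LinearMap.inl K A B)) +
      finrank K (J.map (LinearMap.snd K A B)) := by
  have h1 := LinearMap.finrank_range_add_finrank_ker (ExtP J)
  have h2 : finrank K (LinearMap.range (ExtP J)) = finrank K (J.map (LinearMap.snd K A B)) := by
    rw [LinearMap.range_eq_top.2 (ExtP_surj J), finrank_top]
  have h3 : finrank K (LinearMap.ker (ExtP J)) = finrank K (J.comap (LinearMap.inl K A B)) := by
    rw [← Ext_range_ker, LinearMap.finrank_range_of_inj (ExtI_inj J)]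
  omega

/-- A subspace with `JB = ⊥` is `JA × 0`. -/
theorem eq_map_inl {J : Submodule K (A × B)} (h : J.map (LinearMap.snd K A B) = ⊥) :
    J = (J.comap (LinearMap.inl K A B)).map (LinearMap.inl K A B) := by
  ext x
  rw [Submodule.mem_map]
  constructor
  · intro hx
    have h1 : x.2 = 0 := by
      have : x.2 ∈ J.map (LinearMap.snd K A B) := ⟨x, hx, rfl⟩
      rw [h] at this
      exact (Submodule.mem_bot K).1 this
    have h2 : (x.1, (0 : B)) = x := Prod.ext rfl h1.symm
    refine ⟨x.1, ?_, h2⟩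
    rw [Submodule.mem_comap]
    show (x.1, (0 : B)) ∈ J
    rw [h2]; exact hx
  · rintro ⟨a, ha, rfl⟩
    exact ha

/-- A subspace with `JA = ⊤`, `JB = ⊤` is everything. -/
theorem eq_top_of {J : Submodule K (A × B)} (h : J.comap (LinearMap.inl K A B) = ⊤)
    (h' : J.map (LinearMap.snd K A B) = ⊤) : J = ⊤ := by
  rw [eq_top_iff]
  rintro x -
  have h1 : x.2 ∈ J.map (LinearMap.snd K A B) := by rw [h']; trivial
  obtain ⟨y, hy, hyx⟩ := h1
  have h2 : x.1 - y.1 ∈ J.comap (LinearMap.inl K A B) := by rw [h]; trivial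
  have h3 : ((x.1 - y.1, (0 : B)) : A × B) ∈ J := h2
  have h4 : x = (x.1 - y.1, (0 : B)) + y := by
    refine Prod.ext ?_ ?_
    · simp
    · simp only [Prod.snd_add, zero_add]
      exact hyx.symm
  rw [h4]
  exact add_mem h3 hy

/-- A subspace with `JA = ⊥`, `JB = ⊥` is zero. -/
theorem eq_bot_of {J : Submodule K (A × B)} (h : J.comap (LinearMap.inl K A B) = ⊥)
    (h' : J.map (LinearMap.snd K A B) = ⊥) : J = ⊥ := by
  rw [eq_map_inl h', h, Submodule.map_bot]

end Pool.Agent.MP_09eaec.G2
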