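import Pool.Agent.Lib.MP_09eaec_ag.G2.HomDeg

/-!
# TASK A13: generic extension classes

* `null_iff`: `Null E J F u` iff the family `P ↦ J.mkQ ∘ u P ∘ L.subtype` (`Finsupp.mapRange` of the
  linear map `restr J L`) is in `N (hom F (E.quo J))` (unfold; `mem_hom`).
* `exists_generic`: for each `i` the set `{u | Null E (J i) (F i) u}` is the preimage of the submodule
  `N (hom (F i) (E.quo (J i)))` under the `k`-linear map `Finsupp.mapRange (restr (J i) (L i))`, which is
  surjective (`restr J L : (B →ₗ A) → (L →ₗ A ⧸ J)` is a surjective linear map: extend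
  `f : L → A ⧸ J` to `B` by `LinearMap.exists_extend` and lift along `J.mkQ` by a right inverse of
  `mkQ`, `LinearMap.exists_rightInverse_of_surjective`). So it is not `⊤`. `k` is infinite
  (algebraically closed: `IsAlgClosed.instInfinite`), so finitely many proper subspaces do not
  cover (`Subspace.exists_eq_top_of_iUnion_eq_univ` or a similar name).
-/

set_option autoImplicit false

namespace Pool.Agent.MP_09eaec.G2

open Module

universe u v

variable {k : Type u} {K : Type v} [Field k] [Field K] [Algebra k K]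
variable {W : Type v} [AddCommGroup W] [Module K W] [Module k W] [IsScalarTower k K W]
variable {A : Type v} [AddCommGroup A] [Module K A] [Module k A] [IsScalarTower k K A]
variable {B : Type v} [AddCommGroup B] [Module K B] [Module k B] [IsScalarTower k K B]

variable [Curve2 k K]

/-- `f ↦ J.mkQ ∘ f ∘ L.subtype`, as a `k`-linear map. -/
def restr (k : Type u) {K : Type v} [Field k] [Field K] [Algebra k K]
    {A : Type v} [AddCommGroup A] [Module K A] [Module k A] [IsScalarTower k K A]
    {B : Type v} [AddCommGroup B] [Module K B] [Module k B] [IsScalarTower k K B]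
    (J : Submodule K A) (L : Submodule K B) : (B →ₗ[K] A) →ₗ[k] (L →ₗ[K] (A ⧸ J)) where
  toFun f := J.mkQ ∘ₗ f ∘ₗ L.subtype
  map_add' f g := by ext x; simp
  map_smul' c f := by
    ext x
    simp only [LinearMap.comp_apply, LinearMap.smul_apply, RingHom.id_apply]
    exact LinearMap.map_smul_of_tower _ _ _

private lemma Generic_restr_surjective (J : Submodule K A) (L : Submodule K B) :
    Function.Surjective (restr k J L) := by
  intro f
  obtain ⟨g, hg⟩ := f.exists_extend
  obtain ⟨r, hr⟩ := LinearMap.exists_rightInverse_of_surjective J.mkQ J.range_mkQ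
  refine ⟨r ∘ₗ g, ?_⟩
  ext x
  show J.mkQ (r (g (x : B))) = f x
  have h1 : J.mkQ (r (g (x : B))) = g (x : B) := LinearMap.congr_fun hr (g (x : B))
  rw [h1]
  exact LinearMap.congr_fun hg x

theorem null_iff [FiniteDimensional K A] [FiniteDimensional K B] (E : VB k K A)
    (J : Submodule K A) {L : Submodule K B} (F : VB k K L) (u : Place k K →₀ (B →ₗ[K] A)) :
    Null E J F u ↔ u.mapRange (restr k J L) (map_zero _) ∈ (hom F (E.quo J)).N := by
  constructor
  · rintro ⟨σ, hσ⟩
    exact ⟨σ, fun P b hb => hσ P b hb⟩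
  · rintro ⟨σ, hσ⟩
    exact ⟨σ, fun P b hb => hσ P b hb⟩

theorem exists_generic [FiniteDimensional K A] [FiniteDimensional K B] (E : VB k K A)
    {ι : Type*} [Finite ι] (J : ι → Submodule K A) (L : ι → Submodule K B)
    (F : ∀ i, VB k K (L i)) (h : ∀ i, (hom (F i) (E.quo (J i))).N ≠ ⊤) :
    ∃ u : Place k K →₀ (B →ₗ[K] A), ∀ i, ¬ Null E (J i) (F i) u := by
  haveI := Curve.closed (k := k) (K := K)
  haveI : Infinite k := IsAlgClosed.instInfinite
  by_contra hcon
  push Not at hcon
  let S : ι → Submodule k (Place k K →₀ (B →ₗ[K] A)) := fun i =>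
    ((hom (F i) (E.quo (J i))).N).comap (Finsupp.mapRange.linearMap (restr k (J i) (L i)))
  have hS : ⋃ i, (S i : Set (Place k K →₀ (B →ₗ[K] A))) = Set.univ := by
    rw [Set.eq_univ_iff_forall]
    intro u
    obtain ⟨i, hi⟩ := hcon u
    exact Set.mem_iUnion.2 ⟨i, (null_iff E (J i) (F i) u).1 hi⟩
  obtain ⟨i, hi⟩ := Subspace.exists_eq_top_of_iUnion_eq_univ hS
  apply h i
  rw [eq_top_iff]
  intro a _
  obtain ⟨u, rfl⟩ := Finsupp.mapRange_surjective _ (map_zero (restr k (J i) (L i)))
    (Generic_restr_surjective (J i) (L i)) a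
  have : u ∈ S i := by rw [hi]; trivial
  exact this

/-- `Null` for a smaller subsheaf and a smaller quotient. -/
theorem Null.mono {E : VB k K A} {J J' : Submodule K A} {L : Submodule K B} {F F' : VB k K L}
    {u : Place k K →₀ (B →ₗ[K] A)} (h : Null E J F u) (hJ : J ≤ J') (hF : F' ≤ F) :
    Null E J' F' u := by
  obtain ⟨σ, hσ⟩ := h
  refine ⟨Submodule.factor hJ ∘ₗ σ, fun P b hb => ?_⟩
  obtain ⟨y, hy, hy'⟩ := hσ P b (hF P hb)
  refine ⟨y, hy, ?_⟩
  have h1 := congrArg (Submodule.factor hJ) hy'
  rw [map_sub] at h1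
  exact h1

end Pool.Agent.MP_09eaec.G2
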