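import Pool.Agent.Lib.MP_09eaec_ag.G2.Transport
import Pool.Agent.Lib.MP_09eaec_ag.G2.Generic
import Pool.Agent.Lib.MP_09eaec_ag.G2.Ext

/-!
# TASK B4: the chain for non integral slopes

`r ≥ 2`, `G` of type `(r, d)` from `hG`, `X` of type `(n, δ)` from `hX`, `r δ - d n = -1`, `e0(ρ, σ) = r σ - d ρ`.
The new bundle is `X' = ext X G u`.

CONDITIONS on `u` (`exists_generic`): `¬ Null X J (G.sub L) u` for the pairs
 (1) `(J, ⊤)`, `J ∈ X.exc r d` or `J = ⊥`;
 (2) `(⊥, L)`, `L ∈ G.exc r d`.
Admissible by `N_hom_ne_top`: (1) `r deg (X.quo J) - rank (X.quo J) d = e0(X) - e0(X.sub J)` is `0` or `-1`,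
and `< r rank (X.quo J)`, the rank is positive (`J ≠ ⊤`; for `J = ⊥` the rank is `n ≥ 1`). (2) `L` has rank
`s ≥ 1`, degree `σ`, `r σ = d s - 1`; `r (s δ - n σ) = s (d n - 1) - n (d s - 1) = n - s`, so
`s δ - n σ ≤ (n - s)/r < n ≤ s n`.

For `J ≤ A × B`, `J ≠ ⊥`, with `JA, JB, F', t` as in TASK B3 (CoprimeStep.lean):
`e0(X'.sub J) = e0(X.sub JA) + e0(G.sub JB) - r t`; `e0(X.sub JA) ≤ -1` or `JA = ⊥` (value `0`);
`e0(G.sub JB)` is `0` if `JB = ⊥` or `JB = ⊤`, otherwise `≤ -1`; `r t ≥ 2` if `t ≥ 1`.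
 * `JA = ⊥`: `JB ≠ ⊥`. `JB = ⊤`, `t = 0`: excluded by (1) with `J = ⊥`. `JB = ⊤`, `t ≥ 1`: `≤ -2`. `JB` proper:
   `≤ -1`, and `= -1` only if `t = 0`, `JB ∈ G.exc r d`: excluded by (2).
 * `JA ≠ ⊥`: `≤ -1`; `= -1` only if `e0(X.sub JA) = -1` and (`JB = ⊥`, or `JB = ⊤`, `t = 0`). In the second
   case `JA ∈ X.exc r d` is excluded by (1), so `JA = ⊤` and `J = ⊤`.
So `Neg X' r d`, and `X'.exc r d ⊆ {JA × 0 | JA ∈ X.exc r d ∪ {⊤}}` is finite (`eq_map_inl`). `HasX_of`.
-/

set_option autoImplicit false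

namespace Pool.Agent.MP_09eaec.G2

open Module

universe u v

variable {k : Type u} {K : Type v} [Field k] [Field K] [Algebra k K]
variable {W : Type v} [AddCommGroup W] [Module K W] [Module k W] [IsScalarTower k K W]
variable {A : Type v} [AddCommGroup A] [Module K A] [Module k A] [IsScalarTower k K A]
variable {B : Type v} [AddCommGroup B] [Module K B] [Module k B] [IsScalarTower k K B]

variable [Curve2 k K]

theorem chain_step {r n : ℕ} {d δ : ℤ} (hr : 2 ≤ r) (hn : 1 ≤ n) (hG : Q k K r d)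
    (hX : HasX k K r d n δ) (he : (r : ℤ) * δ - d * n = -1) : HasX k K r d (n + r) (δ + d) := by
  obtain ⟨G, hGd, hG1, hG2⟩ := hG
  obtain ⟨X, hXd, hX1, hX2⟩ := hX
  have hr' : (2 : ℤ) ≤ r := by exact_mod_cast hr
  have hn' : (1 : ℤ) ≤ n := by exact_mod_cast hn
  have hfA : finrank K (Fin n → K) = n := by simp
  have hfB : finrank K (Fin r → K) = r := by simp
  have := hX2.to_subtype
  have := hG2.to_subtype
  let Jf : (Option (X.exc r d)) ⊕ (G.exc r d) → Submodule K (Fin n → K) := fun i =>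
    match i with
    | Sum.inl none => ⊥
    | Sum.inl (some J) => J.1
    | Sum.inr _ => ⊥
  let Lf : (Option (X.exc r d)) ⊕ (G.exc r d) → Submodule K (Fin r → K) := fun i =>
    match i with
    | Sum.inl none => ⊤
    | Sum.inl (some _) => ⊤
    | Sum.inr L => L.1
  obtain ⟨u, hu⟩ := exists_generic X Jf Lf (fun i => G.sub (Lf i)) (by
    intro i
    apply N_hom_ne_top
    have hadd := X.deg_add (Jf i)
    have hfq : (finrank K ((Fin n → K) ⧸ Jf i) : ℤ) + finrank K (Jf i) = n := by
      have := Submodule.finrank_quotient_add_finrank (Jf i)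
      rw [hfA] at this
      exact_mod_cast this
    rcases i with (_ | J) | L
    · show (finrank K (⊤ : Submodule K (Fin r → K)) : ℤ) * (X.quo ⊥).deg -
        finrank K ((Fin n → K) ⧸ (⊥ : Submodule K (Fin n → K))) * (G.sub ⊤).deg < _
      have h1 : (finrank K ((Fin n → K) ⧸ (⊥ : Submodule K (Fin n → K))) : ℤ) = n := by
        have h2 : (finrank K ((Fin n → K) ⧸ (⊥ : Submodule K (Fin n → K))) : ℤ) +
          finrank K (⊥ : Submodule K (Fin n → K)) = n := hfq
        rw [finrank_bot] at h2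
        simpa using h2
      rw [VB.deg_quo_bot, VB.deg_sub_top, finrank_top, hfB, h1, hXd, hGd]
      have h3 : (0 : ℤ) < r * n := by positivity
      show (r : ℤ) * δ - n * d < (r : ℤ) * n
      linarith
    · obtain ⟨J, hJ0, hJt, hJe⟩ := J
      change (finrank K (⊤ : Submodule K (Fin r → K)) : ℤ) * (X.quo J).deg -
        finrank K ((Fin n → K) ⧸ J) * (G.sub ⊤).deg <
        (finrank K (⊤ : Submodule K (Fin r → K)) : ℤ) * finrank K ((Fin n → K) ⧸ J)
      change X.deg = (X.sub J).deg + (X.quo J).deg at hadd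
      change (finrank K ((Fin n → K) ⧸ J) : ℤ) + finrank K J = n at hfq
      rw [VB.deg_sub_top, finrank_top, hfB, hGd]
      have h2 : (finrank K J : ℤ) < n := by
        have := Submodule.finrank_lt hJt
        rw [hfA] at this
        exact_mod_cast this
      have h3 : (0 : ℤ) < finrank K ((Fin n → K) ⧸ J) := by linarith
      have h4 : (X.quo J).deg = δ - (X.sub J).deg := by rw [← hXd, hadd]; ring
      have h5 : (finrank K ((Fin n → K) ⧸ J) : ℤ) = n - finrank K J := by linarith
      have h6 : (r : ℤ) * (X.quo J).deg - finrank K ((Fin n → K) ⧸ J) * d = 0 := by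
        rw [h4, h5]
        linear_combination he - hJe
      rw [h6]
      positivity
    · obtain ⟨L, hL0, hLt, hLe⟩ := L
      change (finrank K L : ℤ) * (X.quo ⊥).deg -
        finrank K ((Fin n → K) ⧸ (⊥ : Submodule K (Fin n → K))) * (G.sub L).deg <
        (finrank K L : ℤ) * finrank K ((Fin n → K) ⧸ (⊥ : Submodule K (Fin n → K)))
      have h1 : (finrank K ((Fin n → K) ⧸ (⊥ : Submodule K (Fin n → K))) : ℤ) = n := by
        have h2 : (finrank K ((Fin n → K) ⧸ (⊥ : Submodule K (Fin n → K))) : ℤ) +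
          finrank K (⊥ : Submodule K (Fin n → K)) = n := hfq
        rw [finrank_bot] at h2
        simpa using h2
      rw [VB.deg_quo_bot, h1, hXd]
      have hs : (1 : ℤ) ≤ finrank K L := by
        have := Submodule.one_le_finrank_iff.mpr hL0
        exact_mod_cast this
      have hk : (r : ℤ) * ((finrank K L : ℤ) * δ - n * (G.sub L).deg) = n - finrank K L := by
        linear_combination (finrank K L : ℤ) * he - (n : ℤ) * hLe
      by_contra hcon
      rw [not_lt] at hcon
      have h7 : (r : ℤ) * ((finrank K L : ℤ) * n) ≤ n - finrank K L := by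
        rw [← hk]
        exact mul_le_mul_of_nonneg_left hcon (by linarith)
      have h8 : (n : ℤ) ≤ (finrank K L : ℤ) * n := by nlinarith
      nlinarith)
  have hu1 : ¬ Null X ⊥ (G.sub ⊤) u := hu (Sum.inl none)
  have hu2 : ∀ J ∈ X.exc r d, ¬ Null X J (G.sub ⊤) u := fun J hJ => hu (Sum.inl (some ⟨J, hJ⟩))
  have hu3 : ∀ L ∈ G.exc r d, ¬ Null X ⊥ (G.sub L) u := fun L hL => hu (Sum.inr ⟨L, hL⟩)
  have key : ∀ J : Submodule K ((Fin n → K) × (Fin r → K)), J ≠ ⊥ →
      (r : ℤ) * ((ext X G u).sub J).deg - d * finrank K J ≤ -1 ∧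
      ((r : ℤ) * ((ext X G u).sub J).deg - d * finrank K J = -1 → J ≠ ⊤ →
        J.map (LinearMap.snd K (Fin n → K) (Fin r → K)) = ⊥ ∧
        (J.comap (LinearMap.inl K (Fin n → K) (Fin r → K)) ∈ X.exc r d ∨
          J.comap (LinearMap.inl K (Fin n → K) (Fin r → K)) = ⊤)) := by
    intro J hJ
    obtain ⟨F', hF', hdeg, hnull⟩ := ext_sub X G u J
    have hfr := finrank_ext_sub (K := K) J
    have hbot := eq_bot_of (K := K) (J := J)
    have htop := eq_top_of (K := K) (J := J)
    have ht0 := VB.deg_le_of_le hF'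
    have ht1 : (G.sub (J.map (LinearMap.snd K (Fin n → K) (Fin r → K)))).deg ≤ F'.deg →
        Null X (J.comap (LinearMap.inl K (Fin n → K) (Fin r → K)))
          (G.sub (J.map (LinearMap.snd K (Fin n → K) (Fin r → K)))) u := by
      intro h
      rw [← VB.eq_of_le_of_deg_le hF' h]
      exact hnull
    clear hnull hF'
    rw [hdeg, hfr]
    generalize J.comap (LinearMap.inl K (Fin n → K) (Fin r → K)) = JA at *
    generalize F'.deg = f at *
    clear F'
    generalize J.map (LinearMap.snd K (Fin n → K) (Fin r → K)) = JB at *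
    push_cast
    -- values
    have hB : (JB = ⊥ ∨ JB = ⊤) ∧ (r : ℤ) * (G.sub JB).deg - d * finrank K JB = 0 ∨
        (JB ≠ ⊥ ∧ JB ≠ ⊤) ∧ (r : ℤ) * (G.sub JB).deg - d * finrank K JB ≤ -1 := by
      by_cases h1 : JB = ⊥
      · left
        refine ⟨Or.inl h1, ?_⟩
        rw [h1, VB.deg_sub_bot, finrank_bot]
        simp
      · by_cases h2 : JB = ⊤
        · left
          refine ⟨Or.inr h2, ?_⟩
          rw [h2, VB.deg_sub_top, finrank_top, hfB, hGd]
          ring
        · exact Or.inr ⟨⟨h1, h2⟩, hG1 JB h1 h2⟩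
    have hrt : (r : ℤ) * ((G.sub JB).deg - f) ≥ 0 := mul_nonneg (by linarith) (by linarith)
    have hrt1 : f < (G.sub JB).deg → (r : ℤ) * ((G.sub JB).deg - f) ≥ 2 := by
      intro h
      have : 1 ≤ (G.sub JB).deg - f := by omega
      nlinarith
    have hexp : (r : ℤ) * ((X.sub JA).deg + f) - d * (finrank K JA + finrank K JB) =
        ((r : ℤ) * (X.sub JA).deg - d * finrank K JA) +
        ((r : ℤ) * (G.sub JB).deg - d * finrank K JB) - (r : ℤ) * ((G.sub JB).deg - f) := by
      ring
    rw [hexp]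
    by_cases hA : JA = ⊥
    · have hA0 : (r : ℤ) * (X.sub JA).deg - d * finrank K JA = 0 := by
        rw [hA, VB.deg_sub_bot, finrank_bot]
        simp
      rw [hA0]
      rcases hB with ⟨h1 | h1, h2⟩ | ⟨⟨h1, h1'⟩, h2⟩
      · exact absurd (hbot hA h1) hJ
      · have h3 : f < (G.sub JB).deg := by
          by_contra h4
          rw [not_lt] at h4
          have h5 := ht1 h4
          rw [hA, h1] at h5
          exact hu1 h5
        have := hrt1 h3
        rw [h2]
        exact ⟨by linarith, fun h => by linarith⟩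
      · refine ⟨by linarith, fun h _ => ?_⟩
        exfalso
        have h3 : ¬ f < (G.sub JB).deg := fun h4 => by
          have := hrt1 h4
          linarith
        have h4 := ht1 (not_lt.mp h3)
        rw [hA] at h4
        have h5 : f = (G.sub JB).deg := le_antisymm ht0 (not_lt.mp h3)
        rw [h5, sub_self, mul_zero] at h
        exact hu3 JB ⟨h1, h1', by linarith⟩ h4
    · have hA1 := hX1 JA hA
      rcases hB with ⟨h1, h2⟩ | ⟨⟨h1, h1'⟩, h2⟩
      · rw [h2]
        refine ⟨by linarith, fun h hJt => ?_⟩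
        have h3 : ¬ f < (G.sub JB).deg := fun h4 => by
          have := hrt1 h4
          linarith
        have h4 := ht1 (not_lt.mp h3)
        have h5 : f = (G.sub JB).deg := le_antisymm ht0 (not_lt.mp h3)
        rw [h5, sub_self, mul_zero] at h
        have h6 : JA ∈ X.exc r d ∨ JA = ⊤ := by
          by_cases h7 : JA = ⊤
          · exact Or.inr h7
          · exact Or.inl ⟨hA, h7, by linarith⟩
        rcases h1 with h1 | h1
        · exact ⟨h1, h6⟩
        · exfalso
          rcases h6 with h6 | h6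
          · rw [h1] at h4
            exact hu2 JA h6 h4
          · exact hJt (htop h6 h1)
      · refine ⟨by linarith, fun h _ => ?_⟩
        exfalso
        linarith
  refine HasX_of (ext X G u) ?_ ?_ (fun J hJ => (key J hJ).1) ?_
  · rw [Module.finrank_prod, hfA, hfB]
  · rw [deg_ext, hXd, hGd]
  · refine Set.Finite.subset ((hX2.union (Set.finite_singleton (⊤ : Submodule K (Fin n → K)))).image
      (fun J => J.map (LinearMap.inl K (Fin n → K) (Fin r → K)))) ?_
    intro J hJ
    obtain ⟨hJ0, hJt, hJe⟩ := hJ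
    obtain ⟨h1, h2⟩ := (key J hJ0).2 hJe hJt
    exact ⟨_, h2, (eq_map_inl h1).symm⟩

end Pool.Agent.MP_09eaec.G2
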