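import Pool.Agent.Lib.MP_09eaec_ag.G2.Basic

/-!
# Cohomology, Euler characteristic, degree, stability
-/

set_option autoImplicit false

namespace Pool.Agent.MP_09eaec.G2

open Module

universe u v

variable {k : Type u} {K : Type v} [Field k] [Field K] [Algebra k K]
variable {W : Type v} [AddCommGroup W] [Module K W] [Module k W] [IsScalarTower k K W]
variable {A : Type v} [AddCommGroup A] [Module K A] [Module k A] [IsScalarTower k K A]
variable {B : Type v} [AddCommGroup B] [Module K B] [Module k B] [IsScalarTower k K B]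

namespace VB

/-- The global sections. -/
def H0 (E : VB k K W) : Submodule k W := ⨅ P, E.M P

lemma mem_H0 {E : VB k K W} {x : W} : x ∈ E.H0 ↔ ∀ P, x ∈ E.M P := Submodule.mem_iInf _

/-- The finite families `(a_P)` which are, up to one global vector `w`, in all the stalks. -/
def N (E : VB k K W) : Submodule k (Place k K →₀ W) where
  carrier := {a | ∃ w : W, ∀ P, a P - w ∈ E.M P}
  add_mem' := by
    rintro a b ⟨w, hw⟩ ⟨z, hz⟩
    refine ⟨w + z, fun P => ?_⟩
    have := add_mem (hw P) (hz P)
    rw [Finsupp.add_apply, add_sub_add_comm]; exact this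
  zero_mem' := ⟨0, fun P => by simp⟩
  smul_mem' := by
    rintro c a ⟨w, hw⟩
    refine ⟨c • w, fun P => ?_⟩
    rw [Finsupp.smul_apply, ← smul_sub]
    exact (E.M P).smul_mem c (hw P)

lemma mem_N {E : VB k K W} {a : Place k K →₀ W} : a ∈ E.N ↔ ∃ w : W, ∀ P, a P - w ∈ E.M P :=
  Iff.rfl

/-- The first cohomology `H¹(E) = (⊕_P W) / N`. -/
abbrev H1 (E : VB k K W) : Type v := (Place k K →₀ W) ⧸ E.N

/-- `h⁰`. -/
noncomputable def h0 (E : VB k K W) : ℤ := finrank k E.H0

/-- `h¹`. -/
noncomputable def h1 (E : VB k K W) : ℤ := finrank k E.H1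

/-- The Euler characteristic. -/
noncomputable def chi (E : VB k K W) : ℤ := E.h0 - E.h1

/-- The degree of a vector bundle on a curve of genus two: `χ + rank`. -/
noncomputable def deg (E : VB k K W) : ℤ := E.chi + finrank K W

/-- `E'` is obtained from `E` by adding the vector `x` to the stalk at the point `P0`. -/
structure OneStep (E E' : VB k K W) (P0 : Place k K) (x : W) : Prop where
  le : E ≤ E'
  eq : ∀ P, P ≠ P0 → E.M P = E'.M P
  mem : x ∈ E'.M P0
  notMem : x ∉ E.M P0
  span : ∀ y ∈ E'.M P0, ∃ c : k, y - c • x ∈ E.M P0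

/-- Stability. -/
def Stable (E : VB k K W) : Prop :=
  ∀ J : Submodule K W, J ≠ ⊥ → J ≠ ⊤ → (finrank K W : ℤ) * (E.sub J).deg < finrank K J * E.deg

/-- The proper subspaces `J` with `r deg (E ∩ J) - d rank J = -1`. -/
def exc (E : VB k K W) (r d : ℤ) : Set (Submodule K W) :=
  {J | J ≠ ⊥ ∧ J ≠ ⊤ ∧ r * (E.sub J).deg - d * finrank K J = -1}

/-- `α`-stability of the coherent system `(E, V)`, in terms of the subspaces of the generic
fibre. -/
def StableSys (α : ℝ) (E : VB k K W) (V : Submodule k W) : Prop :=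
  ∀ J : Submodule K W, J ≠ ⊥ → J ≠ ⊤ →
    (((E.sub J).deg : ℝ) + α * finrank k ↥(V ⊓ J.restrictScalars k)) / finrank K J <
      ((E.deg : ℝ) + α * finrank k V) / finrank K W

end VB

/-- The class of `u` vanishes on the subsheaf `F` (with generic fibre `L ⊆ B`) and the quotient
`E / (E ∩ J)`. -/
def Null (E : VB k K A) (J : Submodule K A) {L : Submodule K B} (F : VB k K L)
    (u : Place k K →₀ (B →ₗ[K] A)) : Prop :=
  ∃ σ : L →ₗ[K] (A ⧸ J), ∀ (P : Place k K) (b : L), b ∈ F.M P →
    J.mkQ (u P (b : B)) - σ b ∈ (E.quo J).M P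

/-- The extension `0 → E → X → F → 0` defined by `u`. -/
def ext (E : VB k K A) (F : VB k K B) (u : Place k K →₀ (B →ₗ[K] A)) : VB k K (A × B) where
  M P :=
    { carrier := {x | x.2 ∈ F.M P ∧ x.1 - u P x.2 ∈ E.M P}
      add_mem' := by
        rintro x y ⟨hx, hx'⟩ ⟨hy, hy'⟩
        refine ⟨add_mem hx hy, ?_⟩
        have := add_mem hx' hy'
        rw [Prod.fst_add, Prod.snd_add, map_add, add_sub_add_comm]; exact this
      zero_mem' := ⟨zero_mem _, by simp⟩
      smul_mem' := by
        rintro c x ⟨hx, hx'⟩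
        refine ⟨(F.M P).smul_mem c hx, ?_⟩
        have := (E.M P).smul_mem c hx'
        rw [smul_sub] at this
        rw [Prod.smul_fst, Prod.smul_snd]
        rw [LinearMap.map_smul_of_tower]
        exact this }
  smul_mem P c x hc hx := by
    obtain ⟨hx, hx'⟩ := hx
    refine ⟨F.smul_mem P c _ hc hx, ?_⟩
    have := E.smul_mem P c _ hc hx'
    rw [smul_sub] at this
    rw [Prod.smul_fst, Prod.smul_snd, map_smul]
    exact this
  lower w := by
    classical
    obtain ⟨e1, h1⟩ := E.lower w.1
    obtain ⟨e2, h2⟩ := F.lower w.2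
    choose e3 h3 using fun P : u.support => E.lower (w.1 - u P w.2)
    obtain ⟨e, he⟩ := exists_ub (fun i : Option (Option u.support) => match i with
      | none => e1
      | some none => e2
      | some (some P) => e3 P)
    refine ⟨e, fun P c hc => ⟨h2 P c (filt_mono P (he (some none) P) hc), ?_⟩⟩
    rw [Prod.smul_fst, Prod.smul_snd, map_smul, ← smul_sub]
    by_cases hP : P ∈ u.support
    · exact h3 ⟨P, hP⟩ P c (filt_mono P (he (some (some ⟨P, hP⟩)) P) hc)
    · rw [Finsupp.notMem_support_iff.1 hP]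
      simp only [LinearMap.zero_apply, sub_zero]
      exact h1 P c (filt_mono P (he none P) hc)
  upper φ := by
    classical
    obtain ⟨e1, h1⟩ := E.upper (φ ∘ₗ LinearMap.inl K A B)
    obtain ⟨e2, h2⟩ := F.upper (φ ∘ₗ LinearMap.inr K A B)
    choose e3 h3 using fun P : u.support => F.upper (φ ∘ₗ LinearMap.inl K A B ∘ₗ u P)
    obtain ⟨e, he⟩ := exists_lb (fun i : Option (Option u.support) => match i with
      | none => e1
      | some none => e2
      | some (some P) => e3 P)
    refine ⟨e, fun P x hx => ?_⟩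
    obtain ⟨hx, hx'⟩ := hx
    have h4 : φ x = φ (x.1 - u P x.2, 0) + φ (u P x.2, 0) + φ (0, x.2) := by
      rw [← map_add, ← map_add]; simp
    rw [h4]
    refine add_mem (add_mem ?_ ?_) ?_
    · exact filt_mono P (he none P) (h1 P _ hx')
    · by_cases hP : P ∈ u.support
      · exact filt_mono P (he (some (some ⟨P, hP⟩)) P) (h3 ⟨P, hP⟩ P _ hx)
      · rw [Finsupp.notMem_support_iff.1 hP]
        simp only [LinearMap.zero_apply]
        rw [Prod.mk_zero_zero, map_zero]; exact zero_mem _
    · exact filt_mono P (he (some none) P) (h2 P _ hx)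

lemma mem_ext {E : VB k K A} {F : VB k K B} {u : Place k K →₀ (B →ₗ[K] A)} {P : Place k K}
    {x : A × B} : x ∈ (ext E F u).M P ↔ x.2 ∈ F.M P ∧ x.1 - u P x.2 ∈ E.M P := Iff.rfl

/-- A curve of genus two: the Riemann inequality `h⁰(O(D)) ≥ deg D - 1` holds for all divisors and
is an equality for some divisor. -/
class Curve2 (k : Type u) (K : Type v) [Field k] [Field K] [Algebra k K] : Prop
    extends Curve k K where
  riemann : ∀ D : Dv k K, ddeg D - 1 ≤ (line D).h0
  attained : ∃ D : Dv k K, (line D).h0 = ddeg D - 1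

end Pool.Agent.MP_09eaec.G2
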