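import Mathlib

/-!
# TASK B2: arithmetic of Farey parents

`r = a + c`, `d = b + e`, `a e - c b = 1`. All by `nlinarith` / `linarith` / parity-free integer
arithmetic:
* `num_A`: `a (r σ - d ρ) = r (a σ - b ρ) - ρ` (since `d a = r b + 1`), and `a σ - b ρ ≤ -1`. So
  `a (r σ - d ρ) ≤ -r - ρ < -a`, hence `r σ - d ρ ≤ -2`. If `= -2`: with `y = a σ - b ρ`: `ρ = 2a + r y`,
  `y = -1` (for `y ≤ -2`: `ρ ≤ 2a - 2r < 0`), `ρ = a - c`.
* `num_B`: `c (r σ - d ρ) = r (c σ - e ρ) + ρ` (since `r e = d c + 1`), `c σ - e ρ ≤ -1`, `ρ < c`: negative. If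
  `r σ - d ρ = -1`: with `y = c σ - e ρ`: `-c = r y + ρ`, `y = -1`, `ρ = a`.
* `num_A_quo`: the type of the quotient is `(c, e)`: `a σ = b ρ - 1`, `ρ = a - c` give `a σ = a (b - e)`.
* `num_B_sub`: `c σ = e a - 1 = c b`.
* `exists_parents`: `r ≥ 2` coprime to `d`: `d` has an inverse `a` modulo `r`, `1 ≤ a < r`, `a d = r b + 1`;
  `c = r - a`, `e = d - b`.
-/

set_option autoImplicit false

namespace Pool.Agent.MP_09eaec.G2

theorem num_A {a c b e ρ σ : ℤ} (ha : 1 ≤ a) (hc : 1 ≤ c) (hdet : a * e - c * b = 1) (hρ : 1 ≤ ρ)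
    (hρa : ρ < a) (h : a * σ - b * ρ ≤ -1) :
    (a + c) * σ - (b + e) * ρ ≤ -2 ∧
      ((a + c) * σ - (b + e) * ρ = -2 → ρ = a - c ∧ a * σ - b * ρ = -1 ∧ σ = b - e) := by
  have key : a * ((a + c) * σ - (b + e) * ρ) = (a + c) * (a * σ - b * ρ) - ρ := by
    linear_combination (-ρ) * hdet
  refine ⟨?_, fun hX => ?_⟩
  · by_contra hcon
    push Not at hcon
    have h1 : -1 ≤ (a + c) * σ - (b + e) * ρ := by omega
    nlinarith [mul_le_mul_of_nonneg_left h1 (by omega : (0 : ℤ) ≤ a),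
      mul_le_mul_of_nonneg_left h (by omega : (0 : ℤ) ≤ a + c)]
  · rw [hX] at key
    have hy : a * σ - b * ρ = -1 := by
      by_contra hne
      have h2 : a * σ - b * ρ ≤ -2 := by omega
      nlinarith [mul_le_mul_of_nonneg_left h2 (by omega : (0 : ℤ) ≤ a + c)]
    rw [hy] at key
    have hρ' : ρ = a - c := by linarith
    refine ⟨hρ', hy, ?_⟩
    have h3 : a * σ = a * (b - e) := by
      rw [hρ'] at hy
      linear_combination hy + hdet
    exact mul_left_cancel₀ (by omega) h3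

theorem num_B {a c b e ρ σ : ℤ} (ha : 1 ≤ a) (hc : 1 ≤ c) (hdet : a * e - c * b = 1) (hρ : 1 ≤ ρ)
    (hρc : ρ < c) (h : c * σ - e * ρ ≤ -1) :
    (a + c) * σ - (b + e) * ρ ≤ -1 ∧
      ((a + c) * σ - (b + e) * ρ = -1 → ρ = a ∧ c * σ - e * ρ = -1 ∧ σ = b) := by
  have key : c * ((a + c) * σ - (b + e) * ρ) = (a + c) * (c * σ - e * ρ) + ρ := by
    linear_combination ρ * hdet
  refine ⟨?_, fun hX => ?_⟩
  · by_contra hcon
    push Not at hcon
    have h1 : 0 ≤ (a + c) * σ - (b + e) * ρ := by omega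
    nlinarith [mul_le_mul_of_nonneg_left h1 (by omega : (0 : ℤ) ≤ c),
      mul_le_mul_of_nonneg_left h (by omega : (0 : ℤ) ≤ a + c)]
  · rw [hX] at key
    have hy : c * σ - e * ρ = -1 := by
      by_contra hne
      have h2 : c * σ - e * ρ ≤ -2 := by omega
      nlinarith [mul_le_mul_of_nonneg_left h2 (by omega : (0 : ℤ) ≤ a + c)]
    rw [hy] at key
    have hρ' : ρ = a := by linarith
    refine ⟨hρ', hy, ?_⟩
    have h3 : c * σ = c * b := by
      rw [hρ'] at hy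
      linear_combination hy + hdet
    exact mul_left_cancel₀ (by omega) h3

theorem exists_parents {r : ℕ} {d : ℤ} (hr : 2 ≤ r) (h : IsCoprime (r : ℤ) d) :
    ∃ (a c : ℕ) (b e : ℤ), 1 ≤ a ∧ 1 ≤ c ∧ a + c = r ∧ b + e = d ∧ (a : ℤ) * e - c * b = 1 ∧
      IsCoprime (a : ℤ) b ∧ IsCoprime (c : ℤ) e := by
  obtain ⟨u, v, huv⟩ := h
  have hr0 : (0 : ℤ) < r := by exact_mod_cast (by omega : 0 < r)
  have h0 := Int.emod_nonneg v hr0.ne'
  have h1 := Int.emod_lt_of_pos v hr0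
  have h2 := Int.emod_add_mul_ediv v r
  obtain ⟨a, ha⟩ := Int.eq_ofNat_of_zero_le h0
  rw [ha] at h1 h2
  have ha1 : 1 ≤ a := by
    by_contra hcon
    have h3 : a = 0 := by omega
    subst h3
    have h2' : (r : ℤ) * (v / r) = v := by simpa using h2
    have h4 : (r : ℤ) ∣ 1 := ⟨u + v / r * d, by linear_combination (-1 : ℤ) * huv - d * h2'⟩
    have h5 := Int.le_of_dvd one_pos h4
    have h6 : r ≤ 1 := by exact_mod_cast h5
    omega
  have har : a < r := by exact_mod_cast h1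
  have hc : ((r - a : ℕ) : ℤ) = r - a := by
    push_cast [Nat.cast_sub har.le]
    ring
  have hdet : (a : ℤ) * (d - (-u - v / r * d)) - ((r - a : ℕ) : ℤ) * (-u - v / r * d) = 1 := by
    rw [hc]
    linear_combination huv + d * h2
  refine ⟨a, r - a, -u - v / r * d, d - (-u - v / r * d), ha1, by omega, by omega, by ring,
    hdet, ?_, ?_⟩
  · exact ⟨d - (-u - v / r * d), -((r - a : ℕ) : ℤ), by linear_combination hdet⟩
  · exact ⟨-(-u - v / r * d), a, by linear_combination hdet⟩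

end Pool.Agent.MP_09eaec.G2
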