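import Pool.Agent.Lib.MP_09eaec_ag.G2.Transport
import Pool.Agent.Lib.MP_09eaec_ag.G2.CoprimeNum
import Pool.Agent.Lib.MP_09eaec_ag.G2.Generic
import Pool.Agent.Lib.MP_09eaec_ag.G2.Ext

/-!
# TASK B3: the Farey step

`E` of type `(a, b)`, `F` of type `(c, e)` from `hA`, `hB`; `r = a + c ≥ 3`, `d = b + e`, write
`e0(ρ, σ) = r σ - d ρ` for a bundle of rank `ρ`, degree `σ`. `e0(a, b) = -1`, `e0(c, e) = 1`.

CONDITIONS on `u` (`exists_generic`, finite index type): `¬ Null E J (F.sub L) u` for the pairs `(J, L)`: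
 (1) `(⊥, ⊤)`;
 (2) `(⊥, L)`, `L ∈ F.exc c e` with `finrank L = a` (then `(F.sub L).deg = b` by `num_B`, or directly:
     `c σ = e a - 1 = c b`);
 (3) `(J, ⊤)`, `J ∈ E.exc a b` with `finrank J = a - c` (then `(E.quo J).deg = e`, rank `c`).
They are admissible by `N_hom_ne_top`: (1) `c b - a e = -1 < c a`. (2) `a b - a b = 0 < a a`. (3)
`c e - c e = 0 < c c`. (`deg_sub_top`, `deg_quo_bot`, `deg_add`.)

Let `X = ext E F u`, `J ≤ A × B`, `J ≠ ⊥, ⊤`, `JA = J.comap inl`, `JB = J.map snd`, and `F'` from `ext_sub`;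
`t = (F.sub JB).deg - F'.deg ≥ 0` (`deg_le_of_le`), and if `t = 0` then `F' = F.sub JB`
(`eq_of_le_of_deg_le`) so `Null E JA (F.sub JB) u`. `e0(X.sub J) = e0(E.sub JA) + e0(F.sub JB) - r t`.
 * `e0(E.sub JA)`: `0` if `JA = ⊥`; `-1` if `JA = ⊤`; otherwise `≤ -2`, and `= -2` only if `JA` is in (3)
   (`num_A`).
 * `e0(F.sub JB)`: `0` if `JB = ⊥`; `1` if `JB = ⊤`; otherwise `≤ -1`, and `= -1` only if `JB` is in (2).
 * if `t ≥ 1` then `e0(F.sub JB) - r t ≤ 1 - r ≤ -2`.
So `e0(X.sub J) ≤ -1`, with equality only for `JA = ⊤, JB = ⊥`, i.e. `J = A × 0` (`eq_map_inl`):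
 * `JA = ⊥`: `JB = ⊥` gives `J = ⊥` (`eq_bot_of`); `JB = ⊤`, `t = 0` contradicts (1); `JB = ⊤`, `t ≥ 1`: `≤ -2`;
   `JB` proper: `≤ -1`, and `= -1` only if `t = 0` and `JB` in (2): excluded.
 * `JA = ⊤`: `JB = ⊥`: `-1`, `J = A × 0`; `JB = ⊤`: `J = ⊤` if `t = 0` (in any case `eq_top_of`); `JB` proper: `≤ -2`.
 * `JA` proper: `≤ -2` plus `e0(F') ≤ 1`; `= -1` only if `JB = ⊤`, `t = 0`, `JA` in (3): excluded.
Then `Q_of`.
-/

set_option autoImplicit false

namespace Pool.Agent.MP_09eaec.G2

open Module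

universe u v

variable {k : Type u} {K : Type v} [Field k] [Field K] [Algebra k K]
variable {W : Type v} [AddCommGroup W] [Module K W] [Module k W] [IsScalarTower k K W]
variable {A : Type v} [AddCommGroup A] [Module K A] [Module k A] [IsScalarTower k K A]
variable {B : Type v} [AddCommGroup B] [Module K B] [Module k B] [IsScalarTower k K B]

variable [Curve2 k K]

theorem coprime_step {a c : ℕ} {b e : ℤ} (ha : 1 ≤ a) (hc : 1 ≤ c) (hac : 3 ≤ a + c)
    (hdet : (a : ℤ) * e - c * b = 1) (hA : Q k K a b) (hB : Q k K c e) :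
    Q k K (a + c) (b + e) := by
  obtain ⟨E, hEd, hEs, hEf⟩ := hA
  obtain ⟨F, hFd, hFs, hFf⟩ := hB
  have haz : (1 : ℤ) ≤ a := by exact_mod_cast ha
  have hcz : (1 : ℤ) ≤ c := by exact_mod_cast hc
  have hacz : (3 : ℤ) ≤ a + c := by exact_mod_cast hac
  have hrA : finrank K (Fin a → K) = a := Module.finrank_fin_fun K
  have hrB : finrank K (Fin c → K) = c := Module.finrank_fin_fun K
  -- the exceptional subspaces
  have hfin1 : Finite {J : Submodule K (Fin a → K) //
      J ∈ E.exc a b ∧ (finrank K J : ℤ) = a - c} :=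
    (hEf.subset (fun J hJ => hJ.1 : {J : Submodule K (Fin a → K) |
      J ∈ E.exc a b ∧ (finrank K J : ℤ) = a - c} ⊆ E.exc a b)).to_subtype
  have hfin2 : Finite {L : Submodule K (Fin c → K) //
      L ∈ F.exc c e ∧ (finrank K L : ℤ) = a} :=
    (hFf.subset (fun J hJ => hJ.1 : {L : Submodule K (Fin c → K) |
      L ∈ F.exc c e ∧ (finrank K L : ℤ) = a} ⊆ F.exc c e)).to_subtype
  let ι := Option ({J : Submodule K (Fin a → K) // J ∈ E.exc a b ∧ (finrank K J : ℤ) = a - c} ⊕
    {L : Submodule K (Fin c → K) // L ∈ F.exc c e ∧ (finrank K L : ℤ) = a})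
  let Jf : ι → Submodule K (Fin a → K) := fun i => match i with
    | none => ⊥
    | some (Sum.inl J) => J.1
    | some (Sum.inr _) => ⊥
  let Lf : ι → Submodule K (Fin c → K) := fun i => match i with
    | none => ⊤
    | some (Sum.inl _) => ⊤
    | some (Sum.inr L) => L.1
  have hadm : ∀ i, (hom (F.sub (Lf i)) (E.quo (Jf i))).N ≠ ⊤ := by
    intro i
    apply N_hom_ne_top
    rcases i with _ | (J | L)
    · change ((finrank K (⊤ : Submodule K (Fin c → K)) : ℕ) : ℤ) * (E.quo ⊥).deg -
        (finrank K ((Fin a → K) ⧸ (⊥ : Submodule K (Fin a → K))) : ℕ) * (F.sub ⊤).deg <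
        (finrank K (⊤ : Submodule K (Fin c → K)) : ℕ) *
          (finrank K ((Fin a → K) ⧸ (⊥ : Submodule K (Fin a → K))) : ℕ)
      have h1 : finrank K ((Fin a → K) ⧸ (⊥ : Submodule K (Fin a → K))) = a := by
        have := Submodule.finrank_quotient_add_finrank (⊥ : Submodule K (Fin a → K))
        rw [finrank_bot, hrA] at this
        simpa using this
      rw [finrank_top, VB.deg_quo_bot, VB.deg_sub_top, h1, hrB, hEd, hFd]
      nlinarith
    · obtain ⟨J, hJ, hJr⟩ := J
      change ((finrank K (⊤ : Submodule K (Fin c → K)) : ℕ) : ℤ) * (E.quo J).deg -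
        (finrank K ((Fin a → K) ⧸ J) : ℕ) * (F.sub ⊤).deg <
        (finrank K (⊤ : Submodule K (Fin c → K)) : ℕ) * (finrank K ((Fin a → K) ⧸ J) : ℕ)
      have h1 : (finrank K ((Fin a → K) ⧸ J) : ℤ) = c := by
        have := Submodule.finrank_quotient_add_finrank J
        rw [hrA] at this
        have h2 : ((finrank K ((Fin a → K) ⧸ J) : ℕ) : ℤ) + (finrank K J : ℕ) = a := by
          exact_mod_cast this
        linarith
      have h3 := hJ.2.2
      rw [hJr] at h3
      have h4 : (a : ℤ) * (E.sub J).deg = a * (b - e) := by linarith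
      have h5 : (E.sub J).deg = b - e := mul_left_cancel₀ (by omega) h4
      have h6 : (E.quo J).deg = e := by
        have := VB.deg_add E J
        rw [h5, hEd] at this
        linarith
      rw [finrank_top, VB.deg_sub_top, h1, hrB, h6, hFd]
      nlinarith
    · obtain ⟨L, hL, hLr⟩ := L
      change ((finrank K L : ℕ) : ℤ) * (E.quo ⊥).deg -
        (finrank K ((Fin a → K) ⧸ (⊥ : Submodule K (Fin a → K))) : ℕ) * (F.sub L).deg <
        (finrank K L : ℕ) * (finrank K ((Fin a → K) ⧸ (⊥ : Submodule K (Fin a → K))) : ℕ)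
      have h1 : finrank K ((Fin a → K) ⧸ (⊥ : Submodule K (Fin a → K))) = a := by
        have := Submodule.finrank_quotient_add_finrank (⊥ : Submodule K (Fin a → K))
        rw [finrank_bot, hrA] at this
        simpa using this
      have h3 := hL.2.2
      rw [hLr] at h3
      have h4 : (c : ℤ) * (F.sub L).deg = c * b := by linarith
      have h5 : (F.sub L).deg = b := mul_left_cancel₀ (by omega) h4
      rw [VB.deg_quo_bot, h1, hLr, h5, hEd]
      nlinarith
  obtain ⟨u, hu⟩ := exists_generic E Jf Lf (fun i => F.sub (Lf i)) hadm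
  have hu1 : ∀ (J : Submodule K (Fin a → K)) (L : Submodule K (Fin c → K)), J = ⊥ → L = ⊤ →
      ¬ Null E J (F.sub L) u := by
    rintro _ _ rfl rfl
    exact hu none
  have hu2 : ∀ (J : Submodule K (Fin a → K)) (L : Submodule K (Fin c → K)), J = ⊥ →
      L ∈ F.exc c e → (finrank K L : ℤ) = a → ¬ Null E J (F.sub L) u := by
    rintro _ L rfl hL hLr
    exact hu (some (Sum.inr ⟨L, hL, hLr⟩))
  have hu3 : ∀ (J : Submodule K (Fin a → K)) (L : Submodule K (Fin c → K)),
      J ∈ E.exc a b → (finrank K J : ℤ) = a - c → L = ⊤ → ¬ Null E J (F.sub L) u := by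
    rintro J _ hJ hJr rfl
    exact hu (some (Sum.inl ⟨J, hJ, hJr⟩))
  -- the values of `e0` for the subbundles of `E` and `F`
  have fA : ∀ JA : Submodule K (Fin a → K),
      (JA = ⊥ ∧ ((a : ℤ) + c) * (E.sub JA).deg - (b + e) * finrank K JA = 0) ∨
      (JA = ⊤ ∧ ((a : ℤ) + c) * (E.sub JA).deg - (b + e) * finrank K JA = -1) ∨
      (((a : ℤ) + c) * (E.sub JA).deg - (b + e) * finrank K JA ≤ -2 ∧
        (((a : ℤ) + c) * (E.sub JA).deg - (b + e) * finrank K JA = -2 →
          JA ∈ E.exc a b ∧ (finrank K JA : ℤ) = a - c)) := by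
    intro JA
    by_cases h1 : JA = ⊥
    · left
      subst h1
      refine ⟨rfl, ?_⟩
      rw [VB.deg_sub_bot, finrank_bot]
      simp
    by_cases h2 : JA = ⊤
    · right; left
      subst h2
      refine ⟨rfl, ?_⟩
      rw [VB.deg_sub_top, finrank_top, hrA, hEd]
      linarith
    right; right
    have h3 : (1 : ℤ) ≤ finrank K JA := by
      have : 0 < finrank K JA := Nat.pos_of_ne_zero (fun h0 => h1 (Submodule.finrank_eq_zero.1 h0))
      exact_mod_cast this
    have h4 : (finrank K JA : ℤ) < a := by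
      have := Submodule.finrank_lt h2
      rw [hrA] at this
      exact_mod_cast this
    have h5 := hEs JA h1 h2
    obtain ⟨h6, h7⟩ := num_A haz hcz hdet h3 h4 h5
    exact ⟨h6, fun h8 => ⟨⟨h1, h2, (h7 h8).2.1⟩, (h7 h8).1⟩⟩
  have fB : ∀ JB : Submodule K (Fin c → K),
      (JB = ⊥ ∧ ((a : ℤ) + c) * (F.sub JB).deg - (b + e) * finrank K JB = 0) ∨
      (JB = ⊤ ∧ ((a : ℤ) + c) * (F.sub JB).deg - (b + e) * finrank K JB = 1) ∨
      (((a : ℤ) + c) * (F.sub JB).deg - (b + e) * finrank K JB ≤ -1 ∧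
        (((a : ℤ) + c) * (F.sub JB).deg - (b + e) * finrank K JB = -1 →
          JB ∈ F.exc c e ∧ (finrank K JB : ℤ) = a)) := by
    intro JB
    by_cases h1 : JB = ⊥
    · left
      subst h1
      refine ⟨rfl, ?_⟩
      rw [VB.deg_sub_bot, finrank_bot]
      simp
    by_cases h2 : JB = ⊤
    · right; left
      subst h2
      refine ⟨rfl, ?_⟩
      rw [VB.deg_sub_top, finrank_top, hrB, hFd]
      linarith
    right; right
    have h3 : (1 : ℤ) ≤ finrank K JB := by
      have : 0 < finrank K JB := Nat.pos_of_ne_zero (fun h0 => h1 (Submodule.finrank_eq_zero.1 h0))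
      exact_mod_cast this
    have h4 : (finrank K JB : ℤ) < c := by
      have := Submodule.finrank_lt h2
      rw [hrB] at this
      exact_mod_cast this
    have h5 := hFs JB h1 h2
    obtain ⟨h6, h7⟩ := num_B haz hcz hdet h3 h4 h5
    exact ⟨h6, fun h8 => ⟨⟨h1, h2, (h7 h8).2.1⟩, (h7 h8).1⟩⟩
  have hr : finrank K ((Fin a → K) × (Fin c → K)) = a + c := by
    rw [Module.finrank_prod, hrA, hrB]
  have hd : (ext E F u).deg = b + e := by rw [deg_ext, hEd, hFd]
  have key : ∀ J : Submodule K ((Fin a → K) × (Fin c → K)), J ≠ ⊥ → J ≠ ⊤ →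
      ((a : ℤ) + c) * ((ext E F u).sub J).deg - (b + e) * finrank K J ≤ -1 ∧
      (((a : ℤ) + c) * ((ext E F u).sub J).deg - (b + e) * finrank K J = -1 →
        J = (⊤ : Submodule K (Fin a → K)).map (LinearMap.inl K (Fin a → K) (Fin c → K))) := by
    intro J hJ0 hJ1
    obtain ⟨F', hF', hdeg, hnull⟩ := ext_sub E F u J
    have hfr := finrank_ext_sub J
    have hfrz : (finrank K J : ℤ) = finrank K (J.comap (LinearMap.inl K (Fin a → K) (Fin c → K))) +
        finrank K (J.map (LinearMap.snd K (Fin a → K) (Fin c → K))) := by exact_mod_cast hfr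
    have ht0 : F'.deg ≤ (F.sub (J.map (LinearMap.snd K (Fin a → K) (Fin c → K)))).deg :=
      VB.deg_le_of_le hF'
    have ht1 : (F.sub (J.map (LinearMap.snd K (Fin a → K) (Fin c → K)))).deg ≤ F'.deg →
        Null E (J.comap (LinearMap.inl K (Fin a → K) (Fin c → K)))
          (F.sub (J.map (LinearMap.snd K (Fin a → K) (Fin c → K)))) u := by
      intro h
      rw [← VB.eq_of_le_of_deg_le hF' h]
      exact hnull
    have hinl := eq_map_inl (J := J)
    have htop := eq_top_of (J := J)
    have hbot := eq_bot_of (J := J)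
    have hA' := fA (J.comap (LinearMap.inl K (Fin a → K) (Fin c → K)))
    have hB' := fB (J.map (LinearMap.snd K (Fin a → K) (Fin c → K)))
    have hn1 := hu1 (J.comap (LinearMap.inl K (Fin a → K) (Fin c → K)))
      (J.map (LinearMap.snd K (Fin a → K) (Fin c → K)))
    have hn2 := hu2 (J.comap (LinearMap.inl K (Fin a → K) (Fin c → K)))
      (J.map (LinearMap.snd K (Fin a → K) (Fin c → K)))
    have hn3 := hu3 (J.comap (LinearMap.inl K (Fin a → K) (Fin c → K)))
      (J.map (LinearMap.snd K (Fin a → K) (Fin c → K)))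
    rw [hdeg, hfrz]
    generalize F'.deg = τ at hdeg ht0 ht1 ⊢
    clear hF' hnull hdeg F'
    set JA := J.comap (LinearMap.inl K (Fin a → K) (Fin c → K)) with hJA
    set JB := J.map (LinearMap.snd K (Fin a → K) (Fin c → K)) with hJB
    set σA := (E.sub JA).deg with hσA
    set σB := (F.sub JB).deg with hσB
    set ρA : ℤ := (finrank K JA : ℤ) with hρA
    set ρB : ℤ := (finrank K JB : ℤ) with hρB
    have hsplit : ((a : ℤ) + c) * (σA + τ) - (b + e) * (ρA + ρB) =
        (((a : ℤ) + c) * σA - (b + e) * ρA) + (((a : ℤ) + c) * σB - (b + e) * ρB) -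
          ((a : ℤ) + c) * (σB - τ) := by ring
    rw [hsplit]
    have hrt : 3 * (σB - τ) ≤ ((a : ℤ) + c) * (σB - τ) :=
      mul_le_mul_of_nonneg_right hacz (by linarith)
    set eA := ((a : ℤ) + c) * σA - (b + e) * ρA with heA
    set eB := ((a : ℤ) + c) * σB - (b + e) * ρB with heB
    set rt := ((a : ℤ) + c) * (σB - τ) with hrtdef
    rcases hA' with ⟨hA1, hA2⟩ | ⟨hA1, hA2⟩ | ⟨hA1, hA2⟩
    · rcases hB' with ⟨hB1, hB2⟩ | ⟨hB1, hB2⟩ | ⟨hB1, hB2⟩
      · exact absurd (hbot hA1 hB1) hJ0
      · -- `JA = ⊥`, `JB = ⊤`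
        have h9 : τ < σB := by
          by_contra hcon
          exact hn1 hA1 hB1 (ht1 (not_lt.1 hcon))
        constructor
        · omega
        · intro h10
          omega
      · by_cases h9 : τ < σB
        · constructor
          · omega
          · intro h10
            omega
        · have h10 := ht1 (not_lt.1 h9)
          have h11 : eB ≠ -1 := fun h12 => hn2 hA1 (hB2 h12).1 (hB2 h12).2 h10
          constructor
          · omega
          · intro h12
            omega
    · rcases hB' with ⟨hB1, hB2⟩ | ⟨hB1, hB2⟩ | ⟨hB1, hB2⟩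
      · constructor
        · omega
        · intro _
          rw [← hA1]
          exact hinl hB1
      · exact absurd (htop hA1 hB1) hJ1
      · constructor
        · omega
        · intro h12
          omega
    · rcases hB' with ⟨hB1, hB2⟩ | ⟨hB1, hB2⟩ | ⟨hB1, hB2⟩
      · constructor
        · omega
        · intro h12
          omega
      · by_cases h9 : τ < σB
        · constructor
          · omega
          · intro h10
            omega
        · have h10 := ht1 (not_lt.1 h9)
          have h11 : eA ≠ -2 := fun h12 => hn3 (hA2 h12).1 (hA2 h12).2 hB1 h10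
          constructor
          · omega
          · intro h12
            omega
      · constructor
        · omega
        · intro h12
          omega
  refine Q_of (ext E F u) hr hd ?_ ?_
  · intro J hJ0 hJ1
    have := (key J hJ0 hJ1).1
    push_cast
    exact this
  · refine (Set.finite_singleton ((⊤ : Submodule K (Fin a → K)).map
      (LinearMap.inl K (Fin a → K) (Fin c → K)))).subset ?_
    rintro J ⟨hJ0, hJ1, hJ2⟩
    rw [Set.mem_singleton_iff]
    apply (key J hJ0 hJ1).2
    push_cast at hJ2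
    exact hJ2

end Pool.Agent.MP_09eaec.G2
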