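import Pool.Agent.Lib.MP_09eaec_ag.G2.Coh

/-!
# TASK A5: invariance under isomorphisms

`f : W ≃ₗ[K] A`. `H0 (E.map f)` is the image of `H0 E` under `f` (`mem_map`), `N (E.map f)` is the image
of `N E` under `Finsupp.mapRange f`. So `h0`, `h1`, `chi`, `deg` agree, finiteness is transported.
`sub_map`: the subspace `J.map f` of `A` and the subspace `J` of `W`.
-/

set_option autoImplicit false

namespace Pool.Agent.MP_09eaec.G2

open Module

universe u v

variable {k : Type u} {K : Type v} [Field k] [Field K] [Algebra k K]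
variable {W : Type v} [AddCommGroup W] [Module K W] [Module k W] [IsScalarTower k K W]
variable {A : Type v} [AddCommGroup A] [Module K A] [Module k A] [IsScalarTower k K A]
variable {B : Type v} [AddCommGroup B] [Module K B] [Module k B] [IsScalarTower k K B]

namespace VB

private theorem MapIso_H0 (E : VB k K W) (f : W ≃ₗ[K] A) :
    (E.map f).H0 = E.H0.map ((f.restrictScalars k : W ≃ₗ[k] A) : W →ₗ[k] A) := by
  ext x
  rw [mem_H0, Submodule.mem_map]
  constructor
  · intro h
    exact ⟨f.symm x, mem_H0.2 fun P => mem_map.1 (h P), f.apply_symm_apply x⟩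
  · rintro ⟨y, hy, rfl⟩ P
    rw [mem_map]
    have h1 : f.symm ((f.restrictScalars k : W ≃ₗ[k] A) y) = y := f.symm_apply_apply y
    change f.symm ((f.restrictScalars k : W ≃ₗ[k] A) y) ∈ E.M P
    rw [h1]
    exact mem_H0.1 hy P

private noncomputable def MapIso_e0 (E : VB k K W) (f : W ≃ₗ[K] A) : E.H0 ≃ₗ[k] (E.map f).H0 :=
  ((f.restrictScalars k).submoduleMap E.H0).trans
    (LinearEquiv.ofEq _ _ (MapIso_H0 E f).symm)

private theorem MapIso_N (E : VB k K W) (f : W ≃ₗ[K] A) :
    E.N.map ((Finsupp.mapRange.linearEquiv (α := Place k K) (f.restrictScalars k : W ≃ₗ[k] A) :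
      (Place k K →₀ W) ≃ₗ[k] (Place k K →₀ A)) : (Place k K →₀ W) →ₗ[k] (Place k K →₀ A)) =
      (E.map f).N := by
  ext a
  rw [Submodule.mem_map]
  constructor
  · rintro ⟨b, ⟨w, hw⟩, rfl⟩
    refine ⟨f w, fun P => ?_⟩
    rw [mem_map]
    change f.symm (f (b P) - f w) ∈ E.M P
    rw [← map_sub, f.symm_apply_apply]
    exact hw P
  · rintro ⟨w, hw⟩
    refine ⟨(Finsupp.mapRange.linearEquiv (α := Place k K)
      (f.restrictScalars k : W ≃ₗ[k] A)).symm a, ⟨f.symm w, fun P => ?_⟩, ?_⟩
    · change f.symm (a P) - f.symm w ∈ E.M P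
      rw [← map_sub]
      exact mem_map.1 (hw P)
    · exact (Finsupp.mapRange.linearEquiv (α := Place k K)
        (f.restrictScalars k : W ≃ₗ[k] A)).apply_symm_apply a

private noncomputable def MapIso_e1 (E : VB k K W) (f : W ≃ₗ[K] A) : E.H1 ≃ₗ[k] (E.map f).H1 :=
  Submodule.Quotient.equiv E.N (E.map f).N
    (Finsupp.mapRange.linearEquiv (α := Place k K) (f.restrictScalars k : W ≃ₗ[k] A))
    (MapIso_N E f)

theorem h0_map (E : VB k K W) (f : W ≃ₗ[K] A) : (E.map f).h0 = E.h0 := by
  unfold h0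
  rw [(MapIso_e0 E f).finrank_eq]

theorem h1_map (E : VB k K W) (f : W ≃ₗ[K] A) : (E.map f).h1 = E.h1 := by
  unfold h1
  rw [(MapIso_e1 E f).finrank_eq]

theorem chi_map (E : VB k K W) (f : W ≃ₗ[K] A) : (E.map f).chi = E.chi := by
  unfold chi
  rw [h0_map, h1_map]

theorem deg_map (E : VB k K W) (f : W ≃ₗ[K] A) : (E.map f).deg = E.deg := by
  unfold deg
  rw [chi_map, f.finrank_eq]

theorem finite_H0_map (E : VB k K W) (f : W ≃ₗ[K] A) :
    Module.Finite k (E.map f).H0 ↔ Module.Finite k E.H0 := by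
  exact ⟨fun _ => Module.Finite.equiv (MapIso_e0 E f).symm,
    fun _ => Module.Finite.equiv (MapIso_e0 E f)⟩

theorem finite_H1_map (E : VB k K W) (f : W ≃ₗ[K] A) :
    Module.Finite k (E.map f).H1 ↔ Module.Finite k E.H1 := by
  exact ⟨fun _ => Module.Finite.equiv (MapIso_e1 E f).symm,
    fun _ => Module.Finite.equiv (MapIso_e1 E f)⟩

/-- The degree of `(E.map f) ∩ f(J)` is the degree of `E ∩ J`. -/
theorem deg_sub_map (E : VB k K W) (f : W ≃ₗ[K] A) (J : Submodule K W) :
    ((E.map f).sub (J.map f.toLinearMap)).deg = (E.sub J).deg := by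
  have h : (E.sub J).map (f.submoduleMap J) = (E.map f).sub (J.map f.toLinearMap) := by
    refine ext' fun P x => ?_
    rw [mem_map, mem_sub, mem_sub, mem_map, LinearEquiv.submoduleMap_symm_apply]
  rw [← h]
  exact deg_map (E.sub J) (f.submoduleMap J)

theorem map_symm_map (E : VB k K W) (f : W ≃ₗ[K] A) : (E.map f).map f.symm = E := by
  refine ext' fun P x => ?_
  rw [mem_map, mem_map, LinearEquiv.symm_symm, f.symm_apply_apply]

end VB

end Pool.Agent.MP_09eaec.G2
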