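import Pool.Agent.Lib.MP_09eaec_ag.G2.LineRR
import Pool.Agent.Lib.MP_09eaec_ag.G2.Add
import Pool.Agent.Lib.MP_09eaec_ag.G2.MapIso

/-!
# TASK A6: finiteness, additivity of the degree

* `finite_H0`, `finite_H1`: strong induction on `finrank K W` (generalised over `W`). Rank `0`: `W` is
  trivial (`Module.finrank_zero_iff`, subsingleton), everything is trivial. Rank `1`: there is an
  isomorphism `f : W ≃ₗ[K] K`; `E.map f = line D` (`exists_eq_line`); use `finite_H0_map`,
  `finite_H0_line` ... Rank `≥ 2`: choose `J = span {w}`, `w ≠ 0`, rank `1`; `W ⧸ J` has rank one less;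
  `finite_H0_of_sub_quo`, `finite_H1_of_sub_quo`.
* `deg_add`: `chi_add` and `finrank J + finrank (W ⧸ J) = finrank W`.
* `deg_of_finrank_zero`: `h0 = h1 = 0`.
* `deg_line`: `chi_line`.
* `deg_sub_bot`, `deg_sub_top`, `deg_quo_bot`: from `deg_add` and `deg_of_finrank_zero`.
-/

set_option autoImplicit false

namespace Pool.Agent.MP_09eaec.G2

open Module

universe u v

variable {k : Type u} {K : Type v} [Field k] [Field K] [Algebra k K]
variable {W : Type v} [AddCommGroup W] [Module K W] [Module k W] [IsScalarTower k K W]
variable {A : Type v} [AddCommGroup A] [Module K A] [Module k A] [IsScalarTower k K A]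
variable {B : Type v} [AddCommGroup B] [Module K B] [Module k B] [IsScalarTower k K B]

variable [Curve2 k K]

namespace VB

omit [Curve2 k K] in
private theorem Deg_triv [Subsingleton W] (E : VB k K W) :
    Module.Finite k E.H0 ∧ Module.Finite k E.H1 := by
  refine ⟨inferInstance, ?_⟩
  have h1 : Subsingleton (Place k K →₀ W) := inferInstance
  have h2 : Subsingleton E.H1 := (Submodule.mkQ_surjective E.N).subsingleton
  infer_instance

private theorem Deg_fin (n : ℕ) : ∀ (W : Type v) [AddCommGroup W] [Module K W] [Module k W]
    [IsScalarTower k K W] [FiniteDimensional K W] (E : VB k K W), finrank K W ≤ n →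
    Module.Finite k E.H0 ∧ Module.Finite k E.H1 := by
  induction n with
  | zero =>
    intro W _ _ _ _ _ E h
    have : Subsingleton W := Module.finrank_zero_iff.1 (Nat.le_zero.1 h)
    exact Deg_triv E
  | succ n ih =>
    intro W _ _ _ _ _ E h
    rcases subsingleton_or_nontrivial W with hW | hW
    · exact Deg_triv E
    obtain ⟨w, hw⟩ := exists_ne (0 : W)
    let f : (Submodule.span K {w}) ≃ₗ[K] K := (LinearEquiv.toSpanNonzeroSingleton K W w hw).symm
    obtain ⟨D, hD⟩ := exists_eq_line ((E.sub (Submodule.span K {w})).map f)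
    have h1 : Module.Finite k (E.sub (Submodule.span K {w})).H0 := by
      rw [← finite_H0_map _ f, hD]
      infer_instance
    have h2 : Module.Finite k (E.sub (Submodule.span K {w})).H1 := by
      rw [← finite_H1_map _ f, hD]
      infer_instance
    have h3 : finrank K (W ⧸ Submodule.span K {w}) ≤ n := by
      have e1 := Submodule.finrank_quotient_add_finrank (Submodule.span K {w})
      rw [finrank_span_singleton hw] at e1
      omega
    obtain ⟨h4, h5⟩ := ih (W ⧸ Submodule.span K {w}) (E.quo (Submodule.span K {w})) h3
    exact ⟨finite_H0_of_sub_quo E (Submodule.span K {w}),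
      finite_H1_of_sub_quo E (Submodule.span K {w})⟩

instance finite_H0 [FiniteDimensional K W] (E : VB k K W) : Module.Finite k E.H0 := by
  exact (Deg_fin (finrank K W) W E le_rfl).1

instance finite_H1 [FiniteDimensional K W] (E : VB k K W) : Module.Finite k E.H1 := by
  exact (Deg_fin (finrank K W) W E le_rfl).2

theorem deg_add [FiniteDimensional K W] (E : VB k K W) (J : Submodule K W) :
    E.deg = (E.sub J).deg + (E.quo J).deg := by
  have h := Submodule.finrank_quotient_add_finrank J
  unfold deg
  rw [chi_add E J]
  have h' : (finrank K (W ⧸ J) : ℤ) + finrank K J = finrank K W := by exact_mod_cast h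
  omega

theorem deg_of_finrank_zero [FiniteDimensional K W] (E : VB k K W) (h : finrank K W = 0) :
    E.deg = 0 := by
  have hW : Subsingleton W := Module.finrank_zero_iff.1 h
  have h1 : Subsingleton (Place k K →₀ W) := inferInstance
  have h2 : Subsingleton E.H1 := (Submodule.mkQ_surjective E.N).subsingleton
  have e1 : finrank k E.H0 = 0 := finrank_zero_of_subsingleton
  have e2 : finrank k E.H1 = 0 := finrank_zero_of_subsingleton
  unfold deg chi h0 VB.h1
  rw [e1, e2, h]
  rfl

theorem deg_line (D : Dv k K) : (line D).deg = ddeg D := by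
  unfold deg
  rw [chi_line, finrank_self]
  push_cast
  ring

theorem deg_sub_bot [FiniteDimensional K W] (E : VB k K W) : (E.sub ⊥).deg = 0 := by
  exact deg_of_finrank_zero _ (finrank_bot K W)

theorem deg_sub_top [FiniteDimensional K W] (E : VB k K W) : (E.sub ⊤).deg = E.deg := by
  have h := deg_add E (⊤ : Submodule K W)
  have h2 : (E.quo (⊤ : Submodule K W)).deg = 0 := by
    refine deg_of_finrank_zero _ ?_
    have e1 := Submodule.finrank_quotient_add_finrank (⊤ : Submodule K W)
    rw [finrank_top] at e1
    omega
  omega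

theorem deg_quo_bot [FiniteDimensional K W] (E : VB k K W) : (E.quo ⊥).deg = E.deg := by
  have h := deg_add E (⊥ : Submodule K W)
  have h2 := deg_sub_bot E
  omega

/-- Riemann-Roch. -/
theorem rr [FiniteDimensional K W] (E : VB k K W) : E.h0 = E.deg - finrank K W + E.h1 := by
  unfold deg chi; ring

theorem h0_nonneg (E : VB k K W) : 0 ≤ E.h0 := by unfold h0; positivity

theorem h1_nonneg (E : VB k K W) : 0 ≤ E.h1 := by unfold h1; positivity

theorem h1_eq_zero_iff [FiniteDimensional K W] (E : VB k K W) : E.h1 = 0 ↔ E.N = ⊤ := by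
  unfold h1
  constructor
  · intro h
    have h2 : finrank k E.H1 = 0 := by exact_mod_cast h
    have h3 : Subsingleton E.H1 := Module.finrank_zero_iff.1 h2
    exact Submodule.Quotient.subsingleton_iff.1 h3
  · intro h
    have h3 : Subsingleton E.H1 := Submodule.Quotient.subsingleton_iff.2 h
    have e2 : finrank k E.H1 = 0 := finrank_zero_of_subsingleton
    rw [e2]
    rfl

end VB

end Pool.Agent.MP_09eaec.G2
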