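import Pool.Agent.Lib.MP_09eaec_ag.G2.Deg

/-!
# TASK A7: the degree is monotone

Induction on the rank as in `finite_H0` (Deg.lean), both statements at once: for `E ≤ F` on `W`:
`E.deg ≤ F.deg`, and if `F.deg ≤ E.deg` then `E = F`.
Rank `0`: `deg = 0`, and `E = F` since `W` is trivial. Rank `1`: transport to `K` by an isomorphism `f`
(`deg_map`, `map_symm_map`), `E.map f = line D`, `F.map f = line D'`, `line_le_line`, `deg_line`, `ddeg_mono`,
`eq_of_ddeg_le`. Rank `≥ 2`: `J` of rank one, `E.sub J ≤ F.sub J`, `E.quo J ≤ F.quo J`, `deg_add`; if the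
degrees are equal then `E.sub J = F.sub J` and `E.quo J = F.quo J` by induction, and then `E = F`: for
`x ∈ F.M P` there is `y ∈ E.M P` with `x - y ∈ J`, `x - y ∈ F.M P`, so `x - y ∈ E.M P`.
`deg_oneStep`: from `OneStep.chi`.
-/

set_option autoImplicit false

namespace Pool.Agent.MP_09eaec.G2

open Module

universe u v

variable {k : Type u} {K : Type v} [Field k] [Field K] [Algebra k K]
variable {W : Type v} [AddCommGroup W] [Module K W] [Module k W] [IsScalarTower k K W]
variable {A : Type v} [AddCommGroup A] [Module K A] [Module k A] [IsScalarTower k K A]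
variable {B : Type v} [AddCommGroup B] [Module K B] [Module k B] [IsScalarTower k K B]

variable [Curve2 k K]

namespace VB

private theorem DegLe_triv [FiniteDimensional K W] [Subsingleton W] (E F : VB k K W) :
    E.deg ≤ F.deg ∧ (F.deg ≤ E.deg → E = F) := by
  have h : finrank K W = 0 := finrank_zero_of_subsingleton
  rw [deg_of_finrank_zero E h, deg_of_finrank_zero F h]
  refine ⟨le_rfl, fun _ => ext' fun P x => ?_⟩
  rw [Subsingleton.elim x 0]
  exact ⟨fun _ => zero_mem _, fun _ => zero_mem _⟩

private theorem DegLe_one (f : W ≃ₗ[K] K) {E F : VB k K W} (h : E ≤ F) :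
    E.deg ≤ F.deg ∧ (F.deg ≤ E.deg → E = F) := by
  obtain ⟨D, hD⟩ := exists_eq_line (E.map f)
  obtain ⟨D', hD'⟩ := exists_eq_line (F.map f)
  have h1 : line D ≤ line D' := by
    rw [← hD, ← hD']
    intro P x hx
    exact mem_map.2 (h P (mem_map.1 hx))
  have h2 := line_le_line.1 h1
  have e1 : E.deg = ddeg D := by rw [← deg_map E f, hD, deg_line]
  have e2 : F.deg = ddeg D' := by rw [← deg_map F f, hD', deg_line]
  rw [e1, e2]
  refine ⟨ddeg_mono h2, fun h3 => ?_⟩
  have h4 := eq_of_ddeg_le h2 h3
  rw [← map_symm_map E f, ← map_symm_map F f, hD, hD', h4]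

private theorem DegLe_aux (n : ℕ) : ∀ (W : Type v) [AddCommGroup W] [Module K W] [Module k W]
    [IsScalarTower k K W] [FiniteDimensional K W], finrank K W ≤ n → ∀ E F : VB k K W, E ≤ F →
    E.deg ≤ F.deg ∧ (F.deg ≤ E.deg → E = F) := by
  induction n with
  | zero =>
    intro W _ _ _ _ _ h E F _
    have : Subsingleton W := Module.finrank_zero_iff.1 (Nat.le_zero.1 h)
    exact DegLe_triv E F
  | succ n ih =>
    intro W _ _ _ _ _ h E F hEF
    rcases subsingleton_or_nontrivial W with hW | hW
    · exact DegLe_triv E F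
    obtain ⟨w, hw⟩ := exists_ne (0 : W)
    have h3 : finrank K (W ⧸ Submodule.span K {w}) ≤ n := by
      have e1 := Submodule.finrank_quotient_add_finrank (Submodule.span K {w})
      rw [finrank_span_singleton hw] at e1
      omega
    have hs : E.sub (Submodule.span K {w}) ≤ F.sub (Submodule.span K {w}) := by
      intro P x hx
      exact hEF P hx
    have hq : E.quo (Submodule.span K {w}) ≤ F.quo (Submodule.span K {w}) := by
      rintro P x ⟨y, hy, rfl⟩
      exact ⟨y, hEF P hy, rfl⟩
    obtain ⟨s1, s2⟩ := DegLe_one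
      (LinearEquiv.toSpanNonzeroSingleton K W w hw).symm hs
    obtain ⟨q1, q2⟩ := ih _ h3 _ _ hq
    have dE := deg_add E (Submodule.span K {w})
    have dF := deg_add F (Submodule.span K {w})
    refine ⟨by omega, fun hd => ?_⟩
    have s3 := s2 (by omega)
    have q3 := q2 (by omega)
    refine le_antisymm' hEF fun P x hx => ?_
    have h4 : (Submodule.span K {w}).mkQ x ∈ (F.quo (Submodule.span K {w})).M P := ⟨x, hx, rfl⟩
    rw [← q3] at h4
    obtain ⟨y, hy, hyx⟩ := mem_quo.1 h4
    have h5 : x - y ∈ Submodule.span K {w} := by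
      rw [← (Submodule.span K {w}).ker_mkQ, LinearMap.mem_ker, map_sub, hyx, sub_self]
    have h6 : (⟨x - y, h5⟩ : Submodule.span K {w}) ∈ (F.sub (Submodule.span K {w})).M P :=
      sub_mem hx (hEF P hy)
    rw [← s3] at h6
    have h7 : x - y ∈ E.M P := h6
    have h8 := add_mem h7 hy
    rwa [sub_add_cancel] at h8

theorem deg_le_of_le [FiniteDimensional K W] {E F : VB k K W} (h : E ≤ F) : E.deg ≤ F.deg := by
  exact (DegLe_aux (finrank K W) W le_rfl E F h).1

theorem eq_of_le_of_deg_le [FiniteDimensional K W] {E F : VB k K W} (h : E ≤ F)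
    (hd : F.deg ≤ E.deg) : E = F := by
  exact (DegLe_aux (finrank K W) W le_rfl E F h).2 hd

theorem deg_oneStep [FiniteDimensional K W] {E F : VB k K W} {P : Place k K} {x : W}
    (h : OneStep E F P x) : F.deg = E.deg + 1 := by
  unfold deg
  rw [h.chi]
  ring

end VB

end Pool.Agent.MP_09eaec.G2
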