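import Pool.Agent.Lib.MP_09eaec_ag.G2.DegLe

/-!
# TASK A8: degrees in exact sequences

`0 → A → W → B → 0` exact (`i` injective, `p` surjective, `range i = ker p`). Put `J = ker p`. The
isomorphisms `A ≃ J` (`LinearEquiv.ofInjective` and equality of submodules) and `W ⧸ J ≃ B`
(`p.quotKerEquivOfSurjective`) transport `E.sub J`, `E.quo J` to bundles `≤ E1`, `≤ E2` (equal to them in
the second statement); `deg_add`, `deg_map`, `deg_le_of_le`.
-/

set_option autoImplicit false

namespace Pool.Agent.MP_09eaec.G2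

open Module

universe u v

variable {k : Type u} {K : Type v} [Field k] [Field K] [Algebra k K]
variable {W : Type v} [AddCommGroup W] [Module K W] [Module k W] [IsScalarTower k K W]
variable {A : Type v} [AddCommGroup A] [Module K A] [Module k A] [IsScalarTower k K A]
variable {B : Type v} [AddCommGroup B] [Module K B] [Module k B] [IsScalarTower k K B]

variable [Curve2 k K]

namespace VB

omit [Module k B] [IsScalarTower k K B] [Curve2 k K] in
private lemma exact_aux1 (E : VB k K W) (i : A →ₗ[K] W) (p : W →ₗ[K] B)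
    (hi : Function.Injective i) (hip : LinearMap.range i = LinearMap.ker p) :
    ∃ g : LinearMap.ker p ≃ₗ[K] A, ∀ P x, x ∈ ((E.sub (LinearMap.ker p)).map g).M P ↔
      i x ∈ E.M P := by
  refine ⟨((LinearEquiv.ofInjective i hi).trans (LinearEquiv.ofEq _ _ hip)).symm, fun P x => ?_⟩
  rw [mem_map, mem_sub]
  rfl

omit [Curve2 k K] in
private lemma exact_aux2 (E : VB k K W) (p : W →ₗ[K] B) (hp : Function.Surjective p) :
    ∃ g : (W ⧸ LinearMap.ker p) ≃ₗ[K] B, ∀ P y, y ∈ ((E.quo (LinearMap.ker p)).map g).M P ↔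
      ∃ x ∈ E.M P, p x = y := by
  refine ⟨p.quotKerEquivOfSurjective hp, fun P y => ?_⟩
  rw [mem_map, mem_quo]
  refine exists_congr fun x => and_congr_right fun _ => ?_
  rw [LinearEquiv.eq_symm_apply]
  rfl

theorem deg_exact_le [FiniteDimensional K W] [FiniteDimensional K A] [FiniteDimensional K B]
    (E : VB k K W) (E1 : VB k K A) (E2 : VB k K B) (i : A →ₗ[K] W) (p : W →ₗ[K] B)
    (hi : Function.Injective i) (hp : Function.Surjective p)
    (hip : LinearMap.range i = LinearMap.ker p)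
    (h1 : ∀ P x, i x ∈ E.M P → x ∈ E1.M P) (h2 : ∀ P x, x ∈ E.M P → p x ∈ E2.M P) :
    E.deg ≤ E1.deg + E2.deg := by
  obtain ⟨g, hg⟩ := exact_aux1 E i p hi hip
  obtain ⟨g', hg'⟩ := exact_aux2 E p hp
  rw [deg_add E (LinearMap.ker p), ← deg_map (E.sub _) g, ← deg_map (E.quo _) g']
  refine add_le_add (deg_le_of_le fun P x hx => h1 P x ((hg P x).1 hx))
    (deg_le_of_le fun P y hy => ?_)
  obtain ⟨x, hx, rfl⟩ := (hg' P y).1 hy
  exact h2 P x hx

theorem deg_exact [FiniteDimensional K W] [FiniteDimensional K A] [FiniteDimensional K B]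
    (E : VB k K W) (E1 : VB k K A) (E2 : VB k K B) (i : A →ₗ[K] W) (p : W →ₗ[K] B)
    (hi : Function.Injective i) (hp : Function.Surjective p)
    (hip : LinearMap.range i = LinearMap.ker p)
    (h1 : ∀ P x, i x ∈ E.M P ↔ x ∈ E1.M P) (h2 : ∀ P y, y ∈ E2.M P ↔ ∃ x ∈ E.M P, p x = y) :
    E.deg = E1.deg + E2.deg := by
  obtain ⟨g, hg⟩ := exact_aux1 E i p hi hip
  obtain ⟨g', hg'⟩ := exact_aux2 E p hp
  have e1 : (E.sub (LinearMap.ker p)).map g = E1 := ext' fun P x => (hg P x).trans (h1 P x)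
  have e2 : (E.quo (LinearMap.ker p)).map g' = E2 := ext' fun P y => (hg' P y).trans (h2 P y).symm
  rw [deg_add E (LinearMap.ker p), ← deg_map (E.sub _) g, ← deg_map (E.quo _) g', e1, e2]

/-- The image of a bundle under a surjective linear map. -/
theorem exists_image (E : VB k K W) (p : W →ₗ[K] B) (hp : Function.Surjective p) :
    ∃ F : VB k K B, ∀ P y, y ∈ F.M P ↔ ∃ x ∈ E.M P, p x = y := by
  obtain ⟨g', hg'⟩ := exact_aux2 E p hp
  exact ⟨_, hg'⟩

end VB

end Pool.Agent.MP_09eaec.G2
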