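import Pool.Agent.Lib.MP_09eaec_ag.G2.ExistsBundle
import Pool.Agent.Lib.MP_09eaec_ag.G2.Exact

/-!
# TASK D4: the two degrees agree

`(toVB E).deg = E.deg` for `E : Bundle k K n`. Induction on `n`.
`n = 0`: both are zero (determinant of the empty matrix is `1`).
`n + 1`: exact sequence `0 → (Fin n → K) → (Fin (n+1) → K) → K → 0`, `i x = Fin.cons 0 x`,
`p x = x 0`. There are a `Bundle` `F` with `F.Mem P x ↔ E.Mem P (i x)` and a divisor `D` with
`y ∈ (line D).M P ↔ ∃ x, E.Mem P x ∧ p x = y`. By `deg_exact`, `deg_line` and the induction hypothesis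
`(toVB E).deg = F.deg + ddeg D`. `E1` is the `Bundle` with block triangular matrices, it has the same
stalks as `E`.
-/

set_option autoImplicit false

namespace Pool.Agent.MP_09eaec.G2

open Module Matrix

universe u v

variable {k : Type u} {K : Type v} [Field k] [Field K] [Algebra k K]
variable {W : Type v} [AddCommGroup W] [Module K W] [Module k W] [IsScalarTower k K W]
variable {A : Type v} [AddCommGroup A] [Module K A] [Module k A] [IsScalarTower k K A]
variable {B : Type v} [AddCommGroup B] [Module K B] [Module k B] [IsScalarTower k K B]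

variable [Curve2 k K]

/-- the inclusion of the last coordinates -/
private def DegToVB_i (K : Type v) [Field K] (n : ℕ) : (Fin n → K) →ₗ[K] (Fin (n + 1) → K) where
  toFun x := Fin.cons 0 x
  map_add' x y := by
    funext j
    refine Fin.cases ?_ (fun i => ?_) j
    · simp
    · simp
  map_smul' c x := by
    funext j
    refine Fin.cases ?_ (fun i => ?_) j
    · simp
    · simp

/-- the first coordinate -/
private def DegToVB_p (K : Type v) [Field K] (n : ℕ) : (Fin (n + 1) → K) →ₗ[K] K := LinearMap.proj 0

/-- the last coordinates -/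
private def DegToVB_t (K : Type v) [Field K] (n : ℕ) : (Fin (n + 1) → K) →ₗ[K] (Fin n → K) where
  toFun x := Fin.tail x
  map_add' _ _ := rfl
  map_smul' _ _ := rfl

private lemma DegToVB_i_zero (n : ℕ) (x : Fin n → K) : DegToVB_i K n x 0 = 0 := rfl

private lemma DegToVB_i_succ (n : ℕ) (x : Fin n → K) (j : Fin n) : DegToVB_i K n x j.succ = x j := rfl

private lemma DegToVB_i_eq (n : ℕ) (x : Fin (n + 1) → K) (h : x 0 = 0) :
    DegToVB_i K n (DegToVB_t K n x) = x := by
  funext j
  refine Fin.cases ?_ (fun i => ?_) j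
  · rw [DegToVB_i_zero, h]
  · rfl

/-- the subbundle -/
private def DegToVB_sub {n : ℕ} (E : VB k K (Fin (n + 1) → K)) : VB k K (Fin n → K) where
  M P := (E.M P).comap ((DegToVB_i K n).restrictScalars k)
  smul_mem P c x hc hx := by
    have := E.smul_mem P c _ hc hx
    rw [Submodule.mem_comap]
    have e : ((DegToVB_i K n).restrictScalars k) (c • x) = c • ((DegToVB_i K n).restrictScalars k) x :=
      map_smul (DegToVB_i K n) c x
    rw [e]; exact this
  lower w := by
    obtain ⟨e, he⟩ := E.lower (DegToVB_i K n w)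
    refine ⟨e, fun P c hc => ?_⟩
    rw [Submodule.mem_comap]
    have e : ((DegToVB_i K n).restrictScalars k) (c • w) = c • (DegToVB_i K n) w :=
      map_smul (DegToVB_i K n) c w
    rw [e]; exact he P c hc
  upper φ := by
    obtain ⟨e, he⟩ := E.upper (φ ∘ₗ DegToVB_t K n)
    exact ⟨e, fun P x hx => he P _ hx⟩

private lemma DegToVB_ddeg (D : Dv k K) : ∑ᶠ P, D P = ddeg D := by
  rw [finsum_eq_sum_of_support_subset (s := D.support)]
  · rfl
  · intro P hP
    simpa using hP

private lemma DegToVB_det {n : ℕ} (z : Fin (n + 1) → K) (M : Matrix (Fin n) (Fin n) K) :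
    (Matrix.of (fun a b : Fin (n + 1) => Fin.cases (z a) (fun b' => DegToVB_i K n (M.col b') a) b)).det
      = z 0 * M.det := by
  rw [Matrix.det_succ_row_zero, Finset.sum_eq_single (0 : Fin (n + 1))]
  · simp only [Fin.val_zero, pow_zero, one_mul, Matrix.of_apply, Fin.cases_zero]
    congr 1
  · intro b _ hb
    obtain ⟨b', rfl⟩ := Fin.exists_succ_eq.mpr hb
    simp only [Matrix.of_apply, Fin.cases_succ, DegToVB_i_zero]
    ring
  · intro h; exact absurd (Finset.mem_univ _) h

theorem deg_toVB {n : ℕ} (E : Bundle k K n) : (toVB E).deg = E.deg := by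
  classical
  induction n with
  | zero =>
    rw [VB.deg_of_finrank_zero _ (by simp)]
    unfold Bundle.deg
    have h : ∀ P : Place k K, P.ord (E.g P).det = 0 := by
      intro P
      rw [Matrix.det_isEmpty, P.ord_one]
    rw [finsum_congr h, finsum_zero, neg_zero]
  | succ n ih =>
    set i := DegToVB_i K n with hi
    set p := DegToVB_p K n with hp
    obtain ⟨F, hF⟩ := exists_toVB_eq (DegToVB_sub (toVB E))
    have hp_surj : Function.Surjective p := by
      intro y
      exact ⟨Pi.single 0 y, by simp [hp, DegToVB_p]⟩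
    obtain ⟨F2, hF2⟩ := VB.exists_image (toVB E) p hp_surj
    obtain ⟨D, hD⟩ := exists_eq_line F2
    have hFmem : ∀ P x, F.Mem P x ↔ E.Mem P (i x) := by
      intro P x
      have h1 : x ∈ (toVB F).M P ↔ x ∈ (DegToVB_sub (toVB E)).M P := by rw [hF]
      exact h1
    have hDmem : ∀ P y, y ∈ P.filt (-D P) ↔ ∃ x, E.Mem P x ∧ x 0 = y := by
      intro P y
      have h1 : y ∈ (line D).M P ↔ y ∈ F2.M P := by rw [hD]
      rw [← mem_line, h1, hF2]
      rfl
    -- degree of toVB E
    have hdeg : (toVB E).deg = F.deg + ddeg D := by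
      rw [← ih F, ← VB.deg_line D, ← hD]
      apply VB.deg_exact (toVB E) (toVB F) F2 i p
      · intro x y h
        funext j
        have := congrFun h j.succ
        exact this
      · exact hp_surj
      · ext x
        rw [LinearMap.mem_range, LinearMap.mem_ker]
        constructor
        · rintro ⟨y, rfl⟩; rfl
        · intro h; exact ⟨DegToVB_t K n x, DegToVB_i_eq n x h⟩
      · intro P x; exact (hFmem P x).symm
      · intro P y; exact hF2 P y
    rw [hdeg]
    -- the vectors z_P
    have hz : ∀ P : Place k K, ∃ z : Fin (n + 1) → K, E.Mem P z ∧ z 0 ≠ 0 ∧ P.ord (z 0) = - D P ∧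
        (E.g P = 1 → D P = 0 → z = Pi.single 0 1) := by
      intro P
      by_cases h : E.g P = 1 ∧ D P = 0
      · refine ⟨Pi.single 0 1, ?_, by simp, ?_, fun _ _ => rfl⟩
        · intro j
          rw [h.1, inv_one, Matrix.one_mulVec, Pi.single_apply]
          split_ifs
          · exact P.isInt_one
          · exact P.isInt_zero
        · rw [Pi.single_eq_same, P.ord_one, h.2]; rfl
      · obtain ⟨t, ht, htm⟩ := exists_ord_eq P (-D P)
        obtain ⟨z, hz1, hz2⟩ := (hDmem P t).mp (Or.inr htm.ge)
        refine ⟨z, hz1, by rw [hz2]; exact ht, by rw [hz2]; exact htm, fun h1 h2 => ?_⟩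
        exact absurd ⟨h1, h2⟩ h
    choose z hz1 hz2 hz3 hz4 using hz
    set H : Place k K → Matrix (Fin (n + 1)) (Fin (n + 1)) K := fun P =>
      Matrix.of (fun a b : Fin (n + 1) => Fin.cases (z P a) (fun b' => i ((F.g P).col b') a) b) with hH
    have hHdet : ∀ P, (H P).det = z P 0 * (F.g P).det := fun P => DegToVB_det (z P) (F.g P)
    have hHne : ∀ P, (H P).det ≠ 0 := fun P => by
      rw [hHdet]; exact mul_ne_zero (hz2 P) (F.det_ne_zero P)
    have hHfin : {P | H P ≠ 1}.Finite := by
      apply ((E.finite.union F.finite).union D.support.finite_toSet).subset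
      intro P hP
      by_contra hcon
      simp only [Set.mem_union, Set.mem_setOf_eq, Finset.mem_coe, Finsupp.mem_support_iff, not_or,
        not_not] at hcon
      obtain ⟨⟨h1, h2⟩, h3⟩ := hcon
      apply hP
      ext a b
      rw [hH]
      simp only [Matrix.of_apply]
      rw [hz4 P h1 h3, h2]
      refine Fin.cases ?_ (fun b' => ?_) b
      · simp only [Fin.cases_zero]
        rw [Pi.single_apply, Matrix.one_apply]
      · simp only [Fin.cases_succ]
        refine Fin.cases ?_ (fun a' => ?_) a
        · rw [hi, DegToVB_i_zero, Matrix.one_apply, if_neg (Fin.succ_ne_zero b').symm]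
        · rw [hi, DegToVB_i_succ]
          simp [Matrix.one_apply]
    let E1 : Bundle k K (n + 1) := ⟨H, hHne, hHfin⟩
    have hE1g : ∀ P, E1.g P = H P := fun _ => rfl
    have hmulVec : ∀ (P : Place k K) (y : Fin (n + 1) → K),
        H P *ᵥ y = y 0 • z P + i (F.g P *ᵥ (fun b => y b.succ)) := by
      intro P y
      funext a
      rw [Matrix.mulVec, dotProduct, Fin.sum_univ_succ]
      simp only [hH, Matrix.of_apply, Fin.cases_zero, Fin.cases_succ, Pi.add_apply, Pi.smul_apply,
        smul_eq_mul]
      congr 1
      · ring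
      · refine Fin.cases ?_ (fun a' => ?_) a
        · rw [hi, DegToVB_i_zero]
          apply Finset.sum_eq_zero
          intro b _
          rw [DegToVB_i_zero, zero_mul]
        · rw [hi, DegToVB_i_succ, Matrix.mulVec, dotProduct]
          apply Finset.sum_congr rfl
          intro b _
          rw [DegToVB_i_succ]
          rfl
    have hE1le : ∀ P x, E1.Mem P x → E.Mem P x := by
      intro P x hx
      have e1 : x = H P *ᵥ ((H P)⁻¹ *ᵥ x) := by
        rw [Matrix.mulVec_mulVec, Matrix.mul_nonsing_inv _ (isUnit_iff_ne_zero.2 (hHne P)),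
          Matrix.one_mulVec]
      rw [e1, hmulVec]
      apply E.mem_add
      · exact E.mem_smul P (hz1 P) (hx 0)
      · rw [← hFmem]
        exact F.mem_mulVec P (fun b => hx b.succ)
    have hE1ge : ∀ P x, E.Mem P x → E1.Mem P x := by
      intro P x hx
      -- c = x 0 / z 0
      set c : K := x 0 / z P 0 with hc
      have hcint : P.IsInt c := by
        have h1 : x 0 ∈ P.filt (-D P) := (hDmem P (x 0)).mpr ⟨x, hx, rfl⟩
        by_cases h0 : x 0 = 0
        · rw [hc, h0, zero_div]; exact P.isInt_zero
        · rcases h1 with h1 | h1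
          · exact absurd h1 h0
          · right
            rw [hc, P.ord_div _ _ h0 (hz2 P), hz3 P]
            omega
      have h2 : E.Mem P (x + (-c) • z P) := E.mem_add P hx (E.mem_smul P (hz1 P) (P.isInt_neg hcint))
      have h3 : (x + (-c) • z P) 0 = 0 := by
        rw [Pi.add_apply, Pi.smul_apply, smul_eq_mul, hc]
        field_simp [hz2 P]
        ring
      set x' := DegToVB_t K n (x + (-c) • z P) with hx'
      have h4 : i x' = x + (-c) • z P := DegToVB_i_eq n _ h3
      have h5 : F.Mem P x' := by rw [hFmem, h4]; exact h2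
      set y : Fin (n + 1) → K := Fin.cons c ((F.g P)⁻¹ *ᵥ x') with hy
      have h6 : H P *ᵥ y = x := by
        rw [hmulVec]
        have e1 : (fun b : Fin n => y b.succ) = (F.g P)⁻¹ *ᵥ x' := by
          funext b; rw [hy, Fin.cons_succ]
        have e2 : y 0 = c := by rw [hy, Fin.cons_zero]
        rw [e1, e2, Matrix.mulVec_mulVec, Matrix.mul_nonsing_inv _ (F.isUnit_det P),
          Matrix.one_mulVec, h4]
        rw [neg_smul]
        abel
      have h7 : (H P)⁻¹ *ᵥ x = y := by
        rw [← h6, Matrix.mulVec_mulVec, Matrix.nonsing_inv_mul _ (isUnit_iff_ne_zero.2 (hHne P)),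
          Matrix.one_mulVec]
      intro j
      rw [hE1g, h7]
      refine Fin.cases ?_ (fun b => ?_) j
      · rw [hy, Fin.cons_zero]; exact hcint
      · rw [hy, Fin.cons_succ]; exact h5 b
    haveI := Curve.closed (k := k) (K := K)
    haveI := Curve.char (k := k) (K := K)
    have h8 : E.deg = E1.deg := deg_eq_of_whole (Curve.curve (k := k) (K := K)) E E1 LinearMap.id
      Function.injective_id (fun P x hx => hE1le P x hx) (fun P y hy => ⟨y, hE1ge P y hy, rfl⟩)
    rw [h8]
    unfold Bundle.deg
    have h9 : ∀ P : Place k K, P.ord (E1.g P).det = - D P + P.ord (F.g P).det := by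
      intro P
      rw [hE1g, hHdet, P.ord_mul _ _ (hz2 P) (F.det_ne_zero P), hz3 P]
    have hDfs : Function.HasFiniteSupport (fun P : Place k K => - D P) := by
      apply D.support.finite_toSet.subset
      intro P hP
      simpa using hP
    rw [finsum_congr h9, finsum_add_distrib hDfs F.hasFiniteSupport]
    have h10 : ∑ᶠ P : Place k K, - D P = - ddeg D := by
      rw [← DegToVB_ddeg, finsum_neg_distrib]
    rw [h10]
    ring

end Pool.Agent.MP_09eaec.G2
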