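import Pool.Agent.Lib.MP_09eaec_ag.G2.Deg

/-!
# TASK C2: the divisor of a Weil differential

There are a functional `ω ≠ 0` on `Place →₀ K` and a divisor `κ` with
 (1) `x ∈ (line κ).M P ↔ ∀ c ∈ P.filt 0, ω (single P (c * x)) = 0`;
 (2) `ω` vanishes on `N (line κ)`.
Proof. `h1 (line 0) = h0 (line 0) - chi (line 0) = h0 + 1 > 0` (`chi_line`), so `N (line 0) ≠ ⊤`, and there is
a functional `ω ≠ 0` vanishing on `N (line 0)` (e.g. `Submodule.exists_le_ker_of_lt_top`).
(a) If `D` is a divisor such that `ω (single P c) = 0` for all `P` and `c ∈ P.filt (-D P)`, and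
    `0 ≤ D`, then `ω = 0` on `N (line D)`: let `a P - w ∈ P.filt (-D P)` for all `P`. Let `S` be a finite set of
    places containing the support of `a`, of `D` and of `dv w`. `a = Σ_(P ∈ S) single P (a P - w) +
    Σ_(P ∈ S) single P w`. `ω` is zero on the first sum; the second sum is in `N (line 0)` with the
    vector `w` (for `P ∉ S`: `0 - w ∈ P.filt 0`). The same proof gives (2) from (1) (`κ ≥ 0` by (b)).
(b) `M P = {x | ∀ c ∈ P.filt 0, ω (single P (c * x)) = 0}` contains `P.filt 0` (`single P c ∈ N (line 0)`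
    with `w = 0`) and is stable under `P.filt 0`.
(c) Let `C` be as in `exists_large`. If `0 ≤ D` and `P.filt (-D P) ⊆ M P` for all `P`, then `ω = 0` on
    `N (line D)` by (a), so `N (line D) ≠ ⊤` and `ddeg D < C`. Hence: each `x ∈ M P`, `x ≠ 0`, has
    `P.ord x ≥ -C` (otherwise take `D = single P (-P.ord x)`; `x ∈ M P` implies `P.filt (P.ord x) ⊆ M P`);
    and the set of the `P` with `M P ≠ P.filt 0` has fewer than `C` elements (for `C` such places take
    `D = Σ single P 1`), so it is finite.
(d) So `M` are the stalks of a bundle on `K` (`lower` with `e = -dv w` or `0`, `upper` with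
    `e = dv (φ 1) - Σ_(P ∈ bad) single P C`), and `exists_eq_line` gives `κ`.
-/

set_option autoImplicit false

namespace Pool.Agent.MP_09eaec.G2

open Module

universe u v

variable {k : Type u} {K : Type v} [Field k] [Field K] [Algebra k K]
variable {W : Type v} [AddCommGroup W] [Module K W] [Module k W] [IsScalarTower k K W]
variable {A : Type v} [AddCommGroup A] [Module K A] [Module k A] [IsScalarTower k K A]
variable {B : Type v} [AddCommGroup B] [Module K B] [Module k B] [IsScalarTower k K B]

variable [Curve2 k K]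

omit [Curve2 k K] in
private lemma Kappa_one_mem (P : Place k K) : (1 : K) ∈ P.filt 0 :=
  Or.inr (by rw [P.ord_one])

/-- Vanishing on `N (line D)` from vanishing on the local pieces. -/
private theorem Kappa_vanish {ω : (Place k K →₀ K) →ₗ[k] k}
    (hω : ∀ a ∈ (line (0 : Dv k K)).N, ω a = 0) (D : Dv k K)
    (hD : ∀ (P : Place k K) (c : K), c ∈ P.filt (-D P) → ω (Finsupp.single P c) = 0) :
    ∀ a ∈ (line D).N, ω a = 0 := by
  classical
  rintro a ⟨w, hw⟩
  let S : Finset (Place k K) := a.support ∪ (dv w : Dv k K).support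
  have h1 : a = ∑ P ∈ S, Finsupp.single P (a P) := by
    have h2 : a = ∑ P ∈ a.support, Finsupp.single P (a P) := (Finsupp.sum_single a).symm
    have h3 : ∑ P ∈ a.support, Finsupp.single P (a P) = ∑ P ∈ S, Finsupp.single P (a P) := by
      refine Finset.sum_subset (fun P hP => Finset.mem_union_left _ hP) (fun P _ hP => ?_)
      rw [Finsupp.notMem_support_iff.mp hP, Finsupp.single_zero]
    exact h2.trans h3
  have h2 : a = (∑ P ∈ S, Finsupp.single P (a P - w)) + ∑ P ∈ S, Finsupp.single P w := by
    rw [← Finset.sum_add_distrib]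
    conv_lhs => rw [h1]
    refine Finset.sum_congr rfl (fun P _ => ?_)
    rw [← Finsupp.single_add, sub_add_cancel]
  have h3 : ω (∑ P ∈ S, Finsupp.single P (a P - w)) = 0 := by
    rw [map_sum]
    exact Finset.sum_eq_zero (fun P _ => hD P _ (hw P))
  have h4 : ω (∑ P ∈ S, Finsupp.single P w) = 0 := by
    apply hω
    refine ⟨w, fun Q => ?_⟩
    rw [Finsupp.finsetSum_apply]
    by_cases hQ : Q ∈ S
    · rw [Finset.sum_eq_single Q]
      · rw [Finsupp.single_eq_same, sub_self]
        exact zero_mem _
      · intro P _ hne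
        exact Finsupp.single_eq_of_ne hne.symm
      · intro h
        exact absurd hQ h
    · rw [Finset.sum_eq_zero]
      · rw [zero_sub]
        apply neg_mem
        rw [mem_line]
        right
        have h5 : Q ∉ (dv w : Dv k K).support := fun h => hQ (Finset.mem_union_right _ h)
        have h6 := Finsupp.notMem_support_iff.mp h5
        rw [dv_apply] at h6
        rw [h6]
        simp
      · intro P hP
        have hne : P ≠ Q := fun h => hQ (h ▸ hP)
        exact Finsupp.single_eq_of_ne hne.symm
  rw [h2, map_add, h3, h4, add_zero]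

theorem exists_kappa : ∃ (ω : (Place k K →₀ K) →ₗ[k] k) (κ : Dv k K), ω ≠ 0 ∧
    (∀ (P : Place k K) (x : K), x ∈ (line κ).M P ↔
      ∀ c ∈ P.filt 0, ω (Finsupp.single P (c * x)) = 0) ∧
    ∀ a ∈ (line κ).N, ω a = 0 := by
  classical
  have hN : (line (0 : Dv k K)).N ≠ ⊤ := by
    intro h
    have h1 := h1_eq_zero_of_N h
    have h2 := chi_line (0 : Dv k K)
    have h3 := VB.h0_nonneg (line (0 : Dv k K))
    rw [ddeg_zero] at h2
    unfold VB.chi at h2
    omega
  obtain ⟨ω, hω0, hωk⟩ := Submodule.exists_le_ker_of_lt_top _ (lt_top_iff_ne_top.mpr hN)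
  have hω : ∀ a ∈ (line (0 : Dv k K)).N, ω a = 0 := fun a ha => LinearMap.mem_ker.mp (hωk ha)
  -- the stalks
  let M : Place k K → Submodule k K := fun P =>
    { carrier := {x | ∀ c ∈ P.filt 0, ω (Finsupp.single P (c * x)) = 0}
      add_mem' := by
        intro a b ha hb c hc
        rw [mul_add, Finsupp.single_add, map_add, ha c hc, hb c hc, add_zero]
      zero_mem' := by
        intro c _
        rw [mul_zero, Finsupp.single_zero, map_zero]
      smul_mem' := by
        intro r x hx c hc
        rw [mul_smul_comm, ← Finsupp.smul_single, map_smul, hx c hc, smul_zero] }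
  have hM : ∀ (P : Place k K) (x : K), x ∈ M P ↔
      ∀ c ∈ P.filt 0, ω (Finsupp.single P (c * x)) = 0 := fun P x => Iff.rfl
  have hM1 : ∀ (P : Place k K) (x : K), x ∈ M P → ω (Finsupp.single P x) = 0 := by
    intro P x hx
    have := hx 1 (Kappa_one_mem P)
    rwa [one_mul] at this
  have hMsmul : ∀ (P : Place k K) (c x : K), c ∈ P.filt 0 → x ∈ M P → c * x ∈ M P := by
    intro P c x hc hx c' hc'
    rw [← mul_assoc]
    refine hx _ ?_
    have := mul_mem_filt P hc' hc
    simpa using this
  have hM0 : ∀ (P : Place k K) (x : K), x ∈ P.filt 0 → x ∈ M P := by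
    intro P x hx c hc
    apply hω
    refine ⟨0, fun Q => ?_⟩
    rw [sub_zero]
    by_cases hQ : Q = P
    · subst hQ
      rw [Finsupp.single_eq_same, mem_line]
      have := mul_mem_filt Q hc hx
      simpa using this
    · rw [Finsupp.single_eq_of_ne hQ]
      exact zero_mem _
  have hMord : ∀ (P : Place k K) (x : K), x ≠ 0 → x ∈ M P → ∀ y ∈ P.filt (P.ord x), y ∈ M P := by
    intro P x hx0 hx y hy
    have h1 : y = (y * x⁻¹) * x := by
      rw [mul_assoc, inv_mul_cancel₀ hx0, mul_one]
    rw [h1]
    refine hMsmul P _ _ ?_ hx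
    have h2 := mul_mem_filt P hy (Or.inr le_rfl : x⁻¹ ∈ P.filt (P.ord x⁻¹))
    rw [P.ord_inv] at h2
    simpa using h2
  obtain ⟨C, hC⟩ := exists_large (k := k) (K := K)
  have hdeg : ∀ D : Dv k K, (∀ P : Place k K, ∀ c ∈ P.filt (-D P), c ∈ M P) → ddeg D < C := by
    intro D hD
    by_contra hlt
    have h1 := hC D (not_lt.mp hlt)
    have h2 := Kappa_vanish hω D (fun P c hc => hM1 P c (hD P c hc))
    refine hω0 (LinearMap.ext (fun a => ?_))
    exact h2 a (by rw [h1]; exact Submodule.mem_top)
  have hord : ∀ (P : Place k K) (x : K), x ≠ 0 → x ∈ M P → -C ≤ P.ord x := by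
    intro P x hx0 hx
    have h1 := hdeg (Finsupp.single P (-P.ord x)) (by
      intro Q c hc
      by_cases hQ : Q = P
      · subst hQ
        rw [Finsupp.single_eq_same, neg_neg] at hc
        exact hMord Q x hx0 hx c hc
      · rw [Finsupp.single_eq_of_ne hQ, neg_zero] at hc
        exact hM0 Q c hc)
    rw [ddeg_single] at h1
    omega
  have hfin : {P : Place k K | ∃ x, x ∈ M P ∧ x ∉ P.filt 0}.Finite := by
    by_contra hinf
    obtain ⟨F, hF, hcard⟩ := Set.Infinite.exists_subset_card_eq hinf C.toNat
    have h1 := hdeg (∑ P ∈ F, Finsupp.single P 1) (by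
      intro Q c hc
      rw [Finsupp.finsetSum_apply] at hc
      by_cases hQ : Q ∈ F
      · rw [Finset.sum_eq_single Q (fun P _ hne => Finsupp.single_eq_of_ne hne.symm)
          (fun h => absurd hQ h), Finsupp.single_eq_same] at hc
        obtain ⟨x, hx, hx0⟩ := hF hQ
        have hx00 : x ≠ 0 := by
          rintro rfl
          exact hx0 (zero_mem _)
        have hx1 : Q.ord x ≤ -1 := by
          by_contra h
          exact hx0 (Or.inr (by omega))
        exact hMord Q x hx00 hx c (filt_mono Q hx1 hc)
      · rw [Finset.sum_eq_zero, neg_zero] at hc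
        · exact hM0 Q c hc
        · intro P hP
          have hne : P ≠ Q := fun h => hQ (h ▸ hP)
          exact Finsupp.single_eq_of_ne hne.symm)
    have h2 : ddeg (∑ P ∈ F, Finsupp.single P (1 : ℤ) : Dv k K) = F.card := by
      have h3 : ∀ G : Finset (Place k K), ddeg (∑ P ∈ G, Finsupp.single P (1 : ℤ) : Dv k K) = G.card := by
        intro G
        induction G using Finset.induction_on with
        | empty => simp
        | insert a s ha ih =>
          rw [Finset.sum_insert ha, ddeg_add, ih, ddeg_single, Finset.card_insert_of_notMem ha]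
          push_cast
          ring
      exact h3 F
    rw [h2, hcard] at h1
    omega
  -- the bundle
  let e0 : Dv k K := ∑ P ∈ hfin.toFinset, Finsupp.single P (-(max C 0))
  have he0 : ∀ (P : Place k K) (x : K), x ∈ M P → x ∈ P.filt (e0 P) := by
    intro P x hx
    by_cases hx0 : x = 0
    · rw [hx0]
      exact zero_mem _
    by_cases hP : P ∈ hfin.toFinset
    · right
      have h1 : e0 P = -(max C 0) := by
        simp only [e0]
        rw [Finsupp.finsetSum_apply, Finset.sum_eq_single P
          (fun Q _ hne => Finsupp.single_eq_of_ne hne.symm) (fun h => absurd hP h),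
          Finsupp.single_eq_same]
      rw [h1]
      have := hord P x hx0 hx
      have := le_max_left C 0
      omega
    · have h1 : e0 P = 0 := by
        simp only [e0]
        rw [Finsupp.finsetSum_apply]
        refine Finset.sum_eq_zero (fun Q hQ => ?_)
        have hne : Q ≠ P := fun h => hP (h ▸ hQ)
        exact Finsupp.single_eq_of_ne hne.symm
      rw [h1]
      by_contra hnot
      exact hP (hfin.mem_toFinset.mpr ⟨x, hx, hnot⟩)
  let E : VB k K K :=
    { M := M
      smul_mem := fun P c x hc hx => hMsmul P c x hc hx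
      lower := by
        intro w
        refine ⟨-dv w, fun P c hc => hM0 P _ ?_⟩
        have := mul_mem_filt P hc (Or.inr le_rfl : w ∈ P.filt (P.ord w))
        simpa [dv_apply] using this
      upper := by
        intro φ
        refine ⟨e0 + dv (φ 1), fun P x hx => ?_⟩
        have h1 : φ x = x * φ 1 := by
          rw [← smul_eq_mul, ← map_smul, smul_eq_mul, mul_one]
        have := mul_mem_filt P (he0 P x hx) (Or.inr le_rfl : φ 1 ∈ P.filt (P.ord (φ 1)))
        rw [h1]
        simpa [dv_apply] using this }
  obtain ⟨κ, hκ⟩ := exists_eq_line E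
  have h1 : ∀ (P : Place k K) (x : K), x ∈ (line κ).M P ↔
      ∀ c ∈ P.filt 0, ω (Finsupp.single P (c * x)) = 0 := by
    intro P x
    rw [← hκ]
    exact hM P x
  refine ⟨ω, κ, hω0, h1, Kappa_vanish hω κ (fun P c hc => ?_)⟩
  have h2 := (h1 P c).mp hc 1 (Kappa_one_mem P)
  rwa [one_mul] at h2

end Pool.Agent.MP_09eaec.G2
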