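import Pool.Agent.Lib.MP_09eaec_ag.G2.Omega
import Pool.Agent.Lib.MP_09eaec_ag.G2.Kappa

/-!
# TASK C3: Serre duality

`ω, κ` as in `exists_kappa`.
* `exists_hom_kappa`: `N E ≠ ⊤`: there is a functional `lam ≠ 0` on `Place →₀ W` vanishing on `N E`. For
  `w : W` let `lam_w a = lam (a • w)` (`a • w = a.mapRange (· • w)`), a functional on `Place →₀ K`. It vanishes
  on `N (line (-e))`, `e` from `E.lower w` (if `a P - y ∈ P.filt (e P)` then `a P • w - y • w ∈ E.M P`).
  By `omega_unique` there is `φ w : K` with `lam_w a = ω (φ w • a)` for all `a`, unique by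
  `omega_smul_injective`; so `φ` is `K`-linear (`lam_(x w) a = lam_w (x • a)`). `φ ≠ 0`: `lam a ≠ 0` for some
  `a`, so `lam (single P w) ≠ 0` for some `P, w` (`a` is a sum of singles), i.e. `lam_w (single P 1) ≠ 0`.
  For `x ∈ E.M P`, `c ∈ P.filt 0`: `ω (single P (c φ x)) = ω (φ x • single P c) = lam_x (single P c) =
  lam (single P (c x)) = 0` (`c x ∈ E.M P`), so `φ x ∈ (line κ).M P`.
* `serre_line`: the map `H0 (line (κ - D)) → Module.Dual k (H1 (line D))`, `x ↦ (a ↦ ω (x • a))` is well
  defined (`smul_mem_N` and (2)), injective (`omega_smul_injective`), and surjective: a functional `lam`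
  vanishing on `N (line D)` is `a ↦ ω (x • a)` (`omega_unique`), and for `c ∈ P.filt (-D P)`,
  `c' ∈ P.filt 0`: `ω (single P (c' (x c))) = lam (single P (c' c)) = 0`, so `x c ∈ P.filt (-κ P)`; with `c` of
  order `-D P`: `x ∈ P.filt (-κ P + D P)`.
-/

set_option autoImplicit false

namespace Pool.Agent.MP_09eaec.G2

open Module

universe u v

variable {k : Type u} {K : Type v} [Field k] [Field K] [Algebra k K]
variable {W : Type v} [AddCommGroup W] [Module K W] [Module k W] [IsScalarTower k K W]
variable {A : Type v} [AddCommGroup A] [Module K A] [Module k A] [IsScalarTower k K A]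
variable {B : Type v} [AddCommGroup B] [Module K B] [Module k B] [IsScalarTower k K B]

variable [Curve2 k K]

/-- A vector of the stalk at `P`, placed at `P`, is in `N`. -/
private theorem Dual_single_mem_N {E : VB k K W} {P : Place k K} {x : W} (hx : x ∈ E.M P) :
    Finsupp.single P x ∈ E.N := by
  classical
  refine ⟨0, fun Q => ?_⟩
  rw [sub_zero, Finsupp.single_apply]
  split_ifs with h
  · subst h; exact hx
  · exact zero_mem _

/-- The map `a ↦ a • w`. -/
private noncomputable def Dual_sm (k : Type u) {K : Type v} [Field k] [Field K] [Algebra k K]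
    {W : Type v} [AddCommGroup W] [Module K W] [Module k W] [IsScalarTower k K W] (w : W) :
    (Place k K →₀ K) →ₗ[k] (Place k K →₀ W) :=
  Finsupp.mapRange.linearMap ((LinearMap.toSpanSingleton K W w).restrictScalars k)

private theorem Dual_sm_apply (w : W) (a : Place k K →₀ K) (P : Place k K) :
    (Dual_sm k w a) P = a P • w := rfl

private theorem Dual_sm_single (w : W) (P : Place k K) (x : K) :
    Dual_sm k w (Finsupp.single P x) = Finsupp.single P (x • w) := by
  classical
  ext Q
  rw [Dual_sm_apply, Finsupp.single_apply, Finsupp.single_apply]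
  split_ifs <;> simp

theorem exists_hom_kappa {ω : (Place k K →₀ K) →ₗ[k] k} {κ : Dv k K} (h0 : ω ≠ 0)
    (h1 : ∀ (P : Place k K) (x : K), x ∈ (line κ).M P ↔
      ∀ c ∈ P.filt 0, ω (Finsupp.single P (c * x)) = 0)
    (h2 : ∀ a ∈ (line κ).N, ω a = 0) [FiniteDimensional K W] (E : VB k K W) (hE : E.N ≠ ⊤) :
    ∃ φ : W →ₗ[K] K, φ ≠ 0 ∧ ∀ P x, x ∈ E.M P → φ x ∈ (line κ).M P := by
  obtain ⟨lam, hl0, hl⟩ := Submodule.exists_le_ker_of_lt_top E.N (lt_top_iff_ne_top.2 hE)
  have hlN : ∀ a ∈ E.N, lam a = 0 := fun a ha => hl ha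
  have hex : ∀ w : W, ∃ x : K, ∀ a : Place k K →₀ K, lam (Dual_sm k w a) = ω (x • a) := by
    intro w
    obtain ⟨e, he⟩ := E.lower w
    refine omega_unique (lam := lam ∘ₗ Dual_sm k w) (D2 := -e) h0 h2 ?_
    rintro a ⟨y, hy⟩
    refine hlN _ ⟨y • w, fun P => ?_⟩
    rw [Dual_sm_apply, ← sub_smul]
    apply he
    have := hy P
    rw [mem_line] at this
    simpa using this
  choose φ hφ using hex
  have huniq : ∀ x y : K, (∀ a : Place k K →₀ K, ω (x • a) = ω (y • a)) → x = y := by
    intro x y h
    refine sub_eq_zero.1 (omega_smul_injective h0 fun a => ?_)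
    rw [sub_smul, map_sub, h a, sub_self]
  let Φ : W →ₗ[K] K :=
    { toFun := φ
      map_add' := by
        intro w w'
        refine huniq _ _ fun a => ?_
        rw [← hφ, add_smul, map_add, ← hφ, ← hφ, ← map_add]
        congr 1
        ext P
        rw [Finsupp.add_apply, Dual_sm_apply, Dual_sm_apply, Dual_sm_apply, smul_add]
      map_smul' := by
        intro x w
        refine huniq _ _ fun a => ?_
        rw [← hφ, RingHom.id_apply, smul_eq_mul, mul_comm, mul_smul, ← hφ]
        congr 1
        ext P
        rw [Dual_sm_apply, Dual_sm_apply, Finsupp.smul_apply, smul_eq_mul, mul_comm, mul_smul] }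
  have hΦ : ∀ w a, lam (Dual_sm k w a) = ω (Φ w • a) := hφ
  refine ⟨Φ, ?_, ?_⟩
  · intro h
    apply hl0
    refine Finsupp.lhom_ext fun P w => ?_
    have := hΦ w (Finsupp.single P 1)
    rw [Dual_sm_single, one_smul, h, LinearMap.zero_apply, zero_smul, map_zero] at this
    rw [this, LinearMap.zero_apply]
  · intro P x hx
    rw [h1]
    intro c hc
    have h3 := hΦ x (Finsupp.single P c)
    rw [Dual_sm_single, hlN _ (Dual_single_mem_N (E.smul_mem P c x hc hx)),
      Finsupp.smul_single, smul_eq_mul, mul_comm] at h3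
    exact h3.symm

theorem serre_line {ω : (Place k K →₀ K) →ₗ[k] k} {κ : Dv k K} (h0 : ω ≠ 0)
    (h1 : ∀ (P : Place k K) (x : K), x ∈ (line κ).M P ↔
      ∀ c ∈ P.filt 0, ω (Finsupp.single P (c * x)) = 0)
    (h2 : ∀ a ∈ (line κ).N, ω a = 0) (D : Dv k K) : (line D).h1 = (line (κ - D)).h0 := by
  let Λ : K →ₗ[k] Module.Dual k (Place k K →₀ K) :=
    { toFun := fun x =>
        { toFun := fun a => ω (x • a)
          map_add' := fun a b => by rw [smul_add, map_add]
          map_smul' := fun c a => by rw [smul_comm, map_smul, RingHom.id_apply] }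
      map_add' := fun x y => by
        ext P
        simp [add_mul]
      map_smul' := fun c x => by
        refine LinearMap.ext fun a => ?_
        show ω ((c • x) • a) = c • ω (x • a)
        rw [smul_assoc, map_smul] }
  have hΛ : ∀ x a, Λ x a = ω (x • a) := fun _ _ => rfl
  have hinj : Function.Injective Λ := by
    rw [injective_iff_map_eq_zero]
    intro x hx
    refine omega_smul_injective h0 fun a => ?_
    rw [← hΛ, hx, LinearMap.zero_apply]
  have hmap : (line (κ - D)).H0.map Λ = (line D).N.dualAnnihilator := by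
    apply le_antisymm
    · rintro _ ⟨x, hx, rfl⟩
      rw [Submodule.mem_dualAnnihilator]
      intro a ha
      rw [hΛ]
      refine h2 _ (smul_mem_N (D := D) (D' := κ) (fun P => ?_) ha)
      have := VB.mem_H0.1 hx P
      rw [mem_line, Finsupp.sub_apply] at this
      rwa [neg_sub] at this
    · intro lam hlam
      rw [Submodule.mem_dualAnnihilator] at hlam
      obtain ⟨x, hx⟩ := omega_unique h0 h2 hlam
      refine ⟨x, VB.mem_H0.2 fun P => ?_, ?_⟩
      · obtain ⟨t, ht, htm⟩ := exists_ord_eq P (-D P)
        rw [mem_line, ← mem_filt_iff_of_ord P ht htm]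
        have h3 : t * x ∈ (line κ).M P := by
          rw [h1]
          intro c hc
          have h4 : Finsupp.single P (c * t) ∈ (line D).N := by
            apply Dual_single_mem_N
            rw [mem_line]
            have := mul_mem_filt P hc (Or.inr htm.ge : t ∈ P.filt (-D P))
            rwa [zero_add] at this
          have h5 := hx (Finsupp.single P (c * t))
          rw [hlam _ h4, Finsupp.smul_single, smul_eq_mul] at h5
          rw [show c * (t * x) = x * (c * t) by ring]
          exact h5.symm
        rw [mem_line] at h3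
        rw [Finsupp.sub_apply, show -(κ P - D P) + -D P = -κ P by ring]
        exact h3
      · refine LinearMap.ext fun a => ?_
        rw [hΛ, hx]
  have h3 : finrank k (line (κ - D)).H0 = finrank k (line D).N.dualAnnihilator := by
    rw [← hmap]
    exact (Submodule.equivMapOfInjective Λ hinj _).finrank_eq
  have h4 : finrank k (line D).H1 = finrank k (line D).N.dualAnnihilator := by
    rw [← Subspace.dual_finrank_eq]
    exact ((line D).N.dualQuotEquivDualAnnihilator).finrank_eq
  unfold VB.h1 VB.h0
  rw [h4, ← h3]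

end Pool.Agent.MP_09eaec.G2
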