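import Pool.Agent.Lib.MP_09eaec_ag.G2.DegToVB

/-!
# TASK D7: the degree of the dual bundle

`(hom F (line 0)).deg = - F.deg` for `F` on `Fin m → K`. `F = toVB F'` (`exists_toVB_eq`). Let `F''` be the
`Bundle` with the matrices `((F'.g P)⁻¹)ᵀ` (equal to `1` for almost all `P`), `F''.deg = - F'.deg`
(`det` of the inverse, `Place.ord_inv`, finsum of negatives). The isomorphism
`((Fin m → K) →ₗ[K] K) ≃ₗ[K] (Fin m → K)`, `φ ↦ (φ (e_i))_i` carries `hom F (line 0)` to `toVB F''`:
`φ (F.M P) ⊆ P.filt 0` iff `φ` is integral on the columns of `F'.g P` iff `(F'.g P)ᵀ *ᵥ (φ e_i)_i` is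
integral. `deg_map`, `deg_toVB`.
-/

set_option autoImplicit false

namespace Pool.Agent.MP_09eaec.G2

open Module

universe u v

variable {k : Type u} {K : Type v} [Field k] [Field K] [Algebra k K]
variable {W : Type v} [AddCommGroup W] [Module K W] [Module k W] [IsScalarTower k K W]
variable {A : Type v} [AddCommGroup A] [Module K A] [Module k A] [IsScalarTower k K A]
variable {B : Type v} [AddCommGroup B] [Module K B] [Module k B] [IsScalarTower k K B]

variable [Curve2 k K]

open scoped Matrix in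
theorem deg_dual {m : ℕ} (F : VB k K (Fin m → K)) : (hom F (line 0)).deg = - F.deg := by
  obtain ⟨F', rfl⟩ := exists_toVB_eq F
  let F'' : Bundle k K m :=
    { g := fun P => ((F'.g P)⁻¹)ᵀ
      det_ne_zero := fun P => by
        rw [Matrix.det_transpose, Matrix.det_nonsing_inv, Ring.inverse_eq_inv']
        exact inv_ne_zero (F'.det_ne_zero P)
      finite := by
        refine F'.finite.subset ?_
        intro P hP h
        apply hP
        show ((F'.g P)⁻¹)ᵀ = 1
        rw [h, inv_one, Matrix.transpose_one] }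
  have hinv : ∀ P, (F''.g P)⁻¹ = (F'.g P)ᵀ := by
    intro P
    show (((F'.g P)⁻¹)ᵀ)⁻¹ = (F'.g P)ᵀ
    rw [← Matrix.transpose_nonsing_inv, Matrix.nonsing_inv_nonsing_inv _ (F'.isUnit_det P)]
  let e : ((Fin m → K) →ₗ[K] K) ≃ₗ[K] (Fin m → K) := ((Pi.basisFun K (Fin m)).constr K).symm
  have he : ∀ (x y : Fin m → K), e.symm x y = y ⬝ᵥ x := by
    intro x y
    show (Pi.basisFun K (Fin m)).constr K x y = y ⬝ᵥ x
    rw [Module.Basis.constr_apply_fintype]
    simp [dotProduct]
  have hmap : (hom (toVB F') (line 0)).map e = toVB F'' := by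
    apply VB.ext'
    intro P x
    rw [VB.mem_map, mem_hom, mem_toVB]
    have h0 : ∀ y : K, y ∈ (line (0 : Dv k K)).M P ↔ P.IsInt y := by
      intro y
      rw [mem_line]
      simp only [Finsupp.coe_zero, Pi.zero_apply, neg_zero]
      exact Iff.rfl
    constructor
    · intro h i
      have h1 := h ((F'.g P).col i) (F'.mem_col P i)
      rw [h0, he] at h1
      rw [hinv]
      exact h1
    · intro h b hb
      rw [mem_toVB] at hb
      rw [h0, he]
      have h1 : b = F'.g P *ᵥ ((F'.g P)⁻¹ *ᵥ b) := by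
        rw [Matrix.mulVec_mulVec, Matrix.mul_nonsing_inv _ (F'.isUnit_det P), Matrix.one_mulVec]
      have h2 : b ⬝ᵥ x = ((F'.g P)⁻¹ *ᵥ b) ⬝ᵥ ((F'.g P)ᵀ *ᵥ x) := by
        conv_lhs => rw [h1]
        rw [Matrix.mulVec_transpose, dotProduct_comm, Matrix.dotProduct_mulVec, dotProduct_comm]
      rw [h2]
      refine P.isInt_sum _ _ fun i _ => P.isInt_mul (hb i) ?_
      have h3 := h i
      rw [hinv] at h3
      exact h3
  rw [← VB.deg_map (hom (toVB F') (line 0)) e, hmap, deg_toVB, deg_toVB]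
  unfold Bundle.deg
  have hfs : ∑ᶠ P : Place k K, P.ord (F''.g P).det = - ∑ᶠ P : Place k K, P.ord (F'.g P).det := by
    rw [← finsum_neg_distrib]
    refine finsum_congr fun P => ?_
    show P.ord (((F'.g P)⁻¹)ᵀ).det = - P.ord (F'.g P).det
    rw [Matrix.det_transpose, Matrix.det_nonsing_inv, Ring.inverse_eq_inv', P.ord_inv]
  rw [hfs]

end Pool.Agent.MP_09eaec.G2
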