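import Pool.Agent.Lib.MP_09eaec_ag.G2.MapIso

/-!
# TASK D11: transport of `α`-stable systems along an isomorphism

`f : W ≃ₗ[K] A`, `V.map f = V.map (f.toLinearMap.restrictScalars k)`. For `J ≤ A` let `J0 = J.comap f`;
`J = J0.map f`, `deg_sub_map`; `V.map f ⊓ J = (V ⊓ J0).map f`; ranks and dimensions agree.
-/

set_option autoImplicit false

namespace Pool.Agent.MP_09eaec.G2

open Module

universe u v

variable {k : Type u} {K : Type v} [Field k] [Field K] [Algebra k K]
variable {W : Type v} [AddCommGroup W] [Module K W] [Module k W] [IsScalarTower k K W]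
variable {A : Type v} [AddCommGroup A] [Module K A] [Module k A] [IsScalarTower k K A]
variable {B : Type v} [AddCommGroup B] [Module K B] [Module k B] [IsScalarTower k K B]

private theorem SysMap_finrank {V : Submodule k W} (f : W ≃ₗ[K] A) :
    finrank k (V.map (f.toLinearMap.restrictScalars k)) = finrank k V :=
  LinearEquiv.finrank_map_eq (f.restrictScalars k : W ≃ₗ[k] A) V

private theorem SysMap_inf (f : W ≃ₗ[K] A) (V : Submodule k W) (J : Submodule K W) :
    V.map (f.toLinearMap.restrictScalars k) ⊓ (J.map f.toLinearMap).restrictScalars k =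
      (V ⊓ J.restrictScalars k).map (f.toLinearMap.restrictScalars k) := by
  ext x
  rw [Submodule.mem_inf, Submodule.mem_map, Submodule.mem_map]
  constructor
  · rintro ⟨⟨y, hy, rfl⟩, ⟨z, hz, hzy⟩⟩
    have h1 : z = y := f.injective hzy
    subst h1
    exact ⟨z, ⟨hy, hz⟩, rfl⟩
  · rintro ⟨y, ⟨hy, hz⟩, rfl⟩
    exact ⟨⟨y, hy, rfl⟩, ⟨y, hz, rfl⟩⟩

theorem stableSys_map {E : VB k K W} {V : Submodule k W} {α : ℝ} (h : E.StableSys α V)
    (f : W ≃ₗ[K] A) : (E.map f).StableSys α (V.map (f.toLinearMap.restrictScalars k)) := by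
  intro J hJ0 hJ1
  obtain ⟨J0, rfl⟩ : ∃ J0 : Submodule K W, J0.map f.toLinearMap = J :=
    ⟨J.comap f.toLinearMap, Submodule.map_comap_eq_of_surjective f.surjective J⟩
  have h0 : J0 ≠ ⊥ := by
    rintro rfl
    exact hJ0 (Submodule.map_bot _)
  have h1 : J0 ≠ ⊤ := by
    rintro rfl
    refine hJ1 ?_
    rw [Submodule.map_top, LinearMap.range_eq_top]
    exact f.surjective
  have h2 := h J0 h0 h1
  rw [VB.deg_sub_map, VB.deg_map, SysMap_inf, SysMap_finrank, SysMap_finrank,
    ← f.finrank_eq, LinearEquiv.finrank_map_eq f J0]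
  exact h2

theorem finrank_mapV {V : Submodule k W} (f : W ≃ₗ[K] A) :
    finrank k (V.map (f.toLinearMap.restrictScalars k)) = finrank k V := by
  exact SysMap_finrank f

theorem mapV_le_H0 {E : VB k K W} {V : Submodule k W} (h : V ≤ E.H0) (f : W ≃ₗ[K] A) :
    V.map (f.toLinearMap.restrictScalars k) ≤ (E.map f).H0 := by
  rintro x ⟨y, hy, rfl⟩
  rw [VB.mem_H0]
  intro P
  exact ⟨y, VB.mem_H0.1 (h hy) P, rfl⟩

end Pool.Agent.MP_09eaec.G2
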