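import Pool.Agent.Lib.MP_09eaec_ag.G2.Ratio
import Pool.Agent.Lib.MP_09eaec_ag.G2.SysMap
import Pool.Agent.Lib.MP_09eaec_ag.G2.Bound

/-!
# TASK D12: the dual span

`u` from `exists_basis_H0`, `R = range (evT u)`, `N = n + m`, `E0 = (triv k K N).quo R` on
`Q = (Fin N → K) ⧸ R` (dimension `N - m = n`, `finrank_range_evT`), `V0 = ` the image of `range (constL k K N)` in
`Q`; `V0 ≤ E0.H0` (constants are in `P.filt 0`), `finrank V0 = N` (`const_inf_range`), `E0.deg ≤ n + 2 m`
(`deg_quo_le`).
Stability: for `J ≠ ⊥, ⊤` in `Q` let `J~ = J.comap R.mkQ`: `R ≤ J~`, `J~ ≠ R`, `J~ ≠ ⊤`,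
`finrank J~ = finrank J + m`, `V0 ⊓ J ≃ constIn k J~` (`c ↦ ` class of `constL c`, injective by
`const_inf_range`). By `ratio`: `n dim (V0 ⊓ J) + 1 ≤ N finrank J`. With `C` from `exists_bound E0` let
`α = n |C| + n |E0.deg| + 1`: `n ((E0.sub J).deg + α dim (V0 ⊓ J)) ≤ n C + α (N finrank J - 1)
< finrank J (E0.deg + α N)` since `n C - finrank J * E0.deg < α` (`finrank J ≤ n`).
Transport to `Fin n → K` by `LinearEquiv.ofFinrankEq` (`deg_map`, `stableSys_map`, `finrank_mapV`, `mapV_le_H0`).
-/

set_option autoImplicit false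

namespace Pool.Agent.MP_09eaec.G2

open Module

universe u v

variable {k : Type u} {K : Type v} [Field k] [Field K] [Algebra k K]
variable {W : Type v} [AddCommGroup W] [Module K W] [Module k W] [IsScalarTower k K W]
variable {A : Type v} [AddCommGroup A] [Module K A] [Module k A] [IsScalarTower k K A]
variable {B : Type v} [AddCommGroup B] [Module K B] [Module k B] [IsScalarTower k K B]

variable [Curve2 k K]

theorem dual_span {n m : ℕ} (hm : 1 ≤ m) (hmn : m < n) {F : VB k K (Fin m → K)}
    (hd : F.deg = n + 2 * m) (hF : F.Stable) :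
    ∃ (E : VB k K (Fin n → K)) (V : Submodule k (Fin n → K)) (α : ℝ), 0 < α ∧ V ≤ E.H0 ∧
      finrank k V = n + m ∧ E.deg ≤ n + 2 * m ∧ E.StableSys α V := by
  classical
  obtain ⟨u, hu, hu2, hu3⟩ := exists_basis_H0 hm hmn hd hF
  set R : Submodule K (Fin (n + m) → K) := LinearMap.range (evT u) with hRdef
  have hR : finrank K R = m := finrank_range_evT hu3
  have hQ : finrank K ((Fin (n + m) → K) ⧸ R) = n := by
    have h1 := R.finrank_quotient_add_finrank
    rw [hR, finrank_fin_fun] at h1
    omega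
  have hmk : ∀ J : Submodule K ((Fin (n + m) → K) ⧸ R), (J.comap R.mkQ).map R.mkQ = J := fun J =>
    Submodule.map_comap_eq_of_surjective R.mkQ_surjective J
  set q : (Fin (n + m) → k) →ₗ[k] ((Fin (n + m) → K) ⧸ R) :=
    (R.mkQ.restrictScalars k) ∘ₗ constL k K (n + m) with hqdef
  have hq : ∀ c, q c = R.mkQ (constL k K (n + m) c) := fun c => rfl
  have hqinj : Function.Injective q := by
    refine (injective_iff_map_eq_zero q).2 fun c hc => ?_
    rw [hq, Submodule.mkQ_apply, Submodule.Quotient.mk_eq_zero] at hc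
    exact const_inf_range hm hmn hd hF hu hu2 hu3 hc
  set E0 : VB k K ((Fin (n + m) → K) ⧸ R) := (triv k K (n + m)).quo R with hE0
  set V0 : Submodule k ((Fin (n + m) → K) ⧸ R) := LinearMap.range q with hV0
  have hV0r : finrank k V0 = n + m := by
    rw [hV0, LinearMap.finrank_range_of_inj hqinj, finrank_fin_fun]
  have hV0H : V0 ≤ E0.H0 := by
    rintro _ ⟨c, rfl⟩
    rw [VB.mem_H0]
    intro P
    refine VB.mem_quo.2 ⟨constL k K (n + m) c, ?_, rfl⟩
    intro i
    rw [constL_apply]
    exact Or.inr (P.ord_algebraMap _).ge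
  have hE0d : E0.deg ≤ n + 2 * m := by
    rw [← hd]
    refine deg_quo_le hu3 fun i => ?_
    rw [← hu2]
    exact Submodule.subset_span ⟨i, rfl⟩
  obtain ⟨C, hC⟩ := VB.exists_bound E0
  set α : ℝ := n * |(C : ℝ)| + n * |(E0.deg : ℝ)| + 1 with hα
  have hα0 : 0 < α := by positivity
  have hn0 : (0 : ℝ) < n := by
    have : 0 < n := by omega
    exact_mod_cast this
  have hst : E0.StableSys α V0 := by
    intro J hJ hJ'
    set Jt := J.comap R.mkQ with hJt
    have h1 : R ≤ Jt := by
      intro x hx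
      have : R.mkQ x = 0 := by rwa [Submodule.mkQ_apply, Submodule.Quotient.mk_eq_zero]
      rw [hJt, Submodule.mem_comap, this]
      exact J.zero_mem
    have h2 : Jt ≠ R := by
      intro h
      apply hJ
      rw [← hmk J, ← hJt, h, Submodule.mkQ_map_self]
    have h3 : Jt ≠ ⊤ := by
      intro h
      apply hJ'
      rw [← hmk J, ← hJt, h, Submodule.map_top, Submodule.range_mkQ]
    have h4 : finrank K Jt = finrank K J + m := by
      set f : Jt →ₗ[K] J := R.mkQ.restrict (fun x hx => hx) with hf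
      have hfs : LinearMap.range f = ⊤ := by
        rw [LinearMap.range_eq_top]
        rintro ⟨y, hy⟩
        obtain ⟨x, rfl⟩ := R.mkQ_surjective y
        exact ⟨⟨x, hy⟩, rfl⟩
      have hfk : finrank K (LinearMap.ker f) = m := by
        have e1 : (LinearMap.ker f) = R.comap Jt.subtype := by
          ext x
          rw [LinearMap.mem_ker, Submodule.mem_comap]
          constructor
          · intro hx
            have : R.mkQ (x : Fin (n + m) → K) = 0 := congrArg Subtype.val hx
            rwa [Submodule.mkQ_apply, Submodule.Quotient.mk_eq_zero] at this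
          · intro hx
            apply Subtype.ext
            change R.mkQ (x : Fin (n + m) → K) = 0
            rwa [Submodule.mkQ_apply, Submodule.Quotient.mk_eq_zero]
        rw [e1, (Submodule.comapSubtypeEquivOfLe h1).finrank_eq, hR]
      have h5 := f.finrank_range_add_finrank_ker
      rw [hfs, hfk, finrank_top] at h5
      exact h5.symm
    have h5 : V0 ⊓ J.restrictScalars k = (constIn k Jt).map q := by
      ext x
      constructor
      · rintro ⟨⟨c, rfl⟩, hx⟩
        exact ⟨c, hx, rfl⟩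
      · rintro ⟨c, hc, rfl⟩
        exact ⟨⟨c, rfl⟩, hc⟩
    have h6 : finrank k ↥(V0 ⊓ J.restrictScalars k) = finrank k (constIn k Jt) := by
      rw [h5]
      exact ((Submodule.equivMapOfInjective q hqinj (constIn k Jt)).finrank_eq).symm
    have h7 := ratio hm hmn hd hF hu hu2 hu3 h1 h2 h3
    rw [← h6, h4] at h7
    set s := finrank K J with hs
    set k' := finrank k ↥(V0 ⊓ J.restrictScalars k) with hk'
    have hs1 : 1 ≤ s := Submodule.one_le_finrank_iff.2 hJ
    have hsn : s ≤ n := by
      rw [← hQ]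
      exact Submodule.finrank_le J
    have h8 : (n : ℝ) * k' + 1 ≤ (n + m) * s := by
      have h9 : (n : ℤ) * k' + 1 ≤ (n + m) * s := by
        push_cast at h7
        have : ((s : ℤ) + m - m) = s := by ring
        rw [this] at h7
        omega
      exact_mod_cast h9
    have hs0 : (0 : ℝ) < s := by exact_mod_cast hs1
    have hsn' : (s : ℝ) ≤ n := by exact_mod_cast hsn
    rw [hV0r, hQ, div_lt_div_iff₀ hs0 hn0]
    have c1 : ((E0.sub J).deg : ℝ) ≤ C := by exact_mod_cast hC J
    have c2 : (C : ℝ) * n ≤ n * |(C : ℝ)| := by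
      rw [mul_comm]
      exact mul_le_mul_of_nonneg_left (le_abs_self _) hn0.le
    have c3 : -((E0.deg : ℝ) * s) ≤ n * |(E0.deg : ℝ)| := by
      have d1 : -((E0.deg : ℝ) * s) ≤ s * |(E0.deg : ℝ)| := by
        have := neg_abs_le (E0.deg : ℝ)
        nlinarith
      exact d1.trans (mul_le_mul_of_nonneg_right hsn' (abs_nonneg _))
    have c4 : ((E0.sub J).deg : ℝ) * n ≤ C * n := mul_le_mul_of_nonneg_right c1 hn0.le
    have c5 : α * (n * k' + 1) ≤ α * ((n + m) * s) := mul_le_mul_of_nonneg_left h8 hα0.le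
    push_cast
    nlinarith
  set f : ((Fin (n + m) → K) ⧸ R) ≃ₗ[K] (Fin n → K) :=
    LinearEquiv.ofFinrankEq _ _ (by rw [hQ, finrank_fin_fun]) with hf
  refine ⟨E0.map f, V0.map (f.toLinearMap.restrictScalars k), α, hα0, mapV_le_H0 hV0H f, ?_, ?_,
    stableSys_map hst f⟩
  · rw [finrank_mapV, hV0r]
  · rw [VB.deg_map]
    exact hE0d

end Pool.Agent.MP_09eaec.G2
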