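import Pool.Agent.Lib.MP_09eaec_ag.G2.SysDefs

/-!
# TASK C9: the number of sections of the subbundles of a stable bundle

`F` stable of rank `m ≥ 1`, degree `n + 2 m`, `n > m`; `κ` canonical.
* `h0_F`: `h1 F = 0` (otherwise `φ`, `J = ker φ`, `(F.sub J).deg ≥ n + 2 m - 2`; if `m = 1` then `J = ⊥`,
  degree `0 ≥ n`: false; if `m ≥ 2`: `J ≠ ⊥, ⊤`, `m (n + 2m - 2) < (m - 1)(n + 2m)` gives `n + 2m < 2m`).
  So `h0 F = n + m`.
* `h0_sub_lt`: for `J ≠ ⊥, ⊤`: `m h0 (F.sub J) < (n + m) rank J`. The ratios `h0 (F.sub J) / rank J`,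
  `J ≠ ⊥`, take finitely many values (`h0 (F.sub J) ≤ h0 F`, `rank J ≤ m`). Let `J0` be a subspace
  `≠ ⊥` with maximal ratio `R`.
  DICHOTOMY for a subspace `J1` with maximal ratio: if `h1 (F.sub J1) ≠ 0`: `φ : J1 → K` (`h1_pos_hom` for
  `F.sub J1`), `J' = ` the kernel, as a subspace of `W` (`Submodule.map` of the subtype), rank `r1 - 1`, and
  `h0 (F.sub J') ≥ h0 (F.sub J1) - 2` (`ker_bounds` with `V = H0`); if `r1 = 1` then `R = h0 ≤ 2`; otherwise
  `R r1 - 2 ≤ R (r1 - 1)`, again `R ≤ 2`. If `h1 (F.sub J1) = 0`: `h0 (F.sub J1) = deg (F.sub J1) - r1` (`rr`).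
  Now `(n + m)/m > 2`. If `R ≤ 2` all ratios are `≤ 2 < (n+m)/m`: done. Otherwise every `J1` with ratio
  `R` has `h1 = 0`, `R = deg (F.sub J1)/r1 - 1 ≤ (n + 2m)/m - 1 = (n + m)/m`, with `<` if `J1 ≠ ⊤`
  (stability). So all ratios are `≤ (n + m)/m`, and a `J ≠ ⊤` with equality would have the maximal ratio,
  contradicting `<`.
* `span_H0`: the sections of `F` generate `Fin m → K` over `K`: let `J` be their span; `J ≠ ⊥` (`h0 > 0`),
  `h0 (F.sub J) = h0 F = n + m`; if `J ≠ ⊤`: `m (n + m) < (n + m) rank J`, false.
-/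

set_option autoImplicit false

namespace Pool.Agent.MP_09eaec.G2

open Module

universe u v

variable {k : Type u} {K : Type v} [Field k] [Field K] [Algebra k K]
variable {W : Type v} [AddCommGroup W] [Module K W] [Module k W] [IsScalarTower k K W]
variable {A : Type v} [AddCommGroup A] [Module K A] [Module k A] [IsScalarTower k K A]
variable {B : Type v} [AddCommGroup B] [Module K B] [Module k B] [IsScalarTower k K B]

variable [Curve2 k K]

theorem h0_F {n m : ℕ} (hm : 1 ≤ m) (hmn : m < n) {F : VB k K (Fin m → K)}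
    (hd : F.deg = n + 2 * m) (hF : F.Stable) : F.h0 = n + m := by
  obtain ⟨κ, hκ⟩ := exists_canonical (k := k) (K := K)
  have hrk : finrank K (Fin m → K) = m := Module.finrank_fin_fun K
  have hmz : (1 : ℤ) ≤ m := by exact_mod_cast hm
  have hmnz : (m : ℤ) < n := by exact_mod_cast hmn
  by_cases h1 : F.h1 = 0
  · have h2 := VB.rr F
    rw [h1, hd, hrk] at h2
    linarith
  exfalso
  obtain ⟨φ, hφ, hφ'⟩ := h1_pos_hom hκ h1
  obtain ⟨h3, h4, -⟩ := ker_bounds hφ hφ'
  rw [hκ.ddeg, hd] at h3
  rw [hrk] at h4
  by_cases hm1 : m = 1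
  · have h5 : LinearMap.ker φ = ⊥ := by
      rw [← Submodule.finrank_eq_zero (R := K)]
      have : (finrank K (LinearMap.ker φ) : ℤ) = 0 := by rw [h4, hm1]; simp
      exact_mod_cast this
    have h6 : (F.sub (LinearMap.ker φ)).deg = 0 := by
      rw [h5]; exact VB.deg_sub_bot F
    rw [h6, hm1] at h3
    push_cast at h3
    linarith
  · have hm2 : (2 : ℤ) ≤ m := by
      have : 2 ≤ m := by omega
      exact_mod_cast this
    have h5 : LinearMap.ker φ ≠ ⊥ := by
      intro h
      rw [h, finrank_bot] at h4
      push_cast at h4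
      linarith
    have h6 : LinearMap.ker φ ≠ ⊤ := by
      intro h
      rw [h, finrank_top, hrk] at h4
      linarith
    have h7 := hF (LinearMap.ker φ) h5 h6
    rw [hrk, h4, hd] at h7
    nlinarith

/-- Injective `k`-linear maps of spaces of sections. -/
private theorem FProp_h0_le {J J' : Submodule K W} [FiniteDimensional K W] (F : VB k K W)
    (V : Submodule k J) (hV : V ≤ (F.sub J).H0) (h : ∀ x ∈ V, (x : W) ∈ J') :
    (finrank k V : ℤ) ≤ (F.sub J').h0 := by
  let f : V →ₗ[k] (F.sub J').H0 :=
    { toFun := fun x => ⟨⟨(x : J), h x x.2⟩, by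
        have h1 := hV x.2
        rw [VB.mem_H0] at h1 ⊢
        intro P
        exact h1 P⟩
      map_add' := fun x y => rfl
      map_smul' := fun c x => rfl }
  have hf : Function.Injective f := by
    intro x y hxy
    have h1 : (((f x : (F.sub J').H0) : J') : W) = (((f y : (F.sub J').H0) : J') : W) := by
      rw [hxy]
    exact Subtype.ext (Subtype.ext h1)
  have := LinearMap.finrank_le_finrank_of_injective hf
  unfold VB.h0
  exact_mod_cast this

theorem h0_sub_lt {n m : ℕ} (hm : 1 ≤ m) (hmn : m < n) {F : VB k K (Fin m → K)}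
    (hd : F.deg = n + 2 * m) (hF : F.Stable) {J : Submodule K (Fin m → K)} (hJ : J ≠ ⊥)
    (hJ' : J ≠ ⊤) : (m : ℤ) * (F.sub J).h0 < (n + m) * finrank K J := by
  obtain ⟨κ, hκ⟩ := exists_canonical (k := k) (K := K)
  have hrk : finrank K (Fin m → K) = m := Module.finrank_fin_fun K
  have hmz : (1 : ℤ) ≤ m := by exact_mod_cast hm
  have hmnz : (m : ℤ) < n := by exact_mod_cast hmn
  have key : ∀ (N : ℕ) (J : Submodule K (Fin m → K)), finrank K J = N → J ≠ ⊥ → J ≠ ⊤ →
      (m : ℤ) * (F.sub J).h0 < (n + m) * finrank K J := by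
    intro N
    induction N with
    | zero =>
      intro J hJN hJ _
      exact absurd (Submodule.finrank_eq_zero.1 hJN) hJ
    | succ N ih =>
      intro J hJN hJ hJ'
      have hJN' : (finrank K J : ℤ) = N + 1 := by rw [hJN]; push_cast; ring
      by_cases h1 : (F.sub J).h1 = 0
      · have h2 := VB.rr (F.sub J)
        rw [h1] at h2
        have h3 := hF J hJ hJ'
        rw [hrk, hd] at h3
        rw [h2]
        nlinarith
      · obtain ⟨φ, hφ, hφ'⟩ := h1_pos_hom hκ h1
        obtain ⟨-, h4, h5⟩ := ker_bounds hφ hφ'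
        have h6 := h5 (F.sub J).H0 le_rfl
        rw [hκ.h0] at h6
        have h7 : finrank K ((LinearMap.ker φ).map J.subtype) = finrank K (LinearMap.ker φ) :=
          Submodule.finrank_map_subtype_eq J _
        have h8 := FProp_h0_le (J := J) (J' := (LinearMap.ker φ).map J.subtype) F
          ((F.sub J).H0 ⊓ (LinearMap.ker φ).restrictScalars k) inf_le_left (fun x hx =>
            ⟨x, hx.2, rfl⟩)
        have h9 : (F.sub J).h0 ≤ (F.sub ((LinearMap.ker φ).map J.subtype)).h0 + 2 := by
          have : (F.sub J).h0 = (finrank k (F.sub J).H0 : ℤ) := rfl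
          linarith
        have h10 : finrank K (LinearMap.ker φ) = N := by
          have : (finrank K (LinearMap.ker φ) : ℤ) = N := by rw [h4, hJN']; ring
          exact_mod_cast this
        by_cases hN : N = 0
        · have h11 : (LinearMap.ker φ).map J.subtype = ⊥ := by
            rw [← Submodule.finrank_eq_zero (R := K), h7, h10, hN]
          have h12 : (F.sub ((LinearMap.ker φ).map J.subtype)).h0 = 0 := by
            unfold VB.h0
            rw [h11]
            have : Subsingleton (F.sub (⊥ : Submodule K (Fin m → K))).H0 := by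
              constructor
              intro a b
              exact Subtype.ext (Subsingleton.elim _ _)
            have h13 := Module.finrank_zero_of_subsingleton (R := k)
              (M := (F.sub (⊥ : Submodule K (Fin m → K))).H0)
            exact_mod_cast h13
          rw [h12] at h9
          rw [hJN', hN]
          push_cast
          nlinarith
        · have h11 : (LinearMap.ker φ).map J.subtype ≠ ⊥ := by
            intro h
            rw [h, finrank_bot] at h7
            omega
          have h12 : (LinearMap.ker φ).map J.subtype ≠ ⊤ := by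
            intro h
            have h13 : finrank K J ≤ m := by
              have := Submodule.finrank_le J
              rwa [hrk] at this
            rw [h, finrank_top, hrk] at h7
            omega
          have h13 := ih _ (h7.trans h10) h11 h12
          rw [h7, h10] at h13
          rw [hJN']
          nlinarith
  exact key _ J rfl hJ hJ'

theorem span_H0 {n m : ℕ} (hm : 1 ≤ m) (hmn : m < n) {F : VB k K (Fin m → K)}
    (hd : F.deg = n + 2 * m) (hF : F.Stable) :
    Submodule.span K (F.H0 : Set (Fin m → K)) = ⊤ := by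
  have hrk : finrank K (Fin m → K) = m := Module.finrank_fin_fun K
  have hmz : (1 : ℤ) ≤ m := by exact_mod_cast hm
  have hmnz : (m : ℤ) < n := by exact_mod_cast hmn
  have h0 := h0_F hm hmn hd hF
  by_contra hJ'
  have hJ : Submodule.span K (F.H0 : Set (Fin m → K)) ≠ ⊥ := by
    intro h
    rw [Submodule.span_eq_bot] at h
    have h1 : F.H0 = ⊥ := by
      rw [Submodule.eq_bot_iff]
      exact h
    have h2 : F.h0 = 0 := by
      unfold VB.h0
      rw [h1, finrank_bot]
      rfl
    rw [h2] at h0
    linarith
  have h1 := h0_sub_lt hm hmn hd hF hJ hJ'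
  have h2 : F.h0 ≤ (F.sub (Submodule.span K (F.H0 : Set (Fin m → K)))).h0 := by
    let f : F.H0 →ₗ[k] (F.sub (Submodule.span K (F.H0 : Set (Fin m → K)))).H0 :=
      { toFun := fun x => ⟨⟨(x : Fin m → K), Submodule.subset_span x.2⟩, by
          have h1 := x.2
          rw [VB.mem_H0] at h1 ⊢
          intro P
          exact h1 P⟩
        map_add' := fun x y => rfl
        map_smul' := fun c x => rfl }
    have hf : Function.Injective f := by
      intro x y hxy
      have h1 : (((f x : (F.sub (Submodule.span K (F.H0 : Set (Fin m → K)))).H0) :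
          Submodule.span K (F.H0 : Set (Fin m → K))) : Fin m → K) =
        (((f y : (F.sub (Submodule.span K (F.H0 : Set (Fin m → K)))).H0) :
          Submodule.span K (F.H0 : Set (Fin m → K))) : Fin m → K) := by
        rw [hxy]
      exact Subtype.ext h1
    have := LinearMap.finrank_le_finrank_of_injective hf
    unfold VB.h0
    exact_mod_cast this
  have h3 : (finrank K (Submodule.span K (F.H0 : Set (Fin m → K))) : ℤ) ≤ m := by
    have := Submodule.finrank_le (Submodule.span K (F.H0 : Set (Fin m → K)))
    rw [hrk] at this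
    exact_mod_cast this
  rw [h0] at h2
  nlinarith

end Pool.Agent.MP_09eaec.G2
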