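import Pool.Agent.Lib.MP_09eaec_ag.G2.Triv
import Pool.Agent.Lib.MP_09eaec_ag.G2.DualDeg
import Pool.Agent.Lib.MP_09eaec_ag.G2.FProp

/-!
# TASK D9: the evaluation map and its dual

`evT u φ = (φ (u i))_i` for vectors `u : Fin N → (Fin m → K)`.
* `evT_injective`: if `φ (u i) = 0` for all `i` and the `u i` span then `φ = 0`.
* `finrank_range_evT`: `LinearMap.finrank_range_of_inj`, `Subspace.dual_finrank_eq`.
* `deg_quo_le`: by `deg_add`, `deg_triv`: `((triv N).quo R).deg = - ((triv N).sub R).deg`,
  `R = range (evT u)`. Let `f : ((Fin m → K) →ₗ[K] K) ≃ₗ[K] R` be `LinearEquiv.ofInjective (evT u)`. Then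
  `(hom F (line 0)).map f ≤ (triv N).sub R`: if `φ (F.M P) ⊆ P.filt 0` then `φ (u i) ∈ P.filt 0` since
  `u i ∈ F.H0`. So `((triv N).sub R).deg ≥ (hom F (line 0)).deg = - F.deg` (`deg_le_of_le`, `deg_map`,
  `deg_dual`).
* `exists_basis_H0`: a `k`-basis of `F.H0` (`h0_F`, `Module.finBasisOfFinrankEq`), it spans by `span_H0`.
-/

set_option autoImplicit false

namespace Pool.Agent.MP_09eaec.G2

open Module

universe u v

variable {k : Type u} {K : Type v} [Field k] [Field K] [Algebra k K]
variable {W : Type v} [AddCommGroup W] [Module K W] [Module k W] [IsScalarTower k K W]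
variable {A : Type v} [AddCommGroup A] [Module K A] [Module k A] [IsScalarTower k K A]
variable {B : Type v} [AddCommGroup B] [Module K B] [Module k B] [IsScalarTower k K B]

/-- `φ ↦ (φ (u i))_i`. -/
def evT {m N : ℕ} (u : Fin N → (Fin m → K)) : ((Fin m → K) →ₗ[K] K) →ₗ[K] (Fin N → K) where
  toFun φ i := φ (u i)
  map_add' _ _ := rfl
  map_smul' _ _ := rfl

lemma evT_apply {m N : ℕ} (u : Fin N → (Fin m → K)) (φ : (Fin m → K) →ₗ[K] K) (i : Fin N) :
    evT u φ i = φ (u i) := rfl

theorem evT_injective {m N : ℕ} {u : Fin N → (Fin m → K)}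
    (hu : Submodule.span K (Set.range u) = ⊤) : Function.Injective (evT u) := by
  intro φ ψ h
  exact LinearMap.ext_on_range hu fun i => congrFun h i

theorem finrank_range_evT {m N : ℕ} {u : Fin N → (Fin m → K)}
    (hu : Submodule.span K (Set.range u) = ⊤) : finrank K (LinearMap.range (evT u)) = m := by
  rw [LinearMap.finrank_range_of_inj (evT_injective hu), finrank_linearMap, finrank_fin_fun,
    finrank_self, mul_one]

theorem deg_quo_le [Curve2 k K] {m N : ℕ} {F : VB k K (Fin m → K)} {u : Fin N → (Fin m → K)}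
    (hu : Submodule.span K (Set.range u) = ⊤) (hF : ∀ i, u i ∈ F.H0) :
    ((triv k K N).quo (LinearMap.range (evT u))).deg ≤ F.deg := by
  have h1 := VB.deg_add (triv k K N) (LinearMap.range (evT u))
  rw [deg_triv] at h1
  have h2 : (hom F (line 0)).map (LinearEquiv.ofInjective (evT u) (evT_injective hu)) ≤
      (triv k K N).sub (LinearMap.range (evT u)) := by
    intro P x hx
    rw [VB.mem_map] at hx
    rw [VB.mem_sub, mem_triv]
    intro i
    have h3 := hx (u i) (VB.mem_H0.1 (hF i) P)
    have h4 : (x : Fin N → K) = evT u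
        ((LinearEquiv.ofInjective (evT u) (evT_injective hu)).symm x) := by
      rw [← LinearEquiv.ofInjective_apply (evT u) (h := evT_injective hu),
        LinearEquiv.apply_symm_apply]
    rw [h4, evT_apply]
    rw [mem_line] at h3
    simpa using h3
  have h3 := VB.deg_le_of_le h2
  rw [VB.deg_map, deg_dual] at h3
  linarith

theorem exists_basis_H0 [Curve2 k K] {n m : ℕ} (hm : 1 ≤ m) (hmn : m < n) {F : VB k K (Fin m → K)}
    (hd : F.deg = n + 2 * m) (hF : F.Stable) :
    ∃ u : Fin (n + m) → (Fin m → K), LinearIndependent k u ∧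
      Submodule.span k (Set.range u) = F.H0 ∧ Submodule.span K (Set.range u) = ⊤ := by
  have h := h0_F hm hmn hd hF
  unfold VB.h0 at h
  have h' : finrank k F.H0 = n + m := by exact_mod_cast h
  let b := Module.finBasisOfFinrankEq k F.H0 h'
  have h1 : Submodule.span k (Set.range fun i => (b i : Fin m → K)) = F.H0 := by
    have h2 := congrArg (Submodule.map F.H0.subtype) b.span_eq
    rw [Submodule.map_span, ← Set.range_comp, Submodule.map_top, Submodule.range_subtype] at h2
    exact h2
  refine ⟨fun i => (b i : Fin m → K), b.linearIndependent.map' F.H0.subtype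
    (Submodule.ker_subtype _), h1, ?_⟩
  have h3 := span_H0 hm hmn hd hF
  rw [← h1, Submodule.span_span_of_tower] at h3
  exact h3

end Pool.Agent.MP_09eaec.G2
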