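import Pool.Agent.Lib.MP_09eaec_ag.G2.LineRR

/-!
# TASK D2: local bases

* `exists_local_basis`: for every `P` there is a `K`-basis `b` of `W` with
  `x ∈ E.M P ↔ ∀ i, b.repr x i ∈ P.filt 0`. Induction on `finrank K W` (generalised over `W`): rank `0`
  trivial; rank `n + 1`: let `J = span {w}`, `w ≠ 0`. The stalk `{x : K | x w ∈ E.M P}` is `P.filt m` for some
  `m` (it is a `P.filt 0`-submodule of `K`, bounded by `upper` and nonzero by `lower`; see
  `exists_eq_line` for the argument, or apply `exists_eq_line` to the transport of `E.sub J` along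
  `J ≃ K`); take `t` of order `m`, `b_0 = t w`. Let `b'` be the basis of `W ⧸ J` for `E.quo J`, lift
  `b'_i` (which is in the stalk) to `b_i ∈ E.M P`. Then `b_0, b_i` is a basis of `W`
  (`Submodule` basis from `J` and `W ⧸ J`), and `x ∈ E.M P` iff all its coordinates are integral: the
  coordinates of `[x]` are integral, subtract `Σ c_i b_i ∈ E.M P`, the rest is in `J`.
* `almost_standard`: for a `VB` on `Fin n → K`: for all `P` outside of a finite set
  `x ∈ E.M P ↔ ∀ i, x i ∈ P.filt 0` (`lower` for the unit vectors, `upper` for the coordinates).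
-/

set_option autoImplicit false

namespace Pool.Agent.MP_09eaec.G2

open Module

universe u v

variable {k : Type u} {K : Type v} [Field k] [Field K] [Algebra k K]
variable {W : Type v} [AddCommGroup W] [Module K W] [Module k W] [IsScalarTower k K W]
variable {A : Type v} [AddCommGroup A] [Module K A] [Module k A] [IsScalarTower k K A]
variable {B : Type v} [AddCommGroup B] [Module K B] [Module k B] [IsScalarTower k K B]

variable [Curve k K]

/-- the stalk of a line `K w` -/
private lemma LocBasis_line (E : VB k K W) (P : Place k K) (w : W) (hw : w ≠ 0) :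
    ∃ t : K, t ≠ 0 ∧ ∀ a : K, a • w ∈ E.M P ↔ a / t ∈ P.filt 0 := by
  set f : ↥(K ∙ w) ≃ₗ[K] K := (LinearEquiv.toSpanNonzeroSingleton K W w hw).symm with hf
  obtain ⟨D, hD⟩ := exists_eq_line ((E.sub (K ∙ w)).map f)
  obtain ⟨t, ht, htm⟩ := exists_ord_eq P (-D P)
  refine ⟨t, ht, ?_⟩
  intro a
  have h1 : a ∈ (line D).M P ↔ a • w ∈ E.M P := by
    rw [← hD, VB.mem_map, VB.mem_sub]
    rfl
  rw [← h1, mem_line]
  have h2 := mem_filt_iff_of_ord P ht htm (x := a / t) 0
  rw [zero_add, mul_div_cancel₀ a ht] at h2
  exact h2

private lemma LocBasis_one_mem (P : Place k K) : (1 : K) ∈ P.filt 0 :=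
  Or.inr (by rw [P.ord_one])

private theorem LocBasis_exists (n : ℕ) : ∀ (W : Type v) [AddCommGroup W] [Module K W] [Module k W]
    [IsScalarTower k K W] [FiniteDimensional K W] (_ : finrank K W = n) (E : VB k K W)
    (P : Place k K),
    ∃ b : Basis (Fin n) K W, ∀ x, x ∈ E.M P ↔ ∀ i, b.repr x i ∈ P.filt 0 := by
  induction n with
  | zero =>
    intro W _ _ _ _ _ hW E P
    haveI : Subsingleton W := finrank_zero_iff.mp hW
    refine ⟨Basis.empty W, ?_⟩
    intro x
    constructor
    · intro _ i; exact i.elim0
    · intro _
      rw [Subsingleton.elim x 0]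
      exact zero_mem _
  | succ n ih =>
    intro W _ _ _ _ _ hW E P
    classical
    haveI : Nontrivial W := by
      apply nontrivial_of_finrank_pos (R := K)
      omega
    obtain ⟨w, hw⟩ := exists_ne (0 : W)
    obtain ⟨t, ht, hline⟩ := LocBasis_line E P w hw
    set J : Submodule K W := K ∙ w with hJ
    have hfJ : finrank K J = 1 := finrank_span_singleton hw
    have hfq : finrank K (W ⧸ J) = n := by
      have := J.finrank_quotient_add_finrank
      omega
    obtain ⟨b', hb'⟩ := ih (W ⧸ J) hfq (E.quo J) P
    have hlift : ∀ i, ∃ v ∈ E.M P, J.mkQ v = b' i := by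
      intro i
      have h1 : b' i ∈ (E.quo J).M P := by
        rw [hb']
        intro j
        rw [Basis.repr_self, Finsupp.single_apply]
        split_ifs
        · exact LocBasis_one_mem P
        · exact zero_mem _
      exact VB.mem_quo.mp h1
    choose v hv1 hv2 using hlift
    have hvli : LinearIndependent K v := by
      apply LinearIndependent.of_comp J.mkQ
      have : J.mkQ ∘ v = b' := by funext i; exact hv2 i
      rw [this]
      exact b'.linearIndependent
    have hx : t • w ∉ Submodule.span K (Set.range v) := by
      intro hmem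
      rw [Submodule.mem_span_range_iff_exists_fun] at hmem
      obtain ⟨c, hc⟩ := hmem
      have h1 : ∑ i, c i • b' i = 0 := by
        have h2 := congrArg J.mkQ hc
        rw [map_sum] at h2
        simp only [map_smul, hv2] at h2
        rw [h2]
        have h3 : w ∈ J := Submodule.mem_span_singleton_self w
        have h4 : J.mkQ w = 0 := by simpa using h3
        rw [h4, smul_zero]
      have h2 : ∀ i, c i = 0 := by
        have := (Fintype.linearIndependent_iff.mp b'.linearIndependent) c h1
        exact this
      simp only [h2, zero_smul, Finset.sum_const_zero] at hc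
      have := smul_ne_zero ht hw
      exact this hc.symm
    have huli : LinearIndependent K (Fin.cons (t • w) v : Fin (n + 1) → W) :=
      linearIndependent_finCons.mpr ⟨hvli, hx⟩
    set b : Basis (Fin (n + 1)) K W :=
      basisOfLinearIndependentOfCardEqFinrank huli (by rw [Fintype.card_fin, hW]) with hb
    have hbu : ∀ i, b i = (Fin.cons (t • w) v : Fin (n + 1) → W) i := by
      intro i
      rw [hb, coe_basisOfLinearIndependentOfCardEqFinrank]
    have hb0 : b 0 = t • w := by rw [hbu, Fin.cons_zero]
    have hbs : ∀ i : Fin n, b i.succ = v i := by intro i; rw [hbu, Fin.cons_succ]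
    have hb0mem : t • w ∈ E.M P := by
      rw [hline, div_self ht]; exact LocBasis_one_mem P
    refine ⟨b, ?_⟩
    intro x
    constructor
    · intro hxE
      have h1 : J.mkQ x ∈ (E.quo J).M P := ⟨x, hxE, rfl⟩
      rw [hb'] at h1
      set c : Fin n → K := fun i => b'.repr (J.mkQ x) i with hc
      have h2 : x - ∑ i, c i • v i ∈ J := by
        rw [← Submodule.ker_mkQ J, LinearMap.mem_ker, map_sub, map_sum]
        simp only [map_smul, hv2]
        rw [sub_eq_zero]
        exact (b'.sum_repr (J.mkQ x)).symm
      obtain ⟨a, ha⟩ := Submodule.mem_span_singleton.mp h2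
      have h3 : a • w ∈ E.M P := by
        rw [ha]
        apply sub_mem hxE
        apply Submodule.sum_mem
        intro i _
        exact E.smul_mem P _ _ (h1 i) (hv1 i)
      rw [hline] at h3
      have h4 : x = ∑ i, (Fin.cons (a / t) c : Fin (n + 1) → K) i • b i := by
        rw [Fin.sum_univ_succ]
        simp only [Fin.cons_zero, Fin.cons_succ, hb0, hbs]
        rw [smul_smul, div_mul_cancel₀ a ht, ha]
        abel
      have h5 : ∀ i, b.repr x i = (Fin.cons (a / t) c : Fin (n + 1) → K) i := by
        intro i
        conv_lhs => rw [h4]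
        rw [b.repr_sum_self]
      intro i
      rw [h5]
      refine Fin.cases ?_ (fun j => ?_) i
      · exact h3
      · exact h1 j
    · intro h
      rw [← b.sum_repr x]
      apply Submodule.sum_mem
      intro i _
      apply E.smul_mem P _ _ (h i)
      refine Fin.cases ?_ (fun j => ?_) i
      · rw [hb0]; exact hb0mem
      · rw [hbs]; exact hv1 j

namespace VB

theorem exists_local_basis [FiniteDimensional K W] (E : VB k K W) (P : Place k K) :
    ∃ b : Basis (Fin (finrank K W)) K W, ∀ x, x ∈ E.M P ↔ ∀ i, b.repr x i ∈ P.filt 0 :=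
  LocBasis_exists (finrank K W) W rfl E P

theorem almost_standard {n : ℕ} (E : VB k K (Fin n → K)) :
    {P : Place k K | ¬ ∀ x, x ∈ E.M P ↔ ∀ i, x i ∈ P.filt 0}.Finite := by
  classical
  choose e1 h1 using fun i : Fin n => E.lower (Pi.single i 1)
  choose e2 h2 using fun i : Fin n => E.upper (LinearMap.proj i)
  apply ((Set.finite_iUnion fun i : Fin n => (e1 i).support.finite_toSet).union
    (Set.finite_iUnion fun i : Fin n => (e2 i).support.finite_toSet)).subset
  intro P hP
  by_contra hcon
  simp only [Set.mem_union, Set.mem_iUnion, Finset.mem_coe, Finsupp.mem_support_iff, not_or,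
    not_not, not_exists] at hcon
  apply hP
  intro x
  constructor
  · intro hx i
    have h3 := h2 i P x hx
    rw [hcon.2 i] at h3
    exact h3
  · intro hx
    have h3 : x = ∑ i, x i • (Pi.single i 1 : Fin n → K) := by
      funext j
      simp [Finset.sum_apply, Pi.single_apply]
    rw [h3]
    apply Submodule.sum_mem
    intro i _
    apply h1 i P (x i)
    rw [hcon.1 i]
    exact hx i

end VB

end Pool.Agent.MP_09eaec.G2
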