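import Pool.Agent.Lib.MP_09eaec_ag.G2.ToVB
import Pool.Agent.Lib.MP_09eaec_ag.G2.LocBasis

/-!
# TASK D3: every `VB` on `Fin n → K` comes from a `Bundle`

`g P = 1` if `x ∈ E.M P ↔ ∀ i, x i ∈ P.filt 0` (all but finitely many `P`, `almost_standard`), otherwise the
matrix whose columns are the vectors of a local basis (`exists_local_basis`, reindexed by
`finrank K (Fin n → K) = n`); its determinant is not zero, and `(g P)⁻¹ *ᵥ x` are the coordinates of `x`
(`Basis.toMatrix`). `P.IsInt y` is `y ∈ P.filt 0` (both are `y = 0 ∨ 0 ≤ P.ord y`).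
-/

set_option autoImplicit false

namespace Pool.Agent.MP_09eaec.G2

open Module Matrix

universe u v

variable {k : Type u} {K : Type v} [Field k] [Field K] [Algebra k K]
variable {W : Type v} [AddCommGroup W] [Module K W] [Module k W] [IsScalarTower k K W]
variable {A : Type v} [AddCommGroup A] [Module K A] [Module k A] [IsScalarTower k K A]
variable {B : Type v} [AddCommGroup B] [Module K B] [Module k B] [IsScalarTower k K B]

variable [Curve k K]

private lemma ExistsBundle_local {n : ℕ} (E : VB k K (Fin n → K)) (P : Place k K) :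
    ∃ M : Matrix (Fin n) (Fin n) K, M.det ≠ 0 ∧
      (∀ x, x ∈ E.M P ↔ ∀ i, (M⁻¹ *ᵥ x) i ∈ P.filt 0) ∧
      ((∀ x, x ∈ E.M P ↔ ∀ i, x i ∈ P.filt 0) → M = 1) := by
  classical
  by_cases hst : ∀ x, x ∈ E.M P ↔ ∀ i, x i ∈ P.filt 0
  · refine ⟨1, by rw [Matrix.det_one]; exact one_ne_zero, ?_, fun _ => rfl⟩
    intro x
    rw [inv_one, Matrix.one_mulVec]
    exact hst x
  · obtain ⟨b0, hb0⟩ := VB.exists_local_basis E P
    have hfr : finrank K (Fin n → K) = n := by simp
    set b : Basis (Fin n) K (Fin n → K) := b0.reindex (finCongr hfr) with hb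
    have hbmem : ∀ x, x ∈ E.M P ↔ ∀ i, b.repr x i ∈ P.filt 0 := by
      intro x
      rw [hb0]
      constructor
      · intro h i
        rw [hb, Basis.repr_reindex_apply]
        exact h _
      · intro h i
        have := h (finCongr hfr i)
        rw [hb, Basis.repr_reindex_apply, Equiv.symm_apply_apply] at this
        exact this
    set M : Matrix (Fin n) (Fin n) K := Matrix.of (fun a j => b j a) with hM
    have hMv : ∀ y : Fin n → K, M *ᵥ y = ∑ j, y j • b j := by
      intro y
      funext a
      rw [Matrix.mulVec, dotProduct, Finset.sum_apply]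
      apply Finset.sum_congr rfl
      intro j _
      rw [Pi.smul_apply, smul_eq_mul, mul_comm]
      rfl
    have hinj : Function.Injective M.mulVec := by
      intro y y' h
      have h1 : ∑ j, y j • b j = ∑ j, y' j • b j := by
        rw [← hMv, ← hMv]; exact h
      have h2 : ∑ j, (y j - y' j) • b j = 0 := by
        simp only [sub_smul, Finset.sum_sub_distrib]
        rw [h1, sub_self]
      have h3 := (Fintype.linearIndependent_iff.mp b.linearIndependent) _ h2
      funext j
      exact sub_eq_zero.mp (h3 j)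
    have hdet : M.det ≠ 0 := by
      rw [Matrix.mulVec_injective_iff_isUnit, Matrix.isUnit_iff_isUnit_det] at hinj
      exact hinj.ne_zero
    refine ⟨M, hdet, ?_, fun h => absurd h hst⟩
    intro x
    rw [hbmem]
    have h1 : M⁻¹ *ᵥ x = fun i => b.repr x i := by
      have h2 : x = M *ᵥ (fun i => b.repr x i) := by
        rw [hMv]; exact (b.sum_repr x).symm
      conv_lhs => rw [h2]
      rw [Matrix.mulVec_mulVec, Matrix.nonsing_inv_mul _ (isUnit_iff_ne_zero.2 hdet),
        Matrix.one_mulVec]
    rw [h1]

theorem exists_toVB_eq {n : ℕ} (E : VB k K (Fin n → K)) : ∃ E' : Bundle k K n, toVB E' = E := by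
  choose M hM1 hM2 hM3 using ExistsBundle_local E
  refine ⟨⟨M, hM1, ?_⟩, ?_⟩
  · apply (VB.almost_standard E).subset
    intro P hP h
    exact hP (hM3 P h)
  · apply VB.ext'
    intro P x
    rw [mem_toVB, hM2]
    rfl

end Pool.Agent.MP_09eaec.G2
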