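import Pool.Agent.Lib.MP_09eaec_ag.G2.Transport
import Pool.Agent.Lib.MP_09eaec_ag.G2.Generic
import Pool.Agent.Lib.MP_09eaec_ag.G2.Ext

/-!
# TASK B5: the last extension for non integral slopes

`X` of type `(n, δ)` with `r δ - d n = -1`, `F` of type `(c, e)`, `1 ≤ c < r`, `r e - d c = 1`,
`e0(ρ, σ) = r σ - d ρ`. `Z = ext X F u` has `e0(Z) = 0`.
CONDITIONS on `u`: `¬ Null X J (F.sub ⊤) u` for `J ∈ X.exc r d` and `J = ⊥`. Admissible: let `(ρ, σ)` be the
type of `X.quo J`, `ε = e0(ρ, σ) ∈ {0, -1}`; `r (c σ - ρ e) = c (d ρ + ε) - ρ (1 + d c) = c ε - ρ < 0`, so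
`c σ - ρ e < 0 < c ρ`.
For a proper subspace `L ≠ ⊥` of the generic fibre of `F`, type `(ρ, σ)`: `c σ - e ρ ≤ -1`, `ρ < c < r`, and
`c e0(ρ, σ) = r (c σ - e ρ) + ρ ≤ -r + ρ < 0`, so `e0 ≤ -1`.
For `J ≤ A × B`, `J ≠ ⊥, ⊤` (`JA, JB, F', t` as in TASK B3): `e0(Z.sub J) = e0(X.sub JA) + e0(F.sub JB) - r t`.
 * `JA = ⊥`: `JB ≠ ⊥`; `JB = ⊤`, `t = 0` is excluded; `JB = ⊤`, `t ≥ 1`: `1 - r t ≤ -1`; `JB` proper: `≤ -1`.
 * `JA ≠ ⊥`: `e0(X.sub JA) ≤ -1`; the sum is `≤ 0`, and `= 0` only if `e0(X.sub JA) = -1`, `JB = ⊤`, `t = 0`: then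
   `JA ∈ X.exc r d` is excluded, `JA = ⊤` means `J = ⊤`.
So `e0(Z.sub J) ≤ -1`: `r (Z.sub J).deg < d finrank J`; with `m = n + c`, `r (δ + e) = d m`, this gives
`m (Z.sub J).deg < finrank J (δ + e)` (multiply by `m`, cancel `r > 0`), i.e. `Z.Stable`.
Transport by `exists_transport`.
-/

set_option autoImplicit false

namespace Pool.Agent.MP_09eaec.G2

open Module

universe u v

variable {k : Type u} {K : Type v} [Field k] [Field K] [Algebra k K]
variable {W : Type v} [AddCommGroup W] [Module K W] [Module k W] [IsScalarTower k K W]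
variable {A : Type v} [AddCommGroup A] [Module K A] [Module k A] [IsScalarTower k K A]
variable {B : Type v} [AddCommGroup B] [Module K B] [Module k B] [IsScalarTower k K B]

variable [Curve2 k K]

theorem final_step {r n c : ℕ} {d δ e : ℤ} (hc : 1 ≤ c) (hcr : c < r) (hn : 1 ≤ n)
    (hX : HasX k K r d n δ) (he : (r : ℤ) * δ - d * n = -1) (hF : Q k K c e)
    (hFe : (r : ℤ) * e - d * c = 1) :
    ∃ Z : VB k K (Fin (n + c) → K), Z.deg = δ + e ∧ Z.Stable := by
  classical
  obtain ⟨X, hXd, hXneg, hXfin⟩ := hX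
  obtain ⟨F, hFd, hFq, -⟩ := hF
  have hr0 : (0 : ℤ) < r := by omega
  have hr2 : (2 : ℤ) ≤ r := by omega
  have hc0 : (0 : ℤ) < c := by omega
  have hn0 : (0 : ℤ) < n := by omega
  have hcr' : (c : ℤ) < r := by omega
  have hfA : (finrank K (Fin n → K) : ℤ) = n := by simp
  have hfB : (finrank K (Fin c → K) : ℤ) = c := by simp
  -- the index type
  have hfin : (X.exc r d ∪ {⊥}).Finite := hXfin.union (Set.finite_singleton _)
  haveI : Finite ↥(X.exc r d ∪ {⊥}) := hfin.to_subtype
  obtain ⟨u, hu⟩ := exists_generic X (fun i : ↥(X.exc r d ∪ {⊥}) => i.1)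
    (fun _ => (⊤ : Submodule K (Fin c → K))) (fun _ => F.sub ⊤) (by
      rintro ⟨J, hJ⟩
      apply N_hom_ne_top
      have h1 : (finrank K (⊤ : Submodule K (Fin c → K)) : ℤ) = c := by
        rw [finrank_top]; exact hfB
      have h2 : (F.sub ⊤).deg = e := by rw [VB.deg_sub_top, hFd]
      have h3 := VB.deg_add X J
      have h4 : (finrank K ((Fin n → K) ⧸ J) : ℤ) + finrank K J = n := by
        rw [← hfA]
        exact_mod_cast J.finrank_quotient_add_finrank
      have h6 : (0 : ℤ) ≤ finrank K J := by positivity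
      rw [h1, h2]
      simp only
      rcases hJ with hJ | hJ
      · obtain ⟨hJb, hJt, hJe⟩ := hJ
        have h5 : 0 < finrank K ((Fin n → K) ⧸ J) := by
          rw [finrank_pos_iff]
          exact Submodule.Quotient.nontrivial_iff.2 hJt
        have h5' : (0 : ℤ) < finrank K ((Fin n → K) ⧸ J) := by exact_mod_cast h5
        have h7 : (r : ℤ) * ((c : ℤ) * (X.quo J).deg - finrank K ((Fin n → K) ⧸ J) * e) =
            - finrank K ((Fin n → K) ⧸ J) := by
          have h8 : (r : ℤ) * (X.quo J).deg = d * finrank K ((Fin n → K) ⧸ J) := by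
            have : (X.quo J).deg = δ - (X.sub J).deg := by omega
            rw [this]
            have h9 : (finrank K ((Fin n → K) ⧸ J) : ℤ) = n - finrank K J := by omega
            rw [h9]
            linear_combination he - hJe
          linear_combination (c : ℤ) * h8 - (finrank K ((Fin n → K) ⧸ J) : ℤ) * hFe
        nlinarith [mul_pos hc0 h5']
      · have hJ' : J = ⊥ := hJ
        have h6' : (finrank K J : ℤ) = 0 := by
          rw [hJ', finrank_bot]; rfl
        have h7' : (X.sub J).deg = 0 := by rw [hJ', VB.deg_sub_bot]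
        have h9 : (finrank K ((Fin n → K) ⧸ J) : ℤ) = n := by omega
        have h10 : (X.quo J).deg = δ := by omega
        rw [h9, h10]
        have h7 : (r : ℤ) * ((c : ℤ) * δ - n * e) = - c - n := by
          linear_combination (c : ℤ) * he - (n : ℤ) * hFe
        nlinarith [mul_pos hc0 hn0])
  have hnull : ∀ J : Submodule K (Fin n → K), J ∈ X.exc r d ∨ J = ⊥ → ¬ Null X J (F.sub ⊤) u := by
    intro J hJ
    exact hu ⟨J, hJ⟩
  -- the values of e0 on the subbundles of `F`
  have hFtop : ∀ L : Submodule K (Fin c → K), L = ⊤ → (F.sub L).deg = e := by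
    rintro _ rfl
    rw [VB.deg_sub_top, hFd]
  have hFbot : ∀ L : Submodule K (Fin c → K), L = ⊥ → (F.sub L).deg = 0 := by
    rintro _ rfl
    rw [VB.deg_sub_bot]
  have hXbot : ∀ L : Submodule K (Fin n → K), L = ⊥ → (X.sub L).deg = 0 := by
    rintro _ rfl
    rw [VB.deg_sub_bot]
  have hFprop : ∀ L : Submodule K (Fin c → K), L ≠ ⊥ → L ≠ ⊤ →
      (r : ℤ) * (F.sub L).deg - d * finrank K L ≤ -1 := by
    intro L hb ht
    have h1 := hFq L hb ht
    have h2 : (finrank K L : ℤ) < c := by
      rw [← hfB]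
      exact_mod_cast Submodule.finrank_lt ht
    by_contra h3
    have h3' : 0 ≤ (r : ℤ) * (F.sub L).deg - d * finrank K L := by omega
    have h4 : (c : ℤ) * ((r : ℤ) * (F.sub L).deg - d * finrank K L) =
        r * (c * (F.sub L).deg - e * finrank K L) + finrank K L := by
      linear_combination (finrank K L : ℤ) * hFe
    have h5 := mul_nonneg hc0.le h3'
    nlinarith
  have hNullTop : ∀ (JA : Submodule K (Fin n → K)) (L : Submodule K (Fin c → K)), L = ⊤ →
      Null X JA (F.sub L) u → Null X JA (F.sub ⊤) u := by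
    rintro JA _ rfl h
    exact h
  have hrank : finrank K ((Fin n → K) × (Fin c → K)) = n + c := by simp
  have hkey : ∀ J : Submodule K ((Fin n → K) × (Fin c → K)), J ≠ ⊥ → J ≠ ⊤ →
      (r : ℤ) * ((ext X F u).sub J).deg - d * finrank K J ≤ -1 := by
    intro J hJb hJt
    obtain ⟨F', hle, hdeg, hN⟩ := ext_sub X F u J
    have hfr := finrank_ext_sub (K := K) J
    have ht0 : F'.deg ≤ (F.sub (J.map (LinearMap.snd K (Fin n → K) (Fin c → K)))).deg :=
      VB.deg_le_of_le hle
    have hfr' : (finrank K J : ℤ) = finrank K (J.comap (LinearMap.inl K (Fin n → K) (Fin c → K))) +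
        finrank K (J.map (LinearMap.snd K (Fin n → K) (Fin c → K))) := by exact_mod_cast hfr
    have heq : (F.sub (J.map (LinearMap.snd K (Fin n → K) (Fin c → K)))).deg ≤ F'.deg →
        Null X (J.comap (LinearMap.inl K (Fin n → K) (Fin c → K)))
          (F.sub (J.map (LinearMap.snd K (Fin n → K) (Fin c → K)))) u := by
      intro h
      rw [← VB.eq_of_le_of_deg_le hle h]
      exact hN
    have hbot := eq_bot_of (K := K) (J := J)
    have htop := eq_top_of (K := K) (J := J)
    rw [hdeg, hfr']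
    generalize J.comap (LinearMap.inl K (Fin n → K) (Fin c → K)) = JA at *
    revert F' ht0 heq hbot htop
    generalize J.map (LinearMap.snd K (Fin n → K) (Fin c → K)) = JB at *
    intro F' hle ht0 hdeg hN heq hbot htop
    have hX1 : JA ≠ ⊥ → (r : ℤ) * (X.sub JA).deg - d * finrank K JA ≤ -1 := fun h => hXneg JA h
    have hrt : ∀ t : ℤ, 1 ≤ t → (r : ℤ) ≤ r * t := fun t ht => by nlinarith
    by_cases hA : JA = ⊥
    · have hA1 : (X.sub JA).deg = 0 := hXbot _ hA
      have hA2 : (finrank K JA : ℤ) = 0 := by rw [hA, finrank_bot]; rfl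
      by_cases hB : JB = ⊥
      · exact absurd (hbot hA hB) hJb
      · by_cases hB' : JB = ⊤
        · have hB1 := hFtop JB hB'
          have hB2 : (finrank K JB : ℤ) = c := by rw [hB', finrank_top]; exact hfB
          have h1 : ¬ (F.sub JB).deg ≤ F'.deg := by
            intro h
            exact hnull JA (Or.inr hA) (hNullTop JA JB hB' (heq h))
          have h2 := hrt ((F.sub JB).deg - F'.deg) (by omega)
          have h3 : (r : ℤ) * F'.deg = r * e - r * ((F.sub JB).deg - F'.deg) := by rw [hB1]; ring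
          rw [hA1, hA2, hB2]
          nlinarith
        · have h1 := hFprop JB hB hB'
          have h2 : (r : ℤ) * F'.deg ≤ r * (F.sub JB).deg := mul_le_mul_of_nonneg_left ht0 hr0.le
          rw [hA1, hA2]
          nlinarith
    · have h0 := hX1 hA
      by_cases hB : JB = ⊥
      · have hB1 := hFbot JB hB
        have hB2 : (finrank K JB : ℤ) = 0 := by rw [hB, finrank_bot]; rfl
        have h2 : (r : ℤ) * F'.deg ≤ r * (F.sub JB).deg := mul_le_mul_of_nonneg_left ht0 hr0.le
        rw [hB1] at h2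
        rw [hB2]
        nlinarith
      · by_cases hB' : JB = ⊤
        · have hB1 := hFtop JB hB'
          have hB2 : (finrank K JB : ℤ) = c := by rw [hB', finrank_top]; exact hfB
          by_cases h : (F.sub JB).deg ≤ F'.deg
          · have h4 : F'.deg = e := by rw [← hB1]; omega
            have h5 : (r : ℤ) * (X.sub JA).deg - d * finrank K JA ≠ -1 := by
              intro h6
              by_cases hAt : JA = ⊤
              · exact hJt (htop hAt hB')
              · exact hnull JA (Or.inl ⟨hA, hAt, h6⟩) (hNullTop JA JB hB' (heq h))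
            have h7 : (r : ℤ) * (X.sub JA).deg - d * finrank K JA ≤ -2 := by omega
            rw [h4, hB2]
            nlinarith
          · have h2 := hrt ((F.sub JB).deg - F'.deg) (by omega)
            have h3 : (r : ℤ) * F'.deg = r * e - r * ((F.sub JB).deg - F'.deg) := by rw [hB1]; ring
            rw [hB2]
            nlinarith
        · have h1 := hFprop JB hB hB'
          have h2 : (r : ℤ) * F'.deg ≤ r * (F.sub JB).deg := mul_le_mul_of_nonneg_left ht0 hr0.le
          nlinarith
  obtain ⟨Z, f, -, hZd, -, -, -, hZs⟩ := exists_transport (ext X F u) hrank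
  refine ⟨Z, ?_, hZs ?_⟩
  · rw [hZd, deg_ext, hXd, hFd]
  · intro J hJb hJt
    have h1 := hkey J hJb hJt
    rw [hrank, deg_ext, hXd, hFd]
    have h2 : (r : ℤ) * (δ + e) = d * (n + c) := by linear_combination he + hFe
    have h3 : (0 : ℤ) < n + c := by omega
    have h4 : (r : ℤ) * (((n + c : ℕ) : ℤ) * ((ext X F u).sub J).deg) <
        r * (finrank K J * (δ + e)) := by
      push_cast
      have h5 : (r : ℤ) * (((n : ℤ) + c) * ((ext X F u).sub J).deg) =
          (n + c) * (r * ((ext X F u).sub J).deg - d * finrank K J) + r * (finrank K J * (δ + e)) := by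
        linear_combination (-(finrank K J : ℤ)) * h2
      rw [h5]
      nlinarith
    exact lt_of_mul_lt_mul_left h4 hr0.le

end Pool.Agent.MP_09eaec.G2
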