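import Pool.Agent.Lib.MP_09eaec_ag.G2.IntBase
import Pool.Agent.Lib.MP_09eaec_ag.G2.AddVec
import Pool.Agent.Lib.MP_09eaec_ag.G2.CoprimeStep
import Pool.Agent.Lib.MP_09eaec_ag.G2.ChainStep
import Pool.Agent.Lib.MP_09eaec_ag.G2.FinalStep

/-!
# TASK B12: stable bundles of all ranks and degrees

* `Q_coprime`: strong induction on `r`: `r = 1`: `Q_one`; `r = 2`: `Q_two`; `r ≥ 3`: `exists_parents` and
  `coprime_step`.
* `stable_of_Q`: `r deg - d rank ≤ -1` for the proper subbundles is stability (`finrank K (Fin r → K) = r`).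
* `stable_int`: rank `h ≥ 2`, degree `h d0`: `G` of degree `d0` (`exists_ddeg`), `X` from `int_chain G h`, a point
  `P0`, `w0` from `exists_generic_vector` for `S = X.exc 1 d0`, `Z` from `exists_oneStep`. `Z.deg = h d0`
  (`deg_oneStep`). For `J ≠ ⊥, ⊤`: `deg_sub_oneStep`: if `(X.sub J).deg = d0 rank J - 1` then `J ∈ exc`, so
  the degree does not jump; otherwise `(X.sub J).deg ≤ d0 rank J - 2`. So `(Z.sub J).deg < d0 rank J`.
* `hasX_first`: `a e - c b = 1`, `r = a + c`, `d = b + e`: a bundle from `Q k K a b` gives `HasX k K r d a b`, with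
  `exc = ∅` (`num_A`; for `J = ⊤` the value is `r b - d a = -1`).
* `hasX_chain`: from `hasX_first` and `chain_step`: `HasX k K r d (a + i r) (b + i d)` for all `i` (`r ≥ 2`).
* `exists_stable`: let `h = gcd`, `r = h r0`, `d = h d0`. `r0 = 1`: `h = 1`: `Q_one`; `h ≥ 2`: `stable_int`.
  `r0 ≥ 2`, `h = 1`: `Q_coprime`. `r0 ≥ 2`, `h ≥ 2`: parents `(a, b), (c, e)` of `(r0, d0)`;
  `hasX_chain` with `i = h - 1`, then `final_step` with `(c, e)`: rank `a + (h-1) r0 + c = h r0`.
-/

set_option autoImplicit false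

namespace Pool.Agent.MP_09eaec.G2

open Module

universe u v

variable {k : Type u} {K : Type v} [Field k] [Field K] [Algebra k K]
variable {W : Type v} [AddCommGroup W] [Module K W] [Module k W] [IsScalarTower k K W]
variable {A : Type v} [AddCommGroup A] [Module K A] [Module k A] [IsScalarTower k K A]
variable {B : Type v} [AddCommGroup B] [Module K B] [Module k B] [IsScalarTower k K B]

variable [Curve2 k K]

theorem Q_coprime {r : ℕ} {d : ℤ} (hr : 1 ≤ r) (h : IsCoprime (r : ℤ) d) : Q k K r d := by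
  induction r using Nat.strong_induction_on generalizing d with
  | _ r ih =>
    rcases Nat.lt_or_ge r 3 with h3 | h3
    · interval_cases r
      · exact Q_one d
      · exact Q_two (by exact_mod_cast h)
    · obtain ⟨a, c, b, e, ha, hc, hac, hbe, hdet, hab, hce⟩ := exists_parents (by omega) h
      subst hac
      subst hbe
      exact coprime_step ha hc h3 hdet (ih a (by omega) ha hab) (ih c (by omega) hc hce)

theorem stable_of_Q {r : ℕ} {d : ℤ} (h : Q k K r d) :
    ∃ E : VB k K (Fin r → K), E.deg = d ∧ E.Stable := by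
  obtain ⟨E, hd, hE, -⟩ := h
  refine ⟨E, hd, fun J h1 h2 => ?_⟩
  have h3 := hE J h1 h2
  rw [hd]
  have h4 : finrank K (Fin r → K) = r := by simp
  rw [h4]
  linarith

theorem stable_int {h : ℕ} (hh : 2 ≤ h) (d0 : ℤ) :
    ∃ E : VB k K (Fin h → K), E.deg = h * d0 ∧ E.Stable := by
  obtain ⟨G, hG⟩ := exists_ddeg (k := k) (K := K) d0
  obtain ⟨X, q, G', hdeg, hneg, hfin, -, -⟩ := int_chain G (j := h) (by omega)
  rw [hG] at hdeg hneg hfin
  have := infinite_places (k := k) (K := K)
  obtain ⟨P0⟩ : Nonempty (Place k K) := inferInstance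
  have : Nonempty (Fin h) := ⟨⟨0, by omega⟩⟩
  obtain ⟨w0, hw1, hw2, hw3⟩ := VB.exists_generic_vector X P0 hfin (fun J hJ => hJ.2.1)
  obtain ⟨Z, hZ⟩ := VB.exists_oneStep X P0 w0 hw1 hw2
  have hZd : Z.deg = h * d0 := by
    rw [VB.deg_oneStep hZ, hdeg]; ring
  refine ⟨Z, hZd, fun J h1 h2 => ?_⟩
  have h3 : (Z.sub J).deg < d0 * finrank K J := by
    have h4 := hneg J h1
    rcases VB.deg_sub_oneStep hZ J with h5 | ⟨h5, j, hj, hj'⟩
    · rw [h5]; linarith
    · have h6 : J ∉ X.exc 1 d0 := fun h6 => hw3 J h6 j hj hj'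
      have h7 : 1 * (X.sub J).deg - d0 * finrank K J ≠ -1 := fun h7 => h6 ⟨h1, h2, h7⟩
      have h8 : 1 * (X.sub J).deg - d0 * finrank K J ≤ -2 := by omega
      rw [h5]; linarith
  rw [hZd]
  have h4 : finrank K (Fin h → K) = h := by simp
  rw [h4]
  have h5 : (0 : ℤ) < h := by exact_mod_cast (by omega : 0 < h)
  nlinarith

private lemma ExistsStable_rank {a : ℕ} {J : Submodule K (Fin a → K)} (h1 : J ≠ ⊥) (h2 : J ≠ ⊤) :
    (1 : ℤ) ≤ finrank K J ∧ (finrank K J : ℤ) < a := by
  have h3 : finrank K (Fin a → K) = a := by simp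
  have h4 := Submodule.finrank_lt h2
  rw [h3] at h4
  have h5 : finrank K J ≠ 0 := fun h => h1 (Submodule.finrank_eq_zero.1 h)
  constructor
  · have : 1 ≤ finrank K J := by omega
    exact_mod_cast this
  · exact_mod_cast h4

theorem hasX_first {a c : ℕ} {b e : ℤ} (ha : 1 ≤ a) (hc : 1 ≤ c) (hdet : (a : ℤ) * e - c * b = 1)
    (hA : Q k K a b) : HasX k K (a + c) (b + e) a b := by
  obtain ⟨E, hd, hE, -⟩ := hA
  have ha' : (1 : ℤ) ≤ a := by exact_mod_cast ha
  have hc' : (1 : ℤ) ≤ c := by exact_mod_cast hc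
  have key : ∀ J : Submodule K (Fin a → K), J ≠ ⊥ → J ≠ ⊤ →
      ((a : ℤ) + c) * (E.sub J).deg - (b + e) * finrank K J ≤ -2 := by
    intro J h1 h2
    obtain ⟨h3, h4⟩ := ExistsStable_rank h1 h2
    exact (num_A ha' hc' hdet h3 h4 (hE J h1 h2)).1
  refine ⟨E, hd, ?_, ?_⟩
  · intro J h1
    by_cases h2 : J = ⊤
    · subst h2
      rw [VB.deg_sub_top, hd, finrank_top]
      have h4 : finrank K (Fin a → K) = a := by simp
      rw [h4]
      linarith
    · have := key J h1 h2
      linarith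
  · have : E.exc ((a : ℤ) + c) (b + e) = ∅ := by
      ext J
      simp only [Set.mem_empty_iff_false, iff_false]
      rintro ⟨h1, h2, h3⟩
      have := key J h1 h2
      linarith
    rw [this]
    exact Set.finite_empty

private lemma ExistsStable_num {a c : ℕ} {b e : ℤ} (hdet : (a : ℤ) * e - c * b = 1) (i : ℕ) :
    ((a : ℤ) + c) * (b + i * (b + e)) - (b + e) * ((a + i * (a + c) : ℕ) : ℤ) = -1 := by
  push_cast
  linear_combination -hdet

theorem hasX_chain {a c : ℕ} {b e : ℤ} (ha : 1 ≤ a) (hc : 1 ≤ c) (hdet : (a : ℤ) * e - c * b = 1)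
    (hA : Q k K a b) (hG : Q k K (a + c) (b + e)) (i : ℕ) :
    HasX k K (a + c) (b + e) (a + i * (a + c)) (b + i * (b + e)) := by
  induction i with
  | zero =>
    have := hasX_first ha hc hdet hA
    simpa using this
  | succ i ih =>
    have h1 := chain_step (r := a + c) (n := a + i * (a + c)) (d := b + e)
      (δ := b + i * (b + e)) (by omega) (by omega) hG (by push_cast; exact ih)
      (by rw [Nat.cast_add]; exact ExistsStable_num hdet i)
    have h2 : a + (i + 1) * (a + c) = a + i * (a + c) + (a + c) := by ring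
    have h3 : b + ((i + 1 : ℕ) : ℤ) * (b + e) = b + i * (b + e) + (b + e) := by push_cast; ring
    rw [h2, h3]
    rw [Nat.cast_add] at h1
    exact h1

/-- Stable bundles of all ranks and degrees exist. -/
theorem exists_stable {r : ℕ} (hr : 1 ≤ r) (d : ℤ) :
    ∃ E : VB k K (Fin r → K), E.deg = d ∧ E.Stable := by
  have hg : 0 < Int.gcd (r : ℤ) d := Int.gcd_pos_of_ne_zero_left _ (by exact_mod_cast (by omega))
  obtain ⟨h, hh⟩ : ∃ h : ℕ, h = Int.gcd (r : ℤ) d := ⟨_, rfl⟩
  rw [← hh] at hg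
  have hdr : h ∣ r := by
    have := Int.gcd_dvd_left (a := (r : ℤ)) (b := d)
    rw [← hh] at this
    exact_mod_cast this
  have hdd : (h : ℤ) ∣ d := by
    have := Int.gcd_dvd_right (a := (r : ℤ)) (b := d)
    rw [← hh] at this
    exact this
  obtain ⟨r0, rfl⟩ := hdr
  obtain ⟨d0, rfl⟩ := hdd
  have hcop : IsCoprime (r0 : ℤ) d0 := by
    rw [Int.isCoprime_iff_gcd_eq_one]
    rw [Nat.cast_mul, Int.gcd_mul_left] at hh
    simp only [Int.natAbs_natCast] at hh
    have : h * 1 = h * Int.gcd (r0 : ℤ) d0 := by rw [mul_one]; exact hh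
    exact (Nat.eq_of_mul_eq_mul_left hg this).symm
  have hr0 : 1 ≤ r0 := by
    rcases Nat.eq_zero_or_pos r0 with h0 | h0
    · subst h0; simp at hr
    · exact h0
  rcases Nat.lt_or_ge r0 2 with h2 | h2
  · have h3 : r0 = 1 := by omega
    subst h3
    rcases Nat.lt_or_ge h 2 with h4 | h4
    · have h5 : h = 1 := by omega
      subst h5
      exact stable_of_Q (Q_one _)
    · rw [mul_one]
      exact stable_int h4 d0
  · rcases Nat.lt_or_ge h 2 with h4 | h4
    · have h5 : h = 1 := by omega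
      subst h5
      rw [one_mul r0, Nat.cast_one, one_mul d0]
      exact stable_of_Q (Q_coprime hr0 hcop)
    · obtain ⟨a, c, b, e, ha, hc, hac, hbe, hdet, hab, hce⟩ := exists_parents h2 hcop
      subst hac
      subst hbe
      have hX := hasX_chain ha hc hdet (Q_coprime ha hab) (Q_coprime hr0 hcop) (h - 1)
        (k := k) (K := K)
      have hcast : (((h - 1 : ℕ) : ℤ)) = h - 1 := by
        rw [Nat.cast_sub (by omega)]; simp
      obtain ⟨Z, hZ1, hZ2⟩ := final_step (r := a + c) (n := a + (h - 1) * (a + c)) (c := c)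
        (d := b + e) (δ := b + ((h - 1 : ℕ) : ℤ) * (b + e)) (e := e) hc (by omega) (by omega)
        (by rw [Nat.cast_add]; exact hX)
        (by rw [Nat.cast_add]; exact ExistsStable_num hdet (h - 1)) (Q_coprime hc hce)
        (by push_cast; linear_combination hdet)
      have hn : a + (h - 1) * (a + c) + c = h * (a + c) := by
        obtain ⟨m, rfl⟩ : ∃ m, h = m + 1 := ⟨h - 1, by omega⟩
        simp only [Nat.add_sub_cancel]
        ring
      have hZ3 : Z.deg = h * (b + e) := by
        rw [hZ1, hcast]; ring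
      rw [← hn]
      exact ⟨Z, hZ3, hZ2⟩

end Pool.Agent.MP_09eaec.G2
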