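import Pool.Agent.Lib.MP_09eaec_ag.G2.SysDefs

/-!
# TASK C8: `m ≥ 2 n`: complete systems of stable bundles

`E` stable of rank `n ≥ 2`, degree `m + n`, `m ≥ 2 n`; `κ` canonical. `h1 E = 0`: otherwise `φ` from
`h1_pos_hom`, `J = ker φ`: `(E.sub J).deg ≥ m + n - 2`, rank `n - 1`; stability
`n (E.sub J).deg < (n - 1)(m + n)` gives `m + n < 2 n`, a contradiction. So `h0 E = m` (`rr`), `V = H0 E`.
`α = 1 / (2 n m)`: for `J ≠ ⊥, ⊤` of rank `r`: `n (E.sub J).deg ≤ r (m + n) - 1` (integers), and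
`finrank (V ⊓ J) ≤ m`, so `n ((E.sub J).deg + α finrank (V ⊓ J)) ≤ r (m + n) - 1 + α n m < r (m + n)
≤ r (m + n + α m)`.
-/

set_option autoImplicit false

namespace Pool.Agent.MP_09eaec.G2

open Module

universe u v

variable {k : Type u} {K : Type v} [Field k] [Field K] [Algebra k K]
variable {W : Type v} [AddCommGroup W] [Module K W] [Module k W] [IsScalarTower k K W]
variable {A : Type v} [AddCommGroup A] [Module K A] [Module k A] [IsScalarTower k K A]
variable {B : Type v} [AddCommGroup B] [Module K B] [Module k B] [IsScalarTower k K B]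

variable [Curve2 k K]

theorem high_system {n m : ℕ} (hn : 2 ≤ n) (hm : 2 * n ≤ m) {E : VB k K (Fin n → K)}
    (hd : E.deg = m + n) (hE : E.Stable) :
    ∃ (V : Submodule k (Fin n → K)) (α : ℝ), 0 < α ∧ V ≤ E.H0 ∧ finrank k V = m ∧
      E.StableSys α V := by
  obtain ⟨κ, hκ⟩ := exists_canonical (k := k) (K := K)
  have hfr : finrank K (Fin n → K) = n := Module.finrank_fin_fun K
  have h1 : E.h1 = 0 := by
    by_contra h
    obtain ⟨φ, hφ0, hφ⟩ := h1_pos_hom hκ h
    obtain ⟨b1, b2, -⟩ := ker_bounds hφ0 hφ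
    rw [hκ.ddeg, hd] at b1
    rw [hfr] at b2
    have hJt : LinearMap.ker φ ≠ ⊤ := by
      intro ht
      exact hφ0 (LinearMap.ker_eq_top.1 ht)
    have hJb : LinearMap.ker φ ≠ ⊥ := by
      intro hb
      rw [hb, finrank_bot] at b2
      push_cast at b2
      omega
    have hs := hE _ hJb hJt
    rw [hfr, b2, hd] at hs
    have h3 : (n : ℤ) * (m + n - 2) ≤ n * (E.sub (LinearMap.ker φ)).deg :=
      mul_le_mul_of_nonneg_left (by linarith) (by positivity)
    have h4 : (n : ℤ) * (m + n - 2) < ((n : ℤ) - 1) * (m + n) := lt_of_le_of_lt h3 hs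
    have h5 : (m : ℤ) < n := by nlinarith
    omega
  have hh0 : E.h0 = m := by
    rw [VB.rr, h1, hd, hfr]
    ring
  have hfV : finrank k E.H0 = m := by
    unfold VB.h0 at hh0
    exact_mod_cast hh0
  have hnR : (0 : ℝ) < n := by
    have : 0 < n := by omega
    exact_mod_cast this
  have hmR : (0 : ℝ) < m := by
    have : 0 < m := by omega
    exact_mod_cast this
  refine ⟨E.H0, 1 / (2 * n * m), by positivity, le_rfl, hfV, ?_⟩
  intro J hJb hJt
  have hs := hE J hJb hJt
  rw [hfr, hd] at hs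
  have hr0 : 0 < finrank K J := by
    rw [Nat.pos_iff_ne_zero]
    intro h0
    exact hJb (Submodule.finrank_eq_zero.1 h0)
  have hrR : (0 : ℝ) < finrank K J := by exact_mod_cast hr0
  have hle : finrank k ↥(E.H0 ⊓ J.restrictScalars k) ≤ m := by
    rw [← hfV]
    exact Submodule.finrank_mono inf_le_left
  have hleR : (finrank k ↥(E.H0 ⊓ J.restrictScalars k) : ℝ) ≤ m := by exact_mod_cast hle
  have hs' : (n : ℤ) * (E.sub J).deg + 1 ≤ finrank K J * (m + n) := hs
  have hsR : (n : ℝ) * ((E.sub J).deg : ℝ) + 1 ≤ finrank K J * (m + n) := by exact_mod_cast hs'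
  rw [hfV, hd, hfr, div_lt_div_iff₀ hrR hnR]
  have e1 : (1 / (2 * n * m) : ℝ) * m * n = 1 / 2 := by
    field_simp
  have e2 : (1 / (2 * n * m) : ℝ) * (finrank k ↥(E.H0 ⊓ J.restrictScalars k) : ℝ) * n ≤
      (1 / (2 * n * m) : ℝ) * m * n := by gcongr
  have e3 : (0 : ℝ) ≤ (1 / (2 * n * m) : ℝ) * m * finrank K J := by positivity
  push_cast
  nlinarith

end Pool.Agent.MP_09eaec.G2
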