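import Pool.Agent.Lib.MP_09eaec_ag.G2.Exact

/-!
# TASK A10: the degree of the bundle of homomorphisms (upper bound)

`deg (hom F E) ≤ rank F * deg E - rank E * deg F`. Induction on `finrank A + finrank B` (generalised
over `A`, `B`).
* `finrank A = 0` or `finrank B = 0`: `B →ₗ[K] A` has rank `0`, all degrees which occur are `0`.
* both `1`: by isomorphisms `A ≃ K`, `B ≃ K` we may assume `E = line D'`, `F = line D`; the isomorphism
  `(K →ₗ[K] K) ≃ K`, `f ↦ f 1` carries `hom (line D) (line D')` to `line (D' - D)`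
  (`f x = x f 1`; take `x` of order `-D P`, `mem_filt_iff_of_ord`).
* `finrank A ≥ 2`: let `J ≤ A` be a subspace of rank `1`. Exact sequence
  `0 → (B → J) → (B → A) → (B → A ⧸ J) → 0` (`LinearMap.compRight` with `J.subtype` and `J.mkQ`;
  surjective since `B` is projective), and `deg_exact_le` with `E1 = hom F (E.sub J)`,
  `E2 = hom F (E.quo J)`; `deg_add`.
* `finrank B ≥ 2`: `J ≤ B` of rank `1`: `0 → (B ⧸ J → A) → (B → A) → (J → A) → 0`
  (`LinearMap.lcomp` with `J.mkQ` and `J.subtype`), `E1 = hom (F.quo J) E` , `E2 = hom (F.sub J) E`.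
`N_hom_ne_top`: otherwise `h1 (hom F E) = 0` (`h1_eq_zero_iff`) and `rr` gives
`0 ≤ h0 = deg (hom F E) - finrank B * finrank A < 0`.
-/

set_option autoImplicit false

namespace Pool.Agent.MP_09eaec.G2

open Module

universe u v

variable {k : Type u} {K : Type v} [Field k] [Field K] [Algebra k K]
variable {W : Type v} [AddCommGroup W] [Module K W] [Module k W] [IsScalarTower k K W]
variable {A : Type v} [AddCommGroup A] [Module K A] [Module k A] [IsScalarTower k K A]
variable {B : Type v} [AddCommGroup B] [Module K B] [Module k B] [IsScalarTower k K B]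

variable [Curve2 k K]

private lemma hom_line_line_aux (D D' : Dv k K) : ∃ f : (K →ₗ[K] K) ≃ₗ[K] K, (∀ g, f g = g 1) ∧
    (hom (line D) (line D')).map f = line (D' - D) := by
  refine ⟨LinearMap.ringLmapEquivSelf K K K, fun g => rfl, VB.ext' fun P x => ?_⟩
  rw [VB.mem_map, mem_hom, mem_line]
  have hval : ∀ b : K, ((LinearMap.ringLmapEquivSelf K K K).symm x) b = b * x := fun b => by
    simp
  constructor
  · intro h
    obtain ⟨t, ht, htm⟩ := exists_ord_eq P (-D P)
    have h1 := h t (Or.inr htm.ge)
    rw [hval, mem_line] at h1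
    rw [← mem_filt_iff_of_ord P ht htm]
    convert h1 using 2
    rw [Finsupp.sub_apply]; ring
  · intro h b hb
    rw [hval, mem_line]
    have := mul_mem_filt P (mem_line.1 hb) h
    convert this using 2
    rw [Finsupp.sub_apply]; ring

private lemma hom_map_aux [FiniteDimensional K A] [FiniteDimensional K B] (F : VB k K B)
    (E : VB k K A) (fB : B ≃ₗ[K] K) (fA : A ≃ₗ[K] K) :
    (hom F E).map (LinearEquiv.arrowCongr fB fA) = hom (F.map fB) (E.map fA) := by
  refine VB.ext' fun P g => ?_
  rw [VB.mem_map, mem_hom, mem_hom]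
  have hval : ∀ b : B, ((LinearEquiv.arrowCongr fB fA).symm g) b = fA.symm (g (fB b)) :=
    fun b => rfl
  constructor
  · intro h b hb
    rw [VB.mem_map] at hb ⊢
    have := h _ hb
    rwa [hval, fB.apply_symm_apply] at this
  · intro h b hb
    have := h (fB b) (by rw [VB.mem_map, fB.symm_apply_apply]; exact hb)
    rw [VB.mem_map] at this
    rwa [hval]

private lemma deg_hom_le_one [FiniteDimensional K A] [FiniteDimensional K B] (F : VB k K B)
    (E : VB k K A) (hA : finrank K A = 1) (hB : finrank K B = 1) :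
    (hom F E).deg = E.deg - F.deg := by
  have fA : A ≃ₗ[K] K := LinearEquiv.ofFinrankEq A K (by rw [finrank_self, hA])
  have fB : B ≃ₗ[K] K := LinearEquiv.ofFinrankEq B K (by rw [finrank_self, hB])
  obtain ⟨D', hD'⟩ := exists_eq_line (E.map fA)
  obtain ⟨D, hD⟩ := exists_eq_line (F.map fB)
  obtain ⟨f, -, hf⟩ := hom_line_line_aux D D'
  rw [← VB.deg_map (hom F E) (LinearEquiv.arrowCongr fB fA), hom_map_aux, hD, hD',
    ← VB.deg_map _ f, hf, VB.deg_line, ← VB.deg_map E fA, hD', ← VB.deg_map F fB, hD,
    VB.deg_line, VB.deg_line, ddeg_sub]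

private lemma deg_hom_left [FiniteDimensional K A] [FiniteDimensional K B] (F : VB k K B)
    (E : VB k K A) (J : Submodule K A) :
    (hom F E).deg ≤ (hom F (E.sub J)).deg + (hom F (E.quo J)).deg := by
  obtain ⟨s, hs⟩ := J.mkQ.exists_rightInverse_of_surjective (LinearMap.range_eq_top.2
    J.mkQ_surjective)
  refine VB.deg_exact_le (hom F E) (hom F (E.sub J)) (hom F (E.quo J))
    (LinearMap.compRight K J.subtype) (LinearMap.compRight K J.mkQ) ?_ ?_ ?_ ?_ ?_
  · intro f g hfg
    ext b
    exact congrArg (fun u : B →ₗ[K] A => u b) hfg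
  · intro f
    refine ⟨s ∘ₗ f, ?_⟩
    ext b
    exact congrArg (fun u : (A ⧸ J) →ₗ[K] (A ⧸ J) => u (f b)) hs
  · ext f
    rw [LinearMap.mem_range, LinearMap.mem_ker]
    constructor
    · rintro ⟨g, rfl⟩
      ext b
      exact (Submodule.Quotient.mk_eq_zero J).2 (g b).2
    · intro h
      refine ⟨f.codRestrict J fun b => ?_, ?_⟩
      · have := congrArg (fun u : B →ₗ[K] (A ⧸ J) => u b) h
        exact (Submodule.Quotient.mk_eq_zero J).1 this
      · ext b; rfl
  · intro P x hx b hb
    exact hx b hb
  · intro P x hx b hb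
    exact ⟨x b, hx b hb, rfl⟩

private lemma deg_hom_right [FiniteDimensional K A] [FiniteDimensional K B] (F : VB k K B)
    (E : VB k K A) (J : Submodule K B) :
    (hom F E).deg ≤ (hom (F.quo J) E).deg + (hom (F.sub J) E).deg := by
  refine VB.deg_exact_le (hom F E) (hom (F.quo J) E) (hom (F.sub J) E)
    (LinearMap.lcomp K A J.mkQ) (LinearMap.lcomp K A J.subtype) ?_ ?_ ?_ ?_ ?_
  · intro f g hfg
    ext b
    exact congrArg (fun u : B →ₗ[K] A => u b) hfg
  · intro f
    obtain ⟨g, hg⟩ := f.exists_extend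
    exact ⟨g, hg⟩
  · ext f
    rw [LinearMap.mem_range, LinearMap.mem_ker]
    constructor
    · rintro ⟨g, rfl⟩
      ext b
      show g (J.mkQ b) = 0
      rw [Submodule.mkQ_apply, (Submodule.Quotient.mk_eq_zero J).2 b.2, map_zero]
    · intro h
      refine ⟨J.liftQ f fun b hb => ?_, ?_⟩
      · have := congrArg (fun u : J →ₗ[K] A => u ⟨b, hb⟩) h
        exact this
      · ext b; rfl
  · intro P x hx b hb
    obtain ⟨y, hy, rfl⟩ := hb
    exact hx y hy
  · intro P x hx b hb
    exact hx b hb

theorem deg_hom_le [FiniteDimensional K A] [FiniteDimensional K B] (F : VB k K B) (E : VB k K A) :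
    (hom F E).deg ≤ finrank K B * E.deg - finrank K A * F.deg := by
  obtain ⟨n, hn⟩ : ∃ n, finrank K A + finrank K B = n := ⟨_, rfl⟩
  induction n using Nat.strong_induction_on generalizing A B with
  | _ n ih =>
    rcases Nat.eq_zero_or_pos (finrank K A) with hA | hA
    · rw [VB.deg_of_finrank_zero _ (by rw [finrank_linearMap, hA, mul_zero]),
        VB.deg_of_finrank_zero E hA, hA]
      simp
    rcases Nat.eq_zero_or_pos (finrank K B) with hB | hB
    · rw [VB.deg_of_finrank_zero _ (by rw [finrank_linearMap, hB, zero_mul]),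
        VB.deg_of_finrank_zero F hB, hB]
      simp
    rcases eq_or_lt_of_le (Nat.succ_le_of_lt hA) with hA1 | hA1
    · rcases eq_or_lt_of_le (Nat.succ_le_of_lt hB) with hB1 | hB1
      · rw [deg_hom_le_one F E hA1.symm hB1.symm, ← hA1, ← hB1]
        simp
      · have : Nontrivial B := by
          apply Module.nontrivial_of_finrank_pos (R := K); omega
        obtain ⟨w, hw⟩ := exists_ne (0 : B)
        have hJ : finrank K (K ∙ w) = 1 := finrank_span_singleton hw
        have hJ2 := Submodule.finrank_quotient_add_finrank (K ∙ w)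
        have h1 := deg_hom_right F E (K ∙ w)
        have h2 := ih _ (by omega) (F.quo (K ∙ w)) E rfl
        have h3 := ih _ (by omega) (F.sub (K ∙ w)) E rfl
        have h4 := VB.deg_add F (K ∙ w)
        rw [hJ] at hJ2 h3
        rw [← hJ2, h4]
        push_cast at h3 ⊢
        linarith
    · have : Nontrivial A := by
        apply Module.nontrivial_of_finrank_pos (R := K); omega
      obtain ⟨w, hw⟩ := exists_ne (0 : A)
      have hJ : finrank K (K ∙ w) = 1 := finrank_span_singleton hw
      have hJ2 := Submodule.finrank_quotient_add_finrank (K ∙ w)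
      have h1 := deg_hom_left F E (K ∙ w)
      have h2 := ih _ (by omega) F (E.quo (K ∙ w)) rfl
      have h3 := ih _ (by omega) F (E.sub (K ∙ w)) rfl
      have h4 := VB.deg_add E (K ∙ w)
      rw [hJ] at hJ2 h3
      rw [← hJ2, h4]
      push_cast at h3 ⊢
      linarith

theorem hom_line_line (D D' : Dv k K) : ∃ f : (K →ₗ[K] K) ≃ₗ[K] K, (∀ g, f g = g 1) ∧
    (hom (line D) (line D')).map f = line (D' - D) := hom_line_line_aux D D'

theorem N_hom_ne_top [FiniteDimensional K A] [FiniteDimensional K B] (F : VB k K B) (E : VB k K A)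
    (h : (finrank K B : ℤ) * E.deg - finrank K A * F.deg < finrank K B * finrank K A) :
    (hom F E).N ≠ ⊤ := by
  intro hN
  have h1 := (VB.h1_eq_zero_iff _).2 hN
  have h2 := VB.rr (hom F E)
  have h3 := VB.h0_nonneg (hom F E)
  have h4 := deg_hom_le F E
  rw [finrank_linearMap, h1] at h2
  push_cast at h2
  linarith

end Pool.Agent.MP_09eaec.G2
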