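import Pool.Agent.Lib.MP_09eaec_ag.G2.IntStep

/-!
# TASK B10: the chain for integral slopes; small ranks

* `int_one`: `j = 1`: choose a point `P` (`infinite_places`), `G' = G - single P 1`, `X` = `line G'`
  transported to `Fin 1 → K` (`LinearEquiv.funUnique (Fin 1) K K`), `q x = x 0`. The only subspaces are
  `⊥` and `⊤` (rank one), `exc = ∅`.
* `int_chain`: induction with `int_step`.
* `Q_one`: `Q k K 1 d`: a line bundle of degree `d` (e.g. `line (single P d)`).
* `Q_two`: `d` odd, `d = 2 d0 - 1`; `G = single P d0`, `X` from `int_chain G 2`: degree `2 d0 - 1`; for `J` of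
  rank `1`: `deg ≤ d0 - 1` is `2 deg - d ≤ -1`, with equality in one iff in the other
  (a proper nonzero subspace of `Fin 2 → K` has rank `1`).
-/

set_option autoImplicit false

namespace Pool.Agent.MP_09eaec.G2

open Module

universe u v

variable {k : Type u} {K : Type v} [Field k] [Field K] [Algebra k K]
variable {W : Type v} [AddCommGroup W] [Module K W] [Module k W] [IsScalarTower k K W]
variable {A : Type v} [AddCommGroup A] [Module K A] [Module k A] [IsScalarTower k K A]
variable {B : Type v} [AddCommGroup B] [Module K B] [Module k B] [IsScalarTower k K B]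

variable [Curve2 k K]

private lemma IntBase_bot_or_top (J : Submodule K (Fin 1 → K)) : J = ⊥ ∨ J = ⊤ := by
  have h1 : finrank K (Fin 1 → K) = 1 := by simp
  have h2 := Submodule.finrank_le J
  rw [h1] at h2
  rcases Nat.eq_zero_or_pos (finrank K J) with h | h
  · left; exact Submodule.finrank_eq_zero.1 h
  · right
    apply Submodule.eq_top_of_finrank_eq
    rw [h1]; omega

private noncomputable def IntBase_line1 (D : Dv k K) : VB k K (Fin 1 → K) :=
  (line D).map (LinearEquiv.funUnique (Fin 1) K K).symm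

private lemma IntBase_mem (D : Dv k K) (P : Place k K) (x : Fin 1 → K) :
    x ∈ (IntBase_line1 D).M P ↔ x 0 ∈ (line D).M P := by
  unfold IntBase_line1
  rw [VB.mem_map]
  rfl

private lemma IntBase_deg (D : Dv k K) : (IntBase_line1 D).deg = ddeg D := by
  unfold IntBase_line1
  rw [VB.deg_map, VB.deg_line]

omit [Curve2 k K] in
private lemma IntBase_exc (E : VB k K (Fin 1 → K)) (r d : ℤ) : (E.exc r d).Finite := by
  have : E.exc r d = ∅ := by
    ext J
    simp only [VB.exc, Set.mem_ofPred_eq, Set.mem_empty_iff_false, iff_false]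
    rintro ⟨h1, h2, -⟩
    rcases IntBase_bot_or_top J with h | h
    · exact h1 h
    · exact h2 h
  rw [this]
  exact Set.finite_empty

theorem int_one (G : Dv k K) : IntChain G 1 := by
  have := infinite_places (k := k) (K := K)
  obtain ⟨P⟩ : Nonempty (Place k K) := inferInstance
  refine ⟨IntBase_line1 (G - Finsupp.single P 1), LinearMap.proj 0, G - Finsupp.single P 1,
    ?_, ?_, IntBase_exc _ _ _, ?_, Or.inl ?_⟩
  · rw [IntBase_deg, ddeg_sub, ddeg_single]; simp
  · intro J hJ
    rcases IntBase_bot_or_top J with h | h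
    · exact absurd h hJ
    · subst h
      rw [VB.deg_sub_top, IntBase_deg, ddeg_sub, ddeg_single, finrank_top]
      simp
  · intro Q y
    constructor
    · intro hy
      exact ⟨fun _ => y, (IntBase_mem _ _ _).2 hy, rfl⟩
    · rintro ⟨x, hx, rfl⟩
      exact (IntBase_mem _ _ _).1 hx
  · rw [ddeg_sub, ddeg_single]

theorem int_chain (G : Dv k K) {j : ℕ} (hj : 1 ≤ j) : IntChain G j := by
  induction j, hj using Nat.le_induction with
  | base => exact int_one G
  | succ n hn ih => exact int_step G hn ih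

theorem exists_ddeg (d : ℤ) : ∃ D : Dv k K, ddeg D = d := by
  have := infinite_places (k := k) (K := K)
  obtain ⟨P⟩ : Nonempty (Place k K) := inferInstance
  exact ⟨Finsupp.single P d, ddeg_single P d⟩

theorem Q_one (d : ℤ) : Q k K 1 d := by
  obtain ⟨D, hD⟩ := exists_ddeg (k := k) (K := K) d
  refine ⟨IntBase_line1 D, ?_, ?_, IntBase_exc _ _ _⟩
  · rw [IntBase_deg, hD]
  · intro J h1 h2
    rcases IntBase_bot_or_top J with h | h
    · exact absurd h h1
    · exact absurd h h2

private lemma IntBase_rank {J : Submodule K (Fin 2 → K)} (h1 : J ≠ ⊥) (h2 : J ≠ ⊤) :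
    finrank K J = 1 := by
  have h3 : finrank K (Fin 2 → K) = 2 := by simp
  have h4 := Submodule.finrank_lt h2
  rw [h3] at h4
  have h5 : finrank K J ≠ 0 := fun h => h1 (Submodule.finrank_eq_zero.1 h)
  omega

theorem Q_two {d : ℤ} (hd : IsCoprime (2 : ℤ) d) : Q k K 2 d := by
  obtain ⟨d0, hd0⟩ : ∃ d0 : ℤ, d = 2 * d0 - 1 := by
    obtain ⟨a, b, hab⟩ := hd
    rcases Int.even_or_odd d with ⟨m, hm⟩ | ⟨m, hm⟩
    · exfalso
      have : 2 * (a + b * m) = 1 := by rw [← hab, hm]; ring
      omega
    · exact ⟨m + 1, by rw [hm]; ring⟩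
  obtain ⟨G, hG⟩ := exists_ddeg (k := k) (K := K) d0
  obtain ⟨X, q, G', hdeg, hneg, hfin, -, -⟩ := int_chain G (j := 2) (by norm_num)
  rw [hG] at hdeg hneg hfin
  refine ⟨X, ?_, ?_, ?_⟩
  · rw [hdeg, hd0]; norm_num
  · intro J h1 h2
    have h3 := hneg J h1
    rw [IntBase_rank h1 h2] at h3 ⊢
    push_cast at h3 ⊢
    omega
  · refine hfin.subset ?_
    rintro J ⟨h1, h2, h3⟩
    refine ⟨h1, h2, ?_⟩
    rw [IntBase_rank h1 h2] at h3 ⊢
    push_cast at h3 ⊢
    omega

end Pool.Agent.MP_09eaec.G2
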