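import Pool.Agent.Lib.MP_09eaec_ag.G2.Generic

/-!
# TASK B8: `Null` for line bundles

* `null_ker_iff`: `q` maps `X` onto `O(G')` (stalk by stalk), `u P : K → A`. `A ⧸ ker q ≃ K`
  (`q.quotKerEquivOfSurjective`; `q ≠ 0` since `line G'` has nonzero elements) carries
  `X.quo (ker q)` to `line G'`. A linear map `σ : ⊤ → A ⧸ ker q` is `b ↦ b σ0`, i.e. corresponds to `w : K`.
  The condition `q (u_P b) - w b ∈ P.filt (-G' P)` for all `b ∈ P.filt (-D P)` is equivalent to
  `q (u_P 1) - w ∈ P.filt (-(G' - D) P)` (`mem_filt_iff_of_ord`, take `b` of order `-D P`).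
* `sub_top_line`: a bundle `F'` on `⊤ ≤ K` with `F' ≤ (line G).sub ⊤` is `(line D').sub ⊤` with `D' ≤ G`
  (`exists_eq_line` and the isomorphism `⊤ ≃ K`); if `F'.deg = ddeg G - 1` then `D' = G - single P 1`.
-/

set_option autoImplicit false

namespace Pool.Agent.MP_09eaec.G2

open Module

universe u v

variable {k : Type u} {K : Type v} [Field k] [Field K] [Algebra k K]
variable {W : Type v} [AddCommGroup W] [Module K W] [Module k W] [IsScalarTower k K W]
variable {A : Type v} [AddCommGroup A] [Module K A] [Module k A] [IsScalarTower k K A]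
variable {B : Type v} [AddCommGroup B] [Module K B] [Module k B] [IsScalarTower k K B]

variable [Curve2 k K]

private theorem IntNull_surj (X : VB k K A) (q : A →ₗ[K] K) (G' : Dv k K)
    (hq : ∀ P y, y ∈ (line G').M P ↔ ∃ x ∈ X.M P, q x = y) : Function.Surjective q := by
  haveI := infinite_places (k := k) (K := K)
  obtain ⟨P⟩ : Nonempty (Place k K) := inferInstance
  obtain ⟨t, ht0, ht⟩ := exists_ord_eq P (-G' P)
  obtain ⟨x, _, hx⟩ := (hq P t).mp (Or.inr ht.ge)
  intro w
  refine ⟨(w / t) • x, ?_⟩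
  rw [map_smul, hx, smul_eq_mul, div_mul_cancel₀ _ ht0]

private theorem IntNull_mem (X : VB k K A) (q : A →ₗ[K] K) (G' : Dv k K)
    (hq : ∀ P y, y ∈ (line G').M P ↔ ∃ x ∈ X.M P, q x = y) (P : Place k K)
    (z : A ⧸ LinearMap.ker q) :
    z ∈ (X.quo (LinearMap.ker q)).M P ↔
      (LinearMap.ker q).liftQ q le_rfl z ∈ (line G').M P := by
  rw [VB.mem_quo, hq]
  constructor
  · rintro ⟨y, hy, rfl⟩
    exact ⟨y, hy, rfl⟩
  · rintro ⟨y, hy, hz⟩
    obtain ⟨a, rfl⟩ := (LinearMap.ker q).mkQ_surjective z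
    refine ⟨y, hy, ?_⟩
    have h1 : q y = q a := hz
    rw [Submodule.mkQ_apply, Submodule.mkQ_apply, Submodule.Quotient.eq, LinearMap.mem_ker,
      map_sub, h1, sub_self]

theorem null_ker_iff [FiniteDimensional K A] (X : VB k K A) (q : A →ₗ[K] K) (G' D : Dv k K)
    (hq : ∀ P y, y ∈ (line G').M P ↔ ∃ x ∈ X.M P, q x = y) (u : Place k K →₀ (K →ₗ[K] A)) :
    Null X (LinearMap.ker q) ((line D).sub (⊤ : Submodule K K)) u ↔
      u.mapRange (fun f => q (f 1)) (by simp) ∈ (line (G' - D)).N := by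
  classical
  constructor
  · rintro ⟨σ, hσ⟩
    rw [VB.mem_N]
    refine ⟨(LinearMap.ker q).liftQ q le_rfl (σ ⟨1, Submodule.mem_top⟩), fun P => ?_⟩
    obtain ⟨t, ht0, ht⟩ := exists_ord_eq P (-D P)
    have h1 := hσ P ⟨t, Submodule.mem_top⟩ (Or.inr ht.ge)
    rw [IntNull_mem X q G' hq, map_sub] at h1
    have h2 : (LinearMap.ker q).liftQ q le_rfl ((LinearMap.ker q).mkQ (u P t)) = t * q (u P 1) := by
      show q (u P t) = t * q (u P 1)
      have h3 : u P t = t • u P 1 := by rw [← map_smul, smul_eq_mul, mul_one]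
      rw [h3, map_smul, smul_eq_mul]
    have h4 : (⟨t, Submodule.mem_top⟩ : (⊤ : Submodule K K)) =
        t • ⟨1, Submodule.mem_top⟩ := Subtype.ext (by
      show t = t * 1
      rw [mul_one])
    have h5 : (LinearMap.ker q).liftQ q le_rfl (σ ⟨t, Submodule.mem_top⟩) =
        t * (LinearMap.ker q).liftQ q le_rfl (σ ⟨1, Submodule.mem_top⟩) := by
      rw [h4, map_smul, map_smul, smul_eq_mul]
    rw [h2, h5, ← mul_sub, mem_line] at h1
    rw [mem_line, Finsupp.mapRange_apply, ← mem_filt_iff_of_ord P ht0 ht]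
    have h6 : -(G' - D : Dv k K) P + -D P = -G' P := by
      rw [Finsupp.sub_apply]
      ring
    rw [h6]
    exact h1
  · rintro ⟨w, hw⟩
    obtain ⟨a, ha⟩ := IntNull_surj X q G' hq w
    refine ⟨(LinearMap.toSpanSingleton K _ ((LinearMap.ker q).mkQ a)) ∘ₗ
      (⊤ : Submodule K K).subtype, fun P b hb => ?_⟩
    rw [IntNull_mem X q G' hq, map_sub]
    have h1 : (LinearMap.ker q).liftQ q le_rfl ((LinearMap.ker q).mkQ (u P (b : K))) =
        (b : K) * q (u P 1) := by
      show q (u P (b : K)) = (b : K) * q (u P 1)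
      have h3 : u P (b : K) = (b : K) • u P 1 := by rw [← map_smul, smul_eq_mul, mul_one]
      rw [h3, map_smul, smul_eq_mul]
    have h2 : (LinearMap.ker q).liftQ q le_rfl
        (((LinearMap.toSpanSingleton K _ ((LinearMap.ker q).mkQ a)) ∘ₗ
          (⊤ : Submodule K K).subtype) b) = (b : K) * w := by
      show (LinearMap.ker q).liftQ q le_rfl ((b : K) • (LinearMap.ker q).mkQ a) = (b : K) * w
      rw [map_smul, smul_eq_mul]
      show (b : K) * q a = (b : K) * w
      rw [ha]
    rw [h1, h2, ← mul_sub]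
    have h3 := hw P
    rw [mem_line, Finsupp.mapRange_apply] at h3
    have h4 : (b : K) ∈ P.filt (-D P) := hb
    have h5 := mul_mem_filt P h4 h3
    have h6 : -D P + -(G' - D : Dv k K) P = -G' P := by
      rw [Finsupp.sub_apply]
      ring
    rw [h6] at h5
    exact h5

theorem quo_ker_deg [FiniteDimensional K A] (X : VB k K A) (q : A →ₗ[K] K) (G' : Dv k K)
    (hq : ∀ P y, y ∈ (line G').M P ↔ ∃ x ∈ X.M P, q x = y) :
    (X.quo (LinearMap.ker q)).deg = ddeg G' ∧ finrank K (A ⧸ LinearMap.ker q) = 1 := by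
  have hs := IntNull_surj X q G' hq
  have h1 : (X.quo (LinearMap.ker q)).map (q.quotKerEquivOfSurjective hs) = line G' := by
    refine VB.ext' fun P y => ?_
    rw [VB.mem_map, IntNull_mem X q G' hq]
    have h2 : (LinearMap.ker q).liftQ q le_rfl ((q.quotKerEquivOfSurjective hs).symm y) = y := by
      obtain ⟨z, rfl⟩ := (q.quotKerEquivOfSurjective hs).surjective y
      rw [LinearEquiv.symm_apply_apply]
      rfl
    rw [h2]
  constructor
  · rw [← VB.deg_map _ (q.quotKerEquivOfSurjective hs), h1, VB.deg_line]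
  · rw [LinearEquiv.finrank_eq (q.quotKerEquivOfSurjective hs), finrank_self]

theorem sub_top_line {G : Dv k K} {F' : VB k K (⊤ : Submodule K K)}
    (h : F' ≤ (line G).sub ⊤) (hd : F'.deg = ddeg G - 1) :
    ∃ P : Place k K, F' = (line (G - Finsupp.single P 1)).sub ⊤ := by
  obtain ⟨D', hD'⟩ := exists_eq_line (F'.map (Submodule.topEquiv : (⊤ : Submodule K K) ≃ₗ[K] K))
  have hF : F' = (line D').sub ⊤ := by
    refine VB.ext' fun P x => ?_
    rw [VB.mem_sub, ← hD', VB.mem_map]
    have h1 : (Submodule.topEquiv : (⊤ : Submodule K K) ≃ₗ[K] K).symm (x : K) = x := rfl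
    rw [h1]
  have hle : ∀ P, D' P ≤ G P := by
    rw [← line_le_line]
    intro P x hx
    have h1 : (⟨x, Submodule.mem_top⟩ : (⊤ : Submodule K K)) ∈ F'.M P := by
      rw [hF]
      exact hx
    exact h P h1
  have hdD : ddeg D' = ddeg G - 1 := by
    rw [← hd, ← VB.deg_line D', ← hD', VB.deg_map]
  obtain ⟨P, hP⟩ : ∃ P, D' P < G P := by
    by_contra hcon
    push Not at hcon
    have h1 := ddeg_mono hcon
    omega
  refine ⟨P, ?_⟩
  rw [hF]
  have h2 : D' = G - Finsupp.single P 1 := by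
    refine eq_of_ddeg_le (fun Q => ?_) ?_
    · classical
      rw [Finsupp.sub_apply, Finsupp.single_apply]
      split_ifs with hQ
      · rw [← hQ]
        omega
      · have := hle Q
        omega
    · rw [ddeg_sub, ddeg_single, hdD]
  rw [h2]

theorem deg_sub_top_line (G : Dv k K) : ((line G).sub (⊤ : Submodule K K)).deg = ddeg G ∧
    finrank K (⊤ : Submodule K K) = 1 := by
  constructor
  · rw [VB.deg_sub_top, VB.deg_line]
  · rw [finrank_top, finrank_self]

end Pool.Agent.MP_09eaec.G2
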