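import Pool.Agent.Lib.MP_09eaec_ag.G2.Deg

/-!
# TASK B6: a nonzero class dies at only finitely many points

`D` a divisor with `ddeg D < h0 (line D)`, `a ∉ N (line D)`. Claim: `{P | a ∈ N (line (D + P))}` is finite.
Suppose it is infinite; take distinct points `x_0, x_1, …, x_M` in it, `M` large. For each `i` there is
`w_i : K` with `a_P - w_i ∈ P.filt (-(D + single x_i 1) P)` for all `P`. Put `s_i = w_i - w_0`, `i = 1..M`, and
`T = D + Σ_(i=0..M) single x_i 1`. Then `s_i ∈ H0 (line T)`. Claim: the classes of `s_1, …, s_M` in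
`H0 (line T) / H0 (line D)` are linearly independent over `k`: at `x_i` all `w_j`, `j ≠ i`, satisfy
`a_(x_i) - w_j ∈ filt (-D x_i)`, but `a_(x_i) - w_i` is not in it (otherwise `a ∈ N (line D)` with `w_i`). So
if `s = Σ c_i s_i ∈ H0 (line D)` then, modulo `filt (-D x_i)` at `x_i`, `s ≡ c_i (w_i - w_0)`, which is
`≡ c_i (w_i - a_(x_i))`, hence `c_i = 0`. So `h0 (line T) ≥ M + h0 (line D)`. For `M` large
(`exists_large`) `h0 (line T) = ddeg T - 1 = ddeg D + M` (`h0_line_of_N`). So `h0 (line D) ≤ ddeg D`, a
contradiction.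
(Formally convenient: the linear map `(Fin M → k) × H0 (line D) → H0 (line T)`,
`(c, y) ↦ Σ c_i s_i + y` is injective; `LinearMap.finrank_le_finrank_of_injective`.)
-/

set_option autoImplicit false

namespace Pool.Agent.MP_09eaec.G2

open Module

universe u v

variable {k : Type u} {K : Type v} [Field k] [Field K] [Algebra k K]
variable {W : Type v} [AddCommGroup W] [Module K W] [Module k W] [IsScalarTower k K W]
variable {A : Type v} [AddCommGroup A] [Module K A] [Module k A] [IsScalarTower k K A]
variable {B : Type v} [AddCommGroup B] [Module K B] [Module k B] [IsScalarTower k K B]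

variable [Curve2 k K]

omit [Curve2 k K] in
private theorem Xi_ddeg_sum {ι : Type*} (s : Finset ι) (f : ι → Dv k K) :
    ddeg (∑ i ∈ s, f i) = ∑ i ∈ s, ddeg (f i) := by
  classical
  induction s using Finset.induction_on with
  | empty => rw [Finset.sum_empty, Finset.sum_empty, ddeg_zero]
  | insert i s hi ih => rw [Finset.sum_insert hi, Finset.sum_insert hi, ddeg_add, ih]

theorem finite_xi (D : Dv k K) (hD : ddeg D < (line D).h0) (a : Place k K →₀ K)
    (ha : a ∉ (line D).N) : {P | a ∈ (line (D + Finsupp.single P 1)).N}.Finite := by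
  classical
  by_contra hinf
  have hinf' : {P | a ∈ (line (D + Finsupp.single P 1)).N}.Infinite := hinf
  obtain ⟨C, hC⟩ := exists_large (k := k) (K := K)
  obtain ⟨x, hxN, hinj⟩ : ∃ x : ℕ → Place k K,
      (∀ i, a ∈ (line (D + Finsupp.single (x i) 1)).N) ∧ ∀ i j, x i = x j → i = j :=
    ⟨fun i => (Set.Infinite.natEmbedding _ hinf' i : Place k K),
      fun i => (Set.Infinite.natEmbedding _ hinf' i).2,
      fun i j h => (Set.Infinite.natEmbedding _ hinf').injective (Subtype.ext h)⟩
  choose w hw using fun i => VB.mem_N.mp (hxN i)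
  obtain ⟨M, hM⟩ : ∃ M : ℕ, C - ddeg D - 1 ≤ M := ⟨(C - ddeg D - 1).toNat, Int.self_le_toNat _⟩
  -- the divisor `T`
  obtain ⟨T, hT⟩ : ∃ T : Dv k K, T = D + ∑ i ∈ Finset.range (M + 1), Finsupp.single (x i) 1 :=
    ⟨_, rfl⟩
  have hdT : ddeg T = ddeg D + (M + 1) := by
    rw [hT, ddeg_add, Xi_ddeg_sum]
    simp [ddeg_single]
  have hTP : ∀ i, i < M + 1 → ∀ P, (D + Finsupp.single (x i) 1 : Dv k K) P ≤ T P := by
    intro i hi P
    rw [hT, Finsupp.add_apply, Finsupp.add_apply, Finsupp.finsetSum_apply]
    have h1 : (Finsupp.single (x i) 1 : Dv k K) P ≤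
        ∑ j ∈ Finset.range (M + 1), (Finsupp.single (x j) 1 : Dv k K) P := by
      refine Finset.single_le_sum (f := fun j => (Finsupp.single (x j) 1 : Dv k K) P)
        (fun j _ => ?_) (Finset.mem_range.mpr hi)
      show 0 ≤ (Finsupp.single (x j) 1 : Dv k K) P
      rw [Finsupp.single_apply]
      split_ifs <;> omega
    omega
  have hDT : ∀ P, D P ≤ T P := by
    intro P
    refine le_trans ?_ (hTP 0 (Nat.succ_pos M) P)
    rw [Finsupp.add_apply, Finsupp.single_apply]
    split_ifs <;> omega
  -- the membership in the stalks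
  have hwT : ∀ i, i < M + 1 → ∀ P, a P - w i ∈ P.filt (-T P) := by
    intro i hi P
    exact filt_mono P (neg_le_neg (hTP i hi P)) (hw i P)
  have hwD : ∀ i P, P ≠ x i → a P - w i ∈ P.filt (-D P) := by
    intro i P hP
    have h1 := hw i P
    rw [mem_line, Finsupp.add_apply, Finsupp.single_eq_of_ne hP, add_zero] at h1
    exact h1
  have hsT : ∀ i : Fin M, w (i + 1) - w 0 ∈ (line T).H0 := by
    intro i
    rw [VB.mem_H0]
    intro P
    have h1 := sub_mem (hwT 0 (Nat.succ_pos M) P) (hwT (i + 1) (by have := i.2; omega) P)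
    rw [sub_sub_sub_cancel_left] at h1
    exact h1
  have hy : ∀ y : (line D).H0, (y : K) ∈ (line T).H0 := by
    intro y
    rw [VB.mem_H0]
    intro P
    exact filt_mono P (neg_le_neg (hDT P)) (VB.mem_H0.mp y.2 P)
  -- the linear map
  let Φ : ((Fin M → k) × (line D).H0) →ₗ[k] (line T).H0 :=
    LinearMap.coprod
      (Fintype.linearCombination k (fun i : Fin M => (⟨w (i + 1) - w 0, hsT i⟩ : (line T).H0)))
      (LinearMap.codRestrict _ ((line D).H0.subtype) hy)
  have hΦ : ∀ c y, ((Φ (c, y) : (line T).H0) : K) =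
      ∑ i : Fin M, c i • (w (i + 1) - w 0) + (y : K) := by
    intro c y
    show ((Fintype.linearCombination k (fun i : Fin M =>
      (⟨w (i + 1) - w 0, hsT i⟩ : (line T).H0)) c + LinearMap.codRestrict _ ((line D).H0.subtype) hy y
        : (line T).H0) : K) = _
    rw [Fintype.linearCombination_apply, Submodule.coe_add, Submodule.coe_sum]
    rfl
  have hΦinj : Function.Injective Φ := by
    rw [← LinearMap.ker_eq_bot, LinearMap.ker_eq_bot']
    rintro ⟨c, y⟩ h0
    have h1 : ∑ i : Fin M, c i • (w (i + 1) - w 0) + (y : K) = 0 := by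
      rw [← hΦ, h0]
      rfl
    have hc : ∀ j : Fin M, c j = 0 := by
      intro j
      by_contra hcj
      set P : Place k K := x (j + 1) with hP
      have hne : ∀ i : ℕ, i ≠ j + 1 → P ≠ x i := by
        intro i hi h2
        exact hi (hinj _ _ h2).symm
      have h2 : ∀ i : Fin M, i ≠ j → c i • (w (i + 1) - w 0) ∈ P.filt (-D P) := by
        intro i hij
        refine (P.filt (-D P)).smul_mem (c i) ?_
        have h3 := sub_mem (hwD 0 P (hne 0 (by omega))) (hwD (i + 1) P (hne (i + 1) (by
          intro h4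
          exact hij (Fin.ext (by omega)))))
        rw [sub_sub_sub_cancel_left] at h3
        exact h3
      have h3 : c j • (w (j + 1) - w 0) ∈ P.filt (-D P) := by
        have h4 : c j • (w (j + 1) - w 0) = -(y : K) -
            ∑ i ∈ Finset.univ.erase j, c i • (w (i + 1) - w 0) := by
          rw [← Finset.add_sum_erase Finset.univ _ (Finset.mem_univ j)] at h1
          rw [eq_sub_iff_add_eq, eq_neg_iff_add_eq_zero]
          exact h1
        rw [h4]
        refine sub_mem (neg_mem (VB.mem_H0.mp y.2 P)) (Submodule.sum_mem _ fun i hi => ?_)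
        exact h2 i (Finset.ne_of_mem_erase hi)
      have h5 : w (j + 1) - w 0 ∈ P.filt (-D P) := by
        have h6 := (P.filt (-D P)).smul_mem (c j)⁻¹ h3
        rwa [smul_smul, inv_mul_cancel₀ hcj, one_smul] at h6
      apply ha
      rw [VB.mem_N]
      refine ⟨w (j + 1), fun Q => ?_⟩
      by_cases hQ : Q = P
      · rw [hQ]
        have h6 := sub_mem (hwD 0 P (hne 0 (by omega))) h5
        have h7 : a P - w 0 - (w (j + 1) - w 0) = a P - w (j + 1) := by abel
        rw [h7] at h6
        exact h6
      · exact hwD (j + 1) Q hQ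
    have hc0 : c = 0 := funext hc
    have hy0 : y = 0 := by
      apply Subtype.ext
      rw [hc0] at h1
      simpa using h1
    rw [hc0, hy0]
    rfl
  have h1 := LinearMap.finrank_le_finrank_of_injective hΦinj
  rw [Module.finrank_prod, Module.finrank_fin_fun] at h1
  have h2 : (line T).h0 = ddeg T - 1 := h0_line_of_N (hC T (by rw [hdT]; omega))
  have h3 : (line T).h0 = (finrank k (line T).H0 : ℤ) := rfl
  have h4 : (line D).h0 = (finrank k (line D).H0 : ℤ) := rfl
  omega

end Pool.Agent.MP_09eaec.G2
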