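import Pool.Agent.Lib.MP_09eaec_ag.G2.Transport
import Pool.Agent.Lib.MP_09eaec_ag.G2.Ext
import Pool.Agent.Lib.MP_09eaec_ag.G2.Xi
import Pool.Agent.Lib.MP_09eaec_ag.G2.IntT
import Pool.Agent.Lib.MP_09eaec_ag.G2.IntNull

/-!
# TASK B9: the chain for integral slopes, the step

`X, q, G'` from `IntChain G j`, `d0 = ddeg G`, `F = line G`, generic fibre `B = K`; `u : Place →₀ (K → A)`.
`T` = the finite set of `finite_T`.
CONDITIONS on `u` (`exists_generic`, all with `L = ⊤`): `¬ Null X J F1 u` for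
 (1) `J ∈ X.exc 1 d0` or `J = ⊥`, `F1 = (line G).sub ⊤`;
 (2) `J = ⊥`, `F1 = (line (G - single P 1)).sub ⊤`, `P ∈ T`;
 (3) `J = ker q`, `F1 = (line G).sub ⊤`.
Admissible by `N_hom_ne_top` (`j ≥ 1`): (1) `J ∈ exc` of rank `ν < j`: `deg (X.quo J) = d0 (j - ν)`:
`d0 (j - ν) - (j - ν) d0 = 0 < j - ν`; `J = ⊥`: `j d0 - 1 - j d0 < j`. (2) `j d0 - 1 - j (d0 - 1) = j - 1 < j`.
(3) `quo_ker_deg`: `ddeg G' - d0 ≤ 0 < 1`.

`X' = ext X (line G) u` on `A × K`, degree `(j + 1) d0 - 1`, `q' = snd` maps `X'` onto `line G` (`(u P b, b)`).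
`Ξ = {P | Null X ⊥ ((line (G - single P 1)).sub ⊤) u}` is finite: `Null.mono` to `ker q`, `null_ker_iff`: with
`a = q(u 1)`: `a ∈ (line (G' - G + single P 1)).N`, whereas `a ∉ (line (G' - G)).N` by (3); `finite_xi` for
`D = G' - G`: if `G' = G` then `ddeg D = 0 < 1 = h0` (`h0_line_zero`), otherwise `ddeg D = -1 < 0 ≤ h0`.
`Ξ ∩ T = ∅` by (2).

For `J ≤ A × K`, `J ≠ ⊥`, `JA = J.comap inl`, `JB = J.map snd ∈ {⊥, ⊤}`, `F'` from `ext_sub`,
`t = (F.sub JB).deg - F'.deg ≥ 0`, `e(ρ, σ) = σ - d0 ρ`: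
`e(X'.sub J) = e(X.sub JA) - t` in both cases (`deg_sub_top_line`).
 * `JB = ⊥`: `JA ≠ ⊥`, `t = 0`, `e ≤ -1`; `= -1` only if `JA ∈ exc` or `JA = ⊤`; `J = JA × 0` (`eq_map_inl`).
 * `JB = ⊤`, `JA ≠ ⊥`: `e ≤ -1 - t`; `= -1` only if `t = 0` and `e(X.sub JA) = -1`; then `JA ∈ exc` is excluded
   by (1) (`eq_of_le_of_deg_le`), `JA = ⊤` is `J = ⊤`.
 * `JB = ⊤`, `JA = ⊥`: `e = -t`; `t = 0` is excluded by (1); `t = 1`: `F' = (line (G - single P 1)).sub ⊤`
   (`sub_top_line`) with `P ∈ Ξ`. For a fixed `P ∈ Ξ` there is at most one such `J`: `J` is the graph of a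
   linear map `σ : K → A`, and `σ b - u Q b ∈ X.M Q` for `b ∈ (line (G - P)).M Q` (elements of `J` over `F'` are
   in `X'`); for two such maps `θ = σ1 - σ2` maps `G(-P)` to `X`; if `θ ≠ 0` then `P ∈ T`, a contradiction.
So `Neg X' 1 d0` and `X'.exc 1 d0` is finite. Transport to `Fin (j + 1) → K` (`exists_transport`;
the new `q` is `snd ∘ f⁻¹`).
-/

set_option autoImplicit false

namespace Pool.Agent.MP_09eaec.G2

open Module

universe u v

variable {k : Type u} {K : Type v} [Field k] [Field K] [Algebra k K]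
variable {W : Type v} [AddCommGroup W] [Module K W] [Module k W] [IsScalarTower k K W]
variable {A : Type v} [AddCommGroup A] [Module K A] [Module k A] [IsScalarTower k K A]
variable {B : Type v} [AddCommGroup B] [Module K B] [Module k B] [IsScalarTower k K B]

variable [Curve2 k K]

private theorem IntStep_null (X : VB k K A) (D : Dv k K) (u : Place k K →₀ (K →ₗ[K] A))
    (σ : K →ₗ[K] A) (h : ∀ Q b, b ∈ (line D).M Q → σ b - u Q b ∈ X.M Q) :
    Null X ⊥ ((line D).sub (⊤ : Submodule K K)) u := by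
  refine ⟨(⊥ : Submodule K A).mkQ ∘ₗ σ ∘ₗ (⊤ : Submodule K K).subtype, fun P b hb => ?_⟩
  rw [VB.mem_quo]
  refine ⟨u P b - σ b, ?_, ?_⟩
  · have h1 := neg_mem (h P b (VB.mem_sub.1 hb))
    rwa [neg_sub] at h1
  · rw [map_sub]
    rfl

private theorem IntStep_graph (X : VB k K A) (G : Dv k K) (u : Place k K →₀ (K →ₗ[K] A))
    (J : Submodule K (A × K)) (hA : J.comap (LinearMap.inl K A K) = ⊥)
    (hB : J.map (LinearMap.snd K A K) = ⊤) :
    ∃ (σ : K →ₗ[K] A) (D' : Dv k K), J = LinearMap.range (σ.prod LinearMap.id) ∧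
      (∀ P, D' P ≤ G P) ∧ ((ext X (line G) u).sub J).deg = ddeg D' ∧
      ∀ Q b, b ∈ (line D').M Q → σ b - u Q b ∈ X.M Q := by
  let p : J →ₗ[K] K := (LinearMap.snd K A K).domRestrict J
  have hp : ∀ x : J, p x = (x : A × K).2 := fun x => rfl
  have hinj : Function.Injective p := by
    rw [← LinearMap.ker_eq_bot, LinearMap.ker_eq_bot']
    intro x hx
    rw [hp] at hx
    have h1 : (x : A × K).1 ∈ J.comap (LinearMap.inl K A K) := by
      rw [Submodule.mem_comap]
      have h2 : LinearMap.inl K A K (x : A × K).1 = (x : A × K) := Prod.ext rfl hx.symm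
      rw [h2]; exact x.2
    rw [hA, Submodule.mem_bot] at h1
    exact Subtype.ext (Prod.ext h1 hx)
  have hsurj : Function.Surjective p := by
    intro b
    have h1 : b ∈ J.map (LinearMap.snd K A K) := by rw [hB]; exact Submodule.mem_top
    obtain ⟨x, hx, hxb⟩ := h1
    exact ⟨⟨x, hx⟩, hxb⟩
  let e : J ≃ₗ[K] K := LinearEquiv.ofBijective p ⟨hinj, hsurj⟩
  have he : ∀ x : J, e x = (x : A × K).2 := fun x => rfl
  have he2 : ∀ b : K, (e.symm b : A × K).2 = b := fun b => by rw [← he, e.apply_symm_apply]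
  let σ : K →ₗ[K] A := LinearMap.fst K A K ∘ₗ J.subtype ∘ₗ e.symm.toLinearMap
  have hσ : ∀ b : K, σ b = (e.symm b : A × K).1 := fun b => rfl
  obtain ⟨D', hD'⟩ := exists_eq_line (((ext X (line G) u).sub J).map e)
  have hmem : ∀ Q b, b ∈ (line D').M Q → (e.symm b : A × K) ∈ (ext X (line G) u).M Q := by
    intro Q b hb
    rw [← hD', VB.mem_map, VB.mem_sub] at hb
    exact hb
  refine ⟨σ, D', ?_, ?_, ?_, ?_⟩
  · ext x
    rw [LinearMap.mem_range]
    constructor
    · intro hx
      refine ⟨x.2, ?_⟩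
      have h1 : e.symm x.2 = ⟨x, hx⟩ := by
        rw [LinearEquiv.symm_apply_eq]; rfl
      refine Prod.ext ?_ rfl
      show σ x.2 = x.1
      rw [hσ, h1]
    · rintro ⟨b, rfl⟩
      have h1 : ((σ.prod LinearMap.id) b : A × K) = (e.symm b : A × K) :=
        Prod.ext rfl (he2 b).symm
      rw [h1]; exact (e.symm b).2
  · rw [← line_le_line]
    intro P b hb
    have h1 := (mem_ext.1 (hmem P b hb)).1
    rwa [he2] at h1
  · rw [← VB.deg_map _ e, hD', VB.deg_line]
  · intro Q b hb
    have h1 := (mem_ext.1 (hmem Q b hb)).2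
    rwa [he2] at h1

theorem int_step (G : Dv k K) {j : ℕ} (hj : 1 ≤ j) (h : IntChain G j) : IntChain G (j + 1) := by
  classical
  obtain ⟨X, q, G', hXd, hN, hf, hq, hG'⟩ := h
  have hfr : finrank K (Fin j → K) = j := by rw [Module.finrank_fintype_fun_eq_card, Fintype.card_fin]
  have hG'le : ddeg G' ≤ ddeg G := by
    rcases hG' with h | h
    · omega
    · rw [h]
  have hT := finite_T X G hN hf
  set T : Set (Place k K) := {P : Place k K | ∃ θ : K →ₗ[K] (Fin j → K), θ ≠ 0 ∧
      ∀ Q x, x ∈ (line (G - Finsupp.single P 1)).M Q → θ x ∈ X.M Q} with hTdef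
  -- the conditions on the class
  let S1 : Set (Submodule K (Fin j → K)) := X.exc 1 (ddeg G) ∪ {⊥, LinearMap.ker q}
  have hS1 : S1.Finite := hf.union (Set.toFinite _)
  have : Finite S1 := hS1.to_subtype
  have : Finite T := hT.to_subtype
  obtain ⟨hdG, hfr1⟩ := deg_sub_top_line G
  have hquo : ∀ J : Submodule K (Fin j → K), (X.quo J).deg = j * ddeg G - 1 - (X.sub J).deg ∧
      (finrank K ((Fin j → K) ⧸ J) : ℤ) = j - finrank K J := by
    intro J
    refine ⟨?_, ?_⟩
    · have := VB.deg_add X J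
      omega
    · have := Submodule.finrank_quotient_add_finrank J
      rw [hfr] at this
      omega
  have hadm : ∀ i : S1 ⊕ T, (hom (Sum.elim (fun _ : S1 => (line G).sub (⊤ : Submodule K K))
      (fun P : T => (line (G - Finsupp.single P.1 1)).sub (⊤ : Submodule K K)) i)
      (X.quo (Sum.elim (fun s : S1 => s.1) (fun _ : T => ⊥) i))).N ≠ ⊤ := by
    rintro (⟨J, hJ⟩ | ⟨P, hP⟩)
    · show (hom ((line G).sub (⊤ : Submodule K K)) (X.quo J)).N ≠ ⊤
      apply N_hom_ne_top
      rw [hfr1, hdG]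
      obtain ⟨h1, h2⟩ := hquo J
      rcases hJ with hJ | hJ
      · obtain ⟨hb, ht, he⟩ := hJ
        have h3 : finrank K J < j := by
          have := Submodule.finrank_lt ht
          rwa [hfr] at this
        rw [h1, h2]
        push_cast
        have h4 : (X.sub J).deg = ddeg G * finrank K J - 1 := by linarith
        rw [h4]
        have h5 : (finrank K J : ℤ) < j := by exact_mod_cast h3
        nlinarith
      · rcases hJ with hJ | hJ
        · subst hJ
          rw [h1, h2, VB.deg_sub_bot, finrank_bot]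
          push_cast
          have h5 : (1 : ℤ) ≤ j := by exact_mod_cast hj
          nlinarith
        · rw [Set.mem_singleton_iff] at hJ
          subst hJ
          obtain ⟨h3, h4⟩ := quo_ker_deg X q G' hq
          rw [h3, h4]
          push_cast
          linarith
    · show (hom ((line (G - Finsupp.single P 1)).sub (⊤ : Submodule K K)) (X.quo ⊥)).N ≠ ⊤
      apply N_hom_ne_top
      obtain ⟨h5, h6⟩ := deg_sub_top_line (G - Finsupp.single P 1)
      obtain ⟨h1, h2⟩ := hquo ⊥
      rw [h6, h5, h1, h2, VB.deg_sub_bot, finrank_bot, ddeg_sub, ddeg_single]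
      push_cast
      have h7 : (1 : ℤ) ≤ j := by exact_mod_cast hj
      nlinarith
  obtain ⟨u, hu⟩ := exists_generic (B := K) X (fun i : S1 ⊕ T => Sum.elim (fun s : S1 => s.1) (fun _ : T => ⊥) i)
    (fun _ => (⊤ : Submodule K K)) (fun i : S1 ⊕ T => Sum.elim (fun _ : S1 => (line G).sub (⊤ : Submodule K K))
      (fun P : T => (line (G - Finsupp.single P.1 1)).sub (⊤ : Submodule K K)) i) hadm
  have hu1 : ∀ J ∈ S1, ¬ Null X J ((line G).sub (⊤ : Submodule K K)) u := fun J hJ => hu (Sum.inl ⟨J, hJ⟩)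
  have hu2 : ∀ P ∈ T, ¬ Null X ⊥ ((line (G - Finsupp.single P 1)).sub (⊤ : Submodule K K)) u :=
    fun P hP => hu (Sum.inr ⟨P, hP⟩)
  -- the points where the class dies
  set Ξ : Set (Place k K) := {P | Null X ⊥ ((line (G - Finsupp.single P 1)).sub (⊤ : Submodule K K)) u}
    with hΞdef
  have hΞ : Ξ.Finite := by
    have ha : u.mapRange (fun f => q (f 1)) (by simp) ∉ (line (G' - G)).N := by
      rw [← null_ker_iff X q G' G hq u]
      exact hu1 _ (Or.inr (Or.inr rfl))
    refine (finite_xi (G' - G) ?_ _ ha).subset fun P hP => ?_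
    · rcases hG' with h | h
      · have := VB.h0_nonneg (line (G' - G))
        rw [ddeg_sub, h]
        linarith
      · rw [h, sub_self, h0_line_zero, ddeg_zero]
        norm_num
    · have h1 := (null_ker_iff X q G' (G - Finsupp.single P 1) hq u).1
        (Null.mono (hP : Null X ⊥ _ u) bot_le (VB.le_refl' _))
      have h2 : G' - (G - Finsupp.single P 1) = G' - G + Finsupp.single P 1 := by abel
      rw [h2] at h1
      exact h1
  have hΞT : ∀ P ∈ Ξ, P ∉ T := fun P hP hPT => hu2 P hPT hP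
  let X' : VB k K ((Fin j → K) × K) := ext X (line G) u
  have hX'd : X'.deg = ((j + 1 : ℕ) : ℤ) * ddeg G - 1 := by
    show (ext X (line G) u).deg = _
    rw [deg_ext, hXd, VB.deg_line]
    push_cast
    ring
  -- the exceptional subspaces
  let SP : Place k K → Set (Submodule K ((Fin j → K) × K)) := fun P =>
    {J | ∃ σ : K →ₗ[K] (Fin j → K), J = LinearMap.range (σ.prod LinearMap.id) ∧
      ∀ Q b, b ∈ (line (G - Finsupp.single P 1)).M Q → σ b - u Q b ∈ X.M Q}
  have hSP : ∀ P ∈ Ξ, (SP P).Subsingleton := by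
    rintro P hP J1 ⟨σ1, h1, h1'⟩ J2 ⟨σ2, h2, h2'⟩
    by_contra hne
    apply hΞT P hP
    refine ⟨σ1 - σ2, ?_, ?_⟩
    · intro h0
      apply hne
      rw [h1, h2, sub_eq_zero.1 h0]
    · intro Q b hb
      have h3 := sub_mem (h1' Q b hb) (h2' Q b hb)
      rw [sub_sub_sub_cancel_right] at h3
      exact h3
  let S : Set (Submodule K ((Fin j → K) × K)) :=
    (fun J0 : Submodule K (Fin j → K) => J0.map (LinearMap.inl K (Fin j → K) K)) ''
      (X.exc 1 (ddeg G) ∪ {⊤}) ∪ ⋃ P ∈ Ξ, SP P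
  have hS : S.Finite := ((hf.union (Set.finite_singleton _)).image _).union
    (hΞ.biUnion fun P hP => (hSP P hP).finite)
  have key : ∀ J : Submodule K ((Fin j → K) × K), J ≠ ⊥ →
      1 * (X'.sub J).deg - ddeg G * finrank K J ≤ -1 ∧
      (1 * (X'.sub J).deg - ddeg G * finrank K J = -1 → J ≠ ⊤ → J ∈ S) := by
    intro J hJ
    have hext := ext_sub X (line G) u J
    have hrk := finrank_ext_sub J
    have hXJ : (X'.sub J).deg = ((ext X (line G) u).sub J).deg := rfl
    rw [hXJ]
    rcases eq_bot_or_eq_top (J.map (LinearMap.snd K (Fin j → K) K)) with hJB | hJB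
    · -- `J = JA × 0`
      have hJA : J.comap (LinearMap.inl K (Fin j → K) K) ≠ ⊥ := fun h => hJ (eq_bot_of h hJB)
      have hJeq := eq_map_inl hJB
      rw [hJB] at hext hrk
      obtain ⟨F', _, hF2, _⟩ := hext
      have hF0 : F'.deg = 0 := VB.deg_of_finrank_zero F' (finrank_bot _ _)
      have h1 := hN _ hJA
      rw [hF2, hF0, hrk, finrank_bot]
      push_cast
      refine ⟨by linarith, fun he _ => Or.inl ?_⟩
      refine ⟨J.comap (LinearMap.inl K (Fin j → K) K), ?_, hJeq.symm⟩
      by_cases ht : J.comap (LinearMap.inl K (Fin j → K) K) = ⊤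
      · exact Or.inr ht
      · exact Or.inl ⟨hJA, ht, by linarith⟩
    · by_cases hJA : J.comap (LinearMap.inl K (Fin j → K) K) = ⊥
      · -- a graph
        obtain ⟨σ, D', hg1, hg2, hg3, hg4⟩ := IntStep_graph X G u J hJA hJB
        have hDG : D' ≠ G := by
          intro h0
          rw [h0] at hg4
          exact hu1 ⊥ (Or.inr (Or.inl rfl)) (IntStep_null X G u σ hg4)
        have hdD : ddeg D' ≤ ddeg G - 1 := by
          by_contra hcon
          exact hDG (eq_of_ddeg_le hg2 (by omega))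
        rw [hJA, hJB, finrank_bot, hfr1] at hrk
        rw [hg3, hrk]
        push_cast
        refine ⟨by linarith, fun he _ => Or.inr ?_⟩
        -- `D' = G - P`
        obtain ⟨P, hP⟩ : ∃ P, D' P < G P := by
          by_contra hcon
          push Not at hcon
          exact hDG (Finsupp.ext fun P => le_antisymm (hg2 P) (hcon P))
        have hDP : D' + Finsupp.single P 1 = G := by
          refine eq_of_ddeg_le (fun Q => ?_) ?_
          · rw [Finsupp.add_apply, Finsupp.single_apply]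
            split_ifs with hQ
            · subst hQ; omega
            · have := hg2 Q; omega
          · rw [ddeg_add, ddeg_single]; linarith
        have hDP' : D' = G - Finsupp.single P 1 := eq_sub_of_add_eq hDP
        rw [hDP'] at hg4
        exact Set.mem_biUnion (show P ∈ Ξ from IntStep_null X _ u σ hg4) ⟨σ, hg1, hg4⟩
      · rw [hJB] at hext hrk
        obtain ⟨F', hF1, hF2, hF3⟩ := hext
        have h1 := hN _ hJA
        have h2 := VB.deg_le_of_le hF1
        rw [hdG] at h2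
        rw [hF2, hrk, hfr1]
        push_cast
        refine ⟨by linarith, fun he ht => ?_⟩
        exfalso
        have h3 : F'.deg = ddeg G := by linarith
        have h4 : F' = (line G).sub ⊤ := VB.eq_of_le_of_deg_le hF1 (by rw [hdG, h3])
        rw [h4] at hF3
        by_cases hJt : J.comap (LinearMap.inl K (Fin j → K) K) = ⊤
        · exact ht (eq_top_of hJt hJB)
        · exact hu1 _ (Or.inl ⟨hJA, hJt, by linarith⟩) hF3
  have hNeg : Neg X' 1 (ddeg G) := fun J hJ => (key J hJ).1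
  have hexc : (X'.exc 1 (ddeg G)).Finite := hS.subset fun J hJ => (key J hJ.1).2 hJ.2.2 hJ.2.1
  have hfr' : finrank K ((Fin j → K) × K) = j + 1 := by
    rw [Module.finrank_prod, hfr, Module.finrank_self]
  obtain ⟨E', f, hE', hd', hfin', hneg', -, -⟩ := exists_transport X' hfr'
  refine ⟨E', (LinearMap.snd K (Fin j → K) K) ∘ₗ f.symm.toLinearMap, G, ?_, hneg' _ _ hNeg, hfin' _ _ hexc,
    ?_, Or.inr rfl⟩
  · rw [hd', hX'd]
  · intro P y
    rw [hE']
    constructor
    · intro hy
      refine ⟨f (u P y, y), ?_, ?_⟩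
      · rw [VB.mem_map, f.symm_apply_apply]
        show (u P y, y) ∈ (ext X (line G) u).M P
        rw [mem_ext]
        refine ⟨hy, ?_⟩
        rw [sub_self]
        exact zero_mem _
      · show (f.symm (f (u P y, y))).2 = y
        rw [f.symm_apply_apply]
    · rintro ⟨x, hx, rfl⟩
      rw [VB.mem_map] at hx
      exact (mem_ext.1 hx).1

end Pool.Agent.MP_09eaec.G2
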