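import Pool.Agent.Lib.MP_09eaec_ag.G2.Step
import Pool.Agent.Lib.MP_09eaec_ag.G2.LineBasic

/-!
# TASK A3: Riemann-Roch for line bundles on a curve of genus two

Write `P+` for `D + single P 1` (`oneStep_line`, and the results of Step.lean: `χ` changes by one, `H0`
and `H1` stay finite in both directions, `h0` changes by at most one, and if it changes then `N`
does not change, `OneStep.exists_of_h0`, `OneStep.N_eq`).
1. `finite_H0_line`: choose `P0` (`infinite_places`); `D - n single P0` has negative degree for `n` large,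
   `H0 = ⊥` (`H0_line_of_neg`); go up `n` steps.
2. Let `D0` be the divisor of `Curve2.attained`. For `D ≥ D0` (pointwise): `h0 D ≤ h0 D0 + ddeg D - ddeg D0
   = ddeg D - 1 ≤ h0 D`; so for `D ≥ D0` `h0 (D + P) = h0 D + 1` and hence `N (D + P) = N D`. By induction
   `N (line D) = N (line D0)` for all `D ≥ D0`. Every `a : Place →₀ K` is in `N (line D)` for some
   `D ≥ D0` (with `w = 0`: `D P ≥ D0 P` and `D P ≥ -P.ord (a P)`). So `N (line D0) = ⊤`, `H1 = 0`,
   `χ (line D0) = ddeg D0 - 1`.
3. General `D`: let `D'' = D ⊔ D0` (pointwise maximum). Up from `D0` to `D''` and down from `D''` to `D` by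
   steps: `finite_H1_line`, `chi_line`. (Prove once, by induction on `n`: for all `D, D'` with `D ≤ D'` and
   `ddeg D' - ddeg D = n`: `H1 D` finite iff `H1 D'` finite, and then `χ D' = χ D + n`. If `D ≠ D'` there is
   `P` with `D P < D' P`, and `D + single P 1 ≤ D'`; if the degrees are equal then `D = D'`
   by `eq_of_ddeg_le`.)
4. `exists_large`: `C = ddeg D0 + 2`. If `ddeg D ≥ C` then `h0 (line (D - D0)) ≥ ddeg D - ddeg D0 - 1 ≥ 1`
   (`Curve2.riemann`), so there is `f ≠ 0` with `P.ord f ≥ D0 P - D P`; for `a : Place →₀ K` we have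
   `f⁻¹ • a ∈ N (line D0) = ⊤` and `a = f • (f⁻¹ • a) ∈ N (line D)` by `smul_mem_N`.
-/

set_option autoImplicit false

namespace Pool.Agent.MP_09eaec.G2

open Module

universe u v

variable {k : Type u} {K : Type v} [Field k] [Field K] [Algebra k K]
variable {W : Type v} [AddCommGroup W] [Module K W] [Module k W] [IsScalarTower k K W]
variable {A : Type v} [AddCommGroup A] [Module K A] [Module k A] [IsScalarTower k K A]
variable {B : Type v} [AddCommGroup B] [Module K B] [Module k B] [IsScalarTower k K B]

variable [Curve2 k K]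

private lemma LineRR_exists_lt {D D' : Dv k K} (h : ∀ P, D P ≤ D' P) (hd : ddeg D < ddeg D') :
    ∃ P, D P < D' P := by
  by_contra hcon
  push Not at hcon
  have : D = D' := by
    ext P
    exact le_antisymm (h P) (hcon P)
  rw [this] at hd
  exact lt_irrefl _ hd

private lemma LineRR_up (n : ℕ) : ∀ D D' : Dv k K, (∀ P, D P ≤ D' P) → ddeg D' - ddeg D = n →
    (Module.Finite k (line D).H0 ↔ Module.Finite k (line D').H0) ∧
    (Module.Finite k (line D).H1 ↔ Module.Finite k (line D').H1) ∧
    (Module.Finite k (line D).H0 → Module.Finite k (line D).H1 →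
      (line D').chi = (line D).chi + n) ∧
    (Module.Finite k (line D).H0 → (line D').h0 ≤ (line D).h0 + n) := by
  induction n with
  | zero =>
    intro D D' h hd
    have hD : D = D' := eq_of_ddeg_le h (by push_cast at hd; omega)
    subst hD
    simp
  | succ n ih =>
    intro D D' h hd
    obtain ⟨P, hP⟩ := LineRR_exists_lt h (by push_cast at hd; omega)
    obtain ⟨x, -, -, hx⟩ := oneStep_line D P
    have h1 : ∀ Q, (D + Finsupp.single P (1 : ℤ) : Dv k K) Q ≤ D' Q := by
      classical
      intro Q
      rw [Finsupp.add_apply, Finsupp.single_apply]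
      split_ifs with hQ
      · subst hQ; omega
      · have := h Q; omega
    obtain ⟨i1, i2, i3, i4⟩ := ih (D + Finsupp.single P 1) D' h1
      (by rw [ddeg_add, ddeg_single]; push_cast at hd; omega)
    refine ⟨hx.finite_H0_iff.trans i1, hx.finite_H1_iff.trans i2, ?_, ?_⟩
    · intro a b
      have := a
      have := b
      rw [i3 (hx.finite_H0_iff.1 a) (hx.finite_H1_iff.1 b), hx.chi]
      push_cast
      ring
    · intro a
      have := a
      have e1 := i4 (hx.finite_H0_iff.1 a)
      have e2 := hx.h0_le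
      push_cast
      omega

instance finite_H0_line (D : Dv k K) : Module.Finite k (line D).H0 := by
  have hinf : Infinite (Place k K) := infinite_places
  obtain ⟨P0⟩ : Nonempty (Place k K) := inferInstance
  set n : ℕ := (ddeg D + 1).toNat with hn
  have h1 : ddeg (D - Finsupp.single P0 (n : ℤ)) < 0 := by
    rw [ddeg_sub, ddeg_single]
    omega
  have h2 := LineRR_up n (D - Finsupp.single P0 (n : ℤ)) D (by
    classical
    intro Q
    rw [Finsupp.sub_apply, Finsupp.single_apply]
    split_ifs <;> omega) (by rw [ddeg_sub, ddeg_single]; ring)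
  rw [← h2.1, H0_line_of_neg h1]
  infer_instance

private lemma LineRR_h0_le {D D' : Dv k K} (h : ∀ P, D P ≤ D' P) :
    (line D').h0 ≤ (line D).h0 + (ddeg D' - ddeg D) := by
  have h1 := ddeg_mono h
  have h2 := LineRR_up (ddeg D' - ddeg D).toNat D D' h (by omega)
  have h3 := h2.2.2.2 inferInstance
  omega

private lemma LineRR_N {D0 : Dv k K} (h0 : (line D0).h0 = ddeg D0 - 1) (n : ℕ) :
    ∀ D : Dv k K, (∀ P, D0 P ≤ D P) → ddeg D - ddeg D0 = n → (line D).N = (line D0).N := by
  induction n with
  | zero =>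
    intro D h hd
    have hD : D0 = D := eq_of_ddeg_le h (by push_cast at hd; omega)
    rw [hD]
  | succ n ih =>
    intro D h hd
    obtain ⟨P, hP⟩ := LineRR_exists_lt h (by push_cast at hd; omega)
    have h1 : ∀ Q, D0 Q ≤ (D - Finsupp.single P (1 : ℤ) : Dv k K) Q := by
      classical
      intro Q
      rw [Finsupp.sub_apply, Finsupp.single_apply]
      split_ifs with hQ
      · subst hQ; omega
      · have := h Q; omega
    obtain ⟨x, -, -, hx⟩ := oneStep_line (D - Finsupp.single P 1) P
    rw [sub_add_cancel] at hx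
    have e1 := LineRR_h0_le h
    have e2 := LineRR_h0_le h1
    have e3 := Curve2.riemann D
    have e4 := Curve2.riemann (D - Finsupp.single P 1)
    rw [ddeg_sub, ddeg_single] at e2 e4
    have e5 : (line D).h0 ≠ (line (D - Finsupp.single P 1)).h0 := by omega
    rw [← hx.N_eq (hx.exists_of_h0 e5)]
    exact ih _ h1 (by rw [ddeg_sub, ddeg_single]; push_cast at hd; omega)

private lemma LineRR_N_top {D0 : Dv k K} (h0 : (line D0).h0 = ddeg D0 - 1) :
    (line D0).N = ⊤ := by
  classical
  rw [eq_top_iff]
  rintro a -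
  set e : Dv k K := Finsupp.onFinset a.support (fun P => if a P = 0 then 0 else -P.ord (a P)) (by
    intro P hP
    rw [Finsupp.mem_support_iff]
    intro h
    exact hP (by rw [if_pos h])) with he
  obtain ⟨D, hD⟩ := exists_ub (fun i : Bool => if i then D0 else e)
  have h1 : ∀ P, D0 P ≤ D P := fun P => by simpa using hD true P
  have h2 : ∀ P, e P ≤ D P := fun P => by simpa using hD false P
  have h3 := ddeg_mono h1
  rw [← LineRR_N h0 (ddeg D - ddeg D0).toNat D h1 (by omega), VB.mem_N]
  refine ⟨0, fun P => ?_⟩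
  rw [sub_zero, mem_line]
  by_cases haP : a P = 0
  · exact Or.inl haP
  · right
    have := h2 P
    rw [he, Finsupp.onFinset_apply, if_neg haP] at this
    omega

/-- If `N = ⊤` then `h¹ = 0`. -/
theorem h1_eq_zero_of_N {E : VB k K W} (h : E.N = ⊤) : E.h1 = 0 := by
  have : Subsingleton E.H1 := Submodule.Quotient.subsingleton_iff.2 h
  rw [VB.h1, Module.finrank_zero_of_subsingleton]
  rfl

instance finite_H1_line (D : Dv k K) : Module.Finite k (line D).H1 := by
  obtain ⟨D0, hD0⟩ := Curve2.attained (k := k) (K := K)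
  have hN := LineRR_N_top hD0
  have hs : Subsingleton (line D0).H1 := Submodule.Quotient.subsingleton_iff.2 hN
  obtain ⟨D', hD'⟩ := exists_ub (fun i : Bool => if i then D0 else D)
  have h1 : ∀ P, D0 P ≤ D' P := fun P => by simpa using hD' true P
  have h2 : ∀ P, D P ≤ D' P := fun P => by simpa using hD' false P
  have h3 := ddeg_mono h1
  have h4 := ddeg_mono h2
  have u1 := LineRR_up (ddeg D' - ddeg D0).toNat D0 D' h1 (by omega)
  have u2 := LineRR_up (ddeg D' - ddeg D).toNat D D' h2 (by omega)
  exact u2.2.1.2 (u1.2.1.1 inferInstance)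

theorem chi_line (D : Dv k K) : (line D).chi = ddeg D - 1 := by
  obtain ⟨D0, hD0⟩ := Curve2.attained (k := k) (K := K)
  have hN := LineRR_N_top hD0
  obtain ⟨D', hD'⟩ := exists_ub (fun i : Bool => if i then D0 else D)
  have h1 : ∀ P, D0 P ≤ D' P := fun P => by simpa using hD' true P
  have h2 : ∀ P, D P ≤ D' P := fun P => by simpa using hD' false P
  have h3 := ddeg_mono h1
  have h4 := ddeg_mono h2
  have u1 := (LineRR_up (ddeg D' - ddeg D0).toNat D0 D' h1 (by omega)).2.2.1
    inferInstance inferInstance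
  have u2 := (LineRR_up (ddeg D' - ddeg D).toNat D D' h2 (by omega)).2.2.1
    inferInstance inferInstance
  have u3 : (line D0).chi = ddeg D0 - 1 := by
    rw [VB.chi, hD0, h1_eq_zero_of_N hN, sub_zero]
  omega

theorem exists_large : ∃ C : ℤ, ∀ D : Dv k K, C ≤ ddeg D → (line D).N = ⊤ := by
  obtain ⟨D0, hD0⟩ := Curve2.attained (k := k) (K := K)
  have hN := LineRR_N_top hD0
  refine ⟨ddeg D0 + 2, fun D hD => ?_⟩
  have h1 := Curve2.riemann (D - D0)
  rw [ddeg_sub] at h1
  have h2 : (line (D - D0)).H0 ≠ ⊥ := by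
    intro hb
    have : (line (D - D0)).h0 = 0 := by
      rw [VB.h0, hb, finrank_bot]
      rfl
    omega
  obtain ⟨f, hf, hf0⟩ := Submodule.exists_mem_ne_zero_of_ne_bot h2
  rw [VB.mem_H0] at hf
  rw [eq_top_iff]
  rintro a -
  have hfa : f⁻¹ • a ∈ (line D0).N := by rw [hN]; trivial
  have h3 := smul_mem_N (D := D0) (D' := D) (f := f) (fun P => by
    have := hf P
    rw [mem_line, Finsupp.sub_apply] at this
    have e : -(D P - D0 P) = D0 P - D P := by ring
    rw [e] at this
    exact this) hfa
  rwa [smul_smul, mul_inv_cancel₀ hf0, one_smul] at h3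

theorem h0_line_of_N {D : Dv k K} (h : (line D).N = ⊤) : (line D).h0 = ddeg D - 1 := by
  have h1 := chi_line D
  rw [VB.chi, h1_eq_zero_of_N h, sub_zero] at h1
  exact h1

end Pool.Agent.MP_09eaec.G2
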