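import Pool.Agent.Lib.MP_09eaec_ag.G2.Pencil

/-!
# TASK C7: the lower bound

Write `d = E.deg`, `n = finrank K W ≥ 2`, `m = finrank k V > n` (`V ≤ H0 E`), `(E, V)` `α`-stable.
1. `deg_nonneg_of_gen`: `d ≥ 0`. Let `J = span K V`. A `K`-basis of `J` in `V` gives a bundle `≤ E.sub J`
   isomorphic to `(line 0)^r`, which has degree `0`; so `(E.sub J).deg ≥ 0`. (Or by induction: if
   `E` is generated over `K` by its global sections then `E.deg ≥ 0`: take a section `s ≠ 0`, `L = span s`;
   `(E.sub L).deg ≥ 0` since `line 0 → E.sub L`, `x ↦ x s`, and `E.quo L` is again generated.) If `J = ⊤` done.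
   `J ≠ ⊥` since `m > 0`. If `J ≠ ⊤`: `V ⊓ J = V` and stability gives
   `α m / rk J ≤ ((E.sub J).deg + α m)/rk J < (d + α m)/n`, and `rk J < n`, so `d > 0`.
2. If `E.h1 = 0`: `m ≤ h0 E = d - n` (`rr`, `finrank_le_h0`): first alternative.
3. If `E.h1 ≠ 0`: `φ` from `h1_pos_hom`, `J = ker φ` (`≠ ⊤` since `φ ≠ 0`, `≠ ⊥` since its rank is
   `n - 1 ≥ 1`), `ker_bounds`: `(E.sub J).deg ≥ d - 2`, `finrank (V ⊓ J) ≥ m - 2`. Stability:
   `(d - 2 + α (m - 2))/(n - 1) < (d + α m)/n`, which is `d + α m < 2 n + 2 n α`. (*)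
   By `pencil`: if there is `J1` of rank one with `(E.sub J1).deg ≥ 2`, `finrank (V ⊓ J1) ≥ 2`, then (`J1 ≠ ⊤`
   since `n ≥ 2`) `2 + 2 α < (d + α m)/n`, contradicting (*). So `2 m ≤ h0 (E.twist κ)`.
   `h1 (E.twist κ) = 0`: otherwise `ψ` from `h1_twist_hom`, `J = ker ψ`: `(E.sub J).deg ≥ d`,
   `finrank (V ⊓ J) ≥ m - 1` (`h0_line_zero`), so `(d + α (m - 1))/(n - 1) < (d + α m)/n`, i.e.
   `d + α m < α n`, impossible since `d ≥ 0`, `m > n`.
   So `2 m ≤ (E.twist κ).deg - n = d + 2 n - n = d + n` (`rr`, `deg_twist`).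
-/

set_option autoImplicit false

namespace Pool.Agent.MP_09eaec.G2

open Module

universe u v

variable {k : Type u} {K : Type v} [Field k] [Field K] [Algebra k K]
variable {W : Type v} [AddCommGroup W] [Module K W] [Module k W] [IsScalarTower k K W]
variable {A : Type v} [AddCommGroup A] [Module K A] [Module k A] [IsScalarTower k K A]
variable {B : Type v} [AddCommGroup B] [Module K B] [Module k B] [IsScalarTower k K B]

variable [Curve2 k K]

private theorem Lower2_gen (n : ℕ) : ∀ (W : Type v) [AddCommGroup W] [Module K W] [Module k W]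
    [IsScalarTower k K W] [FiniteDimensional K W] (E : VB k K W), finrank K W = n →
    Submodule.span K (E.H0 : Set W) = ⊤ → 0 ≤ E.deg := by
  induction n with
  | zero =>
    intro W _ _ _ _ _ E hn _
    rw [VB.deg_of_finrank_zero E hn]
  | succ n ih =>
    intro W _ _ _ _ _ E hn h
    obtain ⟨s, hs, hs0⟩ : ∃ s ∈ E.H0, s ≠ 0 := by
      by_contra hcon
      push Not at hcon
      have h1 : Submodule.span K (E.H0 : Set W) = ⊥ := by
        rw [Submodule.span_eq_bot]
        exact hcon
      have h2 : finrank K W = 0 := by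
        rw [← finrank_top K W, ← h, h1, finrank_bot]
      omega
    let L : Submodule K W := Submodule.span K {s}
    let f : K ≃ₗ[K] L := LinearEquiv.toSpanNonzeroSingleton K W s hs0
    have hf : ∀ c : K, ((f c : L) : W) = c • s := fun c => rfl
    have hL1 : finrank K L = 1 := finrank_span_singleton hs0
    have hle : (line (0 : Dv k K)).map f ≤ E.sub L := by
      intro P y hy
      rw [VB.mem_map, mem_line] at hy
      rw [VB.mem_sub]
      have h1 : ((y : L) : W) = f.symm y • s := by
        rw [← hf, f.apply_symm_apply]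
      rw [h1]
      refine E.smul_mem P _ _ ?_ (VB.mem_H0.1 hs P)
      simpa using hy
    have h1 : 0 ≤ (E.sub L).deg := by
      have h2 := VB.deg_le_of_le hle
      rw [VB.deg_map, VB.deg_line, ddeg_zero] at h2
      exact h2
    have h2 : 0 ≤ (E.quo L).deg := by
      apply ih (W ⧸ L) (E.quo L)
      · have := Submodule.finrank_quotient_add_finrank L
        omega
      · rw [eq_top_iff]
        have h3 : Submodule.map L.mkQ (Submodule.span K (E.H0 : Set W)) = ⊤ := by
          rw [h, Submodule.map_top, Submodule.range_mkQ]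
        rw [← h3, Submodule.map_span]
        apply Submodule.span_mono
        rintro _ ⟨x, hx, rfl⟩
        show L.mkQ x ∈ (E.quo L).H0
        rw [VB.mem_H0]
        intro P
        exact ⟨x, VB.mem_H0.1 hx P, rfl⟩
    rw [VB.deg_add E L]
    linarith

theorem deg_nonneg_of_gen [FiniteDimensional K W] {E : VB k K W}
    (h : Submodule.span K (E.H0 : Set W) = ⊤) : 0 ≤ E.deg :=
  Lower2_gen (finrank K W) W E rfl h

theorem lower_bound2 [FiniteDimensional K W] {E : VB k K W} {V : Submodule k W} (hV : V ≤ E.H0)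
    {α : ℝ} (hα : 0 < α) (hn : 2 ≤ finrank K W) (hm : finrank K W < finrank k V)
    (hst : E.StableSys α V) :
    (finrank k V : ℤ) + finrank K W ≤ E.deg ∨ 2 * (finrank k V : ℤ) - finrank K W ≤ E.deg := by
  obtain ⟨κ, hκ⟩ := exists_canonical (k := k) (K := K)
  obtain ⟨hfin, hmle⟩ := finrank_le_h0 hV
  have hnR : (2 : ℝ) ≤ finrank K W := by exact_mod_cast hn
  have hmR : (finrank K W : ℝ) < finrank k V := by exact_mod_cast hm
  have hpos : ∀ J : Submodule K W, J ≠ ⊥ → (0 : ℝ) < finrank K J := by
    intro J hJ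
    have : 0 < finrank K J := by
      rw [Nat.pos_iff_ne_zero]
      intro h0
      exact hJ (Submodule.finrank_eq_zero.1 h0)
    exact_mod_cast this
  -- the stability condition without denominators
  have hst' : ∀ J : Submodule K W, J ≠ ⊥ → J ≠ ⊤ →
      (((E.sub J).deg : ℝ) + α * finrank k ↥(V ⊓ J.restrictScalars k)) * finrank K W <
        ((E.deg : ℝ) + α * finrank k V) * finrank K J := by
    intro J hJb hJt
    have h1 := hst J hJb hJt
    rwa [div_lt_div_iff₀ (hpos J hJb) (by linarith)] at h1
  -- the degree is nonnegative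
  have hd0 : 0 ≤ E.deg := by
    set J : Submodule K W := Submodule.span K (V : Set W) with hJ
    have hVJ : ∀ x ∈ V, x ∈ J := fun x hx => Submodule.subset_span hx
    have h1 : 0 ≤ (E.sub J).deg := by
      apply deg_nonneg_of_gen
      rw [eq_top_iff]
      have h2 : Submodule.span K (((↑) : J → W) ⁻¹' (V : Set W)) = ⊤ :=
        Submodule.span_span_coe_preimage
      rw [← h2]
      apply Submodule.span_mono
      intro x hx
      show x ∈ (E.sub J).H0
      rw [VB.mem_H0]
      intro P
      exact VB.mem_H0.1 (hV hx) P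
    by_cases hJt : J = ⊤
    · rw [hJt, VB.deg_sub_top] at h1
      exact h1
    · have hJb : J ≠ ⊥ := by
        intro hb
        have h3 : V = ⊥ := by
          rw [eq_bot_iff]
          intro x hx
          have := hVJ x hx
          rw [hb, Submodule.mem_bot] at this
          rw [Submodule.mem_bot]
          exact this
        rw [h3, finrank_bot] at hm
        omega
      have h4 : V ⊓ J.restrictScalars k = V := by
        rw [inf_eq_left]
        exact fun x hx => hVJ x hx
      have h5 := hst' J hJb hJt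
      rw [h4] at h5
      have h6 : (0 : ℝ) ≤ ((E.sub J).deg : ℝ) := by exact_mod_cast h1
      have h7 : (finrank K J : ℝ) < finrank K W := by
        exact_mod_cast Submodule.finrank_lt hJt
      have h8 := hpos J hJb
      have h9 : (0 : ℝ) < (E.deg : ℝ) * finrank K J := by
        have a1 : 0 < α * (finrank k V : ℝ) * ((finrank K W : ℝ) - finrank K J) := by
          have : (0 : ℝ) < finrank k V := by linarith
          have : (0 : ℝ) < (finrank K W : ℝ) - finrank K J := by linarith
          positivity
        have a2 : 0 ≤ ((E.sub J).deg : ℝ) * (finrank K W : ℝ) := by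
          have : (0 : ℝ) ≤ finrank K W := by linarith
          positivity
        nlinarith
      have h10 : (0 : ℝ) < (E.deg : ℝ) := by
        by_contra hc
        rw [not_lt] at hc
        have := mul_nonpos_of_nonpos_of_nonneg hc h8.le
        linarith
      have h11 : (0 : ℤ) < E.deg := by exact_mod_cast h10
      exact h11.le
  by_cases h1 : E.h1 = 0
  · left
    have h2 := VB.rr E
    rw [h1] at h2
    omega
  · right
    obtain ⟨φ, hφ0, hφ⟩ := h1_pos_hom hκ h1
    obtain ⟨b1, b2, b3⟩ := ker_bounds hφ0 hφ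
    have b3 := b3 V hV
    rw [hκ.ddeg] at b1
    rw [hκ.h0] at b3
    have hkt : ∀ ψ : W →ₗ[K] K, ψ ≠ 0 → LinearMap.ker ψ ≠ ⊤ :=
      fun ψ hψ ht => hψ (LinearMap.ker_eq_top.1 ht)
    have hkb : ∀ ψ : W →ₗ[K] K, (finrank K (LinearMap.ker ψ) : ℤ) = finrank K W - 1 →
        LinearMap.ker ψ ≠ ⊥ := by
      intro ψ hψ hb
      rw [hb, finrank_bot] at hψ
      push_cast at hψ
      omega
    have hs := hst' _ (hkb φ b2) (hkt φ hφ0)
    have b1R : (E.deg : ℝ) ≤ ((E.sub (LinearMap.ker φ)).deg : ℝ) + 2 := by exact_mod_cast b1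
    have b2R : (finrank K (LinearMap.ker φ) : ℝ) = (finrank K W : ℝ) - 1 := by exact_mod_cast b2
    have b3R : (finrank k V : ℝ) ≤
        (finrank k ↥(V ⊓ (LinearMap.ker φ).restrictScalars k) : ℝ) + 2 := by exact_mod_cast b3
    rw [b2R] at hs
    -- (*)
    have hstar : (E.deg : ℝ) + α * finrank k V <
        2 * finrank K W + 2 * finrank K W * α := by
      have c1 : ((E.deg : ℝ) - 2) * finrank K W ≤
          ((E.sub (LinearMap.ker φ)).deg : ℝ) * finrank K W :=
        mul_le_mul_of_nonneg_right (by linarith) (by linarith)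
      have c2 : α * ((finrank k V : ℝ) - 2) * finrank K W ≤
          α * (finrank k ↥(V ⊓ (LinearMap.ker φ).restrictScalars k) : ℝ) * finrank K W := by
        have : (0 : ℝ) ≤ finrank K W := by linarith
        gcongr
        linarith
      nlinarith
    rcases pencil hκ hV with hp | ⟨J1, hJ1, hJ2, hJ3⟩
    · have ht : (E.twist κ).h1 = 0 := by
        by_contra ht
        obtain ⟨ψ, hψ0, hψ⟩ := h1_twist_hom hκ ht
        obtain ⟨c1, c2, c3⟩ := ker_bounds hψ0 hψ
        have c3 := c3 V hV
        rw [ddeg_zero, add_zero] at c1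
        rw [h0_line_zero] at c3
        have hs := hst' _ (hkb ψ c2) (hkt ψ hψ0)
        have c1R : (E.deg : ℝ) ≤ ((E.sub (LinearMap.ker ψ)).deg : ℝ) := by exact_mod_cast c1
        have c2R : (finrank K (LinearMap.ker ψ) : ℝ) = (finrank K W : ℝ) - 1 := by
          exact_mod_cast c2
        have c3R : (finrank k V : ℝ) ≤
            (finrank k ↥(V ⊓ (LinearMap.ker ψ).restrictScalars k) : ℝ) + 1 := by
          exact_mod_cast c3
        rw [c2R] at hs
        have hdR : (0 : ℝ) ≤ E.deg := by exact_mod_cast hd0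
        have d1 : (E.deg : ℝ) * finrank K W ≤
            ((E.sub (LinearMap.ker ψ)).deg : ℝ) * finrank K W :=
          mul_le_mul_of_nonneg_right c1R (by linarith)
        have d2 : α * ((finrank k V : ℝ) - 1) * finrank K W ≤
            α * (finrank k ↥(V ⊓ (LinearMap.ker ψ).restrictScalars k) : ℝ) * finrank K W := by
          have : (0 : ℝ) ≤ finrank K W := by linarith
          gcongr
          linarith
        have d3 : α * (finrank K W : ℝ) < α * finrank k V := mul_lt_mul_of_pos_left hmR hα
        nlinarith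
      have h2 := VB.rr (E.twist κ)
      rw [ht, VB.deg_twist, hκ.ddeg] at h2
      omega
    · exfalso
      have hJb : J1 ≠ ⊥ := by
        intro hb
        rw [hb, finrank_bot] at hJ1
        omega
      have hJt : J1 ≠ ⊤ := by
        intro ht
        rw [ht, finrank_top] at hJ1
        omega
      have hs := hst' J1 hJb hJt
      rw [hJ1] at hs
      have e1 : (2 : ℝ) ≤ ((E.sub J1).deg : ℝ) := by exact_mod_cast hJ2
      have e2 : (2 : ℝ) ≤ (finrank k ↥(V ⊓ J1.restrictScalars k) : ℝ) := by exact_mod_cast hJ3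
      have e3 : (2 + α * 2) * (finrank K W : ℝ) ≤
          (((E.sub J1).deg : ℝ) + α * finrank k ↥(V ⊓ J1.restrictScalars k)) * finrank K W := by
        have : (0 : ℝ) ≤ finrank K W := by linarith
        gcongr
      push_cast at hs
      nlinarith

end Pool.Agent.MP_09eaec.G2
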