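import Pool.Agent.Lib.MP_09eaec_ag.G2.DegToVB

/-!
# TASK D5: the two notions of `α`-stability

* `exists_sub_bundle`: for `J ≤ Fin n → K` of rank `m` choose `f : (Fin m → K) ≃ₗ[K] J`
  (`LinearEquiv.ofFinrankEq`); `((toVB E).sub J).map f.symm = toVB F` for a `Bundle` `F`
  (`exists_toVB_eq`); `j = J.subtype ∘ f`. `F.deg = ((toVB E).sub J).deg` by `deg_toVB`, `deg_map`.
* `stableSys_of_isStable`: for `J ≠ ⊥, ⊤` apply `IsStable` to this `F, j`, and `W = V ⊓ J`. It is a
  subsystem (`w ∈ V ⊓ J`: `w = j x`, `x = f.symm w`, and `F.Mem P x ↔ E.Mem P w`, true by `IsSystem`), it is not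
  whole: otherwise `J` would contain all stalks of `E`, whose `K`-span is everything (`VB.lower`).
* `isStable_of_stableSys`: let `(m, F, j, W')` be a subsystem, `0 < m`, not whole. `J = range j`, rank
  `m`; `(toVB F).map (iso onto J) ≤ (toVB E).sub J`, so `F.deg ≤ ((toVB E).sub J).deg` (`deg_toVB`, `deg_map`,
  `deg_le_of_le`). `W' ≤ V ⊓ J`, so `finrank W' ≤ finrank (V ⊓ J)` (finite dimension: `V ≤ H0`). If `J ≠ ⊤`: done
  by `StableSys`. If `J = ⊤`: `m = n`, `F.deg ≤ E.deg`, `finrank W' ≤ finrank V`, and not both equal: otherwise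
  `W' = V` and (`eq_of_le_of_deg_le`) the stalks agree, so the subsystem is whole. With `α > 0` the
  inequality is strict.
-/

set_option autoImplicit false

namespace Pool.Agent.MP_09eaec.G2

open Module

universe u v

variable {k : Type u} {K : Type v} [Field k] [Field K] [Algebra k K]
variable {W : Type v} [AddCommGroup W] [Module K W] [Module k W] [IsScalarTower k K W]
variable {A : Type v} [AddCommGroup A] [Module K A] [Module k A] [IsScalarTower k K A]
variable {B : Type v} [AddCommGroup B] [Module K B] [Module k B] [IsScalarTower k K B]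

variable [Curve2 k K]

theorem stableSys_of_isStable {n : ℕ} {α : ℝ} {E : Bundle k K n} {V : Submodule k (Fin n → K)}
    (hV : IsSystem E V) (h : IsStable α E V) : (toVB E).StableSys α V := by
  classical
  intro J hJ1 hJ2
  have hm : 0 < finrank K J := by
    rw [Nat.pos_iff_ne_zero]
    intro h0
    exact hJ1 (Submodule.finrank_eq_zero.1 h0)
  let f : (Fin (finrank K J) → K) ≃ₗ[K] J :=
    LinearEquiv.ofFinrankEq _ _ (by rw [Module.finrank_fin_fun])
  obtain ⟨F, hF⟩ := exists_toVB_eq (((toVB E).sub J).map f.symm)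
  let j : (Fin (finrank K J) → K) →ₗ[K] (Fin n → K) := J.subtype ∘ₗ f.toLinearMap
  have hmem : ∀ P x, F.Mem P x ↔ E.Mem P (j x) := by
    intro P x
    rw [← mem_toVB, hF, VB.mem_map]
    exact Iff.rfl
  have hsub : IsSubsystem E V F j (V ⊓ J.restrictScalars k) := by
    refine ⟨?_, fun P x hx => (hmem P x).1 hx, inf_le_left, ?_⟩
    · exact J.injective_subtype.comp f.injective
    · rintro w ⟨hw1, hw2⟩
      have hjw : j (f.symm ⟨w, hw2⟩) = w := by
        show ((f (f.symm ⟨w, hw2⟩) : J) : Fin n → K) = w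
        rw [f.apply_symm_apply]
      refine ⟨f.symm ⟨w, hw2⟩, hjw, fun P => ?_⟩
      rw [hmem, hjw]
      exact hV w hw1 P
  have hnw : ¬ IsWhole E V F j (V ⊓ J.restrictScalars k) := by
    rintro ⟨h1, _⟩
    apply hJ2
    rw [eq_top_iff]
    intro w _
    obtain ⟨e, he⟩ := (toVB E).lower w
    obtain ⟨P⟩ := (infinite_places (k := k) (K := K)).nonempty
    obtain ⟨t, ht, htm⟩ := exists_ord_eq P (e P)
    obtain ⟨x, _, hx⟩ := h1 P _ (he P t (Or.inr htm.ge))
    have h3 : t • w ∈ J := by
      rw [← hx]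
      exact (f x).2
    exact (J.smul_mem_iff ht).1 h3
  have h4 := h _ F j _ hm hsub hnw
  have h5 : F.deg = ((toVB E).sub J).deg := by
    rw [← deg_toVB, hF, VB.deg_map]
  rw [h5, ← deg_toVB E] at h4
  rw [Module.finrank_fin_fun]
  exact h4

theorem isStable_of_stableSys {n : ℕ} {α : ℝ} (hα : 0 < α) {E : Bundle k K n}
    {V : Submodule k (Fin n → K)} (hn : 0 < n) (hV : IsSystem E V)
    (h : (toVB E).StableSys α V) : IsStable α E V := by
  classical
  intro m F j W' hm hsub hnw
  let f : (Fin m → K) ≃ₗ[K] LinearMap.range j := LinearEquiv.ofInjective j hsub.injective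
  have hfj : ∀ x, ((f x : LinearMap.range j) : Fin n → K) = j x := fun x => rfl
  have hrk : finrank K (LinearMap.range j) = m := by
    rw [LinearMap.finrank_range_of_inj hsub.injective, Module.finrank_fin_fun]
  have hle : (toVB F).map f ≤ (toVB E).sub (LinearMap.range j) := by
    intro P y hy
    obtain ⟨x, hx, rfl⟩ := hy
    exact hsub.map_mem P x hx
  have hdeg : F.deg ≤ ((toVB E).sub (LinearMap.range j)).deg := by
    have := VB.deg_le_of_le hle
    rwa [VB.deg_map, deg_toVB] at this
  have hVH : V ≤ (toVB E).H0 := fun v hv => VB.mem_H0.2 fun P => hV v hv P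
  have hVfin : Module.Finite k V := Submodule.finiteDimensional_of_le hVH
  have hW'le : W' ≤ V ⊓ (LinearMap.range j).restrictScalars k := by
    intro w hw
    obtain ⟨x, hx, _⟩ := hsub.sections w hw
    exact ⟨hsub.le hw, ⟨x, hx⟩⟩
  have hfin2 : Module.Finite k ↥(V ⊓ (LinearMap.range j).restrictScalars k) :=
    Submodule.finiteDimensional_of_le inf_le_left
  have hrank : finrank k W' ≤ finrank k ↥(V ⊓ (LinearMap.range j).restrictScalars k) :=
    Submodule.finrank_mono hW'le
  have hmR : (0 : ℝ) < m := by exact_mod_cast hm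
  by_cases hJ : LinearMap.range j = ⊤
  · -- the subsystem has full rank
    have hmn : m = n := by
      rw [← hrk, hJ, finrank_top, Module.finrank_fin_fun]
    have hdegE : F.deg ≤ E.deg := by
      rw [hJ, VB.deg_sub_top, deg_toVB] at hdeg
      exact hdeg
    have hrkV : finrank k W' ≤ finrank k V := Submodule.finrank_mono hsub.le
    have hne : ¬ (F.deg = E.deg ∧ finrank k W' = finrank k V) := by
      rintro ⟨h1, h2⟩
      apply hnw
      refine ⟨?_, Submodule.eq_of_le_of_finrank_eq hsub.le h2⟩
      have h3 : (toVB F).map f = (toVB E).sub (LinearMap.range j) := by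
        refine VB.eq_of_le_of_deg_le hle ?_
        rw [VB.deg_map, deg_toVB, h1, ← deg_toVB E, ← VB.deg_sub_top (toVB E)]
        refine le_of_eq ?_
        rw [hJ]
      intro P y hy
      have hyJ : y ∈ LinearMap.range j := by rw [hJ]; trivial
      have h4 : (⟨y, hyJ⟩ : LinearMap.range j) ∈ ((toVB F).map f).M P := by
        rw [h3]; exact hy
      obtain ⟨x, hx, hx2⟩ := h4
      exact ⟨x, hx, congrArg Subtype.val hx2⟩
    have hlt : (F.deg : ℝ) + α * finrank k W' < (E.deg : ℝ) + α * finrank k V := by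
      have e1 : (F.deg : ℝ) ≤ E.deg := by exact_mod_cast hdegE
      have e2 : (finrank k W' : ℝ) ≤ finrank k V := by exact_mod_cast hrkV
      rcases lt_or_eq_of_le hdegE with h1 | h1
      · have e3 : (F.deg : ℝ) < E.deg := by exact_mod_cast h1
        nlinarith
      · rcases lt_or_eq_of_le hrkV with h2 | h2
        · have e3 : (finrank k W' : ℝ) < finrank k V := by exact_mod_cast h2
          nlinarith
        · exact absurd ⟨h1, h2⟩ hne
    have hmnR : (m : ℝ) = n := by exact_mod_cast hmn
    rw [hmnR] at hmR ⊢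
    exact div_lt_div_of_pos_right hlt hmR
  · have hbot : LinearMap.range j ≠ ⊥ := by
      intro h0
      rw [h0, finrank_bot] at hrk
      omega
    have h1 := h _ hbot hJ
    rw [Module.finrank_fin_fun, hrk, deg_toVB] at h1
    refine lt_of_le_of_lt ?_ h1
    refine div_le_div_of_nonneg_right ?_ hmR.le
    have e1 : (F.deg : ℝ) ≤ ((toVB E).sub (LinearMap.range j)).deg := by exact_mod_cast hdeg
    have e2 : (finrank k W' : ℝ) ≤ finrank k ↥(V ⊓ (LinearMap.range j).restrictScalars k) := by
      exact_mod_cast hrank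
    have e3 := mul_le_mul_of_nonneg_left e2 hα.le
    linarith

end Pool.Agent.MP_09eaec.G2
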