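import Pool.Agent.Lib.MP_09eaec_ag.G2.ExistsStable
import Pool.Agent.Lib.MP_09eaec_ag.G2.Lower2
import Pool.Agent.Lib.MP_09eaec_ag.G2.High
import Pool.Agent.Lib.MP_09eaec_ag.G2.DualSpan
import Pool.Agent.Lib.MP_09eaec_ag.G2.StabBr
import Pool.Agent.Lib.MP_09eaec_ag.G2.Genus

/-!
# Assembly: the minimal degree on curves of genus two
-/

set_option autoImplicit false

namespace Pool.Agent.MP_09eaec.G2

open Module

universe u v

variable {k : Type u} {K : Type v} [Field k] [Field K] [Algebra k K]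

/-- A stable system for a `VB` on `Fin n → K` gives an element of `stableDegrees`. -/
lemma mem_stableDegrees [Curve2 k K] {n d : ℕ} (hn : 0 < n) {E : VB k K (Fin n → K)}
    {V : Submodule k (Fin n → K)} {α : ℝ} (hα : 0 < α) (hV : V ≤ E.H0) (hd : finrank k V = d)
    (h : E.StableSys α V) : E.deg ∈ stableDegrees k K n d := by
  obtain ⟨E', rfl⟩ := exists_toVB_eq E
  have hS : IsSystem E' V := fun v hv P => VB.mem_H0.1 (hV hv) P
  exact ⟨α, hα, E', V, hS, hd, (deg_toVB E').symm, isStable_of_stableSys hα hn hS h⟩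

/-- The lower bound. -/
lemma lower_stableDegrees [Curve2 k K] {n d : ℕ} (hn : 2 ≤ n) (hd : n < d) {e : ℤ}
    (he : e ∈ stableDegrees k K n d) : (d : ℤ) + min (n : ℤ) ((d : ℤ) - n) ≤ e := by
  obtain ⟨α, hα, E, V, hS, hV, rfl, hst⟩ := he
  have h1 := stableSys_of_isStable hS hst
  have hV0 : V ≤ (toVB E).H0 := fun v hv => VB.mem_H0.2 fun P => hS v hv P
  have h2 := lower_bound2 hV0 hα (by rw [finrank_fin_fun]; exact hn)
    (by rw [finrank_fin_fun, hV]; exact hd) h1
  rw [finrank_fin_fun, hV, deg_toVB] at h2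
  omega

lemma upper_stableDegrees [Curve2 k K] {n d : ℕ} (hn : 2 ≤ n) (hd : n < d) :
    (d : ℤ) + min (n : ℤ) ((d : ℤ) - n) ∈ stableDegrees k K n d := by
  rcases le_or_gt (2 * n) d with h | h
  · obtain ⟨E, hE, hst⟩ := exists_stable (k := k) (K := K) (r := n) (by omega) ((d : ℤ) + n)
    obtain ⟨V, α, hα, hV, hf, hS⟩ := high_system hn h hE hst
    have := mem_stableDegrees (by omega) hα hV hf hS
    rw [hE] at this
    rw [min_eq_left (by omega)]
    exact this
  · obtain ⟨m, rfl⟩ : ∃ m, d = n + m := ⟨d - n, by omega⟩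
    obtain ⟨F, hF, hst⟩ := exists_stable (k := k) (K := K) (r := m) (by omega) ((n : ℤ) + 2 * m)
    obtain ⟨E, V, α, hα, hV, hf, hdeg, hS⟩ := dual_span (by omega) (by omega) hF hst
    have h1 := mem_stableDegrees (by omega) hα hV hf hS
    have h2 := lower_stableDegrees hn hd h1
    have h3 : E.deg = ((n + m : ℕ) : ℤ) + min (n : ℤ) (((n + m : ℕ) : ℤ) - n) := by
      push_cast at h2 ⊢
      omega
    rw [← h3]
    exact h1

theorem isLeast_genus_two [IsAlgClosed k] [CharZero k] (hK : IsCurveField k K)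
    (hg : IsGenus k K 2) {n d : ℕ} (hn : 2 ≤ n) (hd : n < d) :
    IsLeast (stableDegrees k K n d) ((d : ℤ) + min (n : ℤ) ((d : ℤ) - n)) := by
  have : Curve2 k K := curve2_of_isGenus hK hg
  exact ⟨upper_stableDegrees hn hd, fun e he => lower_stableDegrees hn hd he⟩

end Pool.Agent.MP_09eaec.G2
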