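import Pool.Agent.Lib.MP_09eaec_ag.G2.Deg

/-!
# TASK C1: the space of Weil differentials has dimension one over `K`

`ω, lam` functionals on `Place →₀ K` vanishing on `N (line D1)`, `N (line D2)`; `ω ≠ 0`. Claim:
`lam a = ω (x • a)` for some `x : K`. If `lam = 0` take `x = 0`. Otherwise choose a point `P0`
(`infinite_places`) and `T = single P0 m`, `m` large. For `x ∈ H0 (line (D1 + T))` the functional
`a ↦ ω (x • a)` vanishes on `N (line (-T))`: `x` is in `P.filt (-(D1 + T) P) = P.filt ((-T) P - D1 P)`, so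
`smul_mem_N` applies (`D = -T`, `D' = D1`). So `α x = (a ↦ ω (x • a))` is a `k`-linear map
`H0 (line (D1 + T)) → Module.Dual k (H1 (line (-T)))`; it is injective (if `x ≠ 0`, `ω (x • a) = 0` for all
`a`, replace `a` by `x⁻¹ • a`: `ω = 0`). Same for `β y = (a ↦ lam (y • a))` on `H0 (line (D2 + T))`.
Dimensions: `h0 (line (D_i + T)) ≥ ddeg D_i + m - 1` (`Curve2.riemann`), and
`h1 (line (-T)) = h0 - chi = 0 - (-m - 1) = m + 1` (`H0_line_of_neg`, `chi_line`). For `m` large
`(ddeg D1 + m - 1) + (ddeg D2 + m - 1) > m + 1`, so `(x, y) ↦ α x - β y` is not injective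
(`LinearMap.exists_ne_zero_of_...` / `finrank` inequality): `α x = β y`, `(x, y) ≠ 0`, so `x ≠ 0` and `y ≠ 0`
(injectivity). Then `lam a = lam (y • (y⁻¹ • a)) = ω (x • (y⁻¹ • a)) = ω ((x y⁻¹) • a)`.
-/

set_option autoImplicit false

namespace Pool.Agent.MP_09eaec.G2

open Module

universe u v

variable {k : Type u} {K : Type v} [Field k] [Field K] [Algebra k K]
variable {W : Type v} [AddCommGroup W] [Module K W] [Module k W] [IsScalarTower k K W]
variable {A : Type v} [AddCommGroup A] [Module K A] [Module k A] [IsScalarTower k K A]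
variable {B : Type v} [AddCommGroup B] [Module K B] [Module k B] [IsScalarTower k K B]

variable [Curve2 k K]

omit [Curve2 k K] in
private theorem Omega_inj {ω : (Place k K →₀ K) →ₗ[k] k} (hω0 : ω ≠ 0) {x : K}
    (h : ∀ a : Place k K →₀ K, ω (x • a) = 0) : x = 0 := by
  by_contra hx
  apply hω0
  ext1 P
  ext1 c
  have h1 := h (x⁻¹ • Finsupp.single P c)
  rw [smul_smul, mul_inv_cancel₀ hx, one_smul] at h1
  exact h1

/-- The functional `a ↦ ω (x • a)`, linear in `x`. -/
private noncomputable def Omega_act (ω : (Place k K →₀ K) →ₗ[k] k) :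
    K →ₗ[k] ((Place k K →₀ K) →ₗ[k] k) where
  toFun x :=
    { toFun := fun a => ω (x • a)
      map_add' := fun a b => by rw [smul_add, map_add]
      map_smul' := fun c a => by
        rw [smul_comm, map_smul, RingHom.id_apply] }
  map_add' x y := by
    ext1 P
    ext1 c
    show ω ((x + y) • Finsupp.single P c) = ω (x • Finsupp.single P c) + ω (y • Finsupp.single P c)
    rw [add_smul, map_add]
  map_smul' c x := by
    ext1 P
    ext1 d
    show ω ((c • x) • Finsupp.single P d) = c • ω (x • Finsupp.single P d)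
    rw [smul_assoc, map_smul]

/-- The map `α`. -/
private noncomputable def Omega_al (ω : (Place k K →₀ K) →ₗ[k] k) (D T : Dv k K)
    (hω : ∀ a ∈ (line D).N, ω a = 0) :
    (line (D + T)).H0 →ₗ[k] ((line (-T)).H1 →ₗ[k] k) where
  toFun x := (line (-T)).N.liftQ (Omega_act ω x) (by
    intro a ha
    rw [LinearMap.mem_ker]
    show ω ((x : K) • a) = 0
    apply hω
    refine smul_mem_N (D := -T) (D' := D) (fun P => ?_) ha
    have h1 := VB.mem_H0.1 x.2 P
    rw [mem_line] at h1
    have e : -(D + T) P = (-T) P - D P := by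
      simp only [Finsupp.coe_add, Pi.add_apply, Finsupp.coe_neg, Pi.neg_apply]
      ring
    rw [e] at h1
    exact h1)
  map_add' x y := by
    apply Submodule.linearMap_qext
    show Omega_act ω ((x : K) + (y : K)) = Omega_act ω (x : K) + Omega_act ω (y : K)
    rw [map_add]
  map_smul' c x := by
    apply Submodule.linearMap_qext
    show Omega_act ω (c • (x : K)) = c • Omega_act ω (x : K)
    rw [map_smul]

private theorem Omega_al_apply (ω : (Place k K →₀ K) →ₗ[k] k) (D T : Dv k K)
    (hω : ∀ a ∈ (line D).N, ω a = 0) (x : (line (D + T)).H0) (a : Place k K →₀ K) :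
    Omega_al ω D T hω x (Submodule.Quotient.mk a) = ω ((x : K) • a) := rfl

theorem omega_unique {ω lam : (Place k K →₀ K) →ₗ[k] k} {D1 D2 : Dv k K} (hω0 : ω ≠ 0)
    (hω : ∀ a ∈ (line D1).N, ω a = 0) (hlam : ∀ a ∈ (line D2).N, lam a = 0) :
    ∃ x : K, ∀ a, lam a = ω (x • a) := by
  by_cases hl0 : lam = 0
  · refine ⟨0, fun a => ?_⟩
    rw [hl0, zero_smul, map_zero]
    rfl
  have := infinite_places (k := k) (K := K)
  obtain ⟨P0⟩ : Nonempty (Place k K) := inferInstance
  set m : ℤ := |ddeg D1| + |ddeg D2| + 4 with hm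
  set T : Dv k K := Finsupp.single P0 m with hT
  have hTd : ddeg T = m := ddeg_single P0 m
  have hm0 : 4 ≤ m := by
    have := abs_nonneg (ddeg D1)
    have := abs_nonneg (ddeg D2)
    omega
  have hn : ddeg (-T) < 0 := by rw [ddeg_neg, hTd]; omega
  -- the dimension of the space of functionals
  have hcod : (finrank k ((line (-T)).H1 →ₗ[k] k) : ℤ) = m + 1 := by
    have h1 : finrank k ((line (-T)).H1 →ₗ[k] k) = finrank k (line (-T)).H1 :=
      Module.finrank_linearMap_self k k _
    rw [h1]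
    have h2 : (line (-T)).h0 = 0 := by
      unfold VB.h0
      rw [H0_line_of_neg hn, finrank_bot]
      rfl
    have h3 := chi_line (-T)
    unfold VB.chi at h3
    rw [h2, ddeg_neg, hTd] at h3
    have h4 : (line (-T)).h1 = m + 1 := by linarith
    exact h4
  have hd1 : ddeg D1 + m - 1 ≤ (finrank k (line (D1 + T)).H0 : ℤ) := by
    have := Curve2.riemann (D1 + T)
    rw [ddeg_add, hTd] at this
    exact this
  have hd2 : ddeg D2 + m - 1 ≤ (finrank k (line (D2 + T)).H0 : ℤ) := by
    have := Curve2.riemann (D2 + T)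
    rw [ddeg_add, hTd] at this
    exact this
  let Φ : (line (D1 + T)).H0 × (line (D2 + T)).H0 →ₗ[k] ((line (-T)).H1 →ₗ[k] k) :=
    (Omega_al ω D1 T hω).coprod (-(Omega_al lam D2 T hlam))
  have hlt : finrank k ((line (-T)).H1 →ₗ[k] k) <
      finrank k ((line (D1 + T)).H0 × (line (D2 + T)).H0) := by
    rw [finrank_prod]
    have a1 := neg_abs_le (ddeg D1)
    have a2 := neg_abs_le (ddeg D2)
    zify
    rw [hcod]
    omega
  have hker : LinearMap.ker Φ ≠ ⊥ := LinearMap.ker_ne_bot_of_finrank_lt hlt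
  obtain ⟨⟨x, y⟩, hxy, hne⟩ := Submodule.exists_mem_ne_zero_of_ne_bot hker
  have hrel : ∀ a, ω ((x : K) • a) = lam ((y : K) • a) := by
    intro a
    have h1 : Φ (x, y) = 0 := hxy
    have h2 : Φ (x, y) (Submodule.Quotient.mk a) = ω ((x : K) • a) - lam ((y : K) • a) := by
      show (Omega_al ω D1 T hω x + -(Omega_al lam D2 T hlam y)) (Submodule.Quotient.mk a) = _
      rw [← sub_eq_add_neg]
      rfl
    rw [h1, LinearMap.zero_apply] at h2
    exact sub_eq_zero.1 h2.symm
  have hy : (y : K) ≠ 0 := by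
    intro hy
    have hx : (x : K) = 0 := by
      apply Omega_inj hω0
      intro a
      rw [hrel a, hy, zero_smul, map_zero]
    apply hne
    exact Prod.ext (Subtype.ext hx) (Subtype.ext hy)
  refine ⟨(x : K) * (y : K)⁻¹, fun a => ?_⟩
  rw [mul_smul, hrel, smul_smul, mul_inv_cancel₀ hy, one_smul]

/-- If `ω (x • a) = 0` for all `a` then `x = 0`. -/
theorem omega_smul_injective {ω : (Place k K →₀ K) →ₗ[k] k} (hω0 : ω ≠ 0) {x : K}
    (h : ∀ a : Place k K →₀ K, ω (x • a) = 0) : x = 0 :=
  Omega_inj hω0 h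

end Pool.Agent.MP_09eaec.G2
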