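import Pool.Agent.Lib.MP_09eaec_ag.G2.SysDefs

/-!
# TASK C6: the base point free pencil trick

`κ` canonical. `H0 (line κ)` has a basis `s1, s2` (dimension 2). Let `V ≤ H0 E`. The linear map
`V × V → H0 (E.twist κ)`, `(v1, v2) ↦ s1 v1 + s2 v2` (`s ∈ P.filt (-κ P)`, `v ∈ E.M P` implies
`s v ∈ (E.twist κ).M P`: for `c ∈ P.filt (κ P)`, `c s ∈ P.filt 0`). If it is injective then
`2 finrank V ≤ h0 (E.twist κ)`. Otherwise `s1 v1 = - s2 v2`, `(v1, v2) ≠ 0`; put `y = s2⁻¹ v1` (`s2 ≠ 0`);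
`v1 = s2 y`, `v2 = - s1 y`, `y ≠ 0`. Let `J = span K {y}`, rank one. `s1 y, s2 y ∈ V ⊓ J` are linearly
independent over `k` (as `s1, s2` are), so `finrank (V ⊓ J) ≥ 2`. And `(E.sub J).deg ≥ 2`: the isomorphism
`K ≃ J`, `x ↦ x y` maps `line κ` into `E.sub J`: for `x ∈ P.filt (-κ P)` take `s ∈ H0 (line κ)` with
`P.ord s = -κ P` (`IsCanonical.base`), `s = a s1 + b s2` with `a, b : k`, so `s y ∈ E.M P`,
`x y = (x/s) (s y) ∈ E.M P`. `deg_map`, `deg_le_of_le`, `deg_line`.
-/

set_option autoImplicit false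

namespace Pool.Agent.MP_09eaec.G2

open Module

universe u v

variable {k : Type u} {K : Type v} [Field k] [Field K] [Algebra k K]
variable {W : Type v} [AddCommGroup W] [Module K W] [Module k W] [IsScalarTower k K W]
variable {A : Type v} [AddCommGroup A] [Module K A] [Module k A] [IsScalarTower k K A]
variable {B : Type v} [AddCommGroup B] [Module K B] [Module k B] [IsScalarTower k K B]

variable [Curve2 k K]

theorem pencil {κ : Dv k K} (hκ : IsCanonical κ) [FiniteDimensional K W] {E : VB k K W}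
    {V : Submodule k W} (hV : V ≤ E.H0) :
    2 * (finrank k V : ℤ) ≤ (E.twist κ).h0 ∨
      ∃ J : Submodule K W, finrank K J = 1 ∧ 2 ≤ (E.sub J).deg ∧
        2 ≤ finrank k ↥(V ⊓ J.restrictScalars k) := by
  classical
  obtain ⟨hVfin, hVle⟩ := finrank_le_h0 hV
  have h2 : finrank k (line κ).H0 = 2 := by
    have := hκ.h0
    unfold VB.h0 at this
    exact_mod_cast this
  let b := finBasisOfFinrankEq k (line κ).H0 h2
  set s1 : K := (b 0 : K) with hs1
  set s2 : K := (b 1 : K) with hs2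
  have hs1m : s1 ∈ (line κ).H0 := (b 0).2
  have hs2m : s2 ∈ (line κ).H0 := (b 1).2
  have hspan : ∀ s ∈ (line κ).H0, ∃ a c : k, s = a • s1 + c • s2 := by
    intro s hs
    refine ⟨b.repr ⟨s, hs⟩ 0, b.repr ⟨s, hs⟩ 1, ?_⟩
    have h := congrArg Subtype.val (b.sum_repr ⟨s, hs⟩)
    rw [Fin.sum_univ_two] at h
    exact h.symm
  have hli : ∀ a c : k, a • s1 + c • s2 = 0 → a = 0 ∧ c = 0 := by
    intro a c h
    have h1 := b.linearIndependent
    have h3 : LinearIndependent k ![b 0, b 1] := by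
      convert h1 using 1
      funext i
      fin_cases i <;> rfl
    rw [LinearIndependent.pair_iff] at h3
    apply h3
    exact Subtype.ext h
  have hs10 : s1 ≠ 0 := by
    intro h
    have := (hli 1 0 (by rw [h]; simp)).1
    exact one_ne_zero this
  have hs20 : s2 ≠ 0 := by
    intro h
    have := (hli 0 1 (by rw [h]; simp)).2
    exact one_ne_zero this
  have hmem : ∀ s ∈ (line κ).H0, ∀ v ∈ E.H0, s • v ∈ (E.twist κ).H0 := by
    intro s hs v hv
    rw [VB.mem_H0] at hs hv ⊢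
    intro P c hc
    rw [← mul_smul]
    refine E.smul_mem P _ _ ?_ (hv P)
    have := mul_mem_filt P hc (hs P)
    simpa using this
  let Ψ : (V × V) →ₗ[k] W :=
    ((s1 • LinearMap.id : W →ₗ[K] W).restrictScalars k ∘ₗ V.subtype ∘ₗ LinearMap.fst k V V) +
    ((s2 • LinearMap.id : W →ₗ[K] W).restrictScalars k ∘ₗ V.subtype ∘ₗ LinearMap.snd k V V)
  have hΨ : ∀ v : V × V, Ψ v = s1 • (v.1 : W) + s2 • (v.2 : W) := fun v => rfl
  have hΨm : ∀ v : V × V, Ψ v ∈ (E.twist κ).H0 := fun v =>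
    add_mem (hmem s1 hs1m _ (hV v.1.2)) (hmem s2 hs2m _ (hV v.2.2))
  by_cases hinj : Function.Injective Ψ
  · left
    have h1 : finrank k (V × V) ≤ finrank k (E.twist κ).H0 :=
      LinearMap.finrank_le_finrank_of_injective (f := Ψ.codRestrict (E.twist κ).H0 hΨm)
        (fun v w h => hinj (congrArg Subtype.val h))
    rw [Module.finrank_prod] at h1
    unfold VB.h0
    have h3 : ((finrank k V + finrank k V : ℕ) : ℤ) ≤ (finrank k (E.twist κ).H0 : ℤ) := by
      exact_mod_cast h1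
    push_cast at h3
    linarith
  right
  rw [← LinearMap.ker_eq_bot, LinearMap.ker_eq_bot', not_forall] at hinj
  obtain ⟨v, hv⟩ := hinj
  rw [Classical.not_imp] at hv
  obtain ⟨hv0, hvne⟩ := hv
  rw [hΨ] at hv0
  obtain ⟨y, hy⟩ : ∃ y : W, y = s2⁻¹ • (v.1 : W) := ⟨_, rfl⟩
  have hv1 : (v.1 : W) = s2 • y := by
    rw [hy, smul_smul, mul_inv_cancel₀ hs20, one_smul]
  have hv2 : (v.2 : W) = -(s1 • y) := by
    have h3 : s2 • (v.2 : W) = s2 • (-(s1 • y)) := by
      rw [smul_neg, smul_smul, mul_comm, ← smul_smul, ← hv1]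
      exact eq_neg_of_add_eq_zero_right hv0
    exact smul_right_injective W hs20 h3
  have hy0 : y ≠ 0 := by
    intro h
    apply hvne
    rw [h, smul_zero] at hv1 hv2
    refine Prod.ext (Subtype.ext hv1) (Subtype.ext ?_)
    rw [hv2, neg_zero]; rfl
  have h2V : s2 • y ∈ V := hv1 ▸ v.1.2
  have h1V : s1 • y ∈ V := by
    have := V.neg_mem v.2.2
    rw [hv2, neg_neg] at this
    exact this
  set J : Submodule K W := Submodule.span K {y} with hJ
  have hyJ : y ∈ J := Submodule.mem_span_singleton_self y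
  refine ⟨J, finrank_span_singleton hy0, ?_, ?_⟩
  · let f : K ≃ₗ[K] J := LinearEquiv.toSpanNonzeroSingleton K W y hy0
    have hle : (line κ).map f ≤ E.sub J := by
      intro P x' hx'
      obtain ⟨x, hx, rfl⟩ := hx'
      obtain ⟨s, hs, hs0, hsP⟩ := hκ.base P
      obtain ⟨a, c, hac⟩ := hspan s hs
      have h3 : s • y ∈ E.M P := by
        rw [hac, add_smul, smul_assoc, smul_assoc]
        exact add_mem ((E.M P).smul_mem a ((VB.mem_H0.1 (hV h1V)) P))
          ((E.M P).smul_mem c ((VB.mem_H0.1 (hV h2V)) P))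
      show x • y ∈ E.M P
      have h4 : x • y = (x * s⁻¹) • (s • y) := by
        rw [smul_smul, mul_assoc, inv_mul_cancel₀ hs0, mul_one]
      rw [h4]
      refine E.smul_mem P _ _ ?_ h3
      have h5 : s⁻¹ ∈ P.filt (κ P) := Or.inr (by rw [P.ord_inv, hsP]; omega)
      have h6 := mul_mem_filt P hx h5
      simpa using h6
    have h3 := VB.deg_le_of_le hle
    rw [VB.deg_map, VB.deg_line, hκ.ddeg] at h3
    exact h3
  · have hfin : Module.Finite k ↥(V ⊓ J.restrictScalars k) :=
      (finrank_le_h0 (V := V ⊓ J.restrictScalars k) (inf_le_left.trans hV)).1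
    let u1 : ↥(V ⊓ J.restrictScalars k) := ⟨s1 • y, h1V, J.smul_mem s1 hyJ⟩
    let u2 : ↥(V ⊓ J.restrictScalars k) := ⟨s2 • y, h2V, J.smul_mem s2 hyJ⟩
    have hu : LinearIndependent k ![u1, u2] := by
      rw [LinearIndependent.pair_iff]
      intro a c h
      have h3 : a • (s1 • y) + c • (s2 • y) = 0 := congrArg Subtype.val h
      rw [← smul_assoc, ← smul_assoc, ← add_smul] at h3
      rcases smul_eq_zero.1 h3 with h4 | h4
      · exact hli a c h4
      · exact absurd h4 hy0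
    have := hu.fintype_card_le_finrank
    simpa using this

end Pool.Agent.MP_09eaec.G2
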