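import Pool.Agent.Lib.MP_09eaec_ag.G2.Eval
import Pool.Agent.Lib.MP_09eaec_ag.Mg.G045

/-!
# TASK D10: constant vectors in subspaces which contain `range (evT u)`

`N = n + m`, `u` as in `exists_basis_H0`, `R = range (evT u)`. `constL`, `constIn`, `const_independent`
are in `Space.lean` (namespace `Pool.Agent.MP_09eaec`).
* `const_inf_range`: let `c : Fin N → k`, `φ (u i) = algebraMap (c i)` for all `i`. If `φ ≠ 0` let
  `J = ker φ` (rank `m - 1`): the map `H0 F → K`, `x ↦ φ x` has values in the image of `k` (`H0 F` is the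
  `k`-span of the `u i`), so its kernel, `H0 (F.sub J)`, has dimension `≥ N - 1`. If `m = 1` then
  `J = ⊥`, dimension `0`, false. If `m ≥ 2`: `J ≠ ⊥, ⊤` and `h0_sub_lt` gives `m (N - 1) < N (m - 1)`, so
  `N < m`, false. So `φ = 0`, `c = 0`.
* `ratio`: `J ≥ R`, `J ≠ R`, `J ≠ ⊤`; `A = constIn k J`, `k' = dim A`; `n' = finrank J - m ≥ 1`.
  Let `A⊥ = {b : Fin N → k | ∀ a ∈ A, Σ a_i b_i = 0}` (dimension `N - k'`),
  `U = {Σ b_i u_i | b ∈ A⊥} ⊆ H0 F` (dimension `N - k'`), `L = span K U ≤ (Fin m → K)` of rank `r`.
  (1) `N - k' ≤ h0 (F.sub L)`. (2) `k' + r ≤ n' + m`: let `A_K` be the `K`-span of `constL A` (dimension `k'`,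
  `const_independent`), contained in `J`. `A_K ⊓ R`: the `φ` with `(φ (u i))_i ∈ A_K`; these `φ` vanish on
  `U`, so on `L` (if `y ∈ A_K` and `b ∈ A⊥` then `Σ b_i y_i = 0`), and the space of the `φ` vanishing on `L`
  has dimension `m - r`. So `k' + m - (m - r) ≤ dim (A_K ⊔ R) ≤ dim J = n' + m`.
  Cases: `r = 0`: `U = 0`, `A⊥ = 0`, `A = ⊤`, `J = ⊤`, false. `r = m`: `k' ≤ n'`, `n k' ≤ n n' < N n'`.
  `0 < r < m`: `m (N - k') ≤ m h0 (F.sub L) < N r` (`h0_sub_lt`), so `N (m - r) < m k'` and
  `N n' ≥ N k' - N (m - r) > N k' - m k' = n k'`.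
-/

set_option autoImplicit false

namespace Pool.Agent.MP_09eaec.G2

open Module

universe u v

variable {k : Type u} {K : Type v} [Field k] [Field K] [Algebra k K]
variable {W : Type v} [AddCommGroup W] [Module K W] [Module k W] [IsScalarTower k K W]
variable {A : Type v} [AddCommGroup A] [Module K A] [Module k A] [IsScalarTower k K A]
variable {B : Type v} [AddCommGroup B] [Module K B] [Module k B] [IsScalarTower k K B]

variable [Curve2 k K]

/-- Independent sections in a subspace. -/
private lemma finrank_le_h0_sub {m N : ℕ} {F : VB k K (Fin m → K)} {u : Fin N → (Fin m → K)}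
    (hu : LinearIndependent k u) (hu2 : ∀ i, u i ∈ F.H0) (L : Submodule K (Fin m → K))
    (U : Submodule k (Fin N → k)) (hU : ∀ b ∈ U, Fintype.linearCombination k u b ∈ L) :
    (finrank k U : ℤ) ≤ (F.sub L).h0 := by
  have hmem : ∀ b, Fintype.linearCombination k u b ∈ F.H0 := fun b => by
    rw [Fintype.linearCombination_apply]
    exact Submodule.sum_mem _ fun i _ => Submodule.smul_mem _ _ (hu2 i)
  have hinj : Function.Injective (Fintype.linearCombination k u) :=
    linearIndependent_iff_injective_fintypeLinearCombination.1 hu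
  let g : U →ₗ[k] (F.sub L).H0 :=
    { toFun := fun b => ⟨⟨Fintype.linearCombination k u b, hU b b.2⟩, VB.mem_H0.2 fun P =>
        VB.mem_H0.1 (hmem b) P⟩
      map_add' := fun b c => by
        apply Subtype.ext
        apply Subtype.ext
        exact map_add (Fintype.linearCombination k u) (b : Fin N → k) c
      map_smul' := fun a b => by
        apply Subtype.ext
        apply Subtype.ext
        exact map_smul (Fintype.linearCombination k u) a (b : Fin N → k) }
  have hg : Function.Injective g := by
    intro b c h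
    apply Subtype.ext
    apply hinj
    exact congrArg (fun z : (F.sub L).H0 => ((z : L) : Fin m → K)) h
  unfold VB.h0
  exact_mod_cast LinearMap.finrank_le_finrank_of_injective hg

omit [Curve2 k K] in
private lemma h0_sub_bot {m : ℕ} {F : VB k K (Fin m → K)} : (F.sub ⊥).h0 = 0 := by
  unfold VB.h0
  have : Subsingleton (F.sub ⊥).H0 := by
    refine ⟨fun a b => ?_⟩
    apply Subtype.ext
    exact Subsingleton.elim _ _
  rw [finrank_zero_of_subsingleton]
  rfl

theorem const_inf_range {n m : ℕ} (hm : 1 ≤ m) (hmn : m < n) {F : VB k K (Fin m → K)}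
    (hd : F.deg = n + 2 * m) (hF : F.Stable) {u : Fin (n + m) → (Fin m → K)}
    (hu : LinearIndependent k u) (hu2 : Submodule.span k (Set.range u) = F.H0)
    (hu3 : Submodule.span K (Set.range u) = ⊤) {c : Fin (n + m) → k}
    (hc : constL k K (n + m) c ∈ LinearMap.range (evT u)) : c = 0 := by
  obtain ⟨φ, hφ⟩ := hc
  have hφ' : ∀ i, φ (u i) = algebraMap k K (c i) := fun i => congrFun hφ i
  have hui : ∀ i, u i ∈ F.H0 := fun i => by
    rw [← hu2]; exact Submodule.subset_span ⟨i, rfl⟩
  by_cases h0 : φ = 0
  · funext i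
    have := hφ' i
    rw [h0, LinearMap.zero_apply] at this
    exact ((map_eq_zero_iff _ (algebraMap k K).injective).1 this.symm)
  exfalso
  -- the kernel
  have hrange : finrank K (LinearMap.range φ) = 1 := by
    have : LinearMap.range φ = ⊤ := by
      rw [LinearMap.range_eq_top]
      exact LinearMap.surjective h0
    rw [this, finrank_top, finrank_self]
  have hker := LinearMap.finrank_range_add_finrank_ker φ
  rw [hrange, finrank_fin_fun] at hker
  let ψ : (Fin (n + m) → k) →ₗ[k] k := Fintype.linearCombination k c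
  have hψ : n + m ≤ finrank k (LinearMap.ker ψ) + 1 := by
    have h1 := LinearMap.finrank_range_add_finrank_ker ψ
    rw [finrank_fin_fun] at h1
    have h2 : finrank k (LinearMap.range ψ) ≤ 1 := by
      have := Submodule.finrank_le (LinearMap.range ψ)
      rwa [finrank_self] at this
    omega
  have h1 := finrank_le_h0_sub hu hui (LinearMap.ker φ) (LinearMap.ker ψ) (by
    intro b hb
    rw [LinearMap.mem_ker] at hb ⊢
    have hb' : ∑ i, b i * c i = 0 := by
      have : Fintype.linearCombination k c b = 0 := hb
      rw [Fintype.linearCombination_apply] at this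
      exact this
    rw [Fintype.linearCombination_apply, map_sum]
    have h3 : ∀ i, φ (b i • u i) = algebraMap k K (b i * c i) := fun i => by
      rw [LinearMap.map_smul_of_tower, hφ', map_mul, Algebra.smul_def]
    rw [Finset.sum_congr rfl fun i _ => h3 i, ← map_sum, hb', map_zero])
  rcases eq_or_lt_of_le hm with hm1 | hm1
  · have h2 : LinearMap.ker φ = ⊥ := by
      rw [← Submodule.finrank_eq_zero (R := K)]
      omega
    rw [h2, h0_sub_bot] at h1
    omega
  · have h2 := h0_sub_lt hm hmn hd hF (J := LinearMap.ker φ) (by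
      intro h
      rw [h, finrank_bot] at hker
      omega) (by
      intro h
      exact h0 (LinearMap.ker_eq_top.1 h))
    have h3 : (finrank K (LinearMap.ker φ) : ℤ) = m - 1 := by omega
    rw [h3] at h2
    have h4 : (n : ℤ) + m - 1 ≤ (F.sub (LinearMap.ker φ)).h0 := by
      have : ((n + m : ℕ) : ℤ) ≤ finrank k (LinearMap.ker ψ) + 1 := by exact_mod_cast hψ
      push_cast at this
      linarith
    have h5 : (m : ℤ) * (n + m - 1) ≤ m * (F.sub (LinearMap.ker φ)).h0 :=
      mul_le_mul_of_nonneg_left h4 (by positivity)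
    have h6 : (m : ℤ) < n := by exact_mod_cast hmn
    have h7 : (0 : ℤ) ≤ m := by positivity
    nlinarith

theorem ratio {n m : ℕ} (hm : 1 ≤ m) (hmn : m < n) {F : VB k K (Fin m → K)}
    (hd : F.deg = n + 2 * m) (hF : F.Stable) {u : Fin (n + m) → (Fin m → K)}
    (hu : LinearIndependent k u) (hu2 : Submodule.span k (Set.range u) = F.H0)
    (hu3 : Submodule.span K (Set.range u) = ⊤) {J : Submodule K (Fin (n + m) → K)}
    (hJ : LinearMap.range (evT u) ≤ J) (hJ1 : J ≠ LinearMap.range (evT u)) (hJ2 : J ≠ ⊤) :
    (n : ℤ) * finrank k (constIn k J) < (n + m) * ((finrank K J : ℤ) - m) := by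
  have hui : ∀ i, u i ∈ F.H0 := fun i => by
    rw [← hu2]; exact Submodule.subset_span ⟨i, rfl⟩
  have hR : finrank K (LinearMap.range (evT u)) = m := finrank_range_evT hu3
  have hJm : m < finrank K J := by
    have := Submodule.finrank_lt_finrank_of_lt (lt_of_le_of_ne hJ hJ1.symm)
    rwa [hR] at this
  have hJN : finrank K J < n + m := by
    have := Submodule.finrank_lt hJ2
    rwa [finrank_fin_fun] at this
  -- the orthogonal complement of the constant vectors
  let D : (Fin (n + m) → k) →ₗ[k] (constIn k J →ₗ[k] k) :=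
    { toFun := fun b => (Fintype.linearCombination k b) ∘ₗ (constIn k J).subtype
      map_add' := fun b c => by
        ext a
        simp [Fintype.linearCombination_apply, mul_add, Finset.sum_add_distrib]
      map_smul' := fun r b => by
        ext a
        simp only [LinearMap.comp_apply, Submodule.subtype_apply, Fintype.linearCombination_apply,
          LinearMap.smul_apply, Pi.smul_apply, smul_eq_mul, RingHom.id_apply, Finset.mul_sum]
        refine Finset.sum_congr rfl fun i _ => ?_
        ring }
  have hD : ∀ b, b ∈ LinearMap.ker D → ∀ a ∈ constIn k J, ∑ i, a i * b i = 0 := by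
    intro b hb a ha
    have h1 : D b = 0 := hb
    have h2 := congrArg (fun f : constIn k J →ₗ[k] k => f ⟨a, ha⟩) h1
    have h3 : Fintype.linearCombination k b a = 0 := h2
    rw [Fintype.linearCombination_apply] at h3
    exact h3
  have hAp : n + m ≤ finrank k (LinearMap.ker D) + finrank k (constIn k J) := by
    have h1 := LinearMap.finrank_range_add_finrank_ker D
    rw [finrank_fin_fun] at h1
    have h2 := Submodule.finrank_le (LinearMap.range D)
    rw [finrank_linearMap, finrank_self, mul_one] at h2
    omega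
  obtain ⟨L, hL⟩ : ∃ L : Submodule K (Fin m → K), L = Submodule.span K
      (Fintype.linearCombination k u '' (LinearMap.ker D : Set (Fin (n + m) → k))) := ⟨_, rfl⟩
  have h1 : (finrank k (LinearMap.ker D) : ℤ) ≤ (F.sub L).h0 := by
    refine finrank_le_h0_sub hu hui L (LinearMap.ker D) fun b hb => ?_
    rw [hL]
    exact Submodule.subset_span ⟨b, hb, rfl⟩
  -- the span of the constant vectors
  obtain ⟨AK, hAK⟩ : ∃ AK : Submodule K (Fin (n + m) → K), AK = Submodule.span K
      (constL k K (n + m) '' (constIn k J : Set (Fin (n + m) → k))) := ⟨_, rfl⟩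
  have hAKJ : AK ≤ J := by
    rw [hAK, Submodule.span_le]
    rintro _ ⟨a, ha, rfl⟩
    exact ha
  have hAKr : finrank k (constIn k J) ≤ finrank K AK := by
    let b := Module.finBasis k (constIn k J)
    have h1 : LinearIndependent k (fun i => (b i : Fin (n + m) → k)) :=
      b.linearIndependent.map' (constIn k J).subtype (Submodule.ker_subtype _)
    have h2 := const_independent (K := K) _ h1
    have h3 : Submodule.span K (Set.range fun i => constL k K (n + m) (b i)) ≤ AK := by
      rw [hAK]
      apply Submodule.span_mono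
      rintro _ ⟨i, rfl⟩
      exact ⟨_, (b i).2, rfl⟩
    have h4 := Submodule.finrank_mono h3
    rwa [finrank_span_eq_card h2, Fintype.card_fin] at h4
  have hvan : ∀ φ : (Fin m → K) →ₗ[K] K, evT u φ ∈ AK → ∀ x ∈ L, φ x = 0 := by
    intro φ hφ x hx
    rw [hL] at hx
    refine Submodule.span_induction (p := fun x _ => φ x = 0) ?_ (map_zero φ)
      (fun x y _ _ hx hy => by rw [map_add, hx, hy, add_zero])
      (fun a x _ hx => by rw [map_smul, hx, smul_zero]) hx
    rintro _ ⟨b, hb, rfl⟩
    have h2 : φ (Fintype.linearCombination k u b) = ∑ i, algebraMap k K (b i) * evT u φ i := by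
      rw [Fintype.linearCombination_apply, map_sum]
      refine Finset.sum_congr rfl fun i _ => ?_
      rw [LinearMap.map_smul_of_tower, Algebra.smul_def, evT_apply]
    rw [h2]
    have h3 : ∀ y ∈ AK, ∑ i, algebraMap k K (b i) * y i = 0 := by
      intro y hy
      rw [hAK] at hy
      refine Submodule.span_induction (p := fun y _ => ∑ i, algebraMap k K (b i) * y i = 0)
        ?_ (by simp) ?_ ?_ hy
      · rintro _ ⟨a, ha, rfl⟩
        have h4 := congrArg (algebraMap k K) (hD b hb a ha)
        rw [map_sum, map_zero] at h4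
        rw [← h4]
        refine Finset.sum_congr rfl fun i _ => ?_
        rw [constL_apply, map_mul, mul_comm]
      · intro y z _ _ hy hz
        simp only [Pi.add_apply, mul_add, Finset.sum_add_distrib, hy, hz, add_zero]
      · intro a y _ hy
        have h5 : ∑ i, algebraMap k K (b i) * (a • y) i =
            a * ∑ i, algebraMap k K (b i) * y i := by
          rw [Finset.mul_sum]
          refine Finset.sum_congr rfl fun i _ => ?_
          rw [Pi.smul_apply, smul_eq_mul]
          ring
        rw [h5, hy, mul_zero]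
    exact h3 _ hφ
  have hinf : finrank K ↥(AK ⊓ LinearMap.range (evT u)) + finrank K L ≤ m := by
    have h2 : AK ⊓ LinearMap.range (evT u) ≤ (L.dualAnnihilator).map (evT u) := by
      rintro _ ⟨hx, ⟨φ, rfl⟩⟩
      refine ⟨φ, ?_, rfl⟩
      rw [SetLike.mem_coe, Submodule.mem_dualAnnihilator]
      exact hvan φ hx
    have h3 := Submodule.finrank_mono h2
    have h4 : finrank K (L.dualAnnihilator.map (evT u)) ≤ finrank K L.dualAnnihilator :=
      Submodule.finrank_map_le _ _
    have h5 := Subspace.finrank_add_finrank_dualAnnihilator_eq L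
    rw [finrank_fin_fun] at h5
    omega
  have hsum := Submodule.finrank_sup_add_finrank_inf_eq AK (LinearMap.range (evT u))
  have hsup : finrank K ↥(AK ⊔ LinearMap.range (evT u)) ≤ finrank K J :=
    Submodule.finrank_mono (sup_le hAKJ hJ)
  have h2 : finrank k (constIn k J) + finrank K L ≤ finrank K J := by omega
  have h2' : (finrank k (constIn k J) : ℤ) + finrank K L ≤ finrank K J := by exact_mod_cast h2
  have hn0 : (0 : ℤ) < n := by omega
  have hm0 : (0 : ℤ) < m := by omega
  have hJm' : (m : ℤ) + 1 ≤ finrank K J := by exact_mod_cast hJm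
  have hAp' : (n : ℤ) + m ≤ finrank k (LinearMap.ker D) + finrank k (constIn k J) := by
    exact_mod_cast hAp
  by_cases hL0 : L = ⊥
  · exfalso
    rw [hL0, h0_sub_bot] at h1
    omega
  by_cases hL1 : L = ⊤
  · rw [hL1, finrank_top, finrank_fin_fun] at h2'
    have h3 : (n : ℤ) * finrank k (constIn k J) ≤ n * (finrank K J - m) :=
      mul_le_mul_of_nonneg_left (by linarith) hn0.le
    have h4 : (0 : ℤ) < m * (finrank K J - m) := mul_pos hm0 (by linarith)
    linarith
  · have h3 := h0_sub_lt hm hmn hd hF hL0 hL1
    have h4 : (m : ℤ) * ((n + m) - finrank k (constIn k J)) ≤ m * (F.sub L).h0 :=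
      mul_le_mul_of_nonneg_left (by linarith) hm0.le
    have h5 : ((n : ℤ) + m) * (finrank k (constIn k J) + finrank K L) ≤
        (n + m) * finrank K J := mul_le_mul_of_nonneg_left h2' (by linarith)
    nlinarith

end Pool.Agent.MP_09eaec.G2
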