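import Pool.Agent.Lib.MP_09eaec_ag.G2.Coh

/-!
# TASK A1: one step enlargements change the Euler characteristic by one

Let `E ≤ E'` be equal outside of `P0`, `E'.M P0 = E.M P0 + k x`, `x ∉ E.M P0` (`OneStep`).
Two cases.

CASE A: there is `y ∈ E'.H0`, `y ∉ E.H0`. Then `y ∉ E.M P0` (the other stalks are equal), so
`y - c0 x ∈ E.M P0` with `c0 ≠ 0`, hence `x - c0⁻¹ y ∈ E.M P0`. Thus `E'.H0 = E.H0 ⊕ k y` (for
`z ∈ E'.H0`: `z - c x ∈ E.M P0`, so `z - c c0⁻¹ y ∈ E.M P0`, and it is in the other stalks), and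
`E.N = E'.N`: if `a_P - w ∈ E'.M P` for all `P`, then `a_P0 - w - c x ∈ E.M P0`, and
`w' = w + c c0⁻¹ y` satisfies `a_P - w' ∈ E.M P` for all `P`.

CASE B: `E'.H0 = E.H0`. Then `E'.N = E.N ⊕ k (single P0 x)`: if `a_P - w ∈ E'.M P` for all `P`, take
`c` with `a_P0 - w - c x ∈ E.M P0`; then `a - c single P0 x ∈ E.N`. And `single P0 x ∉ E.N`: otherwise
there is `w` with `w ∈ E.M P` for `P ≠ P0`, `x - w ∈ E.M P0`; then `w ∈ E'.H0` (`w = x - (x - w)`),
`w ∉ E.H0` (since `x ∉ E.M P0`). So `h1 E = h1 E' + 1`.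

(For the finiteness and the dimension of the quotients: `(Place →₀ W) ⧸ E.N → (Place →₀ W) ⧸ E'.N` is
surjective with kernel spanned by the class of `single P0 x`; use
`LinearMap.finrank_range_add_finrank_ker` and `Module.Finite` of kernel and quotient,
e.g. `Submodule.mapQ` / `Submodule.factor`.)
-/

set_option autoImplicit false

namespace Pool.Agent.MP_09eaec.G2

open Module

universe u v

variable {k : Type u} {K : Type v} [Field k] [Field K] [Algebra k K]
variable {W : Type v} [AddCommGroup W] [Module K W] [Module k W] [IsScalarTower k K W]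
variable {A : Type v} [AddCommGroup A] [Module K A] [Module k A] [IsScalarTower k K A]
variable {B : Type v} [AddCommGroup B] [Module K B] [Module k B] [IsScalarTower k K B]

section Step_abstract

variable {M : Type v} [AddCommGroup M] [Module k M]

private theorem Step_sup {S S' : Submodule k M} (hle : S ≤ S') {y : M} (hy : y ∈ S')
    (hs : ∀ z ∈ S', ∃ c : k, z - c • y ∈ S) : S' = S ⊔ Submodule.span k {y} := by
  apply le_antisymm
  · intro z hz
    obtain ⟨c, hc⟩ := hs z hz
    rw [show z = (z - c • y) + c • y by abel]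
    exact Submodule.add_mem_sup hc (Submodule.smul_mem _ _ (Submodule.mem_span_singleton_self y))
  · exact sup_le hle ((Submodule.span_singleton_le_iff_mem _ _).2 hy)

private theorem Step_finite {S S' : Submodule k M} (hle : S ≤ S') {y : M} (hy : y ∈ S')
    (hs : ∀ z ∈ S', ∃ c : k, z - c • y ∈ S) : Module.Finite k S ↔ Module.Finite k S' := by
  constructor
  · intro h
    rw [Step_sup hle hy hs]
    infer_instance
  · intro h
    exact Submodule.finiteDimensional_of_le hle

private theorem Step_finrank {S S' : Submodule k M} (hle : S ≤ S') {y : M} (hy : y ∈ S')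
    (hy' : y ∉ S) (hs : ∀ z ∈ S', ∃ c : k, z - c • y ∈ S) [Module.Finite k S] :
    finrank k S' = finrank k S + 1 := by
  have h1 := Submodule.finrank_sup_add_finrank_inf_eq S (Submodule.span k {y})
  have h2 : S ⊓ Submodule.span k {y} = ⊥ := by
    rw [eq_bot_iff]
    rintro z ⟨hz, hz'⟩
    obtain ⟨c, rfl⟩ := Submodule.mem_span_singleton.1 hz'
    by_cases hc : c = 0
    · simp [hc]
    · exfalso
      apply hy'
      have := S.smul_mem c⁻¹ hz
      rwa [smul_smul, inv_mul_cancel₀ hc, one_smul] at this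
  have hy0 : y ≠ 0 := fun h => hy' (h ▸ S.zero_mem)
  rw [h2, finrank_bot, finrank_span_singleton hy0, ← Step_sup hle hy hs] at h1
  omega

private theorem Step_ker {S S' : Submodule k M} (hle : S ≤ S') {y : M} (hy : y ∈ S')
    (hs : ∀ z ∈ S', ∃ c : k, z - c • y ∈ S) :
    LinearMap.ker (Submodule.factor hle) = Submodule.span k {Submodule.Quotient.mk y} := by
  ext z
  obtain ⟨z, rfl⟩ := Submodule.Quotient.mk_surjective S z
  rw [LinearMap.mem_ker]
  have h0 : Submodule.factor hle (Submodule.Quotient.mk z) = Submodule.Quotient.mk z := rfl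
  rw [h0, Submodule.Quotient.mk_eq_zero, Submodule.mem_span_singleton]
  constructor
  · intro hz
    obtain ⟨c, hc⟩ := hs z hz
    refine ⟨c, ?_⟩
    rw [← Submodule.Quotient.mk_smul, eq_comm, Submodule.Quotient.eq]
    exact hc
  · rintro ⟨c, hc⟩
    rw [← Submodule.Quotient.mk_smul, eq_comm, Submodule.Quotient.eq] at hc
    have := S'.add_mem (hle hc) (S'.smul_mem c hy)
    rwa [sub_add_cancel] at this

private theorem Step_qfinite {S S' : Submodule k M} (hle : S ≤ S') {y : M} (hy : y ∈ S')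
    (hs : ∀ z ∈ S', ∃ c : k, z - c • y ∈ S) :
    Module.Finite k (M ⧸ S) ↔ Module.Finite k (M ⧸ S') := by
  have hsurj : Function.Surjective (Submodule.factor hle) := Submodule.factor_surjective hle
  constructor
  · intro h
    exact Module.Finite.of_surjective _ hsurj
  · intro h
    haveI : Module.Finite k (LinearMap.ker (Submodule.factor hle)) := by
      rw [Step_ker hle hy hs]
      infer_instance
    haveI : Module.Finite k ((M ⧸ S) ⧸ LinearMap.ker (Submodule.factor hle)) :=
      Module.Finite.equiv ((Submodule.factor hle).quotKerEquivOfSurjective hsurj).symm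
    exact Module.Finite.of_submodule_quotient (LinearMap.ker (Submodule.factor hle))

private theorem Step_qfinrank {S S' : Submodule k M} (hle : S ≤ S') {y : M} (hy : y ∈ S')
    (hy' : y ∉ S) (hs : ∀ z ∈ S', ∃ c : k, z - c • y ∈ S) [Module.Finite k (M ⧸ S)] :
    finrank k (M ⧸ S) = finrank k (M ⧸ S') + 1 := by
  have h1 := LinearMap.finrank_range_add_finrank_ker (Submodule.factor hle)
  rw [LinearMap.range_eq_top.2 (Submodule.factor_surjective hle), finrank_top,
    Step_ker hle hy hs, finrank_span_singleton] at h1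
  · exact h1.symm
  · rwa [Ne, Submodule.Quotient.mk_eq_zero]

end Step_abstract

namespace VB

private theorem Step_H0_le {E E' : VB k K W} {P0 : Place k K} {x : W} (h : OneStep E E' P0 x) :
    E.H0 ≤ E'.H0 := fun z hz => mem_H0.2 fun P => h.le P (mem_H0.1 hz P)

private theorem Step_N_le {E E' : VB k K W} {P0 : Place k K} {x : W} (h : OneStep E E' P0 x) :
    E.N ≤ E'.N := by
  rintro a ⟨w, hw⟩
  exact ⟨w, fun P => h.le P (hw P)⟩

private theorem Step_mem {E E' : VB k K W} {P0 : Place k K} {x : W} (h : OneStep E E' P0 x)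
    {z : W} (hz : z ∈ E'.H0) (hz' : z ∈ E.M P0) : z ∈ E.H0 := by
  refine mem_H0.2 fun P => ?_
  by_cases hP : P = P0
  · rw [hP]; exact hz'
  · rw [h.eq P hP]; exact mem_H0.1 hz P

private theorem Step_span {E E' : VB k K W} {P0 : Place k K} {x : W} (h : OneStep E E' P0 x)
    {y : W} (hy : y ∈ E'.H0) (hy' : y ∉ E.H0) {z : W} (hz : z ∈ E'.M P0) :
    ∃ c : k, z - c • y ∈ E.M P0 := by
  obtain ⟨c0, hc0⟩ := h.span y (mem_H0.1 hy P0)
  have hne : c0 ≠ 0 := by
    rintro rfl
    rw [zero_smul, sub_zero] at hc0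
    exact hy' (Step_mem h hy hc0)
  obtain ⟨c, hc⟩ := h.span z hz
  refine ⟨c * c0⁻¹, ?_⟩
  have h1 := (E.M P0).sub_mem hc ((E.M P0).smul_mem (c * c0⁻¹) hc0)
  have h2 : z - c • x - (c * c0⁻¹) • (y - c0 • x) = z - (c * c0⁻¹) • y := by
    rw [smul_sub, smul_smul, mul_assoc, inv_mul_cancel₀ hne, mul_one]
    abel
  rwa [h2] at h1

private theorem Step_spanH0 {E E' : VB k K W} {P0 : Place k K} {x : W} (h : OneStep E E' P0 x)
    {y : W} (hy : y ∈ E'.H0) (hy' : y ∉ E.H0) : ∀ z ∈ E'.H0, ∃ c : k, z - c • y ∈ E.H0 := by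
  intro z hz
  obtain ⟨c, hc⟩ := Step_span h hy hy' (mem_H0.1 hz P0)
  exact ⟨c, Step_mem h (E'.H0.sub_mem hz (E'.H0.smul_mem c hy)) hc⟩

theorem OneStep.N_eq {E E' : VB k K W} {P0 : Place k K} {x : W} (h : OneStep E E' P0 x)
    (hy : ∃ y ∈ E'.H0, y ∉ E.H0) : E.N = E'.N := by
  obtain ⟨y, hy, hy'⟩ := hy
  refine le_antisymm (Step_N_le h) ?_
  rintro a ⟨w, hw⟩
  obtain ⟨c, hc⟩ := Step_span h hy hy' (hw P0)
  refine ⟨w + c • y, fun P => ?_⟩
  rw [← sub_sub]
  by_cases hP : P = P0
  · rw [hP]; exact hc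
  · rw [h.eq P hP]
    exact (E'.M P).sub_mem (hw P) ((E'.M P).smul_mem c (mem_H0.1 hy P))

private theorem Step_caseB {E E' : VB k K W} {P0 : Place k K} {x : W} (h : OneStep E E' P0 x)
    (hy : ¬ ∃ y ∈ E'.H0, y ∉ E.H0) : E'.H0 = E.H0 := by
  refine le_antisymm (fun z hz => ?_) (Step_H0_le h)
  by_contra hz'
  exact hy ⟨z, hz, hz'⟩

private theorem Step_single_mem {E E' : VB k K W} {P0 : Place k K} {x : W}
    (h : OneStep E E' P0 x) : Finsupp.single P0 x ∈ E'.N := by
  classical
  refine ⟨0, fun P => ?_⟩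
  rw [sub_zero, Finsupp.single_apply]
  split_ifs with hP
  · rw [← hP]; exact h.mem
  · exact zero_mem _

private theorem Step_single_notMem {E E' : VB k K W} {P0 : Place k K} {x : W}
    (h : OneStep E E' P0 x) (hy : ¬ ∃ y ∈ E'.H0, y ∉ E.H0) : Finsupp.single P0 x ∉ E.N := by
  classical
  rintro ⟨w, hw⟩
  have h0 : x - w ∈ E.M P0 := by simpa using hw P0
  apply hy
  refine ⟨w, mem_H0.2 fun P => ?_, fun hw' => ?_⟩
  · by_cases hP : P = P0
    · rw [hP]
      have := (E'.M P0).sub_mem h.mem (h.le P0 h0)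
      rwa [sub_sub_cancel] at this
    · have := hw P
      rw [Finsupp.single_apply, if_neg (Ne.symm hP), zero_sub] at this
      have := (E.M P).neg_mem this
      rw [neg_neg] at this
      exact h.le P this
  · apply h.notMem
    have := (E.M P0).add_mem h0 (mem_H0.1 hw' P0)
    rwa [sub_add_cancel] at this

private theorem Step_spanN {E E' : VB k K W} {P0 : Place k K} {x : W} (h : OneStep E E' P0 x) :
    ∀ a ∈ E'.N, ∃ c : k, a - c • Finsupp.single P0 x ∈ E.N := by
  classical
  rintro a ⟨w, hw⟩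
  obtain ⟨c, hc⟩ := h.span _ (hw P0)
  refine ⟨c, w, fun P => ?_⟩
  rw [Finsupp.sub_apply, Finsupp.smul_apply, Finsupp.single_apply]
  split_ifs with hP
  · rw [← hP, sub_right_comm]; exact hc
  · rw [smul_zero, sub_zero, h.eq P (Ne.symm hP)]; exact hw P

theorem OneStep.finite_H0_iff {E E' : VB k K W} {P0 : Place k K} {x : W} (h : OneStep E E' P0 x) :
    Module.Finite k E.H0 ↔ Module.Finite k E'.H0 := by
  by_cases hy : ∃ y ∈ E'.H0, y ∉ E.H0
  · obtain ⟨y, hy, hy'⟩ := hy
    exact Step_finite (Step_H0_le h) hy (Step_spanH0 h hy hy')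
  · rw [Step_caseB h hy]

theorem OneStep.finite_H1_iff {E E' : VB k K W} {P0 : Place k K} {x : W} (h : OneStep E E' P0 x) :
    Module.Finite k E.H1 ↔ Module.Finite k E'.H1 :=
  Step_qfinite (Step_N_le h) (Step_single_mem h) (Step_spanN h)

theorem OneStep.chi {E E' : VB k K W} {P0 : Place k K} {x : W} (h : OneStep E E' P0 x)
    [Module.Finite k E.H0] [Module.Finite k E.H1] : E'.chi = E.chi + 1 := by
  unfold VB.chi VB.h0 VB.h1
  by_cases hy : ∃ y ∈ E'.H0, y ∉ E.H0
  · have hN := h.N_eq hy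
    obtain ⟨y, hy, hy'⟩ := hy
    have h1 := Step_finrank (Step_H0_le h) hy hy' (Step_spanH0 h hy hy')
    have h2 : finrank k E.H1 = finrank k E'.H1 := by
      show finrank k ((Place k K →₀ W) ⧸ E.N) = finrank k ((Place k K →₀ W) ⧸ E'.N)
      rw [hN]
    rw [h1, h2]
    push_cast
    ring
  · have h1 := Step_qfinrank (Step_N_le h) (Step_single_mem h) (Step_single_notMem h hy)
      (Step_spanN h)
    have h2 : finrank k E.H1 = finrank k E'.H1 + 1 := h1
    rw [Step_caseB h hy, h2]
    push_cast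
    ring

theorem OneStep.h0_le {E E' : VB k K W} {P0 : Place k K} {x : W} (h : OneStep E E' P0 x)
    [Module.Finite k E.H0] : E'.h0 ≤ E.h0 + 1 := by
  unfold VB.h0
  by_cases hy : ∃ y ∈ E'.H0, y ∉ E.H0
  · obtain ⟨y, hy, hy'⟩ := hy
    have h1 := Step_finrank (Step_H0_le h) hy hy' (Step_spanH0 h hy hy')
    rw [h1]
    push_cast
    exact le_rfl
  · rw [Step_caseB h hy]
    omega

/-- If `h⁰` jumps, then there is a new section. -/
theorem OneStep.exists_of_h0 {E E' : VB k K W} {P0 : Place k K} {x : W} (h : OneStep E E' P0 x)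
    (h0 : E'.h0 ≠ E.h0) : ∃ y ∈ E'.H0, y ∉ E.H0 := by
  by_contra hy
  apply h0
  unfold VB.h0
  rw [Step_caseB h hy]

end VB

end Pool.Agent.MP_09eaec.G2
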