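import Pool.Agent.Lib.MP_09eaec_ag.G2.Exact

/-!
# TASK A9: the degree of a twist

`(E.twist D).M P = {x | ∀ c ∈ P.filt (D P), c x ∈ E.M P}`; if `t` has order `D P` at `P`
(`exists_ord_eq`) then `x ∈ (E.twist D).M P ↔ t x ∈ E.M P` (`mem_twist_iff`: `c x = (c / t) (t x)`,
`c / t ∈ P.filt 0`). Degree: induction on the rank (generalised over `W`) as in Deg.lean:
`(E.twist D).sub J = (E.sub J).twist D`, `(E.twist D).quo J = (E.quo J).twist D` (use the criterion),
`(E.map f).twist D = (E.twist D).map f`, `(line D').twist D = line (D' + D)` (`mem_filt_iff_of_ord`).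
-/

set_option autoImplicit false

namespace Pool.Agent.MP_09eaec.G2

open Module

universe u v

variable {k : Type u} {K : Type v} [Field k] [Field K] [Algebra k K]
variable {W : Type v} [AddCommGroup W] [Module K W] [Module k W] [IsScalarTower k K W]
variable {A : Type v} [AddCommGroup A] [Module K A] [Module k A] [IsScalarTower k K A]
variable {B : Type v} [AddCommGroup B] [Module K B] [Module k B] [IsScalarTower k K B]

variable [Curve2 k K]

namespace VB

theorem mem_twist_iff {E : VB k K W} {D : Dv k K} {P : Place k K} {t : K} (ht : t ≠ 0)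
    (hD : P.ord t = D P) {x : W} : x ∈ (E.twist D).M P ↔ t • x ∈ E.M P := by
  rw [mem_twist]
  constructor
  · intro h
    exact h t (Or.inr hD.ge)
  · intro h c hc
    have h1 : c * t⁻¹ ∈ P.filt 0 := by
      have := mul_mem_filt P hc (Or.inr (P.ord_inv t).ge : t⁻¹ ∈ P.filt (-P.ord t))
      rw [hD, add_neg_cancel] at this
      exact this
    have h2 := E.smul_mem P _ _ h1 h
    rwa [smul_smul, mul_assoc, inv_mul_cancel₀ ht, mul_one] at h2

theorem twist_line (D D' : Dv k K) : (line D').twist D = line (D' + D) := by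
  refine ext' fun P x => ?_
  obtain ⟨t, ht, htm⟩ := exists_ord_eq P (D P)
  rw [mem_twist_iff ht htm, mem_line, mem_line, ← mem_filt_iff_of_ord P ht htm (-(D' + D) P)]
  have : -(D' + D) P + D P = -D' P := by
    rw [Finsupp.add_apply]; ring
  rw [this]
  rfl

private lemma twist_sub (E : VB k K W) (D : Dv k K) (J : Submodule K W) :
    (E.twist D).sub J = (E.sub J).twist D := by
  refine ext' fun P x => ?_
  obtain ⟨t, ht, htm⟩ := exists_ord_eq P (D P)
  rw [mem_twist_iff ht htm, mem_sub, mem_sub, mem_twist_iff ht htm]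
  rfl

private lemma twist_quo (E : VB k K W) (D : Dv k K) (J : Submodule K W) :
    (E.twist D).quo J = (E.quo J).twist D := by
  refine ext' fun P x => ?_
  obtain ⟨t, ht, htm⟩ := exists_ord_eq P (D P)
  rw [mem_twist_iff ht htm, mem_quo, mem_quo]
  constructor
  · rintro ⟨y, hy, rfl⟩
    exact ⟨t • y, (mem_twist_iff ht htm).1 hy, map_smul _ _ _⟩
  · rintro ⟨y, hy, hx⟩
    refine ⟨t⁻¹ • y, (mem_twist_iff ht htm).2 ?_, ?_⟩
    · rwa [smul_smul, mul_inv_cancel₀ ht, one_smul]
    · rw [map_smul, hx, smul_smul, inv_mul_cancel₀ ht, one_smul]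

private lemma twist_map (E : VB k K W) (D : Dv k K) (f : W ≃ₗ[K] A) :
    (E.map f).twist D = (E.twist D).map f := by
  refine ext' fun P x => ?_
  obtain ⟨t, ht, htm⟩ := exists_ord_eq P (D P)
  rw [mem_twist_iff ht htm, mem_map, mem_map, mem_twist_iff ht htm, map_smul]

theorem deg_twist [FiniteDimensional K W] (E : VB k K W) (D : Dv k K) :
    (E.twist D).deg = E.deg + finrank K W * ddeg D := by
  obtain ⟨n, hn⟩ : ∃ n, finrank K W = n := ⟨_, rfl⟩
  induction n using Nat.strong_induction_on generalizing W with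
  | _ n ih =>
    rcases Nat.eq_zero_or_pos n with h0 | h0
    · rw [deg_of_finrank_zero _ (hn.trans h0), deg_of_finrank_zero _ (hn.trans h0), hn, h0]
      simp
    rcases eq_or_lt_of_le (Nat.succ_le_of_lt h0) with h1 | h1
    · have hf : finrank K W = finrank K K := by
        rw [finrank_self, hn]; exact h1.symm
      obtain ⟨D', hD'⟩ := exists_eq_line (E.map (LinearEquiv.ofFinrankEq W K hf))
      rw [← deg_map E (LinearEquiv.ofFinrankEq W K hf), hD',
        ← deg_map (E.twist D) (LinearEquiv.ofFinrankEq W K hf), ← twist_map, hD', twist_line,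
        deg_line, deg_line, ddeg_add, hn, ← h1]
      simp
    · have : Nontrivial W := by
        apply Module.nontrivial_of_finrank_pos (R := K); omega
      obtain ⟨w, hw⟩ := exists_ne (0 : W)
      have hJ : finrank K (K ∙ w) = 1 := finrank_span_singleton hw
      have hJ2 := Submodule.finrank_quotient_add_finrank (K ∙ w)
      rw [deg_add (E.twist D) (K ∙ w), deg_add E (K ∙ w), twist_sub, twist_quo,
        ih _ (by omega) (E.sub (K ∙ w)) rfl, ih _ (by omega) (E.quo (K ∙ w)) rfl, hn, hJ]
      rw [hJ, hn] at hJ2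
      rw [← hJ2]
      push_cast
      ring

end VB

end Pool.Agent.MP_09eaec.G2
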