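import Pool.Agent.Lib.MP_09eaec_ag.G2.Canon
import Pool.Agent.Lib.MP_09eaec_ag.G2.Twist

/-!
# TASK C5: kernels of homomorphisms to line bundles

`φ : W → K` nonzero with `φ (E.M P) ⊆ (line D).M P`, `J = ker φ`. Exact sequence `0 → J → W → K → 0`:
`E.deg ≤ (E.sub J).deg + ddeg D` (`deg_exact_le`, `deg_line`), `finrank J = finrank W - 1`, and for a
`k`-subspace `V ≤ E.H0`: `φ` maps `V` to `H0 (line D)` with kernel `V ⊓ J`, so
`finrank V ≤ finrank (V ⊓ J) + h0 (line D)`.
* `h1_pos_hom`: `E.h1 ≠ 0` gives `φ` with `D = κ` (`IsCanonical.dual`, `h1_eq_zero_iff`).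
* `h1_twist_hom`: `(E.twist κ).h1 ≠ 0` gives `φ` with `D = 0`: `φ` maps `E.twist κ` to `line κ`; for
  `x ∈ E.M P` and `t` of order `κ P`: `t⁻¹ x ∈ (E.twist κ).M P` (`mem_twist_iff`), so `t⁻¹ φ x ∈ P.filt (-κ P)`,
  `φ x ∈ P.filt 0`.
-/

set_option autoImplicit false

namespace Pool.Agent.MP_09eaec.G2

open Module

universe u v

variable {k : Type u} {K : Type v} [Field k] [Field K] [Algebra k K]
variable {W : Type v} [AddCommGroup W] [Module K W] [Module k W] [IsScalarTower k K W]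
variable {A : Type v} [AddCommGroup A] [Module K A] [Module k A] [IsScalarTower k K A]
variable {B : Type v} [AddCommGroup B] [Module K B] [Module k B] [IsScalarTower k K B]

variable [Curve2 k K]

theorem ker_bounds [FiniteDimensional K W] {E : VB k K W} {D : Dv k K} {φ : W →ₗ[K] K}
    (hφ : φ ≠ 0) (h : ∀ P x, x ∈ E.M P → φ x ∈ (line D).M P) :
    E.deg ≤ (E.sub (LinearMap.ker φ)).deg + ddeg D ∧
    (finrank K (LinearMap.ker φ) : ℤ) = finrank K W - 1 ∧
    ∀ V : Submodule k W, V ≤ E.H0 →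
      (finrank k V : ℤ) ≤ finrank k ↥(V ⊓ (LinearMap.ker φ).restrictScalars k) + (line D).h0 := by
  have hsurj : Function.Surjective φ := LinearMap.surjective hφ
  refine ⟨?_, ?_, ?_⟩
  · have h1 := VB.deg_exact_le E (E.sub (LinearMap.ker φ)) (line D) (LinearMap.ker φ).subtype φ
      (Submodule.injective_subtype _) hsurj (Submodule.range_subtype _)
      (fun P x hx => hx) h
    rwa [VB.deg_line] at h1
  · have h1 := LinearMap.finrank_range_add_finrank_ker φ
    rw [LinearMap.range_eq_top.2 hsurj, finrank_top, finrank_self] at h1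
    omega
  · intro V hV
    have : Module.Finite k V := Submodule.finiteDimensional_of_le hV
    let g : V →ₗ[k] K := (φ.restrictScalars k) ∘ₗ V.subtype
    have h1 := LinearMap.finrank_range_add_finrank_ker g
    have h2 : LinearMap.range g ≤ (line D).H0 := by
      rintro _ ⟨x, rfl⟩
      rw [VB.mem_H0]
      intro P
      exact h P _ (VB.mem_H0.1 (hV x.2) P)
    have h3 : finrank k (LinearMap.range g) ≤ finrank k (line D).H0 := Submodule.finrank_mono h2
    have h4 : LinearMap.ker g =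
        Submodule.comap V.subtype ((LinearMap.ker φ).restrictScalars k) := by
      ext x
      rfl
    have h5 : finrank k (LinearMap.ker g) =
        finrank k ↥(V ⊓ (LinearMap.ker φ).restrictScalars k) := by
      rw [← Submodule.map_comap_subtype, ← h4]
      exact (Submodule.finrank_map_subtype_eq V (LinearMap.ker g)).symm
    unfold VB.h0
    omega

theorem h1_pos_hom {κ : Dv k K} (hκ : IsCanonical κ) [FiniteDimensional K W] {E : VB k K W}
    (h : E.h1 ≠ 0) : ∃ φ : W →ₗ[K] K, φ ≠ 0 ∧ ∀ P x, x ∈ E.M P → φ x ∈ (line κ).M P :=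
  hκ.dual W E fun h1 => h ((VB.h1_eq_zero_iff E).2 h1)

theorem h1_twist_hom {κ : Dv k K} (hκ : IsCanonical κ) [FiniteDimensional K W] {E : VB k K W}
    (h : (E.twist κ).h1 ≠ 0) :
    ∃ φ : W →ₗ[K] K, φ ≠ 0 ∧ ∀ P x, x ∈ E.M P → φ x ∈ (line 0).M P := by
  obtain ⟨φ, hφ, h1⟩ := h1_pos_hom hκ h
  refine ⟨φ, hφ, fun P x hx => ?_⟩
  obtain ⟨t, ht, htm⟩ := exists_ord_eq P (κ P)
  have h2 : t⁻¹ • x ∈ (E.twist κ).M P := by
    rw [VB.mem_twist_iff ht htm, smul_smul, mul_inv_cancel₀ ht, one_smul]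
    exact hx
  have h3 := h1 P _ h2
  rw [mem_line, map_smul, smul_eq_mul] at h3
  have h4 := mul_mem_filt P (Or.inr htm.ge : t ∈ P.filt (κ P)) h3
  rw [← mul_assoc, mul_inv_cancel₀ ht, one_mul, add_neg_cancel] at h4
  rw [mem_line, Finsupp.coe_zero, Pi.zero_apply, neg_zero]
  exact h4

/-- A subspace `V ≤ H0 E` has finite dimension, and `finrank V ≤ h0`. -/
theorem finrank_le_h0 [FiniteDimensional K W] {E : VB k K W} {V : Submodule k W}
    (h : V ≤ E.H0) : Module.Finite k V ∧ (finrank k V : ℤ) ≤ E.h0 := by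
  refine ⟨Submodule.finiteDimensional_of_le h, ?_⟩
  unfold VB.h0
  exact_mod_cast Submodule.finrank_mono h

end Pool.Agent.MP_09eaec.G2
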