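import Pool.Agent.Lib.MP_09eaec_ag.Lattice
import Pool.Agent.Lib.MP_09eaec_ag.G2.Coh

/-!
# TASK D1: the bundles of the hand-in as `VB`s

`toVB E`: the stalk at `P` is `{x | E.Mem P x} = g_P O_P^n`.
* `lower w`: let `y_P = (E.g P)⁻¹ *ᵥ w`; `e P = Σ_i |P.ord (y_P i)|`. If `c ∈ P.filt (e P)` then
  `c y_P i ∈ P.filt 0`. `e` has finite support: for all `P` outside of a finite set `E.g P = 1`,
  `y_P = w`, and `P.ord (w i) = 0` for almost all `P` (`finite_ord_ne_zero`).
* `upper φ`: `x = E.g P *ᵥ y` with `y` integral, `φ x = Σ_j y_j φ (column j of E.g P)`;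
  `e P = - Σ_j |P.ord (φ (column j))|`, finite support for the same reason.
-/

set_option autoImplicit false

namespace Pool.Agent.MP_09eaec.G2

open Module Matrix

universe u v

variable {k : Type u} {K : Type v} [Field k] [Field K] [Algebra k K]
variable {W : Type v} [AddCommGroup W] [Module K W] [Module k W] [IsScalarTower k K W]
variable {A : Type v} [AddCommGroup A] [Module K A] [Module k A] [IsScalarTower k K A]
variable {B : Type v} [AddCommGroup B] [Module K B] [Module k B] [IsScalarTower k K B]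

variable [Curve k K]

theorem toVB_lower {n : ℕ} (E : Bundle k K n) (w : Fin n → K) :
    ∃ e : Dv k K, ∀ (P : Place k K) (c : K), c ∈ P.filt (e P) → E.Mem P (c • w) := by
  classical
  have hfin : (Function.support fun P : Place k K => ∑ i, |P.ord (((E.g P)⁻¹ *ᵥ w) i)|).Finite := by
    apply (E.finite.union (Set.finite_iUnion fun i : Fin n =>
      (dv (w i) : Dv k K).support.finite_toSet)).subset
    intro P hP
    by_contra hcon
    simp only [Set.mem_union, Set.mem_setOf_eq, Set.mem_iUnion, Finset.mem_coe,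
      Finsupp.mem_support_iff, not_or, not_not, not_exists] at hcon
    obtain ⟨h1, h2⟩ := hcon
    apply hP
    apply Finset.sum_eq_zero
    intro i _
    have h3 := h2 i
    rw [dv_apply] at h3
    rw [h1, inv_one, Matrix.one_mulVec, h3, abs_zero]
  refine ⟨Finsupp.ofSupportFinite _ hfin, ?_⟩
  intro P c hc i
  rw [Matrix.mulVec_smul, Pi.smul_apply, smul_eq_mul]
  set y := ((E.g P)⁻¹ *ᵥ w) i with hy
  by_cases hy0 : y = 0
  · rw [hy0, mul_zero]; exact P.isInt_zero
  rcases hc with hc | hc
  · rw [hc, zero_mul]; exact P.isInt_zero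
  · by_cases hc0 : c = 0
    · rw [hc0, zero_mul]; exact P.isInt_zero
    right
    rw [P.ord_mul _ _ hc0 hy0]
    have h1 : |P.ord y| ≤ ∑ i, |P.ord (((E.g P)⁻¹ *ᵥ w) i)| :=
      Finset.single_le_sum (f := fun i => |P.ord (((E.g P)⁻¹ *ᵥ w) i)|) (fun _ _ => abs_nonneg _)
        (Finset.mem_univ i)
    have h2 : (∑ i, |P.ord (((E.g P)⁻¹ *ᵥ w) i)|) ≤ P.ord c := hc
    have h3 := neg_abs_le (P.ord y)
    omega

theorem toVB_upper {n : ℕ} (E : Bundle k K n) (φ : (Fin n → K) →ₗ[K] K) :
    ∃ e : Dv k K, ∀ (P : Place k K) (x : Fin n → K), E.Mem P x → φ x ∈ P.filt (e P) := by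
  classical
  have hfin : (Function.support fun P : Place k K =>
      - ∑ j, |P.ord (φ ((E.g P).col j))|).Finite := by
    apply (E.finite.union (Set.finite_iUnion fun j : Fin n =>
      (dv (φ ((1 : Matrix (Fin n) (Fin n) K).col j)) : Dv k K).support.finite_toSet)).subset
    intro P hP
    by_contra hcon
    simp only [Set.mem_union, Set.mem_setOf_eq, Set.mem_iUnion, Finset.mem_coe,
      Finsupp.mem_support_iff, not_or, not_not, not_exists] at hcon
    obtain ⟨h1, h2⟩ := hcon
    apply hP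
    have h4 : ∑ j, |P.ord (φ ((E.g P).col j))| = 0 := by
      apply Finset.sum_eq_zero
      intro j _
      have h3 := h2 j
      rw [dv_apply] at h3
      rw [h1, h3, abs_zero]
    simp only [h4, neg_zero]
  refine ⟨Finsupp.ofSupportFinite _ hfin, ?_⟩
  intro P x hx
  change φ x ∈ P.filt (- ∑ j, |P.ord (φ ((E.g P).col j))|)
  have e1 : x = E.g P *ᵥ ((E.g P)⁻¹ *ᵥ x) := by
    rw [Matrix.mulVec_mulVec, Matrix.mul_nonsing_inv _ (E.isUnit_det P), Matrix.one_mulVec]
  have e2 : x = ∑ j, (((E.g P)⁻¹ *ᵥ x) j) • (E.g P).col j := by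
    have e3 : ∀ y : Fin n → K, E.g P *ᵥ y = ∑ j, y j • (E.g P).col j := by
      intro y
      funext a
      rw [Matrix.mulVec, dotProduct, Finset.sum_apply]
      apply Finset.sum_congr rfl
      intro j _
      rw [Pi.smul_apply, smul_eq_mul, mul_comm]
      rfl
    rw [← e3]
    exact e1
  rw [e2, map_sum]
  apply Submodule.sum_mem
  intro j _
  rw [map_smul, smul_eq_mul]
  have h1 : φ ((E.g P).col j) ∈ P.filt (- ∑ j, |P.ord (φ ((E.g P).col j))|) := by
    right
    have h2 : |P.ord (φ ((E.g P).col j))| ≤ ∑ j, |P.ord (φ ((E.g P).col j))| :=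
      Finset.single_le_sum (f := fun j => |P.ord (φ ((E.g P).col j))|) (fun _ _ => abs_nonneg _)
        (Finset.mem_univ j)
    have h3 := neg_abs_le (P.ord (φ ((E.g P).col j)))
    omega
  have h2 : (((E.g P)⁻¹ *ᵥ x) j) ∈ P.filt 0 := hx j
  have h3 := mul_mem_filt P h2 h1
  rwa [zero_add] at h3

/-- The bundle `E` as a `VB`. -/
def toVB {n : ℕ} (E : Bundle k K n) : VB k K (Fin n → K) where
  M P :=
    { carrier := {x | E.Mem P x}
      add_mem' := fun ha hb => E.mem_add P ha hb
      zero_mem' := E.mem_zero P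
      smul_mem' := fun c x hx => by
        have := E.mem_smul P hx (P.isInt_algebraMap c)
        rwa [algebraMap_smul] at this }
  smul_mem P c x hc hx := E.mem_smul P hx hc
  lower := toVB_lower E
  upper := toVB_upper E

lemma mem_toVB {n : ℕ} {E : Bundle k K n} {P : Place k K} {x : Fin n → K} :
    x ∈ (toVB E).M P ↔ E.Mem P x := Iff.rfl

end Pool.Agent.MP_09eaec.G2
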