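import Pool.Agent.Lib.MP_09eaec_ag.G2.Deg
import Pool.Agent.Lib.MP_09eaec_ag.G2.StDefs

/-!
# TASK B1: transport to `Fin n → K`

Choose `f : W ≃ₗ[K] (Fin n → K)` (equal ranks, `LinearEquiv.ofFinrankEq`), `E' = E.map f`. `deg_map`. The
subspaces of `Fin n → K` are the `J.map f` (`Submodule.orderIsoMapComap`), `deg_sub_map`, ranks agree. So
`E'.exc r d` is the image of `E.exc r d`, `Neg`, `Stable` agree.
-/

set_option autoImplicit false

namespace Pool.Agent.MP_09eaec.G2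

open Module

universe u v

variable {k : Type u} {K : Type v} [Field k] [Field K] [Algebra k K]
variable {W : Type v} [AddCommGroup W] [Module K W] [Module k W] [IsScalarTower k K W]
variable {A : Type v} [AddCommGroup A] [Module K A] [Module k A] [IsScalarTower k K A]
variable {B : Type v} [AddCommGroup B] [Module K B] [Module k B] [IsScalarTower k K B]

variable [Curve2 k K]

private lemma Transport_key [FiniteDimensional K W] (E : VB k K W) {n : ℕ}
    (f : W ≃ₗ[K] (Fin n → K)) (J' : Submodule K (Fin n → K)) :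
    ∃ J : Submodule K W, J.map f.toLinearMap = J' ∧ ((E.map f).sub J').deg = (E.sub J).deg ∧
      finrank K J' = finrank K J ∧ (J = ⊥ → J' = ⊥) ∧ (J = ⊤ → J' = ⊤) := by
  have h1 : (J'.comap f.toLinearMap).map f.toLinearMap = J' :=
    Submodule.map_comap_eq_of_surjective f.surjective J'
  refine ⟨J'.comap f.toLinearMap, h1, ?_, ?_, ?_, ?_⟩
  · have h2 := VB.deg_sub_map E f (J'.comap f.toLinearMap)
    rw [h1] at h2
    exact h2
  · have h2 := LinearEquiv.finrank_map_eq f (J'.comap f.toLinearMap)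
    have h3 : (J'.comap f.toLinearMap).map (f : W →ₗ[K] (Fin n → K)) = J' := h1
    rw [h3] at h2
    exact h2
  · intro h
    rw [← h1, h, Submodule.map_bot]
  · intro h
    rw [← h1, h, Submodule.map_top]
    exact LinearEquiv.range f

theorem exists_transport [FiniteDimensional K W] (E : VB k K W) {n : ℕ} (hn : finrank K W = n) :
    ∃ (E' : VB k K (Fin n → K)) (f : W ≃ₗ[K] (Fin n → K)), E' = E.map f ∧ E'.deg = E.deg ∧
      (∀ r d : ℤ, (E.exc r d).Finite → (E'.exc r d).Finite) ∧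
      (∀ r d : ℤ, Neg E r d → Neg E' r d) ∧
      (∀ r d : ℤ, (∀ J : Submodule K W, J ≠ ⊥ → J ≠ ⊤ → r * (E.sub J).deg - d * finrank K J ≤ -1) →
        ∀ J : Submodule K (Fin n → K), J ≠ ⊥ → J ≠ ⊤ →
          r * (E'.sub J).deg - d * finrank K J ≤ -1) ∧
      (E.Stable → E'.Stable) := by
  have hfn : finrank K (Fin n → K) = n := Module.finrank_fin_fun K
  have f : W ≃ₗ[K] (Fin n → K) := LinearEquiv.ofFinrankEq W (Fin n → K) (by rw [hn, hfn])
  refine ⟨E.map f, f, rfl, VB.deg_map E f, ?_, ?_, ?_, ?_⟩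
  · intro r d hfin
    refine (hfin.image (fun J => J.map f.toLinearMap)).subset ?_
    rintro J' ⟨h1, h2, h3⟩
    obtain ⟨J, hJ1, hJ2, hJ3, hJ4, hJ5⟩ := Transport_key E f J'
    refine ⟨J, ⟨fun h => h1 (hJ4 h), fun h => h2 (hJ5 h), ?_⟩, hJ1⟩
    rw [hJ2, hJ3] at h3
    exact h3
  · intro r d h J' h1
    obtain ⟨J, hJ1, hJ2, hJ3, hJ4, hJ5⟩ := Transport_key E f J'
    rw [hJ2, hJ3]
    exact h J (fun h => h1 (hJ4 h))
  · intro r d h J' h1 h2
    obtain ⟨J, hJ1, hJ2, hJ3, hJ4, hJ5⟩ := Transport_key E f J'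
    rw [hJ2, hJ3]
    exact h J (fun h => h1 (hJ4 h)) (fun h => h2 (hJ5 h))
  · intro h J' h1 h2
    obtain ⟨J, hJ1, hJ2, hJ3, hJ4, hJ5⟩ := Transport_key E f J'
    rw [hJ2, hJ3, hfn, VB.deg_map E f, ← hn]
    exact h J (fun h => h1 (hJ4 h)) (fun h => h2 (hJ5 h))

theorem Q_of [FiniteDimensional K W] (E : VB k K W) {r : ℕ} {d : ℤ} (hr : finrank K W = r)
    (hd : E.deg = d)
    (h : ∀ J : Submodule K W, J ≠ ⊥ → J ≠ ⊤ → (r : ℤ) * (E.sub J).deg - d * finrank K J ≤ -1)
    (hf : (E.exc r d).Finite) : Q k K r d := by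
  obtain ⟨E', f, _, h1, h2, _, h3, _⟩ := exists_transport E hr
  exact ⟨E', h1.trans hd, h3 r d h, h2 r d hf⟩

theorem HasX_of [FiniteDimensional K W] (E : VB k K W) {r d : ℤ} {n : ℕ} {δ : ℤ}
    (hn : finrank K W = n) (hd : E.deg = δ) (h : Neg E r d) (hf : (E.exc r d).Finite) :
    HasX k K r d n δ := by
  obtain ⟨E', f, _, h1, h2, h3, _, _⟩ := exists_transport E hn
  exact ⟨E', h1.trans hd, h3 r d h, h2 r d hf⟩

end Pool.Agent.MP_09eaec.G2
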