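import Pool.Agent.Lib.MP_09eaec_ag.G2.Exact

/-!
# TASK D8: the trivial bundle

`triv n` on `Fin n → K`, stalks `{x | ∀ i, x i ∈ P.filt 0}`. Degree `0`: induction on `n` with `deg_exact` for
`0 → (Fin n → K) → (Fin (n+1) → K) → K → 0` (`Fin.cons` / coordinate `0`), `deg_line` for `D = 0`.
-/

set_option autoImplicit false

namespace Pool.Agent.MP_09eaec.G2

open Module

universe u v

variable {k : Type u} {K : Type v} [Field k] [Field K] [Algebra k K]
variable {W : Type v} [AddCommGroup W] [Module K W] [Module k W] [IsScalarTower k K W]
variable {A : Type v} [AddCommGroup A] [Module K A] [Module k A] [IsScalarTower k K A]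
variable {B : Type v} [AddCommGroup B] [Module K B] [Module k B] [IsScalarTower k K B]

/-- The trivial bundle of rank `n`. -/
def triv (k : Type u) (K : Type v) [Field k] [Field K] [Algebra k K] [Curve k K] (n : ℕ) :
    VB k K (Fin n → K) where
  M P :=
    { carrier := {x | ∀ i, x i ∈ P.filt 0}
      add_mem' := fun ha hb i => add_mem (ha i) (hb i)
      zero_mem' := fun i => zero_mem _
      smul_mem' := fun c x hx i => (P.filt 0).smul_mem c (hx i) }
  smul_mem P c x hc hx i := by
    have := mul_mem_filt P hc (hx i)
    simpa using this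
  lower w := by
    obtain ⟨e, he⟩ := exists_ub (fun i => (-(dv (w i)) : Dv k K))
    refine ⟨e, fun P c hc i => ?_⟩
    by_cases hw : w i = 0
    · simp [hw]
    have h1 := mul_mem_filt P hc (Or.inr le_rfl : w i ∈ P.filt (P.ord (w i)))
    refine filt_mono P ?_ h1
    have := he i P
    simp only [Finsupp.coe_neg, Pi.neg_apply, dv_apply] at this
    omega
  upper φ := by
    obtain ⟨e, he⟩ := exists_lb (fun i => (dv (φ (Pi.single i 1)) : Dv k K))
    refine ⟨e, fun P x hx => ?_⟩
    have h1 : φ x = ∑ i, x i * φ (Pi.single i 1) := by
      conv_lhs => rw [← Finset.univ_sum_single x, map_sum]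
      refine Finset.sum_congr rfl fun i _ => ?_
      have h2 : (Pi.single i (x i) : Fin n → K) = x i • Pi.single i 1 := by
        rw [← Pi.single_smul', smul_eq_mul, mul_one]
      rw [h2, map_smul, smul_eq_mul]
    rw [h1]
    refine Submodule.sum_mem _ fun i _ => ?_
    have h2 := mul_mem_filt P (hx i)
      (Or.inr le_rfl : φ (Pi.single i 1) ∈ P.filt (P.ord (φ (Pi.single i 1))))
    refine filt_mono P ?_ h2
    have := he i P
    simp only [dv_apply] at this
    omega

lemma mem_triv [Curve k K] {n : ℕ} {P : Place k K} {x : Fin n → K} :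
    x ∈ (triv k K n).M P ↔ ∀ i, x i ∈ P.filt 0 := Iff.rfl

private def trivI (n : ℕ) : (Fin n → K) →ₗ[K] (Fin (n + 1) → K) where
  toFun x := Fin.cons 0 x
  map_add' x y := by
    funext i
    refine Fin.cases ?_ (fun i => ?_) i
    · simp
    · simp
  map_smul' c x := by
    funext i
    refine Fin.cases ?_ (fun i => ?_) i
    · simp
    · simp

private lemma trivI_zero {n : ℕ} (x : Fin n → K) : trivI n x 0 = 0 := rfl

private lemma trivI_succ {n : ℕ} (x : Fin n → K) (i : Fin n) : trivI n x i.succ = x i := rfl

theorem deg_triv [Curve2 k K] (n : ℕ) : (triv k K n).deg = 0 := by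
  induction n with
  | zero => exact VB.deg_of_finrank_zero _ (by simp)
  | succ n ih =>
    rw [VB.deg_exact (triv k K (n + 1)) (triv k K n) (line 0) (trivI n) (LinearMap.proj 0),
      ih, VB.deg_line, ddeg_zero, add_zero]
    · intro x y h
      funext i
      exact congrFun h i.succ
    · intro y
      exact ⟨fun _ => y, rfl⟩
    · ext x
      rw [LinearMap.mem_range, LinearMap.mem_ker]
      constructor
      · rintro ⟨y, rfl⟩
        rfl
      · intro h
        refine ⟨fun i => x i.succ, ?_⟩
        funext i
        refine Fin.cases ?_ (fun i => ?_) i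
        · exact h.symm
        · rfl
    · intro P x
      rw [mem_triv, mem_triv]
      constructor
      · intro h i
        exact h i.succ
      · intro h i
        refine Fin.cases ?_ (fun i => ?_) i
        · exact zero_mem _
        · exact h i
    · intro P y
      rw [mem_line]
      constructor
      · intro h
        refine ⟨fun _ => y, mem_triv.2 fun _ => ?_, rfl⟩
        simpa using h
      · rintro ⟨x, hx, rfl⟩
        have := mem_triv.1 hx 0
        simpa using this

end Pool.Agent.MP_09eaec.G2
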